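import Mathlib
import Pool.Agent.Lib.H55B.Defs
import Pool.Agent.Lib.H55P.Sel

/-!
# H28G: the geometry of y^2 + y = x^3 (definitions and coordinates of points)

F = Q(om), O = Z[om], W27 : y^2 + y = x^3 over F. For every field k over F the points over k are
`H55P.Pt W27 k`; `xc P`, `yc P` are the coordinates (0 for the point at infinity), `act c` is the multiplication by
c in O (om acts by (x, y) -> (om x, y)), `Tor c k` is the kernel of c, `tt P = - x/y`, `fc P = 2 y + 1`.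
See PROOF.md.
-/

open NumberField IsDedekindDomain WeierstrassCurve

namespace H28G

open H55B

/-- The curve y^2 + y = x^3 over F. -/
noncomputable def W27 : WeierstrassCurve F := ⟨0, 0, 1, 0, 0⟩

/-- The points over k. -/
abbrev P27 (k : Type) [Field k] [Algebra F k] : Type := H55P.Pt W27 k

section coords

variable {k : Type} [Field k] [Algebra F k]

/-- The x-coordinate (0 at infinity). -/
noncomputable def xc : P27 k → k
  | 0 => 0
  | .some x _ _ => x

/-- The y-coordinate (0 at infinity). -/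
noncomputable def yc : P27 k → k
  | 0 => 0
  | .some _ y _ => y

/-- The function f = 2 y + 1. -/
noncomputable def fc (P : P27 k) : k := 2 * yc P + 1

/-- The parameter t = - x / y at infinity (0 at infinity). -/
noncomputable def tt (P : P27 k) : k := -xc P / yc P

/-- The image of om in k. -/
noncomputable def ok (k : Type) [Field k] [Algebra F k] : k := algebraMap F k (om : F)

theorem W_a1 : (W27⁄k).toAffine.a₁ = 0 := by simp [W27]
theorem W_a2 : (W27⁄k).toAffine.a₂ = 0 := by simp [W27]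
theorem W_a3 : (W27⁄k).toAffine.a₃ = 1 := by simp [W27]
theorem W_a4 : (W27⁄k).toAffine.a₄ = 0 := by simp [W27]
theorem W_a6 : (W27⁄k).toAffine.a₆ = 0 := by simp [W27]

theorem W_eq (x y : k) : (W27⁄k).toAffine.Equation x y ↔ y ^ 2 + y = x ^ 3 := by
  rw [Affine.equation_iff, W_a1, W_a2, W_a3, W_a4, W_a6]
  ring_nf

theorem char0 : CharZero k := charZero_of_injective_algebraMap (algebraMap F k).injective

theorem W_ns (x y : k) : (W27⁄k).toAffine.Nonsingular x y ↔ y ^ 2 + y = x ^ 3 := by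
  rw [Affine.nonsingular_iff, W_eq, W_a1, W_a2, W_a3, W_a4]
  constructor
  · exact fun h => h.1
  · intro h
    refine ⟨h, ?_⟩
    by_contra hcon
    push Not at hcon
    obtain ⟨h1, h2⟩ := hcon
    have := char0 (k := k)
    have h3 : x = 0 := by
      have h4 : (3 : k) * x ^ 2 = 0 := by linear_combination -h1
      have h5 : x ^ 2 = 0 := by
        rcases mul_eq_zero.1 h4 with h | h
        · norm_num at h
        · exact h
      exact pow_eq_zero_iff (two_ne_zero) |>.1 h5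
    have h4 : 2 * y + 1 = 0 := by linear_combination h2
    rw [h3] at h
    have h5 : (2 * y + 1) ^ 2 = 1 := by linear_combination 4 * h
    rw [h4] at h5
    norm_num at h5

/-- The point with coordinates x, y. -/
noncomputable def pt (x y : k) (h : y ^ 2 + y = x ^ 3) : P27 k := Affine.Point.some x y ((W_ns x y).2 h)

theorem pt_ne (x y : k) (h : y ^ 2 + y = x ^ 3) : pt x y h ≠ 0 := Affine.Point.some_ne_zero _

theorem xc_pt (x y : k) (h : y ^ 2 + y = x ^ 3) : xc (pt x y h) = x := rfl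

theorem yc_pt (x y : k) (h : y ^ 2 + y = x ^ 3) : yc (pt x y h) = y := rfl

theorem xc_zero : xc (0 : P27 k) = 0 := rfl

theorem yc_zero : yc (0 : P27 k) = 0 := rfl

theorem eqn (P : P27 k) : yc P ^ 2 + yc P = xc P ^ 3 := by
  rcases P with _ | ⟨x, y, h⟩
  · show (0 : k) ^ 2 + 0 = 0 ^ 3
    ring
  · exact (W_ns x y).1 h

theorem fc_sq (P : P27 k) : fc P ^ 2 = 4 * xc P ^ 3 + 1 := by
  unfold fc
  linear_combination 4 * eqn P

theorem pt_ext {P Q : P27 k} (hP : P ≠ 0) (hQ : Q ≠ 0) (hx : xc P = xc Q) (hy : yc P = yc Q) :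
    P = Q := by
  rcases P with _ | ⟨x, y, h⟩
  · exact absurd rfl hP
  rcases Q with _ | ⟨x', y', h'⟩
  · exact absurd rfl hQ
  change x = x' at hx
  change y = y' at hy
  subst hx hy
  rfl

theorem pt_eq {P : P27 k} (hP : P ≠ 0) : P = pt (xc P) (yc P) (eqn P) :=
  pt_ext hP (pt_ne _ _ _) rfl rfl

theorem neg_ne {P : P27 k} (hP : P ≠ 0) : -P ≠ 0 := by
  rcases P with _ | ⟨x, y, h⟩
  · exact absurd rfl hP
  · exact Affine.Point.some_ne_zero _

theorem xc_neg (P : P27 k) : xc (-P) = xc P := by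
  rcases P with _ | ⟨x, y, h⟩
  · rfl
  · rfl

theorem yc_neg {P : P27 k} (hP : P ≠ 0) : yc (-P) = -1 - yc P := by
  rcases P with _ | ⟨x, y, h⟩
  · exact absurd rfl hP
  · show (W27⁄k).toAffine.negY x y = -1 - y
    rw [Affine.negY, W_a1, W_a3]
    ring

theorem fc_neg {P : P27 k} (hP : P ≠ 0) : fc (-P) = -fc P := by
  unfold fc
  rw [yc_neg hP]
  ring

theorem xc_eq {P Q : P27 k} (hP : P ≠ 0) (hQ : Q ≠ 0) (h : xc P = xc Q) : P = Q ∨ P = -Q := by
  have h1 := eqn P
  have h2 := eqn Q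
  rw [h, ← h2] at h1
  have h3 : (yc P - yc Q) * (yc P + 1 + yc Q) = 0 := by linear_combination h1
  rcases mul_eq_zero.1 h3 with h4 | h4
  · exact Or.inl (pt_ext hP hQ h (sub_eq_zero.1 h4))
  · right
    refine pt_ext hP (neg_ne hQ) ?_ ?_
    · rw [xc_neg, h]
    · rw [yc_neg hQ]
      linear_combination h4

end coords

section add

variable {k : Type} [Field k] [DecidableEq k] [Algebra F k]

theorem add_coords {P Q : P27 k} (hP : P ≠ 0) (hQ : Q ≠ 0) (h : xc P ≠ xc Q) :
    P + Q ≠ 0 ∧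
    xc (P + Q) = ((yc P - yc Q) / (xc P - xc Q)) ^ 2 - xc P - xc Q ∧
    yc (P + Q) = -1 - ((yc P - yc Q) / (xc P - xc Q) * (xc (P + Q) - xc P) + yc P) := by
  rcases P with _ | ⟨x₁, y₁, h₁⟩
  · exact absurd rfl hP
  rcases Q with _ | ⟨x₂, y₂, h₂⟩
  · exact absurd rfl hQ
  change x₁ ≠ x₂ at h
  have e1 : Affine.Point.some x₁ y₁ h₁ + Affine.Point.some x₂ y₂ h₂ =
      Affine.Point.some _ _ (Affine.nonsingular_add h₁ h₂ fun hxy => h hxy.1) :=
    Affine.Point.add_some fun hxy => h hxy.1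
  have hs : (W27⁄k).toAffine.slope x₁ x₂ y₁ y₂ = (y₁ - y₂) / (x₁ - x₂) :=
    Affine.slope_of_X_ne h
  have hx : xc (Affine.Point.some x₁ y₁ h₁ + Affine.Point.some x₂ y₂ h₂) =
      ((y₁ - y₂) / (x₁ - x₂)) ^ 2 - x₁ - x₂ := by
    rw [e1]
    show (W27⁄k).toAffine.addX x₁ x₂ _ = _
    rw [Affine.addX, hs, W_a1, W_a2]
    ring
  refine ⟨?_, hx, ?_⟩
  · rw [e1]
    exact Affine.Point.some_ne_zero _
  · rw [hx]
    rw [e1]
    show (W27⁄k).toAffine.addY x₁ x₂ y₁ _ = -1 - ((y₁ - y₂) / (x₁ - x₂) *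
      (((y₁ - y₂) / (x₁ - x₂)) ^ 2 - x₁ - x₂ - x₁) + y₁)
    rw [Affine.addY, Affine.negAddY, Affine.negY, Affine.addX, hs, W_a1, W_a2, W_a3]
    ring

theorem dbl_coords {P : P27 k} (hP : P ≠ 0) (h : fc P ≠ 0) :
    P + P ≠ 0 ∧
    xc (P + P) = (3 * xc P ^ 2 / fc P) ^ 2 - 2 * xc P ∧
    yc (P + P) = -1 - (3 * xc P ^ 2 / fc P * (xc (P + P) - xc P) + yc P) := by
  rcases P with _ | ⟨x, y, h₁⟩
  · exact absurd rfl hP
  have hf : fc (Affine.Point.some x y h₁ : P27 k) = 2 * y + 1 := rfl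
  have h2 : y ≠ (W27⁄k).toAffine.negY x y := by
    rw [Affine.negY, W_a1, W_a3]
    intro h3
    apply h
    rw [hf]
    linear_combination h3
  have hxy : ¬(x = x ∧ y = (W27⁄k).toAffine.negY x y) := fun h' => h2 h'.2
  have e1 : Affine.Point.some x y h₁ + Affine.Point.some x y h₁ =
      Affine.Point.some _ _ (Affine.nonsingular_add h₁ h₁ hxy) :=
    Affine.Point.add_some hxy
  have hs : (W27⁄k).toAffine.slope x x y y = 3 * x ^ 2 / (2 * y + 1) := by
    rw [Affine.slope_of_Y_ne rfl h2, Affine.negY, W_a1, W_a2, W_a3, W_a4]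
    congr 1
    · ring
    · ring
  have hx : xc (Affine.Point.some x y h₁ + Affine.Point.some x y h₁) =
      (3 * x ^ 2 / fc (Affine.Point.some x y h₁ : P27 k)) ^ 2 - 2 * x := by
    rw [e1]
    show (W27⁄k).toAffine.addX x x _ = _
    rw [Affine.addX, hs, W_a1, W_a2, hf]
    ring
  refine ⟨?_, hx, ?_⟩
  · rw [e1]
    exact Affine.Point.some_ne_zero _
  · rw [hx]
    rw [e1]
    show (W27⁄k).toAffine.addY x x y _ = -1 - (3 * x ^ 2 / (2 * y + 1) *
      ((3 * x ^ 2 / (2 * y + 1)) ^ 2 - 2 * x - x) + y)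
    rw [Affine.addY, Affine.negAddY, Affine.negY, Affine.addX, hs, W_a1, W_a2, W_a3]
    ring

end add

end H28G
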