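import Mathlib
import Pool.Agent.Lib.H28G.Defs
import Pool.Agent.Lib.H55B.Z1

/-! # H28G: the action of O on the points -/

open NumberField IsDedekindDomain WeierstrassCurve

namespace H28G

open H55B

variable {k : Type} [Field k] [Algebra F k]

theorem ok_rel : ok k ^ 2 + ok k + 1 = 0 := by
  have h : (om : F) ^ 2 + (om : F) + 1 = 0 := by exact_mod_cast congrArg (fun x : O => (x : F)) om_rel
  unfold ok
  rw [← map_pow, ← map_add, ← map_one (algebraMap F k), ← map_add, h, map_zero]

theorem ok_cube : ok k ^ 3 = 1 := by linear_combination (ok k - 1) * ok_rel (k := k)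

theorem ok_ne : ok k ≠ 0 := by
  intro h
  have := ok_cube (k := k)
  rw [h] at this
  norm_num at this

theorem omF_aux (P : P27 k) : yc P ^ 2 + yc P = (ok k * xc P) ^ 3 := by
  rw [mul_pow, ok_cube, one_mul]
  exact eqn P

open Classical in
/-- The automorphism om. -/
noncomputable def omF (P : P27 k) : P27 k := if P = 0 then 0 else pt (ok k * xc P) (yc P) (omF_aux P)

theorem omF_zero : omF (0 : P27 k) = 0 := if_pos rfl

theorem omF_of {P : P27 k} (hP : P ≠ 0) : omF P = pt (ok k * xc P) (yc P) (omF_aux P) := if_neg hP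

theorem omF_ne {P : P27 k} (hP : P ≠ 0) : omF P ≠ 0 := by
  rw [omF_of hP]
  exact pt_ne _ _ _

theorem xc_omF (P : P27 k) : xc (omF P) = ok k * xc P := by
  by_cases hP : P = 0
  · rw [hP, omF_zero, xc_zero, mul_zero]
  · rw [omF_of hP]
    rfl

theorem yc_omF (P : P27 k) : yc (omF P) = yc P := by
  by_cases hP : P = 0
  · rw [hP, omF_zero]
  · rw [omF_of hP]
    rfl

theorem fc_omF (P : P27 k) : fc (omF P) = fc P := by
  unfold fc
  rw [yc_omF]

theorem omF_neg (P : P27 k) : omF (-P) = -omF P := by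
  by_cases hP : P = 0
  · rw [hP, omF_zero]
    have : (-(0 : P27 k)) = 0 := rfl
    rw [this, omF_zero]
  · refine pt_ext (omF_ne (neg_ne hP)) (neg_ne (omF_ne hP)) ?_ ?_
    · rw [xc_omF, xc_neg, xc_neg, xc_omF]
    · rw [yc_omF, yc_neg hP, yc_neg (omF_ne hP), yc_omF]

variable [DecidableEq k]

omit [DecidableEq k] in
theorem fc_eq_zero {P : P27 k} (hP : P ≠ 0) (h : fc P = 0) : P = -P := by
  refine pt_ext hP (neg_ne hP) (xc_neg P).symm ?_
  rw [yc_neg hP]
  unfold fc at h
  linear_combination h

/-- The cases of the addition. -/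
theorem add_cases (P Q : P27 k) : P = 0 ∨ Q = 0 ∨ P = -Q ∨ (P ≠ 0 ∧ P = Q ∧ fc P ≠ 0) ∨
    (P ≠ 0 ∧ Q ≠ 0 ∧ xc P ≠ xc Q) := by
  by_cases hP : P = 0
  · exact Or.inl hP
  by_cases hQ : Q = 0
  · exact Or.inr (Or.inl hQ)
  by_cases hx : xc P = xc Q
  · rcases xc_eq hP hQ hx with h | h
    · by_cases hf : fc P = 0
      · right; right; left
        rw [← h]
        exact fc_eq_zero hP hf
      · exact Or.inr (Or.inr (Or.inr (Or.inl ⟨hP, h, hf⟩)))
    · exact Or.inr (Or.inr (Or.inl h))
  · exact Or.inr (Or.inr (Or.inr (Or.inr ⟨hP, hQ, hx⟩)))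

theorem omF_add (P Q : P27 k) : omF (P + Q) = omF P + omF Q := by
  have hk := ok_ne (k := k)
  have hk2 : ok k ^ 4 = ok k := by linear_combination ok k * ok_cube (k := k)
  rcases add_cases P Q with h | h | h | ⟨hP, h, hf⟩ | ⟨hP, hQ, h⟩
  · rw [h, zero_add, omF_zero, zero_add]
  · rw [h, add_zero, omF_zero, add_zero]
  · rw [h, omF_neg, neg_add_cancel, neg_add_cancel, omF_zero]
  · subst h
    obtain ⟨a1, a2, a3⟩ := dbl_coords hP hf
    obtain ⟨b1, b2, b3⟩ := dbl_coords (omF_ne hP) (by rw [fc_omF]; exact hf)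
    rw [xc_omF, fc_omF] at b2 b3
    rw [yc_omF] at b3
    refine pt_ext (omF_ne a1) b1 ?_ ?_
    · rw [xc_omF, a2, b2]
      field_simp
      linear_combination (-9 * xc P ^ 4) * ok_cube (k := k)
    · rw [yc_omF, a3, b3, a2, b2]
      field_simp
      linear_combination (27 * xc P ^ 6 * (ok k ^ 3 + 1) - 9 * xc P ^ 3 * fc P ^ 2) * ok_cube (k := k)
  · obtain ⟨a1, a2, a3⟩ := add_coords hP hQ h
    have hx : xc (omF P) ≠ xc (omF Q) := by
      rw [xc_omF, xc_omF]
      exact fun h' => h (mul_left_cancel₀ hk h')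
    obtain ⟨b1, b2, b3⟩ := add_coords (omF_ne hP) (omF_ne hQ) hx
    rw [xc_omF, xc_omF, yc_omF, yc_omF] at b2 b3
    have hd : xc P - xc Q ≠ 0 := sub_ne_zero.2 h
    have hd2 : ok k * xc P - ok k * xc Q ≠ 0 := by
      rw [← mul_sub]
      exact mul_ne_zero hk hd
    have hs : (yc P - yc Q) / (ok k * xc P - ok k * xc Q) =
        ok k ^ 2 * ((yc P - yc Q) / (xc P - xc Q)) := by
      rw [← mul_sub, div_mul_eq_div_div]
      field_simp
      linear_combination (-(yc P - yc Q)) * ok_cube (k := k)
    refine pt_ext (omF_ne a1) b1 ?_ ?_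
    · rw [xc_omF, a2, b2, hs]
      linear_combination (-((yc P - yc Q) / (xc P - xc Q)) ^ 2) * hk2
    · rw [yc_omF, a3, b3, a2, b2, hs]
      linear_combination (((yc P - yc Q) / (xc P - xc Q)) *
        (((yc P - yc Q) / (xc P - xc Q)) ^ 2 * (ok k ^ 3 + 1) - 2 * xc P - xc Q)) * ok_cube (k := k)

/-- The automorphism om as an endomorphism. -/
noncomputable def omP : P27 k →+ P27 k where
  toFun := omF
  map_zero' := omF_zero
  map_add' := omF_add

theorem omP_rel (P : P27 k) : omP (omP P) + omP P + P = 0 := by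
  show omF (omF P) + omF P + P = 0
  by_cases hP : P = 0
  · rw [hP, omF_zero, omF_zero]
    rfl
  have hk := ok_rel (k := k)
  have hk0 := ok_ne (k := k)
  have h2 := char0 (k := k)
  have hk1 : ok k ≠ 1 := by
    intro h
    rw [h] at hk
    norm_num at hk
  by_cases hx : xc P = 0
  · -- P = (0, 0) or (0, -1)
    have e1 : omF P = P := pt_ext (omF_ne hP) hP (by rw [xc_omF, hx, mul_zero]) (yc_omF P)
    rw [e1, e1]
    have hf : fc P ≠ 0 := by
      intro h
      have := fc_sq P
      rw [h, hx] at this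
      norm_num at this
    obtain ⟨a1, a2, a3⟩ := dbl_coords hP hf
    have hn : P + P = -P := by
      refine pt_ext a1 (neg_ne hP) ?_ ?_
      · rw [a2, xc_neg, hx]
        ring
      · rw [a3, yc_neg hP, hx]
        ring
    rw [hn, neg_add_cancel]
  · have hne : xc (omF (omF P)) ≠ xc (omF P) := by
      rw [xc_omF, xc_omF]
      intro h
      have h1 : ok k * xc P ≠ 0 := mul_ne_zero hk0 hx
      have h3 : (ok k - 1) * (ok k * xc P) = 0 := by linear_combination h
      rcases mul_eq_zero.1 h3 with h4 | h4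
      · exact hk1 (sub_eq_zero.1 h4)
      · exact h1 h4
    obtain ⟨a1, a2, a3⟩ := add_coords (omF_ne (omF_ne hP)) (omF_ne hP) hne
    have hy : yc (omF (omF P)) - yc (omF P) = 0 := by rw [yc_omF, sub_self]
    rw [hy, zero_div] at a2 a3
    have hn : omF (omF P) + omF P = -P := by
      refine pt_ext a1 (neg_ne hP) ?_ ?_
      · rw [a2, xc_neg, xc_omF, xc_omF]
        linear_combination (-xc P) * hk
      · rw [a3, yc_neg hP, yc_omF, yc_omF]
        ring
    rw [hn, neg_add_cancel]

/-- The automorphism om in the ring of endomorphisms. -/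
noncomputable def omE (k : Type) [Field k] [DecidableEq k] [Algebra F k] : AddMonoid.End (P27 k) := omP

theorem omE_sq : omE k * omE k = -omE k - 1 := by
  apply AddMonoidHom.ext
  intro P
  have h := omP_rel P
  show omP (omP P) = -omP P - P
  rw [eq_sub_iff_add_eq, eq_neg_iff_add_eq_zero, ← h]
  abel

/-- The additive map underlying the action. -/
noncomputable def act0 (k : Type) [Field k] [DecidableEq k] [Algebra F k] :
    O →+ AddMonoid.End (P27 k) where
  toFun c := ((Z1_basis.repr c 0 : ℤ) : AddMonoid.End (P27 k)) + ((Z1_basis.repr c 1 : ℤ) : AddMonoid.End (P27 k)) * omE k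
  map_zero' := by simp
  map_add' a b := by
    simp only [map_add, Finsupp.add_apply, Int.cast_add, add_mul]
    exact add_add_add_comm _ _ _ _

theorem act0_apply (a b : ℤ) : act0 k ((a : O) + b * om) =
    (a : AddMonoid.End (P27 k)) + (b : AddMonoid.End (P27 k)) * omE k := by
  show ((Z1_basis.repr _ 0 : ℤ) : AddMonoid.End (P27 k)) + ((Z1_basis.repr _ 1 : ℤ) : AddMonoid.End (P27 k)) * omE k = _
  rw [Z1_repr]
  simp

theorem act0_ring {R : Type} [Ring R] (w : R) (hw : w * w = -w - 1) (a b c d : ℤ) :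
    (((a * c - b * d : ℤ) : R) + ((a * d + b * c - b * d : ℤ) : R) * w) =
      ((a : R) + (b : R) * w) * ((c : R) + (d : R) * w) := by
  have h1 : (b : R) * w * (c : R) = (b : R) * (c : R) * w := by
    rw [mul_assoc, ((Int.cast_commute c w).eq).symm, mul_assoc]
  have h2 : (b : R) * w * ((d : R) * w) = (b : R) * (d : R) * (-w - 1) := by
    rw [← hw, mul_assoc, ← mul_assoc w, ((Int.cast_commute d w).eq).symm]
    simp only [mul_assoc]
  rw [add_mul, mul_add, mul_add, h1, h2]
  push_cast
  simp only [sub_mul, add_mul, mul_sub, mul_neg, mul_one, mul_assoc]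
  abel

theorem act0_mul (x y : O) : act0 k (x * y) = act0 k x * act0 k y := by
  obtain ⟨a, b, rfl⟩ := exists_repr x
  obtain ⟨c, d, rfl⟩ := exists_repr y
  have h1 : ((a : O) + b * om) * (c + d * om) = ((a * c - b * d : ℤ) : O) +
      ((a * d + b * c - b * d : ℤ) : O) * om := by
    push_cast
    linear_combination ((b : O) * d) * om_rel
  rw [h1, act0_apply, act0_apply, act0_apply]
  exact act0_ring (omE k) omE_sq a b c d

/-- The action of O on the points. -/
noncomputable def act : O →+* AddMonoid.End (P27 k) where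
  toFun := act0 k
  map_one' := by
    have h : (1 : O) = ((1 : ℤ) : O) + ((0 : ℤ) : O) * om := by push_cast; ring
    rw [h, act0_apply]
    simp
  map_mul' := act0_mul
  map_zero' := map_zero _
  map_add' := map_add _

theorem act_apply (a b : ℤ) (P : P27 k) : act ((a : O) + b * om) P = a • P + b • omP P := by
  show act0 k ((a : O) + b * om) P = _
  rw [act0_apply]
  rfl

theorem act_om (P : P27 k) : act om P = omP P := by
  have h : (om : O) = ((0 : ℤ) : O) + ((1 : ℤ) : O) * om := by push_cast; ring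
  rw [h, act_apply]
  simp

theorem act_mul (x y : O) (P : P27 k) : act (x * y) P = act x (act y P) := by
  rw [map_mul]
  rfl

theorem act_add (x y : O) (P : P27 k) : act (x + y) P = act x P + act y P := by
  rw [map_add]
  rfl

theorem act_sub (x y : O) (P : P27 k) : act (x - y) P = act x P - act y P := by
  rw [map_sub]
  rfl

theorem act_one (P : P27 k) : act (1 : O) P = P := by
  rw [map_one]
  rfl

theorem act_neg (x : O) (P : P27 k) : act (-x) P = -act x P := by
  rw [map_neg]
  rfl

theorem act_int (n : ℤ) (P : P27 k) : act (n : O) P = n • P := by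
  rw [map_intCast]
  rfl

theorem act_nat (n : ℕ) (P : P27 k) : act (n : O) P = n • P := by
  rw [map_natCast]
  rfl

theorem xc_omP (P : P27 k) : xc (omP P) = ok k * xc P := xc_omF P

theorem yc_omP (P : P27 k) : yc (omP P) = yc P := yc_omF P

/-- The kernel of c. -/
noncomputable def Tor (c : O) (k : Type) [Field k] [DecidableEq k] [Algebra F k] : AddSubgroup (P27 k) :=
  AddMonoidHom.ker (act c : P27 k →+ P27 k)

theorem mem_Tor {c : O} {P : P27 k} : P ∈ Tor c k ↔ act c P = 0 := Iff.rfl

/-- All points killed by c are rational over k. -/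
def Full (c : O) (k : Type) [Field k] [DecidableEq k] [Algebra F k] : Prop := Nat.card (Tor c k) = Nm c

end H28G
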