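import Mathlib
import Pool.Agent.Lib.H28G.Act
import Pool.Agent.Lib.H55B.A3

/-! # H28G: the complex uniformisation (definitions)

The lattice is Lam = 3 O (H55B), wp, wpd its Weierstrass functions, wpd^2 = 4 wp^3 - (wp 1)^3. With kap^2 = - wp 1:
xz = wp / kap^2, fz = wpd / kap^3, yz = (fz - 1)/2 satisfy yz^2 + yz = xz^3, and Phi z = (xz z, yz z). The sign of kap is chosen
such that Phi 1 = (-1, om). -/

open NumberField IsDedekindDomain WeierstrassCurve

namespace H28G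

open H55B

/-- The complex numbers as an algebra over F. -/
noncomputable instance algC : Algebra F ℂ := emb.toAlgebra

theorem algC_e (x : O) : algebraMap F ℂ (x : F) = e x := rfl

theorem ok_C : ok ℂ = e om := rfl

theorem exists_kap : ∃ κ : ℂ, κ ^ 2 = -wp 1 ∧ wpd 1 = κ ^ 3 * (2 * e om + 1) := by
  obtain ⟨κ, hκ⟩ := IsAlgClosed.exists_pow_nat_eq (-wp 1) (n := 2) (by norm_num)
  have h1 : (wpd 1) ^ 2 = (κ ^ 3 * (2 * e om + 1)) ^ 2 := by
    rw [wp_ode 1 A1_one_notMem, A3_g3]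
    have h2 : κ ^ 6 = -(wp 1) ^ 3 := by
      have : κ ^ 6 = (κ ^ 2) ^ 3 := by ring
      rw [this, hκ]
      ring
    have h3 : (2 * e om + 1) ^ 2 = -3 := by linear_combination 4 * e_om_rel
    have h4 : (κ ^ 3 * (2 * e om + 1)) ^ 2 = κ ^ 6 * (2 * e om + 1) ^ 2 := by ring
    rw [h4, h2, h3]
    ring
  rcases sq_eq_sq_iff_eq_or_eq_neg.1 h1 with h | h
  · exact ⟨κ, hκ, h⟩
  · refine ⟨-κ, by rw [neg_sq, hκ], ?_⟩
    rw [h]
    ring

/-- The scaling factor. -/
noncomputable def kap : ℂ := exists_kap.choose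

theorem kap_sq : kap ^ 2 = -wp 1 := exists_kap.choose_spec.1

theorem wpd_one : wpd 1 = kap ^ 3 * (2 * e om + 1) := exists_kap.choose_spec.2

theorem kap_ne : kap ≠ 0 := by
  intro h
  have h1 := kap_sq
  rw [h] at h1
  exact A3_wp_one_ne (by linear_combination h1)

theorem kap_six : kap ^ 6 = -LL.g₃ := by
  rw [A3_g3]
  have : kap ^ 6 = (kap ^ 2) ^ 3 := by ring
  rw [this, kap_sq]
  ring

/-- The x-coordinate as a function of z. -/
noncomputable def xz (z : ℂ) : ℂ := wp z / kap ^ 2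

/-- The function f as a function of z. -/
noncomputable def fz (z : ℂ) : ℂ := wpd z / kap ^ 3

/-- The y-coordinate as a function of z. -/
noncomputable def yz (z : ℂ) : ℂ := (fz z - 1) / 2

theorem fz_eq (z : ℂ) : fz z = 2 * yz z + 1 := by
  unfold yz
  ring

theorem fz_sq {z : ℂ} (hz : z ∉ Lam) : fz z ^ 2 = 4 * xz z ^ 3 + 1 := by
  have h := wp_ode z hz
  have hk := kap_ne
  unfold fz xz
  rw [div_pow, div_pow, ← pow_mul, ← pow_mul, h]
  have h6 := kap_six
  field_simp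
  linear_combination -h6

theorem yz_eqn {z : ℂ} (hz : z ∉ Lam) : yz z ^ 2 + yz z = xz z ^ 3 := by
  have h := fz_sq hz
  rw [fz_eq] at h
  linear_combination h / 4

open Classical in
/-- The uniformisation. -/
noncomputable def Phi (z : ℂ) : P27 ℂ := if h : z ∈ Lam then 0 else pt (xz z) (yz z) (yz_eqn h)

theorem Phi_of_mem {z : ℂ} (h : z ∈ Lam) : Phi z = 0 := dif_pos h

theorem Phi_of {z : ℂ} (h : z ∉ Lam) : Phi z = pt (xz z) (yz z) (yz_eqn h) := dif_neg h

theorem Phi_eq_zero {z : ℂ} : Phi z = 0 ↔ z ∈ Lam := by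
  constructor
  · intro h
    by_contra h1
    rw [Phi_of h1] at h
    exact pt_ne _ _ _ h
  · exact Phi_of_mem

theorem xc_Phi {z : ℂ} (h : z ∉ Lam) : xc (Phi z) = xz z := by
  rw [Phi_of h]
  rfl

theorem yc_Phi {z : ℂ} (h : z ∉ Lam) : yc (Phi z) = yz z := by
  rw [Phi_of h]
  rfl

theorem fc_Phi {z : ℂ} (h : z ∉ Lam) : fc (Phi z) = fz z := by
  unfold fc
  rw [yc_Phi h, fz_eq]

theorem xz_per (z : ℂ) (y : O) : xz (z + 3 * e y) = xz z := by
  unfold xz
  rw [wp_per]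

theorem fz_per (z : ℂ) (y : O) : fz (z + 3 * e y) = fz z := by
  unfold fz
  rw [A0_wpd_per]

theorem yz_per (z : ℂ) (y : O) : yz (z + 3 * e y) = yz z := by
  unfold yz
  rw [fz_per]

theorem Lam_per {z : ℂ} (y : O) : z + 3 * e y ∈ Lam ↔ z ∈ Lam := by
  have h3 : 3 * e y ∈ Lam := ⟨y, rfl⟩
  constructor
  · intro h
    have := A1_add_mem h (A1_neg_mem h3)
    rwa [add_neg_cancel_right] at this
  · exact fun h => A1_add_mem h h3

theorem Phi_per (z : ℂ) (y : O) : Phi (z + 3 * e y) = Phi z := by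
  by_cases h : z ∈ Lam
  · rw [Phi_of_mem h, Phi_of_mem ((Lam_per y).2 h)]
  · have h' : z + 3 * e y ∉ Lam := fun h1 => h ((Lam_per y).1 h1)
    rw [Phi_of h, Phi_of h']
    exact pt_ext (pt_ne _ _ _) (pt_ne _ _ _) (xz_per z y) (yz_per z y)

theorem neg_mem_iff {z : ℂ} : -z ∈ Lam ↔ z ∈ Lam := by
  constructor
  · intro h
    have := A1_neg_mem h
    rwa [neg_neg] at this
  · exact A1_neg_mem

theorem Phi_neg (z : ℂ) : Phi (-z) = -Phi z := by
  by_cases h : z ∈ Lam
  · rw [Phi_of_mem h, Phi_of_mem (neg_mem_iff.2 h)]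
    rfl
  · have h' : -z ∉ Lam := fun h1 => h (neg_mem_iff.1 h1)
    have hne : Phi z ≠ 0 := fun h0 => h (Phi_eq_zero.1 h0)
    refine pt_ext (fun h0 => h' (Phi_eq_zero.1 h0)) (neg_ne hne) ?_ ?_
    · rw [xc_neg, xc_Phi h, xc_Phi h']
      unfold xz
      rw [wp_neg]
    · rw [yc_neg hne, yc_Phi h, yc_Phi h']
      unfold yz fz
      rw [A0_wpd_neg]
      ring

theorem om_mem_iff {z : ℂ} : e om * z ∈ Lam ↔ z ∈ Lam := by
  constructor
  · intro h
    rw [← mem_LL] at h ⊢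
    have := A0_mem_om (A0_mem_om h)
    have h1 : e om * (e om * (e om * z)) = z := by linear_combination z * A0_om_cube
    rwa [h1] at this
  · intro h
    rw [← mem_LL] at h ⊢
    exact A0_mem_om h

theorem Phi_om (z : ℂ) : Phi (e om * z) = omP (Phi z) := by
  by_cases h : z ∈ Lam
  · rw [Phi_of_mem h, Phi_of_mem (om_mem_iff.2 h), map_zero]
  · have h' : e om * z ∉ Lam := fun h1 => h (om_mem_iff.1 h1)
    have hne : Phi z ≠ 0 := fun h0 => h (Phi_eq_zero.1 h0)
    refine pt_ext (fun h0 => h' (Phi_eq_zero.1 h0)) (omF_ne hne) ?_ ?_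
    · rw [xc_omP, xc_Phi h, xc_Phi h', ok_C]
      unfold xz
      rw [wp_om]
      ring
    · rw [yc_omP, yc_Phi h, yc_Phi h']
      unfold yz fz
      rw [A0_wpd_om]

theorem xz_one : xz 1 = -1 := by
  have h := kap_sq
  have hk := kap_ne
  unfold xz
  rw [div_eq_iff (pow_ne_zero 2 hk)]
  linear_combination h

theorem yz_one : yz 1 = e om := by
  have hk := kap_ne
  unfold yz fz
  rw [wpd_one, mul_div_cancel_left₀ _ (pow_ne_zero 3 hk)]
  ring

end H28G
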