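import Mathlib
import Pool.Agent.Lib.H28G.Act

/-! # H28G: functoriality -/

open NumberField IsDedekindDomain WeierstrassCurve

namespace H28G

open H55B

variable {k : Type} [Field k] [Algebra F k] [DecidableEq k]
  {k' : Type} [Field k'] [Algebra F k'] [DecidableEq k']

/-- The map on points. -/
noncomputable def mp (j : k →ₐ[F] k') : P27 k →+ P27 k' := Affine.Point.map (W' := W27.toAffine) j

theorem mp_ne (j : k →ₐ[F] k') {P : P27 k} (hP : P ≠ 0) : mp j P ≠ 0 := by
  rcases P with _ | ⟨x, y, h⟩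
  · exact absurd rfl hP
  · unfold mp
    rw [Affine.Point.map_some]
    exact Affine.Point.some_ne_zero _

theorem xc_mp (j : k →ₐ[F] k') (P : P27 k) : xc (mp j P) = j (xc P) := by
  rcases P with _ | ⟨x, y, h⟩
  · have : mp j (Affine.Point.zero : P27 k) = 0 := map_zero (mp j)
    rw [this]
    exact (map_zero j).symm
  · unfold mp
    rw [Affine.Point.map_some]
    rfl

theorem yc_mp (j : k →ₐ[F] k') (P : P27 k) : yc (mp j P) = j (yc P) := by
  rcases P with _ | ⟨x, y, h⟩
  · have : mp j (Affine.Point.zero : P27 k) = 0 := map_zero (mp j)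
    rw [this]
    exact (map_zero j).symm
  · unfold mp
    rw [Affine.Point.map_some]
    rfl

theorem fc_mp (j : k →ₐ[F] k') (P : P27 k) : fc (mp j P) = j (fc P) := by
  unfold fc
  rw [yc_mp, map_add, map_mul, map_ofNat, map_one]

theorem tt_mp (j : k →ₐ[F] k') (P : P27 k) : tt (mp j P) = j (tt P) := by
  unfold tt
  rw [xc_mp, yc_mp, map_div₀, map_neg]

theorem mp_inj (j : k →ₐ[F] k') : Function.Injective (mp j) := by
  rw [injective_iff_map_eq_zero]
  intro P hP
  by_contra h
  exact mp_ne j h hP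

theorem ok_map (j : k →ₐ[F] k') : j (ok k) = ok k' := j.commutes _

theorem mp_omP (j : k →ₐ[F] k') (P : P27 k) : mp j (omP P) = omP (mp j P) := by
  by_cases hP : P = 0
  · rw [hP, map_zero, map_zero, map_zero]
  · refine pt_ext (mp_ne j (omF_ne hP)) (omF_ne (mp_ne j hP)) ?_ ?_
    · rw [xc_mp, xc_omP, xc_omP, xc_mp, map_mul, ok_map]
    · rw [yc_mp, yc_omP, yc_omP, yc_mp]

theorem mp_act (j : k →ₐ[F] k') (c : O) (P : P27 k) : mp j (act c P) = act c (mp j P) := by
  obtain ⟨a, b, rfl⟩ := exists_repr c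
  rw [act_apply, act_apply, map_add, map_zsmul, map_zsmul, mp_omP]

theorem mp_mem_Tor (j : k →ₐ[F] k') (c : O) (P : P27 k) : mp j P ∈ Tor c k' ↔ P ∈ Tor c k := by
  rw [mem_Tor, mem_Tor, ← mp_act, map_eq_zero_iff _ (mp_inj j)]

/-- The action of an automorphism is a map on points. -/
theorem ac_eq (s : k ≃ₐ[F] k) (P : P27 k) : H55P.ac W27 s P = mp s.toAlgHom P := rfl

theorem Full.finite {c : O} (hc : c ≠ 0) (h : Full c k) : Finite (Tor c k) := by
  apply Nat.finite_of_card_ne_zero
  unfold Full at h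
  rw [h]
  exact fun h0 => hc (Nm_eq_zero.1 h0)

/-- Full torsion is preserved by embeddings: the map is a bijection. -/
theorem Full.bij {c : O} (hc : c ≠ 0) (j : k →ₐ[F] k') (h : Full c k) (h' : Full c k') :
    ∀ R ∈ Tor c k', ∃ S ∈ Tor c k, mp j S = R := by
  have f1 := h.finite hc
  have f2 := h'.finite hc
  let φ : Tor c k → Tor c k' := fun S => ⟨mp j S.1, (mp_mem_Tor j c S.1).2 S.2⟩
  have hφ : Function.Injective φ := fun a b hab => Subtype.ext (mp_inj j (congrArg Subtype.val hab))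
  have hb : Function.Bijective φ := by
    rw [Nat.bijective_iff_injective_and_card]
    exact ⟨hφ, by rw [h, h']⟩
  intro R hR
  obtain ⟨S, hS⟩ := hb.2 ⟨R, hR⟩
  exact ⟨S.1, S.2, congrArg Subtype.val hS⟩

end H28G
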