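import Mathlib
import Pool.Agent.Lib.H55B.Defs

open NumberField IsDedekindDomain WeierstrassCurve

namespace H28G

open H55B

/-! Chunk GB2 (M, PURE MATHLIB): orders of meromorphic functions (elementary).
Od.mul .. : multiply the analytic factors (zpow_add₀, valid for z <> z0). Od.comp_mul: (b z - b z0)^n = b^n (z - z0)^n; the map z -> b z is continuous and maps the punctured
neighbourhood of z0 to the punctured neighbourhood of b z0. Od.of_simple: g(z) = (z - z0) dslope g z0 z, analytic (A2_dslope), dslope at z0 = deriv. -/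

/-- g has order n at z0. -/
def Od (g : ℂ → ℂ) (z₀ : ℂ) (n : ℤ) : Prop :=
  ∃ h : ℂ → ℂ, AnalyticAt ℂ h z₀ ∧ h z₀ ≠ 0 ∧ ∀ᶠ z in nhdsWithin z₀ {z₀}ᶜ, g z = (z - z₀) ^ n * h z

theorem GB2_ne (z₀ : ℂ) : ∀ᶠ z in nhdsWithin z₀ {z₀}ᶜ, z - z₀ ≠ 0 := by
  filter_upwards [self_mem_nhdsWithin] with z hz
  exact sub_ne_zero.2 hz

theorem Od.mul {g g' : ℂ → ℂ} {z₀ : ℂ} {n n' : ℤ} (h : Od g z₀ n) (h' : Od g' z₀ n') :
    Od (fun z => g z * g' z) z₀ (n + n') := by
  obtain ⟨u, hu, hu0, hu1⟩ := h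
  obtain ⟨v, hv, hv0, hv1⟩ := h'
  refine ⟨fun z => u z * v z, hu.mul hv, mul_ne_zero hu0 hv0, ?_⟩
  filter_upwards [hu1, hv1, GB2_ne z₀] with z h1 h2 h3
  rw [h1, h2, zpow_add₀ h3]
  ring

theorem Od.inv {g : ℂ → ℂ} {z₀ : ℂ} {n : ℤ} (h : Od g z₀ n) : Od (fun z => (g z)⁻¹) z₀ (-n) := by
  obtain ⟨u, hu, hu0, hu1⟩ := h
  refine ⟨fun z => (u z)⁻¹, hu.inv hu0, inv_ne_zero hu0, ?_⟩
  filter_upwards [hu1] with z h1
  rw [h1, mul_inv, zpow_neg]

theorem Od.of_ne {g : ℂ → ℂ} {z₀ : ℂ} (h : AnalyticAt ℂ g z₀) (h0 : g z₀ ≠ 0) : Od g z₀ 0 :=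
  ⟨g, h, h0, Filter.Eventually.of_forall fun z => by rw [zpow_zero, one_mul]⟩

theorem Od.prod {ι : Type} (s : Finset ι) {g : ι → ℂ → ℂ} {z₀ : ℂ} {n : ι → ℤ}
    (h : ∀ i ∈ s, Od (g i) z₀ (n i)) : Od (fun z => ∏ i ∈ s, g i z) z₀ (∑ i ∈ s, n i) := by
  classical
  induction s using Finset.induction_on with
  | empty =>
    simp only [Finset.prod_empty, Finset.sum_empty]
    exact Od.of_ne analyticAt_const one_ne_zero
  | insert a s ha ih =>
    simp only [Finset.prod_insert ha, Finset.sum_insert ha]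
    exact (h a (Finset.mem_insert_self a s)).mul
      (ih fun i hi => h i (Finset.mem_insert_of_mem hi))

theorem Od.comp_add {g : ℂ → ℂ} {z₀ a : ℂ} {n : ℤ} (h : Od g (z₀ + a) n) :
    Od (fun z => g (z + a)) z₀ n := by
  obtain ⟨u, hu, hu0, hu1⟩ := h
  refine ⟨fun z => u (z + a), ?_, hu0, ?_⟩
  · have h1 : AnalyticAt ℂ (fun z : ℂ => z + a) z₀ := analyticAt_id.add analyticAt_const
    exact AnalyticAt.fun_comp hu h1
  · have h2 : Filter.Tendsto (fun z : ℂ => z + a) (nhdsWithin z₀ {z₀}ᶜ)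
        (nhdsWithin (z₀ + a) {z₀ + a}ᶜ) := by
      refine tendsto_nhdsWithin_iff.2 ⟨?_, ?_⟩
      · exact ((continuous_id.add continuous_const).tendsto z₀).mono_left nhdsWithin_le_nhds
      · filter_upwards [self_mem_nhdsWithin] with z hz
        intro h0
        exact hz (add_right_cancel h0)
    filter_upwards [h2.eventually hu1] with z hz
    rw [hz]
    congr 2
    ring

theorem Od.comp_mul {g : ℂ → ℂ} {z₀ b : ℂ} (hb : b ≠ 0) {n : ℤ} (h : Od g (b * z₀) n) :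
    Od (fun z => g (b * z)) z₀ n := by
  obtain ⟨u, hu, hu0, hu1⟩ := h
  refine ⟨fun z => b ^ n * u (b * z), ?_, mul_ne_zero (zpow_ne_zero n hb) hu0, ?_⟩
  · have h1 : AnalyticAt ℂ (fun z : ℂ => b * z) z₀ := analyticAt_const.mul analyticAt_id
    exact analyticAt_const.mul (AnalyticAt.fun_comp hu h1)
  · have h2 : Filter.Tendsto (fun z : ℂ => b * z) (nhdsWithin z₀ {z₀}ᶜ)
        (nhdsWithin (b * z₀) {b * z₀}ᶜ) := by
      refine tendsto_nhdsWithin_iff.2 ⟨?_, ?_⟩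
      · exact ((continuous_const.mul continuous_id).tendsto z₀).mono_left nhdsWithin_le_nhds
      · filter_upwards [self_mem_nhdsWithin] with z hz
        intro h0
        exact hz (mul_left_cancel₀ hb h0)
    filter_upwards [h2.eventually hu1] with z hz
    rw [hz, ← mul_sub, mul_zpow]
    ring

theorem Od.of_simple {g : ℂ → ℂ} {z₀ : ℂ} (h : AnalyticAt ℂ g z₀) (h0 : g z₀ = 0)
    (h1 : deriv g z₀ ≠ 0) : Od g z₀ 1 := by
  have hne : ¬ ∀ᶠ z in nhds z₀, g z = 0 := by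
    intro hz
    apply h1
    have : g =ᶠ[nhds z₀] fun _ => (0 : ℂ) := hz
    rw [this.deriv_eq, deriv_const]
  obtain ⟨u, hu, hu1⟩ : ∃ u : ℂ → ℂ, AnalyticAt ℂ u z₀ ∧ ∀ᶠ z in nhds z₀, g z = (z - z₀) * u z := by
    obtain ⟨n, u, hu, hu0, hu1⟩ := h.exists_eventuallyEq_pow_smul_nonzero_iff.2 hne
    rcases n with _ | n
    · exfalso
      have := hu1.self_of_nhds
      simp at this
      exact hu0 (this ▸ h0)
    · refine ⟨fun z => (z - z₀) ^ n * u z, ?_, ?_⟩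
      · exact ((analyticAt_id.sub analyticAt_const).pow n).mul hu
      · filter_upwards [hu1] with z hz
        rw [hz, smul_eq_mul, pow_succ]
        ring
  refine ⟨u, hu, ?_, ?_⟩
  · intro hu0
    apply h1
    have he : g =ᶠ[nhds z₀] fun z => (z - z₀) * u z := hu1
    rw [he.deriv_eq]
    have hd : HasDerivAt (fun z => (z - z₀) * u z) (1 * u z₀ + (z₀ - z₀) * deriv u z₀) z₀ :=
      ((hasDerivAt_id z₀).sub_const z₀).mul hu.differentiableAt.hasDerivAt
    rw [hd.deriv, hu0]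
    ring
  · filter_upwards [nhdsWithin_le_nhds hu1] with z hz
    rw [hz, zpow_one]

end H28G
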