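import Mathlib
import Pool.Agent.Lib.H55B.A3

open NumberField IsDedekindDomain WeierstrassCurve

namespace H28G

open H55B

/-! Chunk GA0 (S/M): derivatives and the expansion of wp' at 0.
wp_hasDeriv: Mathlib has PeriodPair.eqOn_deriv_weierstrassPExcept_derivWeierstrassPExcept (deriv of weierstrassPExcept l0 is derivWeierstrassPExcept l0 on the
complement of lattice minus l0), weierstrassPExcept_of_notMem and derivWeierstrassPExcept_of_notMem (l0 not in the lattice: equal to weierstrassP,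
derivWeierstrassP); take any l0 not in the lattice (for example l0 = z); differentiability from analyticOnNhd_weierstrassP (A2_wp_analytic).
wpd_hasDeriv: differentiate wp_ode (Lam is closed, so wp_ode holds near z): 2 wpd wpd' = 12 wp^2 wpd, so wpd' = 6 wp^2 where wpd <> 0; wpd is analytic and not
locally zero (otherwise wp would be constant near z, hence constant on the preconnected set Lam complement (A3_conn) by the identity theorem, but wp is
unbounded near 0 by wp_expansion), so the analytic functions deriv wpd and 6 wp^2 agree on a punctured neighbourhood of z and by continuity at z.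
wpd_expansion: differentiate wp_expansion near 0: wp = z^(-2) + z^4 u for 0 < |z| < r, so wpd = -2 z^(-3) + 4 z^3 u + z^4 u' = -2 z^(-3) + z^3 (4 u + z u').
wp_nonconst: for z0 not in Lam and every c, wp z <> c for all z near z0, z <> z0 (AnalyticAt.eventually_eq_or_eventually_ne and the argument above). -/

theorem GA0_ne (c : ℂ) : ∃ z, z ∉ Lam ∧ wp z ≠ c := by
  obtain ⟨u, hu, -, hexp⟩ := wp_expansion
  have c1 : ContinuousAt (fun z : ℂ => 1 + z ^ 6 * u z - c * z ^ 2) 0 := by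
    have := hu.continuousAt
    fun_prop
  have h1 : (fun z : ℂ => 1 + z ^ 6 * u z - c * z ^ 2) 0 ≠ 0 := by norm_num
  have h2 : ∀ᶠ z in nhdsWithin (0 : ℂ) {0}ᶜ, 1 + z ^ 6 * u z - c * z ^ 2 ≠ 0 :=
    (c1.eventually_ne h1).filter_mono nhdsWithin_le_nhds
  obtain ⟨z, h3, h4, h5, h6⟩ :=
    (hexp.and (h2.and ((A1_discrete 0).and self_mem_nhdsWithin))).exists
  have h6' : z ≠ 0 := h6
  refine ⟨z, h5, ?_⟩
  rw [h3]
  intro h
  apply h4
  have : z ^ 2 * ((z ^ 2)⁻¹ + z ^ 4 * u z) = 1 + z ^ 6 * u z := by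
    field_simp
  rw [← this, h]
  ring

theorem wp_nonconst {z₀ : ℂ} (h : z₀ ∉ Lam) (c : ℂ) : ∀ᶠ z in nhdsWithin z₀ {z₀}ᶜ, wp z ≠ c := by
  rcases (A2_wp_analytic h).eventually_eq_or_eventually_ne
    (analyticAt_const (v := c)) with h1 | h1
  · exfalso
    have hA : AnalyticOnNhd ℂ (fun z => wp z - c) (Lamᶜ : Set ℂ) := fun z hz =>
      (A2_wp_analytic hz).sub analyticAt_const
    have hz : (fun z => wp z - c) =ᶠ[nhds z₀] 0 := by
      filter_upwards [h1] with z hz
      show wp z - c = 0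
      rw [hz, sub_self]
    have hall := hA.eqOn_zero_of_preconnected_of_eventuallyEq_zero A3_conn (z₀ := z₀) h hz
    obtain ⟨z, hz1, hz2⟩ := GA0_ne c
    exact hz2 (sub_eq_zero.1 (hall hz1))
  · exact h1

theorem wp_hasDeriv {z : ℂ} (h : z ∉ Lam) : HasDerivAt wp (wpd z) z := by
  have h1 : deriv wp z = wpd z := by
    have h2 : wp = LL.weierstrassP := rfl
    rw [h2, PeriodPair.deriv_weierstrassP]
    rfl
  rw [← h1]
  exact (A2_wp_analytic h).differentiableAt.hasDerivAt

theorem GA0_wpd_ne {z₀ : ℂ} (h : z₀ ∉ Lam) : ∀ᶠ z in nhdsWithin z₀ {z₀}ᶜ, z ∉ Lam ∧ wpd z ≠ 0 := by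
  obtain ⟨r, hr⟩ := IsAlgClosed.exists_pow_nat_eq (LL.g₃ / 4) (n := 3) (by norm_num)
  filter_upwards [wp_nonconst h r, wp_nonconst h (e om * r), wp_nonconst h (e om ^ 2 * r),
    A2_Lam_discrete z₀] with z h1 h2 h3 h4
  refine ⟨h4, fun h5 => ?_⟩
  have h6 := wp_ode z h4
  rw [h5] at h6
  have h7 : (wp z - r) * ((wp z - e om * r) * (wp z - e om ^ 2 * r)) = 0 := by
    have h8 := e_om_rel
    linear_combination (-1 / 4) * h6 - hr + (-(wp z) ^ 2 * r + (wp z) * r ^ 2 * e om
      - (e om - 1) * r ^ 3) * h8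
  rcases mul_eq_zero.1 h7 with h8 | h8
  · exact h1 (sub_eq_zero.1 h8)
  · rcases mul_eq_zero.1 h8 with h8 | h8
    · exact h2 (sub_eq_zero.1 h8)
    · exact h3 (sub_eq_zero.1 h8)

theorem wpd_hasDeriv {z : ℂ} (h : z ∉ Lam) : HasDerivAt wpd (6 * wp z ^ 2) z := by
  have hd : ∀ w : ℂ, w ∉ Lam → wpd w ≠ 0 → deriv wpd w = 6 * wp w ^ 2 := by
    intro w hw hw0
    have h1 := (A2_wpd_analytic hw).differentiableAt.hasDerivAt
    have h2 := h1.pow 2
    have h3 := (((wp_hasDeriv hw).pow 3).const_mul 4).sub_const LL.g₃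
    have h4 : (fun z => wpd z ^ 2) =ᶠ[nhds w] fun z => 4 * wp z ^ 3 - LL.g₃ := by
      filter_upwards [A1_open.mem_nhds hw] with v hv
      exact wp_ode v hv
    have h5 := h3.congr_of_eventuallyEq h4
    have h6 := h2.unique h5
    have h7 : wpd w * (deriv wpd w - 6 * wp w ^ 2) = 0 := by
      simp only [Nat.cast_ofNat, Nat.add_one_sub_one, pow_one] at h6
      linear_combination h6 / 2
    rcases mul_eq_zero.1 h7 with h8 | h8
    · exact absurd h8 hw0
    · exact sub_eq_zero.1 h8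
  have h1 : deriv wpd z = 6 * wp z ^ 2 := by
    have c1 : Filter.Tendsto (deriv wpd) (nhdsWithin z {z}ᶜ) (nhds (deriv wpd z)) :=
      ((A2_wpd_analytic h).deriv.continuousAt.tendsto).mono_left nhdsWithin_le_nhds
    have c2 : Filter.Tendsto (fun w => 6 * wp w ^ 2) (nhdsWithin z {z}ᶜ) (nhds (6 * wp z ^ 2)) := by
      have c3 : ContinuousAt (fun w => 6 * wp w ^ 2) z := by
        have := (A2_wp_analytic h).continuousAt
        fun_prop
      exact c3.tendsto.mono_left nhdsWithin_le_nhds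
    refine tendsto_nhds_unique_of_eventuallyEq c1 c2 ?_
    filter_upwards [GA0_wpd_ne h] with w hw
    exact hd w hw.1 hw.2
  rw [← h1]
  exact (A2_wpd_analytic h).differentiableAt.hasDerivAt

theorem wpd_expansion : ∃ v : ℂ → ℂ, AnalyticAt ℂ v 0 ∧
    ∀ᶠ z in nhdsWithin (0 : ℂ) {0}ᶜ, wpd z = -2 * (z ^ 3)⁻¹ + z ^ 3 * v z := by
  obtain ⟨u, hu, -, hexp⟩ := wp_expansion
  refine ⟨fun z => 4 * u z + z * deriv u z,
    (analyticAt_const.mul hu).add (analyticAt_id.mul hu.deriv), ?_⟩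
  have h1 : ∀ᶠ z in nhdsWithin (0 : ℂ) {0}ᶜ, AnalyticAt ℂ u z :=
    hu.eventually_analyticAt.filter_mono nhdsWithin_le_nhds
  have h2 := eventually_eventually_nhdsWithin.2 hexp
  filter_upwards [h1, h2, A2_Lam_discrete 0, self_mem_nhdsWithin] with z h3 h4 h5 h6
  have hz : z ≠ 0 := h6
  rw [IsOpen.nhdsWithin_eq isOpen_compl_singleton h6] at h4
  have d1 : HasDerivAt (fun z : ℂ => (z ^ 2)⁻¹ + z ^ 4 * u z)
      (-(2 * z) / (z ^ 2) ^ 2 + (4 * z ^ 3 * u z + z ^ 4 * deriv u z)) z := by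
    have e1 : HasDerivAt (fun z : ℂ => z ^ 2) (2 * z) z := by
      simpa using hasDerivAt_pow 2 z
    have e2 : HasDerivAt (fun z : ℂ => z ^ 4) (4 * z ^ 3) z := by
      simpa using hasDerivAt_pow 4 z
    exact (e1.inv (pow_ne_zero 2 hz)).add (e2.mul h3.differentiableAt.hasDerivAt)
  have d2 : HasDerivAt wp (-(2 * z) / (z ^ 2) ^ 2 + (4 * z ^ 3 * u z + z ^ 4 * deriv u z)) z :=
    d1.congr_of_eventuallyEq h4
  rw [(wp_hasDeriv h5).unique d2]
  field_simp

end H28G
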