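import Mathlib
import Pool.Agent.Lib.H28G.GA0

open NumberField IsDedekindDomain WeierstrassCurve

namespace H28G

open H55B

/-! Chunk GA1 (M): the addition theorem as a determinant. Fix w not in Lam and put
D(z) = (wp z - wp w) wpd(z+w) + (wpd z - wpd w) wp(z+w) + wp z wpd w - wpd z wp w.
D is Lam-periodic in z. It is analytic at every z with z, z+w not in Lam (A2_wp_analytic, A2_wpd_analytic). Symmetry: D(-w-z) = -D(z).
At z = 0: with P(z) = wp(z+w) = P(0) + Q(0) z + z^2 P2(z), Q = P', the polar part is z^(-3)(z Q - 2 P + z Q(0) + 2 P(0)) = P2'(z).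
At z = -w: by the symmetry. So A0_liouville applies; the constant is zero by the symmetry. -/

noncomputable def GA1_D (w z : ℂ) : ℂ :=
  (wp z - wp w) * wpd (z + w) + (wpd z - wpd w) * wp (z + w) + wp z * wpd w - wpd z * wp w

theorem GA1_per (w z : ℂ) (y : O) : GA1_D w (z + 3 * e y) = GA1_D w z := by
  unfold GA1_D
  have h : z + 3 * e y + w = z + w + 3 * e y := by ring
  rw [h, wp_per, wp_per, A0_wpd_per, A0_wpd_per]

theorem GA1_symm (w z : ℂ) : GA1_D w (-w - z) = -GA1_D w z := by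
  unfold GA1_D
  have h1 : -w - z = -(z + w) := by ring
  have h2 : -(z + w) + w = -z := by ring
  rw [h1, h2, wp_neg, wp_neg, A0_wpd_neg, A0_wpd_neg]
  ring

theorem GA1_analytic {w z : ℂ} (h1 : z ∉ Lam) (h2 : z + w ∉ Lam) : AnalyticAt ℂ (GA1_D w) z := by
  have a1 := A2_wp_analytic h1
  have a2 := A2_wpd_analytic h1
  have a3 : AnalyticAt ℂ (fun t => wp (t + w)) z :=
    (A2_wp_analytic h2).comp (f := fun t => t + w) (by fun_prop)
  have a4 : AnalyticAt ℂ (fun t => wpd (t + w)) z :=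
    (A2_wpd_analytic h2).comp (f := fun t => t + w) (by fun_prop)
  unfold GA1_D
  fun_prop

theorem GA1_at_zero {w : ℂ} (hw : w ∉ Lam) : ∃ a : ℂ → ℂ, AnalyticAt ℂ a 0 ∧
    ∀ᶠ z in nhdsWithin (0 : ℂ) {0}ᶜ, GA1_D w z = a z := by
  obtain ⟨u, hu, -, hexp⟩ := wp_expansion
  obtain ⟨v, hv, hexpd⟩ := wpd_expansion
  have hw0 : (0 : ℂ) + w ∉ Lam := by rwa [zero_add]
  obtain ⟨P, hP⟩ : ∃ P : ℂ → ℂ, P = fun t => wp (t + w) := ⟨_, rfl⟩
  obtain ⟨Q, hQ⟩ : ∃ Q : ℂ → ℂ, Q = fun t => wpd (t + w) := ⟨_, rfl⟩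
  have hPa : AnalyticAt ℂ P 0 := by
    rw [hP]
    exact (A2_wp_analytic hw0).comp (f := fun t => t + w) (by fun_prop)
  have hQa : AnalyticAt ℂ Q 0 := by
    rw [hQ]
    exact (A2_wpd_analytic hw0).comp (f := fun t => t + w) (by fun_prop)
  have hder : ∀ t : ℂ, t + w ∉ Lam → HasDerivAt P (Q t) t := by
    intro t ht
    rw [hP, hQ]
    have h := (wp_hasDeriv ht).comp t ((hasDerivAt_id t).add_const w)
    rw [mul_one] at h
    exact h
  have hP0 : P 0 = wp w := by rw [hP]; simp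
  have hQ0 : Q 0 = wpd w := by rw [hQ]; simp
  obtain ⟨P1, hP1⟩ : ∃ P1 : ℂ → ℂ, P1 = dslope P 0 := ⟨_, rfl⟩
  have hP1a : AnalyticAt ℂ P1 0 := by rw [hP1]; exact A2_dslope hPa
  have hP10 : P1 0 = wpd w := by
    rw [hP1, dslope_same, (hder 0 hw0).deriv, hQ0]
  obtain ⟨P2, hP2⟩ : ∃ P2 : ℂ → ℂ, P2 = dslope P1 0 := ⟨_, rfl⟩
  have hP2a : AnalyticAt ℂ P2 0 := by rw [hP2]; exact A2_dslope hP1a
  have hPeq : ∀ z : ℂ, P z = wp w + wpd w * z + z ^ 2 * P2 z := by
    intro z
    have e1 : P z = P 0 + z * P1 z := by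
      have := sub_smul_dslope P 0 z
      rw [← hP1, sub_zero, smul_eq_mul] at this
      rw [this]
      ring
    have e2 : P1 z = P1 0 + z * P2 z := by
      have := sub_smul_dslope P1 0 z
      rw [← hP2, sub_zero, smul_eq_mul] at this
      rw [this]
      ring
    rw [e1, e2, hP0, hP10]
    ring
  have hQeq : ∀ᶠ z in nhds (0 : ℂ), Q z = wpd w + 2 * z * P2 z + z ^ 2 * deriv P2 z := by
    have h1 : ∀ᶠ z in nhds (0 : ℂ), AnalyticAt ℂ P2 z := hP2a.eventually_analyticAt
    have h2 : ∀ᶠ z in nhds (0 : ℂ), z + w ∉ Lam := by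
      have h3 : ∀ᶠ t in nhds (0 + w), t ∉ Lam := by
        have h4 := LL.isClosed_lattice.isOpen_compl.mem_nhds
          (show (0 + w) ∈ ((LL.lattice : Set ℂ))ᶜ from fun h => hw0 ((mem_LL _).1 h))
        filter_upwards [h4] with t ht h
        exact ht ((mem_LL t).2 h)
      have h5 : Filter.Tendsto (fun z : ℂ => z + w) (nhds 0) (nhds (0 + w)) :=
        (continuous_id.add continuous_const).tendsto 0
      exact h5.eventually h3
    filter_upwards [h1, h2] with z hz1 hz2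
    have h3 := hz1.differentiableAt.hasDerivAt
    have h4 : HasDerivAt (fun z => wp w + wpd w * z + z ^ 2 * P2 z)
        (wpd w * 1 + (2 * z * P2 z + z ^ 2 * deriv P2 z)) z := by
      have h5 := ((hasDerivAt_id z).const_mul (wpd w)).const_add (wp w)
      have h6 := (hasDerivAt_pow 2 z).mul h3
      have h7 := h5.add h6
      refine h7.congr_deriv ?_
      push_cast
      ring
    have h5 : (fun z => wp w + wpd w * z + z ^ 2 * P2 z) = P := (funext hPeq).symm
    rw [h5] at h4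
    have h6 := h4.unique (hder z hz2)
    rw [← h6]
    ring
  refine ⟨fun z => deriv P2 z + (z ^ 4 * u z - wp w) * Q z + (z ^ 3 * v z - wpd w) * P z +
    z ^ 4 * u z * wpd w - z ^ 3 * v z * wp w, ?_, ?_⟩
  · have := hP2a.deriv
    fun_prop
  · filter_upwards [hexp, hexpd, self_mem_nhdsWithin, nhdsWithin_le_nhds hQeq] with z h1 h2 hz h3
    have hz' : z ≠ 0 := hz
    have h4 : wp (z + w) = P z := by rw [hP]
    have h5 : wpd (z + w) = Q z := by rw [hQ]
    unfold GA1_D
    rw [h4, h5, h1, h2, hPeq z, h3]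
    field_simp
    ring

theorem GA1_at_Lam {w : ℂ} (hw : w ∉ Lam) {z₀ : ℂ} (h : z₀ ∈ Lam) : ∃ a : ℂ → ℂ, AnalyticAt ℂ a z₀ ∧
    ∀ᶠ z in nhdsWithin z₀ {z₀}ᶜ, GA1_D w z = a z := by
  obtain ⟨y, hy⟩ := h
  obtain ⟨a, ha, h⟩ := GA1_at_zero hw
  have ht : Filter.Tendsto (fun z : ℂ => z - z₀) (nhdsWithin z₀ {z₀}ᶜ)
      (nhdsWithin (0 : ℂ) {0}ᶜ) := by
    rw [tendsto_nhdsWithin_iff]
    constructor
    · have : ContinuousAt (fun z : ℂ => z - z₀) z₀ := by fun_prop
      have h := this.tendsto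
      simp only [sub_self] at h
      exact h.mono_left nhdsWithin_le_nhds
    · filter_upwards [self_mem_nhdsWithin] with z hz
      have hz' : z ≠ z₀ := hz
      show z - z₀ ≠ 0
      exact sub_ne_zero.2 hz'
  refine ⟨fun z => a (z - z₀), ?_, ?_⟩
  · have : AnalyticAt ℂ a (z₀ - z₀) := by rw [sub_self]; exact ha
    exact this.comp (f := fun w : ℂ => w - z₀) (by fun_prop)
  · filter_upwards [ht.eventually h] with z h3
    rw [← h3, ← GA1_per w (z - z₀) y, ← hy, sub_add_cancel]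

theorem GA1_neg_mem {z : ℂ} (h : z ∈ Lam) : -z ∈ Lam := by
  rw [← mem_LL] at h ⊢
  exact neg_mem h

theorem det_zero {z w : ℂ} (hz : z ∉ Lam) (hw : w ∉ Lam) (hzw : z + w ∉ Lam) :
    (wp z - wp w) * wpd (z + w) + (wpd z - wpd w) * wp (z + w) + wp z * wpd w - wpd z * wp w = 0 := by
  have hall : ∀ z₀, ∃ a : ℂ → ℂ, AnalyticAt ℂ a z₀ ∧
      ∀ᶠ z in nhdsWithin z₀ {z₀}ᶜ, GA1_D w z = a z := by
    intro z₀
    by_cases c1 : z₀ ∈ Lam
    · exact GA1_at_Lam hw c1
    · by_cases c2 : z₀ + w ∈ Lam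
      · have c3 : -w - z₀ ∈ Lam := by
          have h := GA1_neg_mem c2
          have h1 : -(z₀ + w) = -w - z₀ := by ring
          rwa [h1] at h
        obtain ⟨a, ha, h⟩ := GA1_at_Lam hw c3
        have ht : Filter.Tendsto (fun z : ℂ => -w - z) (nhdsWithin z₀ {z₀}ᶜ)
            (nhdsWithin (-w - z₀) {-w - z₀}ᶜ) := by
          rw [tendsto_nhdsWithin_iff]
          constructor
          · have : ContinuousAt (fun z : ℂ => -w - z) z₀ := by fun_prop
            exact this.tendsto.mono_left nhdsWithin_le_nhds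
          · filter_upwards [self_mem_nhdsWithin] with z hz
            have hz' : z ≠ z₀ := hz
            intro h
            have h5 : -w - z = -w - z₀ := h
            exact hz' (by linear_combination (-1 : ℂ) * h5)
        refine ⟨fun z => -a (-w - z), ?_, ?_⟩
        · exact (ha.comp (f := fun z : ℂ => -w - z) (by fun_prop)).neg
        · filter_upwards [ht.eventually h] with z h3
          rw [← h3, GA1_symm, neg_neg]
      · exact ⟨GA1_D w, GA1_analytic c1 c2, Filter.Eventually.of_forall fun z => rfl⟩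
  obtain ⟨c, hc⟩ := A0_liouville (GA1_D w) (GA1_per w) hall
  have e1 : GA1_D w z = c := hc z (GA1_D w) (GA1_analytic hz hzw).continuousAt
    (Filter.Eventually.of_forall fun z => rfl)
  have h1 : -w - z ∉ Lam := by
    intro h
    apply hzw
    have h2 := GA1_neg_mem h
    have h3 : -(-w - z) = z + w := by ring
    rwa [h3] at h2
  have h2 : -w - z + w ∉ Lam := by
    intro h
    apply hz
    have h2 := GA1_neg_mem h
    have h3 : -(-w - z + w) = z := by ring
    rwa [h3] at h2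
  have e2 : GA1_D w (-w - z) = c := hc (-w - z) (GA1_D w) (GA1_analytic h1 h2).continuousAt
    (Filter.Eventually.of_forall fun z => rfl)
  rw [GA1_symm] at e2
  have h6 : GA1_D w z = 0 := by linear_combination (1 / 2) * e1 - (1 / 2) * e2
  exact h6

end H28G
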