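import Mathlib
import Pool.Agent.Lib.H28G.CDefs
import Pool.Agent.Lib.H28G.GA1

open NumberField IsDedekindDomain WeierstrassCurve

namespace H28G

open H55B

/-! Chunk GA2 (M): the addition formula. add_wp: fix w not in Lam, V = {z : z not in Lam, z + w not in Lam}: open, preconnected (the complement of a countable set: as
A3_conn, IsPreconnected of the complement of a countable set in C), G(z) = 4 (wp(z+w) + wp z + wp w)(wp z - wp w)^2 - (wpd z - wpd w)^2 is analytic on V.
Algebra: with a = wp z, b = wp w, x = wp(z+w), a', b', x' the values of wpd: det_zero is (a-b) x' + (a'-b') x + a b' - a' b = 0, wp_ode gives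
a'^2 = 4a^3 - g, b'^2 = 4b^3 - g, x'^2 = 4x^3 - g. Then (x-a)(x-b) G = 0: for a <> b the line through (a,a'), (b,b') meets the cubic in x = a, b,
m^2/4 - a - b (m = (a'-b')/(a-b)): multiply the equation of the cubic at (x,-x') by (a-b)^2 and use linear_combination; for a = b the determinant says
(a'-b')(x - a) = 0 and G = -(a'-b')^2. (In one identity: (a-b)^2 (x'^2 - 4x^3 + g) = ((a'-b')x + ab' - a'b)^2 - (a-b)^2(4x^3 - g), which is
-(x-a)(x-b) G - (a-b)(...) times the equations of a', b'; find the cofactors with linear_combination (exp := 1).)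
The product of the three analytic functions x - a, x - b, G of z vanishes on V, so one of them vanishes identically on V (AnalyticOnNhd, identity theorem:
if G is nonzero at some point of V, then x - a or x - b vanishes on a small ball, hence on V). wp(z+w) - wp z is unbounded near z = 0 (w is not in Lam; wp_expansion),
wp(z+w) - wp w is unbounded near z = -w. So G = 0 on V.
Phi_add_gen: xz = wp/kap^2, fz = wpd/kap^3, yz = (fz - 1)/2, (yz z - yz w)/(xz z - xz w) = (wpd z - wpd w)/(2 kap (wp z - wp w)); add_coords and pt_ext: the x-coordinate is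
add_wp divided by kap^2, the y-coordinate follows from det_zero: fz(z+w) = -(fz z) - 2 s (xz(z+w) - xz z), s the slope. -/

theorem GA2_lim {h : ℂ → ℂ} (hh : ContinuousAt h 0)
    (he : ∀ᶠ s in nhdsWithin (0 : ℂ) {0}ᶜ, wp s = h s) : False := by
  obtain ⟨u, hu, hu0, hexp⟩ := wp_expansion
  have c1 : ContinuousAt (fun z : ℂ => 1 + z ^ 6 * u z) 0 := by
    have := hu.continuousAt
    fun_prop
  have c2 : ContinuousAt (fun z : ℂ => z ^ 2 * h z) 0 := by fun_prop
  have t1 : Filter.Tendsto (fun z : ℂ => 1 + z ^ 6 * u z) (nhdsWithin (0 : ℂ) {0}ᶜ)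
      (nhds (1 + (0 : ℂ) ^ 6 * u 0)) := c1.tendsto.mono_left nhdsWithin_le_nhds
  have t2 : Filter.Tendsto (fun z : ℂ => z ^ 2 * h z) (nhdsWithin (0 : ℂ) {0}ᶜ)
      (nhds ((0 : ℂ) ^ 2 * h 0)) := c2.tendsto.mono_left nhdsWithin_le_nhds
  have t3 : Filter.Tendsto (fun z : ℂ => 1 + z ^ 6 * u z) (nhdsWithin (0 : ℂ) {0}ᶜ)
      (nhds ((0 : ℂ) ^ 2 * h 0)) := by
    refine t2.congr' ?_
    filter_upwards [hexp, he, self_mem_nhdsWithin] with z h1 h2 hz
    have hz' : z ≠ 0 := hz
    rw [← h2, h1]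
    field_simp
  have h4 := tendsto_nhds_unique t1 t3
  norm_num at h4

theorem GA2_conn (w : ℂ) : IsPreconnected {z : ℂ | z ∉ Lam ∧ z + w ∉ Lam} := by
  have hc : (Lam : Set ℂ).Countable := by
    have : (Lam : Set ℂ) = Set.range (fun l : LL.lattice => (l : ℂ)) := by
      ext z
      rw [← mem_LL]
      simp
    rw [this]
    exact Set.countable_range _
  have hc2 : ((fun z : ℂ => z + w) ⁻¹' Lam).Countable :=
    hc.preimage (add_left_injective w)
  have h := Set.Countable.isConnected_compl_of_one_lt_rank (E := ℂ) (by simp) (hc.union hc2)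
  have h2 : {z : ℂ | z ∉ Lam ∧ z + w ∉ Lam} = ((Lam : Set ℂ) ∪ (fun z : ℂ => z + w) ⁻¹' Lam)ᶜ := by
    ext z
    simp [not_or]
  rw [h2]
  exact h.isPreconnected

theorem GA2_alg {a b x a' b' x' g : ℂ} (ha : a' ^ 2 = 4 * a ^ 3 - g) (hb : b' ^ 2 = 4 * b ^ 3 - g)
    (hx : x' ^ 2 = 4 * x ^ 3 - g) (hd : (a - b) * x' + (a' - b') * x + a * b' - a' * b = 0) :
    (x - a) * (x - b) * (4 * (x + a + b) * (a - b) ^ 2 - (a' - b') ^ 2) = 0 := by
  linear_combination (-(a - b) ^ 2) * hx + ((a - b) * (x - b)) * ha - ((a - b) * (x - a)) * hb +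
    ((a - b) * x' - ((a' - b') * x + a * b' - a' * b)) * hd

theorem add_wp {z w : ℂ} (hz : z ∉ Lam) (hw : w ∉ Lam) (hzw : z + w ∉ Lam) :
    4 * (wp (z + w) + wp z + wp w) * (wp z - wp w) ^ 2 = (wpd z - wpd w) ^ 2 := by
  let V : Set ℂ := {z : ℂ | z ∉ Lam ∧ z + w ∉ Lam}
  let G : ℂ → ℂ := fun z => 4 * (wp (z + w) + wp z + wp w) * (wp z - wp w) ^ 2 -
    (wpd z - wpd w) ^ 2
  let f₁ : ℂ → ℂ := fun z => wp (z + w) - wp z
  let f₂ : ℂ → ℂ := fun z => wp (z + w) - wp w
  have hV : ∀ z ∈ V, ∀ᶠ t in nhds z, t ∈ V := by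
    rintro z ⟨h1, h2⟩
    have o1 : ∀ᶠ t in nhds z, t ∉ Lam := A1_open.mem_nhds h1
    have o2 : ∀ᶠ t in nhds z, t + w ∉ Lam :=
      (A1_open.preimage (f := fun t : ℂ => t + w) (by fun_prop)).mem_nhds h2
    filter_upwards [o1, o2] with t h3 h4
    exact ⟨h3, h4⟩
  have ha : ∀ z ∈ V, AnalyticAt ℂ wp z := fun z h => A2_wp_analytic h.1
  have hb : ∀ z ∈ V, AnalyticAt ℂ (fun z => wp (z + w)) z := fun z h =>
    (A2_wp_analytic h.2).comp (f := fun t : ℂ => t + w) (by fun_prop)
  have hc : ∀ z ∈ V, AnalyticAt ℂ wpd z := fun z h => A2_wpd_analytic h.1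
  have hG : ∀ z ∈ V, AnalyticAt ℂ G z := by
    intro z h
    have h1 := ha z h
    have h2 := hb z h
    have h3 := hc z h
    fun_prop
  have hf₁ : ∀ z ∈ V, AnalyticAt ℂ f₁ z := by
    intro z h
    have h1 := ha z h
    have h2 := hb z h
    fun_prop
  have hf₂ : ∀ z ∈ V, AnalyticAt ℂ f₂ z := by
    intro z h
    have h2 := hb z h
    fun_prop
  have hprod : ∀ z ∈ V, f₁ z * f₂ z * G z = 0 := by
    intro z h
    exact GA2_alg (wp_ode z h.1) (wp_ode w hw) (wp_ode (z + w) h.2) (det_zero h.1 hw h.2)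
  -- `f₁` is not identically zero
  have n1 : ¬ ∀ z ∈ V, f₁ z = 0 := by
    intro hall
    have hc' : ContinuousAt (fun s => wp (s + w)) 0 := by
      have h1 : AnalyticAt ℂ wp (0 + w) := by rw [zero_add]; exact A2_wp_analytic hw
      exact (h1.comp (f := fun t : ℂ => t + w) (by fun_prop)).continuousAt
    refine GA2_lim hc' ?_
    have o2 : ∀ᶠ t in nhds (0 : ℂ), t + w ∉ Lam :=
      (A1_open.preimage (f := fun t : ℂ => t + w) (by fun_prop)).mem_nhds
        (by show 0 + w ∉ Lam; rw [zero_add]; exact hw)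
    filter_upwards [A2_Lam_discrete 0, o2.filter_mono nhdsWithin_le_nhds] with s h1 h2
    have h3 := hall s ⟨h1, h2⟩
    exact (sub_eq_zero.1 h3).symm
  have n2 : ¬ ∀ z ∈ V, f₂ z = 0 := by
    intro hall
    refine GA2_lim (h := fun _ => wp w) continuousAt_const ?_
    have o2 : ∀ᶠ t in nhds (0 : ℂ), t - w ∉ Lam :=
      (A1_open.preimage (f := fun t : ℂ => t - w) (by fun_prop)).mem_nhds
        (by show 0 - w ∉ Lam; rw [zero_sub]; exact fun h => hw (neg_mem_iff.1 h))
    filter_upwards [A2_Lam_discrete 0, o2.filter_mono nhdsWithin_le_nhds] with s h1 h2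
    have h3 := hall (s - w) ⟨h2, by rw [sub_add_cancel]; exact h1⟩
    have h4 : wp (s - w + w) - wp w = 0 := h3
    rw [sub_add_cancel] at h4
    exact sub_eq_zero.1 h4
  have hGz : G z = 0 := by
    by_contra hne
    have hzV : z ∈ V := ⟨hz, hzw⟩
    have e1 : ∀ᶠ t in nhds z, f₁ t * f₂ t = 0 := by
      filter_upwards [(hG z hzV).continuousAt.eventually_ne hne, hV z hzV] with t h1 h2
      exact (mul_eq_zero.1 (hprod t h2)).resolve_right h1
    rcases (hf₁ z hzV).eventually_eq_zero_or_eventually_ne_zero with h1 | h1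
    · apply n1
      have hA : AnalyticOnNhd ℂ f₁ V := fun t ht => hf₁ t ht
      exact fun t ht => hA.eqOn_zero_of_preconnected_of_eventuallyEq_zero (GA2_conn w) hzV h1 ht
    · rcases (hf₂ z hzV).eventually_eq_zero_or_eventually_ne_zero with h2 | h2
      · apply n2
        have hA : AnalyticOnNhd ℂ f₂ V := fun t ht => hf₂ t ht
        exact fun t ht => hA.eqOn_zero_of_preconnected_of_eventuallyEq_zero (GA2_conn w) hzV h2 ht
      · obtain ⟨t, h3, h4, h5⟩ :=
          (h1.and (h2.and (e1.filter_mono nhdsWithin_le_nhds))).exists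
        rcases mul_eq_zero.1 h5 with h6 | h6
        · exact h3 h6
        · exact h4 h6
  exact sub_eq_zero.1 hGz

theorem Phi_add_gen {z w : ℂ} (hz : z ∉ Lam) (hw : w ∉ Lam) (hzw : z + w ∉ Lam) (hne : wp z ≠ wp w) :
    Phi (z + w) = Phi z + Phi w := by
  have hk := kap_ne
  have hzne : Phi z ≠ 0 := fun h => hz (Phi_eq_zero.1 h)
  have hwne : Phi w ≠ 0 := fun h => hw (Phi_eq_zero.1 h)
  have hzwne : Phi (z + w) ≠ 0 := fun h => hzw (Phi_eq_zero.1 h)
  have hd : wp z - wp w ≠ 0 := sub_ne_zero.2 hne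
  have hx : xc (Phi z) ≠ xc (Phi w) := by
    rw [xc_Phi hz, xc_Phi hw]
    unfold xz
    intro h
    exact hne ((div_left_inj' (pow_ne_zero 2 hk)).1 h)
  obtain ⟨h1, h2, h3⟩ := add_coords hzne hwne hx
  rw [xc_Phi hz, xc_Phi hw, yc_Phi hz, yc_Phi hw] at h2
  rw [h2, xc_Phi hz, xc_Phi hw, yc_Phi hz, yc_Phi hw] at h3
  have hs : (yz z - yz w) / (xz z - xz w) = (wpd z - wpd w) / (2 * kap * (wp z - wp w)) := by
    unfold yz fz xz
    have h5 : wp z / kap ^ 2 - wp w / kap ^ 2 ≠ 0 := by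
      rw [← sub_div]
      exact div_ne_zero hd (pow_ne_zero 2 hk)
    rw [div_eq_div_iff h5 (mul_ne_zero (mul_ne_zero two_ne_zero hk) hd)]
    field_simp
    ring
  have hX : xz (z + w) = ((yz z - yz w) / (xz z - xz w)) ^ 2 - xz z - xz w := by
    rw [hs]
    unfold xz
    have h5 := add_wp hz hw hzw
    field_simp
    linear_combination h5
  refine pt_ext hzwne h1 ?_ ?_
  · rw [xc_Phi hzw, h2, hX]
  · rw [yc_Phi hzw, h3, ← hX, hs]
    have h6 := det_zero hz hw hzw
    unfold yz fz xz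
    field_simp
    linear_combination h6

end H28G
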