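import Mathlib
import Pool.Agent.Lib.H28G.GA2

open NumberField IsDedekindDomain WeierstrassCurve

namespace H28G

open H55B

/-! Chunk GA3 (S/M): Phi is additive. If z in Lam or w in Lam: Phi_per, Phi_of_mem. If z + w in Lam: w = -z + 3 e y, Phi w = Phi(-z) = -Phi z. Otherwise choose u
close to -z, u <> -z, such that u, z + u, w - u are not in Lam, wp u <> wp z, wp u <> wp w, wp(z+u) <> wp(w-u): all six hold for all u in a punctured neighbourhood
of -z: u -> -z not in Lam, z + u -> 0 but z + u <> 0 (Lam is discrete: A2_Lam_discrete), w - u -> w + z not in Lam; wp u <> wp z and wp u <> wp w by wp_nonconst at -z;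
wp(z+u) -> infinity (wp_expansion) and wp(w-u) -> wp(w+z) is bounded. Then, by Phi_add_gen three times (wp(-u) = wp u):
Phi(z+u) = Phi z + Phi u, Phi(w-u) = Phi w + Phi(-u) = Phi w - Phi u, Phi(z+w) = Phi((z+u) + (w-u)) = Phi(z+u) + Phi(w-u) = Phi z + Phi w.
Phi_act: Phi as AddMonoidHom, map_zsmul, Phi_om, exists_repr, act_apply, Z1_e_repr. -/

theorem GA3_gen {z w : ℂ} (hz : z ∉ Lam) (hw : w ∉ Lam) (hzw : z + w ∉ Lam) :
    Phi (z + w) = Phi z + Phi w := by
  have hz' : -z ∉ Lam := fun h => hz (neg_mem_iff.1 h)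
  have c1 : ∀ᶠ u in nhdsWithin (-z) {-z}ᶜ, u ∉ Lam :=
    nhdsWithin_le_nhds (A1_open.mem_nhds hz')
  have t2 : Filter.Tendsto (fun u => z + u) (nhdsWithin (-z) {-z}ᶜ) (nhdsWithin 0 {0}ᶜ) := by
    have h := A1_tendsto (fun u => z + u) (-z) (by fun_prop) (add_right_injective z)
    simp only [add_neg_cancel] at h
    exact h
  have c2 : ∀ᶠ u in nhdsWithin (-z) {-z}ᶜ, z + u ∉ Lam := t2.eventually (A2_Lam_discrete 0)
  have c3 : ∀ᶠ u in nhdsWithin (-z) {-z}ᶜ, w - u ∉ Lam := by
    have hc : ContinuousAt (fun u : ℂ => w - u) (-z) := by fun_prop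
    have h0 : w - (-z) ∉ Lam := by
      rw [sub_neg_eq_add, add_comm]
      exact hzw
    exact nhdsWithin_le_nhds (hc.tendsto.eventually (A1_open.mem_nhds h0))
  have c4 := wp_nonconst hz' (wp z)
  have c5 := wp_nonconst hz' (wp w)
  obtain ⟨U, hU, -, hexp⟩ := wp_expansion
  have c6 : ∀ᶠ u in nhdsWithin (-z) {-z}ᶜ, wp (z + u) ≠ wp (w - u) := by
    have e1 := t2.eventually hexp
    have hc : ContinuousAt (fun u : ℂ => 1 + (z + u) ^ 6 * U (z + u) - (z + u) ^ 2 * wp (w - u)) (-z) := by
      have h1 : ContinuousAt (fun u : ℂ => U (z + u)) (-z) := by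
        have h2 : ContinuousAt U (z + -z) := by
          rw [add_neg_cancel]
          exact hU.continuousAt
        exact ContinuousAt.comp (f := fun u => z + u) h2 (by fun_prop)
      have h3 : ContinuousAt (fun u : ℂ => wp (w - u)) (-z) := by
        have h4 : w - (-z) ∉ Lam := by
          rw [sub_neg_eq_add, add_comm]
          exact hzw
        have h2 : ContinuousAt wp (w - (-z)) := (A2_wp_analytic h4).continuousAt
        exact ContinuousAt.comp (f := fun u => w - u) h2 (by fun_prop)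
      have h5 : ContinuousAt (fun u : ℂ => (z + u) ^ 6) (-z) := by fun_prop
      have h6 : ContinuousAt (fun u : ℂ => (z + u) ^ 2) (-z) := by fun_prop
      exact (continuousAt_const.add (h5.mul h1)).sub (h6.mul h3)
    have e2 : ∀ᶠ u in nhds (-z), 1 + (z + u) ^ 6 * U (z + u) - (z + u) ^ 2 * wp (w - u) ≠ 0 := by
      apply hc.eventually_ne
      rw [add_neg_cancel]
      simp
    filter_upwards [e1, nhdsWithin_le_nhds e2, self_mem_nhdsWithin] with u hu1 hu2 hu3 h
    apply hu2
    have hne : z + u ≠ 0 := by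
      intro h0
      apply hu3
      show u = -z
      linear_combination h0
    rw [← h, hu1]
    field_simp
    ring
  have hall := c1.and (c2.and (c3.and (c4.and (c5.and c6))))
  obtain ⟨u, u1, u2, u3, u4, u5, u6⟩ := hall.exists
  have a1 := Phi_add_gen hz u1 u2 (fun h => u4 h.symm)
  have u1' : -u ∉ Lam := fun h => u1 (neg_mem_iff.1 h)
  have a2 : Phi (w + -u) = Phi w + Phi (-u) := by
    refine Phi_add_gen hw u1' ?_ ?_
    · rw [← sub_eq_add_neg]
      exact u3
    · rw [wp_neg]
      exact fun h => u5 h.symm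
  have a3 : Phi ((z + u) + (w - u)) = Phi (z + u) + Phi (w - u) := by
    refine Phi_add_gen u2 u3 ?_ u6
    have : (z + u) + (w - u) = z + w := by ring
    rw [this]
    exact hzw
  have e3 : (z + u) + (w - u) = z + w := by ring
  rw [e3] at a3
  rw [a3, a1, sub_eq_add_neg, a2, Phi_neg]
  abel

theorem Phi_add (z w : ℂ) : Phi (z + w) = Phi z + Phi w := by
  by_cases hz : z ∈ Lam
  · rw [Phi_of_mem hz, zero_add]
    obtain ⟨y, rfl⟩ := hz
    rw [add_comm, Phi_per]
  by_cases hw : w ∈ Lam
  · rw [Phi_of_mem hw, add_zero]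
    obtain ⟨y, rfl⟩ := hw
    rw [Phi_per]
  by_cases hzw : z + w ∈ Lam
  · rw [Phi_of_mem hzw]
    obtain ⟨y, hy⟩ := hzw
    have h1 : w = -z + 3 * e y := by linear_combination hy
    rw [h1, Phi_per, Phi_neg, add_neg_cancel]
  · exact GA3_gen hz hw hzw

/-- The uniformisation as a homomorphism. -/
noncomputable def GA3_hom : ℂ →+ P27 ℂ where
  toFun := Phi
  map_zero' := Phi_of_mem A1_zero_mem
  map_add' := Phi_add

theorem Phi_act (c : O) (z : ℂ) : Phi (e c * z) = act c (Phi z) := by
  obtain ⟨a, b, rfl⟩ := exists_repr c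
  have h1 : e ((a : O) + b * om) * z = a • z + b • (e om * z) := by
    rw [map_add, map_mul, map_intCast, map_intCast, zsmul_eq_mul, zsmul_eq_mul]
    ring
  rw [h1, act_apply]
  show GA3_hom (a • z + b • (e om * z)) = _
  rw [map_add, map_zsmul, map_zsmul]
  show a • Phi z + b • Phi (e om * z) = _
  rw [Phi_om]

end H28G
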