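import Mathlib
import Pool.Agent.Lib.H28G.CDefs

open NumberField IsDedekindDomain WeierstrassCurve

namespace H28G

open H55B

/-! Chunk GA4 (M): Phi is surjective. P = 0: Phi 0 (0 in Lam). P = (x, y): first some z not in Lam with wp z = c, c = kap^2 x. Otherwise D(z) = if z in Lam then 0 else
(wp z - c)^(-1) is Lam-periodic, analytic off Lam, and tends to 0 at the points of Lam (near 0: (wp z - c)^(-1) = z^2/(1 + z^6 u - c z^2)), so A0_liouville gives a constant,
equal to its value 0 at 0; but D(z) <> 0 for z not in Lam: contradiction. Then xz z = x and yz z^2 + yz z = x^3 = y^2 + y, so yz z = y or yz z = -1 - y; in the second case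
take -z (Phi_neg, xc_eq). -/

/-- The Weierstrass function takes every value. -/
theorem GA4_exists (c : ℂ) : ∃ z, z ∉ Lam ∧ wp z = c := by
  classical
  by_contra hcon
  push Not at hcon
  set D : ℂ → ℂ := fun z => if z ∈ Lam then 0 else (wp z - c)⁻¹ with hD
  have hper : ∀ z (y : O), D (z + 3 * e y) = D z := by
    intro z y
    simp only [hD]
    by_cases h : z ∈ Lam
    · rw [if_pos h, if_pos ((Lam_per y).2 h)]
    · rw [if_neg h, if_neg (fun h1 => h ((Lam_per y).1 h1)), wp_per]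
  obtain ⟨u, hu, -, hu2⟩ := wp_expansion
  set a0 : ℂ → ℂ := fun z => z ^ 2 / (1 + z ^ 6 * u z - c * z ^ 2) with ha0
  have ha0A : AnalyticAt ℂ a0 0 := by
    have hz : AnalyticAt ℂ (fun z : ℂ => z) 0 := analyticAt_id
    refine (hz.pow 2).div ((analyticAt_const.add ((hz.pow 6).mul hu)).sub
      (analyticAt_const.mul (hz.pow 2))) ?_
    simp
  have hloc0 : ∀ᶠ z in nhdsWithin (0 : ℂ) {0}ᶜ, D z = a0 z := by
    filter_upwards [hu2, A1_discrete 0, self_mem_nhdsWithin] with z h1 h2 h3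
    have hz : z ≠ 0 := h3
    simp only [hD, ha0]
    rw [if_neg h2, h1]
    have e1 : (z ^ 2)⁻¹ + z ^ 4 * u z - c = (1 + z ^ 6 * u z - c * z ^ 2) / z ^ 2 := by
      field_simp
    rw [e1, inv_div]
  have hloc : ∀ z₀, ∃ a : ℂ → ℂ, AnalyticAt ℂ a z₀ ∧ ∀ᶠ z in nhdsWithin z₀ {z₀}ᶜ, D z = a z := by
    intro z₀
    by_cases h : z₀ ∈ Lam
    · obtain ⟨y, hy⟩ := h
      refine ⟨fun z => a0 (z - z₀), ?_, ?_⟩
      · have h1 : AnalyticAt ℂ (fun z : ℂ => z - z₀) z₀ := analyticAt_id.sub analyticAt_const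
        have h2 : AnalyticAt ℂ a0 (z₀ - z₀) := by rwa [sub_self]
        exact AnalyticAt.fun_comp (f := fun z : ℂ => z - z₀) h2 h1
      · have ht := A1_tendsto (fun z : ℂ => z - z₀) z₀ (by fun_prop) (fun x y h => by
          simpa using h)
        have h4 : ∀ᶠ z in nhdsWithin (z₀ - z₀) {z₀ - z₀}ᶜ, D z = a0 z := by
          rw [sub_self]
          exact hloc0
        filter_upwards [ht.eventually h4] with z hz
        rw [← hz, ← hper (z - z₀) y]
        congr 1
        rw [← hy, sub_add_cancel]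
    · refine ⟨fun z => (wp z - c)⁻¹, ?_, ?_⟩
      · exact ((A1_wp_analytic h).sub analyticAt_const).inv (sub_ne_zero.2 (hcon z₀ h))
      · filter_upwards [A1_discrete z₀] with z hz
        simp only [hD]
        rw [if_neg hz]
  obtain ⟨c0, hc0⟩ := A0_liouville D hper hloc
  have h1 : a0 0 = c0 := hc0 0 a0 ha0A.continuousAt hloc0
  have h2 : (wp 1 - c)⁻¹ = c0 := by
    refine hc0 1 (fun z => (wp z - c)⁻¹) ?_ ?_
    · exact (((A1_wp_analytic A1_one_notMem).sub analyticAt_const).inv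
        (sub_ne_zero.2 (hcon 1 A1_one_notMem))).continuousAt
    · filter_upwards [A1_discrete 1] with z hz
      simp only [hD]
      rw [if_neg hz]
  have h3 : a0 0 = 0 := by
    simp [ha0]
  rw [h3] at h1
  rw [← h1] at h2
  exact inv_ne_zero (sub_ne_zero.2 (hcon 1 A1_one_notMem)) h2

theorem Phi_surj : Function.Surjective Phi := by
  intro P
  by_cases hP : P = 0
  · exact ⟨0, by rw [Phi_of_mem A1_zero_mem, hP]⟩
  obtain ⟨z, hz, hw⟩ := GA4_exists (kap ^ 2 * xc P)
  have hne : Phi z ≠ 0 := fun h0 => hz (Phi_eq_zero.1 h0)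
  have hx : xc (Phi z) = xc P := by
    rw [xc_Phi hz, xz, hw, mul_div_cancel_left₀ _ (pow_ne_zero 2 kap_ne)]
  rcases xc_eq hne hP hx with h | h
  · exact ⟨z, h⟩
  · refine ⟨-z, ?_⟩
    rw [Phi_neg, h, neg_neg]

end H28G
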