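import Mathlib
import Pool.Agent.Lib.H28G.GA3
import Pool.Agent.Lib.H28G.GA4

open NumberField IsDedekindDomain WeierstrassCurve

namespace H28G

open H55B

/-! Chunk GB1 (S/M): the torsion points over C. rho b c = 3 e(c)/e(b), c in O/(b) (any representative). Phi (rho b c) is killed by b: Phi_act, e b * rho = 3 e(c) in Lam.
Injective: Phi(rho c) = Phi(rho c') => 3 e(c - c')/e b in Lam (Phi_add, Phi_neg, Phi_eq_zero) => c - c' = b y. Surjective: P = Phi z, act b P = 0 => e b * z = 3 e y => z = 3 e y / e b and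
the representative of y differs from y by b y', so Phi z = Phi(rho (mk y)) (Phi_per). Nat.card (O/(b)) = Nm b (absNorm, definition of Nm: Ideal.absNorm_apply, Submodule.cardQuot). -/

/-- Representatives of the points killed by b. -/
noncomputable def rho (b : O) (c : O ⧸ Ideal.span {b}) : ℂ := 3 * e (Quotient.out c) / e b

theorem GB1_e_ne {b : O} (hb : b ≠ 0) : e b ≠ 0 := by
  intro h
  exact hb (e_injective (by rw [h, map_zero]))

theorem rho_mem (b : O) (hb : b ≠ 0) (c : O ⧸ Ideal.span {b}) : Phi (rho b c) ∈ Tor b ℂ := by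
  have h0 := GB1_e_ne hb
  rw [mem_Tor, ← Phi_act, Phi_eq_zero]
  refine ⟨Quotient.out c, ?_⟩
  unfold rho
  field_simp

theorem rho_bij (b : O) (hb : b ≠ 0) :
    Function.Bijective (fun c : O ⧸ Ideal.span {b} => (⟨Phi (rho b c), rho_mem b hb c⟩ : Tor b ℂ)) := by
  have h0 := GB1_e_ne hb
  constructor
  · intro c c' h
    have h1 : Phi (rho b c) = Phi (rho b c') := congrArg Subtype.val h
    have h2 : Phi (rho b c + -rho b c') = 0 := by
      rw [Phi_add, Phi_neg, h1, add_neg_cancel]
    obtain ⟨y, hy⟩ := Phi_eq_zero.1 h2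
    have h3 : e (Quotient.out c - Quotient.out c') = e (b * y) := by
      rw [map_sub, map_mul]
      unfold rho at hy
      have h4 : (3 : ℂ) * (e (Quotient.out c) - e (Quotient.out c')) = 3 * (e b * e y) := by
        field_simp at hy
        linear_combination 3 * hy
      exact mul_left_cancel₀ (by norm_num) h4
    have h5 := e_injective h3
    have h6 : (Ideal.Quotient.mk (Ideal.span {b}) (Quotient.out c)) =
        Ideal.Quotient.mk (Ideal.span {b}) (Quotient.out c') := by
      rw [Ideal.Quotient.eq, Ideal.mem_span_singleton]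
      exact ⟨y, h5⟩
    have e1 : (Ideal.Quotient.mk (Ideal.span {b}) (Quotient.out c)) = c := Quotient.out_eq c
    have e2 : (Ideal.Quotient.mk (Ideal.span {b}) (Quotient.out c')) = c' := Quotient.out_eq c'
    rw [← e1, h6, e2]
  · rintro ⟨P, hP⟩
    obtain ⟨z, rfl⟩ := Phi_surj P
    rw [mem_Tor, ← Phi_act, Phi_eq_zero] at hP
    obtain ⟨y, hy⟩ := hP
    refine ⟨Ideal.Quotient.mk (Ideal.span {b}) y, Subtype.ext ?_⟩
    show Phi (rho b (Ideal.Quotient.mk (Ideal.span {b}) y)) = Phi z
    have e1 : (Ideal.Quotient.mk (Ideal.span {b})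
        (Quotient.out (Ideal.Quotient.mk (Ideal.span {b}) y))) =
        Ideal.Quotient.mk (Ideal.span {b}) y := Quotient.out_eq _
    rw [Ideal.Quotient.eq, Ideal.mem_span_singleton] at e1
    obtain ⟨y', hy'⟩ := e1
    have h1 : rho b (Ideal.Quotient.mk (Ideal.span {b}) y) = z + 3 * e y' := by
      have h2 : e (Quotient.out (Ideal.Quotient.mk (Ideal.span {b}) y)) = e y + e b * e y' := by
        rw [← map_mul, ← map_add, ← hy', add_sub_cancel]
      unfold rho
      rw [h2]
      field_simp
      linear_combination -hy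
    rw [h1, Phi_per]

theorem finite_quot (b : O) (hb : b ≠ 0) : Finite (O ⧸ Ideal.span {b}) := by
  apply Ideal.finiteQuotientOfFreeOfNeBot
  rwa [Ne, Ideal.span_singleton_eq_bot]

theorem full_C (b : O) (hb : b ≠ 0) : Full b ℂ := by
  unfold Full Nm
  rw [← Nat.card_congr (Equiv.ofBijective _ (rho_bij b hb)), Ideal.absNorm_apply,
    Submodule.cardQuot_apply]

end H28G
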