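import Mathlib
import Pool.Agent.Lib.H28G.GB1
import Pool.Agent.Lib.H55B.Z2

open NumberField IsDedekindDomain WeierstrassCurve

namespace H28G

open H55B

/-! Chunk GB3 (S/M): counting. count_pt: if z0 + rho c - p and z0 + rho c' - p are in Lam, then rho c - rho c' is in Lam, so Phi(rho c) = Phi(rho c') and c = c' (rho_bij): at most one term is 1. If one
term is 1: e b (z0 + rho c - p) in Lam (Lam is an O-module: e b * 3 e y = 3 e (b y)), e b rho c in Lam, e b p - p in Lam, so e b z0 - p in Lam. Conversely if e b z0 - p in Lam then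
e b (p - z0) in Lam, so p - z0 = 3 e y/e b and Phi(p - z0) is in Tor b, = Phi(rho c) for some c (rho_bij), so p - z0 - rho c in Lam.
count_half, b not divisible by 2 (2 is prime in O: two_prime): H = {h : h not in Lam, 2 h in Lam}. At most one term: if h = z0 + rho c, h' = z0 + rho c' in H then rho c - rho c' =: d satisfies
2 d in Lam and e b d in Lam; 1 = 2 x + b y in O (O is a PID, 2 prime, 2 does not divide b), so d = x (2 d) + y (b d) in Lam, c = c'. If one term is 1: 2 e b z0 in Lam; e b z0 not in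
Lam: otherwise e b h in Lam and 2 h in Lam give h in Lam. Conversely let e b z0 in H. With 1 = 2 x + b y: put h = b y z0 (h = z0 - 2 x z0): then e b (z0 - h) = e x * (2 e b z0) in Lam, so z0 - h = -rho c mod Lam for
some c; 2 h = e y (2 e b z0) in Lam, h not in Lam since otherwise e b h in Lam, and e b z0 = e b h + e b (z0 - h) in Lam. So z0 + rho c = h mod Lam is in H. -/

theorem Lam_mul (b : O) {z : ℂ} (h : z ∈ Lam) : e b * z ∈ Lam := by
  obtain ⟨y, rfl⟩ := h
  exact ⟨b * y, by rw [map_mul]; ring⟩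

theorem GB3_sub {z w : ℂ} (h : z ∈ Lam) (h' : w ∈ Lam) : z - w ∈ Lam := by
  rw [sub_eq_add_neg]
  exact A1_add_mem h (A1_neg_mem h')

theorem GB3_sum {ι : Type} [Fintype ι] (P : ι → Prop) [DecidablePred P] (Q : Prop) [Decidable Q]
    (h1 : ∀ c c', P c → P c' → c = c') (h2 : (∃ c, P c) ↔ Q) :
    (∑ c : ι, if P c then (1 : ℤ) else 0) = if Q then 1 else 0 := by
  classical
  by_cases hQ : Q
  · rw [if_pos hQ]
    obtain ⟨c, hc⟩ := h2.2 hQ
    rw [Finset.sum_eq_single c]
    · exact if_pos hc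
    · intro c' _ hne
      exact if_neg fun h => hne (h1 _ _ h hc)
    · intro h
      exact absurd (Finset.mem_univ c) h
  · rw [if_neg hQ]
    refine Finset.sum_eq_zero fun c _ => if_neg fun h => hQ (h2.1 ⟨c, h⟩)

theorem GB3_eb {b : O} (hb : b ≠ 0) : e b ≠ 0 := by
  intro h
  apply hb
  apply e_injective
  rw [h, map_zero]

theorem GB3_rho {b : O} (hb : b ≠ 0) (c : O ⧸ Ideal.span {b}) : e b * rho b c ∈ Lam := by
  refine ⟨Quotient.out c, ?_⟩
  unfold rho
  have := GB3_eb hb
  field_simp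

theorem GB3_inj {b : O} (hb : b ≠ 0) {c c' : O ⧸ Ideal.span {b}} (h : rho b c - rho b c' ∈ Lam) :
    c = c' := by
  obtain ⟨y, hy⟩ := h
  have hb' := GB3_eb hb
  have h1 : e (Quotient.out c - Quotient.out c') = e (b * y) := by
    unfold rho at hy
    rw [map_sub, map_mul]
    field_simp at hy
    linear_combination hy
  have h2 := e_injective h1
  have h3 : ∀ c : O ⧸ Ideal.span {b}, Ideal.Quotient.mk (Ideal.span {b}) (Quotient.out c) = c :=
    fun c => Quotient.out_eq c
  rw [← h3 c, ← h3 c', Ideal.Quotient.eq, h2]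
  exact Ideal.mul_mem_right _ _ (Ideal.mem_span_singleton_self b)

theorem GB3_ex {b : O} (hb : b ≠ 0) {w : ℂ} (h : e b * w ∈ Lam) :
    ∃ c : O ⧸ Ideal.span {b}, w - rho b c ∈ Lam := by
  obtain ⟨y, hy⟩ := h
  have hb' := GB3_eb hb
  have h3 : Ideal.Quotient.mk (Ideal.span {b})
      (Quotient.out (Ideal.Quotient.mk (Ideal.span {b}) y)) =
      Ideal.Quotient.mk (Ideal.span {b}) y := Quotient.out_eq _
  rw [Ideal.Quotient.eq, Ideal.mem_span_singleton] at h3
  obtain ⟨t, ht⟩ := h3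
  refine ⟨Ideal.Quotient.mk (Ideal.span {b}) y, -t, ?_⟩
  have h4 : e (Quotient.out (Ideal.Quotient.mk (Ideal.span {b}) y)) = e y + e b * e t := by
    have h5 := congrArg e ht
    rw [map_sub, map_mul] at h5
    linear_combination h5
  unfold rho
  rw [h4, map_neg]
  field_simp
  linear_combination hy

open Classical in
theorem count_pt (b : O) (hb : b ≠ 0) [Fintype (O ⧸ Ideal.span {b})] (p : ℂ) (hp : e b * p - p ∈ Lam)
    (z₀ : ℂ) : (∑ c : O ⧸ Ideal.span {b}, if z₀ + rho b c - p ∈ Lam then (1 : ℤ) else 0) =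
      if e b * z₀ - p ∈ Lam then 1 else 0 := by
  refine GB3_sum _ _ ?_ ⟨?_, ?_⟩
  · intro c c' h h'
    apply GB3_inj hb
    have h1 := GB3_sub h h'
    have h2 : z₀ + rho b c - p - (z₀ + rho b c' - p) = rho b c - rho b c' := by ring
    rwa [h2] at h1
  · rintro ⟨c, hc⟩
    have h1 := A1_add_mem (GB3_sub (Lam_mul b hc) (GB3_rho hb c)) hp
    have h2 : e b * (z₀ + rho b c - p) - e b * rho b c + (e b * p - p) = e b * z₀ - p := by ring
    rwa [h2] at h1
  · intro h
    have h1 := GB3_sub hp h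
    have h2 : e b * p - p - (e b * z₀ - p) = e b * (p - z₀) := by ring
    rw [h2] at h1
    obtain ⟨c, hc⟩ := GB3_ex hb h1
    refine ⟨c, ?_⟩
    have h3 := A1_neg_mem hc
    have h4 : -(p - z₀ - rho b c) = z₀ + rho b c - p := by ring
    rwa [h4] at h3

open Classical in
theorem count_half (b : O) (hb : ¬ (2 : O) ∣ b) [Fintype (O ⧸ Ideal.span {b})] (z₀ : ℂ) :
    (∑ c : O ⧸ Ideal.span {b},
      if z₀ + rho b c ∉ Lam ∧ 2 * (z₀ + rho b c) ∈ Lam then (1 : ℤ) else 0) =
      if e b * z₀ ∉ Lam ∧ 2 * (e b * z₀) ∈ Lam then 1 else 0 := by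
  have hb0 : b ≠ 0 := by
    rintro rfl
    exact hb (dvd_zero 2)
  obtain ⟨x, y, hxy⟩ := (two_prime.irreducible.coprime_iff_not_dvd).2 hb
  have hxy' : e x * 2 + e y * e b = 1 := by
    have h1 := congrArg e hxy
    rw [map_add, map_mul, map_mul, map_ofNat, map_one] at h1
    exact h1
  have key : ∀ w : ℂ, 2 * w ∈ Lam → e b * w ∈ Lam → w ∈ Lam := by
    intro w h h'
    have h1 := A1_add_mem (Lam_mul x h) (Lam_mul y h')
    have h2 : e x * (2 * w) + e y * (e b * w) = w := by linear_combination w * hxy'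
    rwa [h2] at h1
  have htwo : ∀ w : ℂ, w ∈ Lam → 2 * w ∈ Lam := by
    intro w h
    rw [two_mul]
    exact A1_add_mem h h
  refine GB3_sum _ _ ?_ ⟨?_, ?_⟩
  · rintro c c' ⟨-, h⟩ ⟨-, h'⟩
    apply GB3_inj hb0
    apply key
    · have h1 := GB3_sub h h'
      have h2 : 2 * (z₀ + rho b c) - 2 * (z₀ + rho b c') = 2 * (rho b c - rho b c') := by ring
      rwa [h2] at h1
    · rw [mul_sub]
      exact GB3_sub (GB3_rho hb0 c) (GB3_rho hb0 c')
  · rintro ⟨c, h, h'⟩
    have h1 := GB3_sub (Lam_mul b h') (htwo _ (GB3_rho hb0 c))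
    have h2 : e b * (2 * (z₀ + rho b c)) - 2 * (e b * rho b c) = 2 * (e b * z₀) := by ring
    rw [h2] at h1
    refine ⟨fun h3 => h (key _ h' ?_), h1⟩
    rw [mul_add]
    exact A1_add_mem h3 (GB3_rho hb0 c)
  · rintro ⟨h, h'⟩
    have h1 : e b * (e b * e y * z₀ - z₀) ∈ Lam := by
      have h2 := A1_neg_mem (Lam_mul x h')
      have h3 : -(e x * (2 * (e b * z₀))) = e b * (e b * e y * z₀ - z₀) := by
        linear_combination (-(e b * z₀)) * hxy'
      rwa [h3] at h2
    obtain ⟨c, hc⟩ := GB3_ex hb0 h1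
    have h2 : 2 * (e b * e y * z₀) ∈ Lam := by
      have h3 := Lam_mul y h'
      have h4 : e y * (2 * (e b * z₀)) = 2 * (e b * e y * z₀) := by ring
      rwa [h4] at h3
    refine ⟨c, fun h3 => h ?_, ?_⟩
    · have h4 := A1_add_mem hc h3
      have h5 : e b * e y * z₀ - z₀ - rho b c + (z₀ + rho b c) = e b * e y * z₀ := by ring
      rw [h5] at h4
      have h6 := GB3_sub (Lam_mul b h4) h1
      have h7 : e b * (e b * e y * z₀) - e b * (e b * e y * z₀ - z₀) = e b * z₀ := by ring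
      rwa [h7] at h6
    · have h4 := GB3_sub h2 (htwo _ hc)
      have h5 : 2 * (e b * e y * z₀) - 2 * (e b * e y * z₀ - z₀ - rho b c) =
          2 * (z₀ + rho b c) := by ring
      rwa [h5] at h4

end H28G
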