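import Mathlib
import Pool.Agent.Lib.H28G.GB1
import Pool.Agent.Lib.H28G.GB2

open NumberField IsDedekindDomain WeierstrassCurve

namespace H28G

open H55B

/-! Chunk GB4 (M): the general distribution relation. D(z) = (prod over c of g(z + rho c)) * (g(e b z))^(-1). D is Lam-periodic: z -> z + 3 e y changes e b z by 3 e (b y). At every z0: Od (fun z => D z) z0 0 by Od.prod,
Od.comp_add, Od.comp_mul, Od.inv, Od.mul and hcount: D z = (z - z0)^0 h z = h z near z0 with h analytic, h z0 <> 0. A0_liouville: there is C with a z0 = C for every z0 and every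
continuous a equal to D near z0; with a = h: C = h z0 <> 0. For z near z0, z <> z0, z <> singular: h is also an admissible a at z (h is continuous near z0, D = h on a punctured
neighbourhood of z0, which is a neighbourhood of z), so h z = C, so D z = C, and since the product D z = C <> 0 the value g(e b z) is not 0: multiply. -/

theorem GB4_e_inj : Function.Injective e :=
  emb.injective.comp NumberField.RingOfIntegers.coe_injective

theorem dist_gen (g : ℂ → ℂ) (hper : ∀ z (y : O), g (z + 3 * e y) = g z) (n : ℂ → ℤ)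
    (hn : ∀ z, Od g z (n z)) (b : O) (hb : b ≠ 0) [Fintype (O ⧸ Ideal.span {b})]
    (hcount : ∀ z₀, ∑ c : O ⧸ Ideal.span {b}, n (z₀ + rho b c) = n (e b * z₀)) :
    ∃ C : ℂ, C ≠ 0 ∧ ∀ z₀, ∀ᶠ z in nhdsWithin z₀ {z₀}ᶜ,
      ∏ c : O ⧸ Ideal.span {b}, g (z + rho b c) = C * g (e b * z) := by
  have heb : e b ≠ 0 := by
    intro h
    apply hb
    have h1 : e b = e 0 := by rw [h, map_zero]
    exact GB4_e_inj h1
  set D : ℂ → ℂ := fun z => (∏ c : O ⧸ Ideal.span {b}, g (z + rho b c)) * (g (e b * z))⁻¹ with hD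
  have hDper : ∀ z (y : O), D (z + 3 * e y) = D z := by
    intro z y
    have e1 : e b * (z + 3 * e y) = e b * z + 3 * e (b * y) := by
      rw [map_mul]
      ring
    simp only [hD]
    rw [e1, hper]
    congr 1
    refine Finset.prod_congr rfl fun c _ => ?_
    have e2 : z + 3 * e y + rho b c = z + rho b c + 3 * e y := by ring
    rw [e2, hper]
  have hOd : ∀ z₀, ∃ h : ℂ → ℂ, AnalyticAt ℂ h z₀ ∧ h z₀ ≠ 0 ∧
      ∀ᶠ z in nhdsWithin z₀ {z₀}ᶜ, D z = h z := by
    intro z₀
    have h1 : Od (fun z => ∏ c : O ⧸ Ideal.span {b}, g (z + rho b c)) z₀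
        (∑ c : O ⧸ Ideal.span {b}, n (z₀ + rho b c)) :=
      Od.prod Finset.univ fun c _ => Od.comp_add (hn (z₀ + rho b c))
    have h2 : Od (fun z => (g (e b * z))⁻¹) z₀ (-n (e b * z₀)) :=
      Od.inv (Od.comp_mul heb (hn (e b * z₀)))
    obtain ⟨h, ha, h0, hh⟩ := Od.mul h1 h2
    refine ⟨h, ha, h0, ?_⟩
    filter_upwards [hh] with z hz
    rw [hcount, add_neg_cancel, zpow_zero, one_mul] at hz
    exact hz
  obtain ⟨C, hC⟩ := A0_liouville D hDper fun z₀ => by
    obtain ⟨h, ha, _, hh⟩ := hOd z₀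
    exact ⟨h, ha, hh⟩
  have hC0 : C ≠ 0 := by
    obtain ⟨h, ha, h0, hh⟩ := hOd 0
    rw [← hC 0 h ha.continuousAt hh]
    exact h0
  refine ⟨C, hC0, ?_⟩
  intro z₀
  obtain ⟨h, ha, h0, hh⟩ := hOd z₀
  have h1 : ∀ᶠ z in nhds z₀, AnalyticAt ℂ h z := ha.eventually_analyticAt
  have hh' := hh
  rw [eventually_nhdsWithin_iff] at hh'
  have h2 := hh'.eventually_nhds
  rw [eventually_nhdsWithin_iff] at hh ⊢
  filter_upwards [h1, h2, hh] with z hz1 hz2 hz3 hne
  have hDz : D z = C := by
    rw [hz3 hne]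
    apply hC z h hz1.continuousAt
    rw [eventually_nhdsWithin_iff]
    filter_upwards [hz2, isOpen_ne.mem_nhds hne] with w hw1 hw2 _
    exact hw1 hw2
  have hg : g (e b * z) ≠ 0 := by
    intro h3
    apply hC0
    rw [← hDz]
    simp only [hD]
    rw [h3, inv_zero, mul_zero]
  rw [← hDz]
  simp only [hD]
  rw [inv_mul_cancel_right₀ hg]

end H28G
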