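import Mathlib
import Pool.Agent.Lib.H28G.GA3
import Pool.Agent.Lib.H28G.GB2

open NumberField IsDedekindDomain WeierstrassCurve

namespace H28G

open H55B

/-! Chunk GB6 (M): the orders of xz, fz, yz. -/

theorem GB6_congr {g g' : ℂ → ℂ} {z₀ : ℂ} {n : ℤ} (h : Od g z₀ n)
    (he : ∀ᶠ z in nhdsWithin z₀ {z₀}ᶜ, g' z = g z) : Od g' z₀ n := by
  obtain ⟨u, hu, hu0, hu1⟩ := h
  refine ⟨u, hu, hu0, ?_⟩
  filter_upwards [hu1, he] with z h1 h2
  rw [h2, h1]

theorem GB6_zero {g : ℂ → ℂ} (hg : ∀ z (y : O), g (z + 3 * e y) = g z) {z₀ : ℂ} {n : ℤ}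
    (h : Od g 0 n) (hz : z₀ ∈ Lam) : Od g z₀ n := by
  obtain ⟨y, hy⟩ := hz
  have h1 : Od (fun z => g (z + -z₀)) z₀ n := by
    apply Od.comp_add
    rwa [add_neg_cancel]
  refine GB6_congr h1 (Filter.Eventually.of_forall fun z => ?_)
  show g z = g (z + -z₀)
  have h2 := hg (z + -z₀) y
  rw [← hy] at h2
  rw [← h2]
  congr 1
  ring

theorem GB6_Phi {z w : ℂ} : Phi z = Phi w ↔ z - w ∈ Lam := by
  rw [← Phi_eq_zero]
  have h : Phi (z - w) = Phi z - Phi w := by
    rw [sub_eq_add_neg, Phi_add, Phi_neg, ← sub_eq_add_neg]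
  rw [h, sub_eq_zero]

theorem GB6_Phi' {z w : ℂ} : Phi z = -Phi w ↔ z + w ∈ Lam := by
  rw [← Phi_neg, GB6_Phi, sub_neg_eq_add]

theorem GB6_xz {z w : ℂ} (hz : z ∉ Lam) (hw : w ∉ Lam) (h : xz z = xz w) :
    z - w ∈ Lam ∨ z + w ∈ Lam := by
  rw [← xc_Phi hz, ← xc_Phi hw] at h
  rcases xc_eq (fun h0 => hz (Phi_eq_zero.1 h0)) (fun h0 => hw (Phi_eq_zero.1 h0)) h with h1 | h1
  · exact Or.inl (GB6_Phi.1 h1)
  · exact Or.inr (GB6_Phi'.1 h1)

theorem GB6_xz_sub {z w : ℂ} (h : z - w ∈ Lam) : xz z = xz w ∧ yz z = yz w := by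
  obtain ⟨y, hy⟩ := h
  have h1 : z = w + 3 * e y := by
    rw [← hy]
    ring
  rw [h1]
  exact ⟨xz_per w y, yz_per w y⟩

theorem GB6_xz_add {z w : ℂ} (h : z + w ∈ Lam) : xz z = xz w := by
  have h1 : z - -w ∈ Lam := by rwa [sub_neg_eq_add]
  rw [(GB6_xz_sub h1).1]
  unfold xz
  rw [wp_neg]

theorem GB6_xz_a : xz (e om - 1) = 0 := by
  unfold xz
  rw [wp_zero_at, zero_div]

theorem GB6_xz_an {z : ℂ} (hz : z ∉ Lam) : AnalyticAt ℂ xz z := by
  have h := A2_wp_analytic hz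
  unfold xz
  fun_prop (disch := exact pow_ne_zero _ kap_ne)

theorem GB6_fz_an {z : ℂ} (hz : z ∉ Lam) : AnalyticAt ℂ fz z := by
  have h := A2_wpd_analytic hz
  unfold fz
  fun_prop (disch := exact pow_ne_zero _ kap_ne)

theorem GB6_yz_an {z : ℂ} (hz : z ∉ Lam) : AnalyticAt ℂ yz z := by
  have h := GB6_fz_an hz
  unfold yz
  fun_prop (disch := norm_num)

open Classical in
theorem Od_xz (z : ℂ) : Od xz z (if z ∈ Lam then -2 else
    if z - (e om - 1) ∈ Lam ∨ z + (e om - 1) ∈ Lam then 1 else 0) := by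
  have hk := kap_ne
  split_ifs with h1 h2
  · refine GB6_zero xz_per ?_ h1
    obtain ⟨u, hu, -, hexp⟩ := wp_expansion
    refine ⟨fun z => (1 + z ^ 6 * u z) / kap ^ 2, ?_, ?_, ?_⟩
    · fun_prop (disch := exact pow_ne_zero _ kap_ne)
    · simp [hk]
    · filter_upwards [hexp, self_mem_nhdsWithin] with z h3 hz
      have hz' : z ≠ 0 := hz
      unfold xz
      rw [h3, sub_zero, zpow_neg]
      have h4 : z ^ (2 : ℤ) = z ^ 2 := by norm_cast
      rw [h4]
      field_simp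
  · have h3 : xz z = 0 := by
      rw [← GB6_xz_a]
      rcases h2 with h | h
      · exact (GB6_xz_sub h).1
      · exact GB6_xz_add h
    refine Od.of_simple (GB6_xz_an h1) h3 ?_
    have h4 : HasDerivAt xz (wpd z / kap ^ 2) z := (wp_hasDeriv h1).div_const _
    rw [h4.deriv]
    have h5 := fz_sq h1
    rw [h3] at h5
    intro h6
    have h7 : wpd z = 0 := by
      rcases div_eq_zero_iff.1 h6 with h | h
      · exact h
      · exact absurd h (pow_ne_zero 2 hk)
    have h8 : fz z = 0 := by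
      unfold fz
      rw [h7, zero_div]
    rw [h8] at h5
    norm_num at h5
  · refine Od.of_ne (GB6_xz_an h1) fun h3 => h2 ?_
    exact GB6_xz h1 A3_n1 (h3.trans GB6_xz_a.symm)

open Classical in
theorem Od_fz (z : ℂ) : Od fz z (if z ∈ Lam then -3 else if 2 * z ∈ Lam then 1 else 0) := by
  have hk := kap_ne
  split_ifs with h1 h2
  · refine GB6_zero fz_per ?_ h1
    obtain ⟨v, hv, hexp⟩ := wpd_expansion
    refine ⟨fun z => (-2 + z ^ 6 * v z) / kap ^ 3, ?_, ?_, ?_⟩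
    · fun_prop (disch := exact pow_ne_zero _ kap_ne)
    · simp [hk]
    · filter_upwards [hexp, self_mem_nhdsWithin] with z h3 hz
      have hz' : z ≠ 0 := hz
      unfold fz
      rw [h3, sub_zero, zpow_neg]
      have h4 : z ^ (3 : ℤ) = z ^ 3 := by norm_cast
      rw [h4]
      field_simp
  · have h3 : fz z = 0 := by
      obtain ⟨y, hy⟩ := h2
      have h4 := A0_wpd_per (-z) y
      rw [← hy, A0_wpd_neg] at h4
      have h5 : -z + 2 * z = z := by ring
      rw [h5] at h4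
      have h6 : wpd z = 0 := by linear_combination (1 / 2) * h4
      unfold fz
      rw [h6, zero_div]
    refine Od.of_simple (GB6_fz_an h1) h3 ?_
    have h4 : HasDerivAt fz (6 * wp z ^ 2 / kap ^ 3) z := (wpd_hasDeriv h1).div_const _
    rw [h4.deriv]
    have h5 := fz_sq h1
    rw [h3] at h5
    have h6 : wp z ≠ 0 := by
      intro h
      have h7 : xz z = 0 := by
        unfold xz
        rw [h, zero_div]
      rw [h7] at h5
      norm_num at h5
    exact div_ne_zero (mul_ne_zero (by norm_num) (pow_ne_zero 2 h6)) (pow_ne_zero 3 hk)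
  · refine Od.of_ne (GB6_fz_an h1) fun h3 => h2 ?_
    rw [← fc_Phi h1] at h3
    have h4 := fc_eq_zero (fun h0 => h1 (Phi_eq_zero.1 h0)) h3
    rw [GB6_Phi'] at h4
    rwa [two_mul]

theorem exists_a0 : ∃ a : ℂ, (a = e om - 1 ∨ a = -(e om - 1)) ∧ a ∉ Lam ∧ xz a = 0 ∧ yz a = 0 := by
  have h := yz_eqn A3_n1
  rw [GB6_xz_a] at h
  have h1 : yz (e om - 1) * (yz (e om - 1) + 1) = 0 := by linear_combination h
  rcases mul_eq_zero.1 h1 with h2 | h2
  · exact ⟨e om - 1, Or.inl rfl, A3_n1, GB6_xz_a, h2⟩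
  · refine ⟨-(e om - 1), Or.inr rfl, fun h => A3_n1 (neg_mem_iff.1 h), ?_, ?_⟩
    · unfold xz
      rw [wp_neg, wp_zero_at, zero_div]
    · have h3 := fz_eq (e om - 1)
      have h4 : fz (-(e om - 1)) = -fz (e om - 1) := by
        unfold fz
        rw [A0_wpd_neg]
        ring
      unfold yz
      rw [h4, h3]
      linear_combination -h2

open Classical in
theorem Od_yz (a : ℂ) (ha : a ∉ Lam) (h1 : xz a = 0) (h2 : yz a = 0) (z : ℂ) :
    Od yz z (if z ∈ Lam then -3 else if z - a ∈ Lam then 3 else 0) := by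
  have hk := kap_ne
  split_ifs with h3 h4
  · refine GB6_zero yz_per ?_ h3
    obtain ⟨v, hv, hexp⟩ := wpd_expansion
    refine ⟨fun z => (-2 + z ^ 6 * v z - kap ^ 3 * z ^ 3) / (2 * kap ^ 3), ?_, ?_, ?_⟩
    · fun_prop (disch := exact mul_ne_zero two_ne_zero (pow_ne_zero _ kap_ne))
    · simp [hk]
    · filter_upwards [hexp, self_mem_nhdsWithin] with z h3 hz
      have hz' : z ≠ 0 := hz
      unfold yz fz
      rw [h3, sub_zero, zpow_neg]
      have h4 : z ^ (3 : ℤ) = z ^ 3 := by norm_cast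
      rw [h4]
      field_simp
  · obtain ⟨h5, h6⟩ := GB6_xz_sub h4
    rw [h1] at h5
    rw [h2] at h6
    have h7 : Od xz z 1 := by
      have h8 := Od_xz z
      rw [if_neg h3] at h8
      have h9 : z - (e om - 1) ∈ Lam ∨ z + (e om - 1) ∈ Lam :=
        GB6_xz h3 A3_n1 (h5.trans GB6_xz_a.symm)
      rwa [if_pos h9] at h8
    have hy := GB6_yz_an h3
    have h8 : Od (fun t => yz t + 1) z 0 := by
      refine Od.of_ne (by fun_prop) ?_
      show yz z + 1 ≠ 0
      rw [h6, zero_add]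
      exact one_ne_zero
    have h9 := (h7.mul (h7.mul h7)).mul h8.inv
    have h10 : (1 : ℤ) + (1 + 1) + -0 = 3 := by norm_num
    rw [h10] at h9
    refine GB6_congr h9 ?_
    have h11 : ∀ᶠ t in nhds z, yz t + 1 ≠ 0 := by
      have h12 : ContinuousAt (fun t => yz t + 1) z :=
        hy.continuousAt.add continuousAt_const
      apply h12.eventually_ne
      rw [h6, zero_add]
      exact one_ne_zero
    filter_upwards [A2_Lam_discrete z, nhdsWithin_le_nhds h11] with t ht1 ht2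
    have h12 := yz_eqn ht1
    rw [eq_mul_inv_iff_mul_eq₀ ht2]
    linear_combination h12
  · refine Od.of_ne (GB6_yz_an h3) fun h5 => h4 ?_
    have h6 : xz z = 0 := by
      have h7 := yz_eqn h3
      rw [h5] at h7
      have h8 : xz z ^ 3 = 0 := by linear_combination -h7
      exact pow_eq_zero_iff (by norm_num) |>.1 h8
    rw [← GB6_Phi]
    refine pt_ext (fun h0 => h3 (Phi_eq_zero.1 h0)) (fun h0 => ha (Phi_eq_zero.1 h0)) ?_ ?_
    · rw [xc_Phi h3, xc_Phi ha, h6, h1]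
    · rw [yc_Phi h3, yc_Phi ha, h5, h2]

end H28G
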