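import Mathlib
import Pool.Agent.Lib.H28G.GB3
import Pool.Agent.Lib.H28G.GB4
import Pool.Agent.Lib.H28G.GB6

open NumberField IsDedekindDomain WeierstrassCurve

namespace H28G

open H55B

/-! Chunk GB5 (M): the distribution relations for xz, yz, fz. Prim b: 3 | b - 1, so e b p - p in Lam for p with 3-torsion: e b p - p = 3 e(y) p, and for p = 0, p = +-(e om - 1) this is in Lam. b <> 0 (Prim.ne_zero).
distz_x: dist_gen with n from Od_xz; the sum over c of n(z0 + rho c) is by count_pt at p = 0 (with z0 + rho c - 0), p = a, p = -a: write the nested if as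
-2 [z in Lam] + [z - a in Lam] + [z + a in Lam] (the three conditions exclude each other: a, 2a not in Lam because (om - 1), 2 (om - 1) are not divisible by 3 in O, A1_mem_iff, A1_not_dvd).
Equality at z0 with e b z0 not in Lam: then z0 + rho c not in Lam for all c (else e b z0 in Lam), both sides are continuous at z0 and equal on a punctured neighbourhood: equal at z0
(tendsto_nhds_unique).
zero: near 0: xz z * prod_(c <> 0) xz(z + rho c) = C xz(e b z); multiply by z^2: z^2 xz z -> 1/kap^2 (wp_expansion), z^2 xz(e b z) -> 1/(kap^2 (e b)^2); note rho 0 is in Lam and rho c is not in Lam for c <> 0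
(rho_bij), so xz(z + rho 0) = xz z (periodicity). third: at a = +-(e om - 1): xz(a + u + rho 0) = xz(a+u), divide by u: xz(a+u)/u -> xz'(a) = kap fz(a) <> 0, xz(e b (a+u))/u = xz(a + e b u)/u -> e b xz'(a).
distz_y: dist_gen with Od_yz, n = -3 [z in Lam] + 3 [z - a in Lam]. distz_f: Od_fz, count_pt at 0 and count_half. -/

theorem GB5_prim_ne {x : O} (hx : Prim x) : x ≠ 0 := by
  rintro rfl
  have h : (3 : O) ∣ ((-1 : ℤ) : O) + ((0 : ℤ) : O) * om := by
    have h1 : (3 : O) ∣ 0 - 1 := hx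
    simpa using h1
  exact A1_not_dvd (by omega) h

theorem GB5_e_ne {b : O} (hb : b ≠ 0) : e b ≠ 0 := by
  intro h
  apply hb
  apply e_injective
  rw [h, map_zero]

theorem GB5_rho {b : O} (hb : b ≠ 0) (c : O ⧸ Ideal.span {b}) : e b * rho b c ∈ Lam := by
  have h := GB5_e_ne hb
  refine ⟨Quotient.out c, ?_⟩
  unfold rho
  field_simp

theorem GB5_notMem {b : O} (hb : b ≠ 0) (c : O ⧸ Ideal.span {b}) {z : ℂ} (hz : e b * z ∉ Lam) :
    z + rho b c ∉ Lam := by
  intro h
  apply hz
  have h1 := Lam_mul b h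
  rw [mul_add] at h1
  have h2 := A1_add_mem h1 (A1_neg_mem (GB5_rho hb c))
  rwa [add_neg_cancel_right] at h2

theorem GB5_rho_zero (b : O) (hb : b ≠ 0) : ∃ y : O, rho b 0 = 3 * e y := by
  have h0 : (Ideal.Quotient.mk (Ideal.span {b})) (Quotient.out (0 : O ⧸ Ideal.span {b})) = 0 :=
    Ideal.Quotient.mk_out _
  rw [Ideal.Quotient.eq_zero_iff_mem, Ideal.mem_span_singleton] at h0
  obtain ⟨y, hy⟩ := h0
  have h := GB5_e_ne hb
  refine ⟨y, ?_⟩
  unfold rho
  rw [hy, map_mul]
  field_simp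

theorem GB5_rho_ne {b : O} (hb : b ≠ 0) {c : O ⧸ Ideal.span {b}} (hc : c ≠ 0) : rho b c ∉ Lam := by
  rintro ⟨y, hy⟩
  apply hc
  have h := GB5_e_ne hb
  unfold rho at hy
  rw [div_eq_iff h] at hy
  have h1 : e (Quotient.out c) = e (b * y) := by
    rw [map_mul]
    have h3 : (3 : ℂ) ≠ 0 := by norm_num
    apply mul_left_cancel₀ h3
    linear_combination hy
  have h2 := e_injective h1
  rw [← Ideal.Quotient.mk_out c, h2, Ideal.Quotient.eq_zero_iff_mem, Ideal.mem_span_singleton]
  exact ⟨y, rfl⟩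

theorem GB5_wp_deriv {z : ℂ} (h : z ∉ Lam) : HasDerivAt wp (wpd z) z := by
  have h1 := (A2_wp_analytic h).differentiableAt.hasDerivAt
  have h2 : deriv wp z = wpd z := congrFun LL.deriv_weierstrassP z
  rwa [h2] at h1

theorem GB5_xz_an {z : ℂ} (h : z ∉ Lam) : AnalyticAt ℂ xz z := by
  have h1 := A2_wp_analytic h
  have h2 : AnalyticAt ℂ (fun w => wp w / kap ^ 2) z := h1.div analyticAt_const (pow_ne_zero 2 kap_ne)
  exact h2

theorem GB5_fz_an {z : ℂ} (h : z ∉ Lam) : AnalyticAt ℂ fz z := by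
  have h1 := A2_wpd_analytic h
  have h2 : AnalyticAt ℂ (fun w => wpd w / kap ^ 3) z := h1.div analyticAt_const (pow_ne_zero 3 kap_ne)
  exact h2

theorem GB5_yz_an {z : ℂ} (h : z ∉ Lam) : AnalyticAt ℂ yz z := by
  have h1 := GB5_fz_an h
  have h2 : AnalyticAt ℂ (fun w => (fz w - 1) / 2) z :=
    (h1.sub analyticAt_const).div analyticAt_const (by norm_num)
  exact h2

theorem GB5_point (g : ℂ → ℂ) (hg : ∀ z, z ∉ Lam → ContinuousAt g z) (b : O) (hb : b ≠ 0)
    [Fintype (O ⧸ Ideal.span {b})] (C : ℂ)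
    (h : ∀ z₀, ∀ᶠ z in nhdsWithin z₀ {z₀}ᶜ,
      ∏ c : O ⧸ Ideal.span {b}, g (z + rho b c) = C * g (e b * z)) (z : ℂ) (hz : e b * z ∉ Lam) :
    ∏ c : O ⧸ Ideal.span {b}, g (z + rho b c) = C * g (e b * z) := by
  have h1 : ContinuousAt (fun w => ∏ c : O ⧸ Ideal.span {b}, g (w + rho b c)) z := by
    have h2 : ContinuousAt (fun w => ∏ c ∈ (Finset.univ : Finset (O ⧸ Ideal.span {b})),
        g (w + rho b c)) z := by
      refine tendsto_finsetProd _ fun c _ => ?_
      have h3 : ContinuousAt (fun w => w + rho b c) z := by fun_prop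
      exact (hg _ (GB5_notMem hb c hz)).comp (f := fun w => w + rho b c) h3
    exact h2
  have h2 : ContinuousAt (fun w => C * g (e b * w)) z := by
    have h3 : ContinuousAt (fun w => e b * w) z := by fun_prop
    exact continuousAt_const.mul ((hg _ hz).comp (f := fun w => e b * w) h3)
  have h3 := h1.tendsto.mono_left (nhdsWithin_le_nhds (s := {z}ᶜ))
  have h4 := h2.tendsto.mono_left (nhdsWithin_le_nhds (s := {z}ᶜ))
  exact tendsto_nhds_unique (h3.congr' (h z)) h4

theorem GB5_pt_mem {b : O} (hb : Prim b) {p : ℂ} (hp : p = 0 ∨ p = e om - 1 ∨ p = -(e om - 1)) :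
    e b * p - p ∈ Lam := by
  obtain ⟨y, hy⟩ := hb
  have h1 : e b = 1 + 3 * e y := by
    have : b = 1 + 3 * y := by linear_combination hy
    rw [this, map_add, map_mul, map_one, map_ofNat]
  rw [h1]
  rcases hp with rfl | rfl | rfl
  · refine ⟨0, ?_⟩
    rw [map_zero]
    ring
  · refine ⟨y * (om - 1), ?_⟩
    rw [map_mul, map_sub, map_one]
    ring
  · refine ⟨-(y * (om - 1)), ?_⟩
    rw [map_neg, map_mul, map_sub, map_one]
    ring

theorem GB5_two_n1 : 2 * (e om - 1) ∉ Lam := by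
  have h : ¬ (3 : O) ∣ ((-2 : ℤ) : O) + ((2 : ℤ) : O) * om := A1_not_dvd (by omega)
  intro h1
  apply h
  rw [← A1_mem_iff]
  have h2 : e (((-2 : ℤ) : O) + ((2 : ℤ) : O) * om) = 2 * (e om - 1) := by
    push_cast
    rw [map_add, map_neg, map_mul, map_ofNat]
    ring
  rw [h2]
  exact h1

open Classical in
theorem GB5_count_zero (b : O) (hb : b ≠ 0) [Fintype (O ⧸ Ideal.span {b})] (z₀ : ℂ) :
    (∑ c : O ⧸ Ideal.span {b}, if z₀ + rho b c ∈ Lam then (1 : ℤ) else 0) =
      if e b * z₀ ∈ Lam then 1 else 0 := by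
  have h := count_pt b hb 0 (by rw [mul_zero, sub_zero]; exact A1_zero_mem) z₀
  simp only [sub_zero] at h
  exact h

open Classical in
theorem GB5_nx (z : ℂ) : (if z ∈ Lam then (-2 : ℤ) else
    if z - (e om - 1) ∈ Lam ∨ z + (e om - 1) ∈ Lam then 1 else 0) =
    -2 * (if z ∈ Lam then (1 : ℤ) else 0) + (if z - (e om - 1) ∈ Lam then (1 : ℤ) else 0) +
      (if z - (-(e om - 1)) ∈ Lam then (1 : ℤ) else 0) := by
  rw [sub_neg_eq_add]
  by_cases h1 : z ∈ Lam
  · have h2 : z - (e om - 1) ∉ Lam := by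
      intro h
      apply A3_n1
      have := A1_add_mem h1 (A1_neg_mem h)
      have e1 : z + -(z - (e om - 1)) = e om - 1 := by ring
      rwa [e1] at this
    have h3 : z + (e om - 1) ∉ Lam := by
      intro h
      apply A3_n1
      have := A1_add_mem h (A1_neg_mem h1)
      have e1 : z + (e om - 1) + -z = e om - 1 := by ring
      rwa [e1] at this
    simp [h1, h2, h3]
  · by_cases h2 : z - (e om - 1) ∈ Lam
    · have h3 : z + (e om - 1) ∉ Lam := by
        intro h
        apply GB5_two_n1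
        have := A1_add_mem h (A1_neg_mem h2)
        have e1 : z + (e om - 1) + -(z - (e om - 1)) = 2 * (e om - 1) := by ring
        rwa [e1] at this
      simp [h1, h2, h3]
    · simp [h1, h2]

theorem GB5_dist_x (b : O) (hb : Prim b) [Fintype (O ⧸ Ideal.span {b})] :
    ∃ C : ℂ, C ≠ 0 ∧ ∀ z₀, ∀ᶠ z in nhdsWithin z₀ {z₀}ᶜ,
      ∏ c : O ⧸ Ideal.span {b}, xz (z + rho b c) = C * xz (e b * z) := by
  classical
  refine dist_gen xz xz_per _ Od_xz b (GB5_prim_ne hb) ?_
  intro z₀
  simp only [GB5_nx]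
  rw [Finset.sum_add_distrib, Finset.sum_add_distrib, ← Finset.mul_sum,
    GB5_count_zero b (GB5_prim_ne hb) z₀]
  have h1 := count_pt b (GB5_prim_ne hb) (e om - 1) (GB5_pt_mem hb (Or.inr (Or.inl rfl))) z₀
  have h2 := count_pt b (GB5_prim_ne hb) (-(e om - 1)) (GB5_pt_mem hb (Or.inr (Or.inr rfl))) z₀
  rw [h1, h2]

theorem GB5_lim : Filter.Tendsto (fun z => z ^ 2 * xz z) (nhdsWithin 0 {0}ᶜ) (nhds (1 / kap ^ 2)) := by
  obtain ⟨u, hu, -, hexp⟩ := wp_expansion
  have h1 : ContinuousAt (fun z => (1 + z ^ 6 * u z) / kap ^ 2) 0 := by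
    have := hu.continuousAt
    fun_prop
  have h2 := h1.tendsto.mono_left (nhdsWithin_le_nhds (s := {(0 : ℂ)}ᶜ))
  have h3 : (1 + (0 : ℂ) ^ 6 * u 0) / kap ^ 2 = 1 / kap ^ 2 := by
    norm_num
  rw [h3] at h2
  refine h2.congr' ?_
  filter_upwards [hexp, self_mem_nhdsWithin] with z hz hne
  have hne' : z ≠ 0 := hne
  unfold xz
  rw [hz]
  field_simp

theorem distz_x (b : O) (hb : Prim b) [Fintype (O ⧸ Ideal.span {b})] [DecidableEq (O ⧸ Ideal.span {b})] :
    ∃ C : ℂ, C ≠ 0 ∧
    (∀ z, e b * z ∉ Lam → ∏ c : O ⧸ Ideal.span {b}, xz (z + rho b c) = C * xz (e b * z)) ∧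
    (∏ c ∈ Finset.univ.erase (0 : O ⧸ Ideal.span {b}), xz (rho b c) = C / (e b) ^ 2) ∧
    (∀ a : ℂ, a = e om - 1 ∨ a = -(e om - 1) →
      ∏ c ∈ Finset.univ.erase (0 : O ⧸ Ideal.span {b}), xz (a + rho b c) = C * e b) := by
  obtain ⟨C, hC, h⟩ := GB5_dist_x b hb
  have hb0 := (GB5_prim_ne hb)
  have heb := GB5_e_ne hb0
  have hk := kap_ne
  obtain ⟨y0, hy0⟩ := GB5_rho_zero b hb0
  have hsplit : ∀ z, xz z * ∏ c ∈ Finset.univ.erase (0 : O ⧸ Ideal.span {b}), xz (z + rho b c) =
      ∏ c : O ⧸ Ideal.span {b}, xz (z + rho b c) := by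
    intro z
    rw [← Finset.mul_prod_erase Finset.univ _ (Finset.mem_univ (0 : O ⧸ Ideal.span {b})), hy0, xz_per]
  refine ⟨C, hC, GB5_point xz (fun z hz => (GB5_xz_an hz).continuousAt) b hb0 C h, ?_, ?_⟩
  · -- limit at 0
    have h1 : Filter.Tendsto (fun z : ℂ => ∏ c ∈ Finset.univ.erase (0 : O ⧸ Ideal.span {b}),
        xz (z + rho b c)) (nhdsWithin 0 {0}ᶜ)
        (nhds (∏ c ∈ Finset.univ.erase (0 : O ⧸ Ideal.span {b}), xz (rho b c))) := by
      refine tendsto_finsetProd _ fun c hc => ?_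
      have hne := GB5_rho_ne hb0 (Finset.ne_of_mem_erase hc)
      have h3 : ContinuousAt (fun w : ℂ => w + rho b c) 0 := by fun_prop
      have h4 : ContinuousAt xz (0 + rho b c) := by
        rw [zero_add]
        exact (GB5_xz_an hne).continuousAt
      have h5 := (h4.comp (f := fun w : ℂ => w + rho b c) h3).tendsto
      have h6 : (xz ∘ fun w : ℂ => w + rho b c) 0 = xz (rho b c) := by
        simp
      rw [h6] at h5
      exact h5.mono_left nhdsWithin_le_nhds
    have h2 := GB5_lim.mul h1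
    have h3 : Filter.Tendsto (fun z : ℂ => C * (((e b * z) ^ 2 * xz (e b * z)) / (e b) ^ 2))
        (nhdsWithin 0 {0}ᶜ) (nhds (C * (1 / kap ^ 2 / (e b) ^ 2))) := by
      have ht := A1_tendsto (fun z => e b * z) 0 (by fun_prop) (mul_right_injective₀ heb)
      simp only [mul_zero] at ht
      exact ((GB5_lim.comp ht).div_const _).const_mul _
    have h4 : C * (1 / kap ^ 2 / (e b) ^ 2) =
        1 / kap ^ 2 * ∏ c ∈ Finset.univ.erase (0 : O ⧸ Ideal.span {b}), xz (rho b c) := by
      refine tendsto_nhds_unique (h3.congr' ?_) h2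
      filter_upwards [h 0, self_mem_nhdsWithin] with z hz hne
      have hne' : z ≠ 0 := hne
      have := hsplit z
      rw [hz] at this
      field_simp
      linear_combination -this
    field_simp at h4 ⊢
    linear_combination -h4
  · intro a ha
    have haL : a ∉ Lam := by
      rcases ha with rfl | rfl
      · exact A3_n1
      · exact fun h => A3_n1 (neg_mem_iff.1 h)
    have hxa : xz a = 0 := by
      unfold xz
      rcases ha with rfl | rfl
      · rw [wp_zero_at, zero_div]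
      · rw [wp_neg, wp_zero_at, zero_div]
    have hmem : e b * a - a ∈ Lam := GB5_pt_mem hb (Or.inr ha)
    have hda : wpd a ≠ 0 := by
      intro h0
      have h1 := fz_sq haL
      rw [hxa] at h1
      unfold fz at h1
      rw [h0] at h1
      norm_num at h1
    have hebL : e b * a ∉ Lam := by
      intro h0
      apply haL
      have := A1_add_mem h0 (A1_neg_mem hmem)
      have e1 : e b * a + -(e b * a - a) = a := by ring
      rwa [e1] at this
    obtain ⟨y, hy⟩ := hmem
    have hX : HasDerivAt xz (wpd a / kap ^ 2) a := (GB5_wp_deriv haL).div_const _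
    have hP : AnalyticAt ℂ (fun z : ℂ => ∏ c ∈ Finset.univ.erase (0 : O ⧸ Ideal.span {b}),
        xz (z + rho b c)) a := by
      refine Finset.analyticAt_fun_prod _ fun c _ => ?_
      have h1 := GB5_xz_an (GB5_notMem hb0 c hebL)
      exact h1.comp (f := fun w : ℂ => w + rho b c) (by fun_prop)
    have hL := hX.fun_mul hP.differentiableAt.hasDerivAt
    rw [hxa, zero_mul, add_zero] at hL
    have hR : HasDerivAt (fun z : ℂ => C * xz (a + e b * (z - a))) (C * (wpd a / kap ^ 2 * e b)) a := by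
      have h1 : HasDerivAt (fun z : ℂ => a + e b * (z - a)) (e b) a := by
        have h2 := (((hasDerivAt_id a).sub_const a).const_mul (e b)).const_add a
        rw [mul_one] at h2
        exact h2
      have h2 : HasDerivAt xz (wpd a / kap ^ 2) (a + e b * (a - a)) := by
        rw [sub_self, mul_zero, add_zero]
        exact hX
      exact (h2.comp a h1).const_mul C
    have hxz : ∀ z, xz (e b * z) = xz (a + e b * (z - a)) := by
      intro z
      rw [← xz_per (a + e b * (z - a)) y]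
      congr 1
      linear_combination hy
    have heq : (fun z : ℂ => C * xz (a + e b * (z - a))) =ᶠ[nhds a]
        fun z : ℂ => xz z * ∏ c ∈ Finset.univ.erase (0 : O ⧸ Ideal.span {b}), xz (z + rho b c) := by
      have h1 := h a
      rw [eventually_nhdsWithin_iff] at h1
      filter_upwards [h1] with z hz
      by_cases hza : z = a
      · rw [hza, sub_self, mul_zero, add_zero, hxa, zero_mul, mul_zero]
      · rw [hsplit, hz hza, hxz]
    have h1 := (hR.congr_of_eventuallyEq heq.symm).unique hL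
    have h2 : wpd a / kap ^ 2 ≠ 0 := div_ne_zero hda (pow_ne_zero 2 hk)
    apply mul_left_cancel₀ h2
    linear_combination -h1

theorem distz_y (b : O) (hb : Prim b) [Fintype (O ⧸ Ideal.span {b})] : ∃ C : ℂ, C ≠ 0 ∧
    ∀ z, e b * z ∉ Lam → ∏ c : O ⧸ Ideal.span {b}, yz (z + rho b c) = C * yz (e b * z) := by
  classical
  obtain ⟨a, ha, haL, hxa, hya⟩ := exists_a0
  have hn : ∀ z : ℂ, (if z ∈ Lam then (-3 : ℤ) else if z - a ∈ Lam then 3 else 0) =
      -3 * (if z ∈ Lam then (1 : ℤ) else 0) + 3 * (if z - a ∈ Lam then (1 : ℤ) else 0) := by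
    intro z
    by_cases h1 : z ∈ Lam
    · have h2 : z - a ∉ Lam := by
        intro h
        apply haL
        have := A1_add_mem h1 (A1_neg_mem h)
        have e1 : z + -(z - a) = a := by ring
        rwa [e1] at this
      simp [h1, h2]
    · by_cases h2 : z - a ∈ Lam
      · simp [h1, h2]
      · simp [h1, h2]
  obtain ⟨C, hC, h⟩ := dist_gen yz yz_per _ (Od_yz a haL hxa hya) b (GB5_prim_ne hb) (by
    intro z₀
    simp only [hn]
    rw [Finset.sum_add_distrib, ← Finset.mul_sum, ← Finset.mul_sum, GB5_count_zero b (GB5_prim_ne hb) z₀]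
    have h1 := count_pt b (GB5_prim_ne hb) a (GB5_pt_mem hb (Or.inr ha)) z₀
    rw [h1])
  exact ⟨C, hC, GB5_point yz (fun z hz => (GB5_yz_an hz).continuousAt) b (GB5_prim_ne hb) C h⟩

theorem distz_f (b : O) (hb : ¬ (2 : O) ∣ b) [Fintype (O ⧸ Ideal.span {b})] : ∃ C : ℂ, C ≠ 0 ∧
    ∀ z, e b * z ∉ Lam → ∏ c : O ⧸ Ideal.span {b}, fz (z + rho b c) = C * fz (e b * z) := by
  classical
  have hb0 : b ≠ 0 := by
    rintro rfl
    exact hb (dvd_zero 2)
  have hn : ∀ z : ℂ, (if z ∈ Lam then (-3 : ℤ) else if 2 * z ∈ Lam then 1 else 0) =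
      -3 * (if z ∈ Lam then (1 : ℤ) else 0) + (if z ∉ Lam ∧ 2 * z ∈ Lam then (1 : ℤ) else 0) := by
    intro z
    by_cases h1 : z ∈ Lam
    · simp [h1]
    · by_cases h2 : 2 * z ∈ Lam
      · simp [h1, h2]
      · simp [h1, h2]
  obtain ⟨C, hC, h⟩ := dist_gen fz fz_per _ Od_fz b hb0 (by
    intro z₀
    simp only [hn]
    rw [Finset.sum_add_distrib, ← Finset.mul_sum, GB5_count_zero b hb0 z₀, count_half b hb z₀])
  exact ⟨C, hC, GB5_point fz (fun z hz => (GB5_fz_an hz).continuousAt) b hb0 C h⟩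

end H28G
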