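import Mathlib
import Pool.Agent.Lib.H28G.GB5

open NumberField IsDedekindDomain WeierstrassCurve

namespace H28G

open H55B

/-! Chunk GC1 (M): the distribution relations over C for points. X = Phi z (Phi_surj), act b X = Phi (e b z), <> 0 iff e b z not in Lam; the points R of Tor b C are the Phi (rho b c) (rho_bij):
finprod over Tor b C = product over c (finprod_eq_of_bijective / Fintype.prod_equiv, finprod_eq_prod_of_fintype), X + Phi(rho c) = Phi(z + rho c) (Phi_add), z + rho c not in Lam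
(otherwise e b z in Lam), xc_Phi, yc_Phi, fc_Phi. For R <> 0: the c <> 0 (rho 0 in Lam, rho_bij).
C^6 = 1: let q1 be the number of the c <> 0, a = e om - 1 (xz a = 0: wp_zero_at, a not in Lam, A = Phi a). For c <> 0, R = Phi(rho c): xc R <> 0 (otherwise R = A or -A (xc_eq), act b A = A because e b a - a in Lam
(Prim b), but act b R = 0). add_coords for A and R: xc(A+R) = ((yc A - yc R)/(- xc R))^2 - xc R; with yc A in {0, -1}: yc A = 0: = (yc R^2 - xc R^3)/xc R^2 = - yc R/xc R^2; for yc A = -1: ((1 + yc R)^2 - xc R^3)/xc R^2 =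
(1 + yc R)/xc R^2. In both cases xc(A+R) xc(A-R) = -1/xc R (replace yc R by -1 - yc R in the second factor; yc R (1 + yc R) = xc R^3). xz(-a + rho c) = xz(a - rho c) = xc(A - R). So the product of the two relations
prod xz(a + rho c) = C e b, prod xz(-a + rho c) = C e b is (C e b)^2 = prod over c <> 0 of (-1/xz(rho c)) = (-1)^q1 (e b)^2/C, so C^3 = (-1)^q1 and C^6 = 1. -/

theorem GC1_a_notMem : e om - 1 ∉ Lam := by
  have h : e om - 1 = e (((-1 : ℤ) : O) + ((1 : ℤ) : O) * om) := by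
    rw [map_add, map_mul, map_intCast, map_intCast]
    push_cast
    ring
  rw [h, A1_mem_iff]
  exact A1_not_dvd (by norm_num)

theorem GC1_ne {b : O} (hb : Prim b) : b ≠ 0 := by
  rintro rfl
  have h : (3 : O) ∣ ((-1 : ℤ) : O) + ((0 : ℤ) : O) * om := by
    have h1 : (3 : O) ∣ 0 - 1 := hb
    simpa using h1
  exact A1_not_dvd (by norm_num) h

theorem GC1_e_ne {b : O} (hb : b ≠ 0) : e b ≠ 0 := fun h => hb (e_injective (by rw [h, map_zero]))

theorem GC1_rho_mul {b : O} (hb : b ≠ 0) (c : O ⧸ Ideal.span {b}) : e b * rho b c ∈ Lam := by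
  refine ⟨Quotient.out c, ?_⟩
  unfold rho
  rw [mul_div_cancel₀ _ (GC1_e_ne hb)]

theorem GC1_notMem {b : O} (hb : b ≠ 0) {z : ℂ} (hz : e b * z ∉ Lam) (c : O ⧸ Ideal.span {b}) :
    z + rho b c ∉ Lam := by
  intro h
  apply hz
  have h1 := Lam_mul b h
  have h2 : e b * z = e b * (z + rho b c) + -(e b * rho b c) := by ring
  rw [h2]
  exact A1_add_mem h1 (A1_neg_mem (GC1_rho_mul hb c))

theorem GC1_finprod {b : O} (hb : b ≠ 0) [Fintype (O ⧸ Ideal.span {b})] (g : P27 ℂ → ℂ) :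
    ∏ᶠ R : Tor b ℂ, g (R : P27 ℂ) = ∏ c : O ⧸ Ideal.span {b}, g (Phi (rho b c)) := by
  rw [← finprod_eq_prod_of_fintype]
  exact (finprod_eq_of_bijective _ (rho_bij b hb) fun c => rfl).symm

theorem GC1_main {b : O} (hb : b ≠ 0) [Fintype (O ⧸ Ideal.span {b})] (g : P27 ℂ → ℂ) (gz : ℂ → ℂ)
    (hg : ∀ z, z ∉ Lam → g (Phi z) = gz z) {C : ℂ}
    (h : ∀ z, e b * z ∉ Lam → ∏ c : O ⧸ Ideal.span {b}, gz (z + rho b c) = C * gz (e b * z))
    (X : P27 ℂ) (hX : act b X ≠ 0) :
    ∏ᶠ R : Tor b ℂ, g (X + (R : P27 ℂ)) = C * g (act b X) := by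
  obtain ⟨z, rfl⟩ := Phi_surj X
  have hz : e b * z ∉ Lam := by
    intro h1
    apply hX
    rw [← Phi_act]
    exact Phi_of_mem h1
  rw [← Phi_act, hg _ hz, ← h z hz, GC1_finprod hb (fun R => g (Phi z + R))]
  refine Finset.prod_congr rfl fun c _ => ?_
  rw [← Phi_add, hg _ (GC1_notMem hb hz c)]

theorem GC1_zero {b : O} (hb : b ≠ 0) (c : O ⧸ Ideal.span {b}) : Phi (rho b c) = 0 ↔ c = 0 := by
  have h0 : Phi (rho b 0) = 0 := by
    rw [Phi_eq_zero]
    have h1 : Ideal.Quotient.mk (Ideal.span {b}) (Quotient.out (0 : O ⧸ Ideal.span {b})) = 0 :=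
      Ideal.Quotient.mk_out _
    rw [Ideal.Quotient.eq_zero_iff_mem, Ideal.mem_span_singleton] at h1
    obtain ⟨y, hy⟩ := h1
    refine ⟨y, ?_⟩
    unfold rho
    rw [hy, map_mul, div_eq_iff (GC1_e_ne hb)]
    ring
  constructor
  · intro h
    apply (rho_bij b hb).1
    apply Subtype.ext
    change Phi (rho b c) = Phi (rho b 0)
    rw [h, h0]
  · rintro rfl
    exact h0

theorem GC1_finprod' {b : O} (hb : b ≠ 0) [Fintype (O ⧸ Ideal.span {b})]
    [DecidableEq (O ⧸ Ideal.span {b})] (g : P27 ℂ → ℂ) :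
    ∏ᶠ R : {R : Tor b ℂ // R ≠ 0}, g (R.1 : P27 ℂ) =
      ∏ c ∈ Finset.univ.erase (0 : O ⧸ Ideal.span {b}), g (Phi (rho b c)) := by
  have hbij := rho_bij b hb
  let ψ : {c : O ⧸ Ideal.span {b} // c ≠ 0} → {R : Tor b ℂ // R ≠ 0} := fun c =>
    ⟨⟨Phi (rho b c.1), rho_mem b hb c.1⟩, fun h => c.2 ((GC1_zero hb c.1).1 (congrArg Subtype.val h))⟩
  have hψ : Function.Bijective ψ := by
    constructor
    · intro c c' h
      apply Subtype.ext
      apply hbij.1
      exact congrArg Subtype.val h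
    · rintro ⟨R, hR⟩
      obtain ⟨c, hc⟩ := hbij.2 R
      refine ⟨⟨c, ?_⟩, ?_⟩
      · intro h0
        apply hR
        rw [← hc]
        exact Subtype.ext ((GC1_zero hb c).2 h0)
      · apply Subtype.ext
        exact hc
  rw [Finset.prod_subtype (Finset.univ.erase (0 : O ⧸ Ideal.span {b})) (p := fun c => c ≠ 0)
    (fun x => by simp) (fun c => g (Phi (rho b c))), ← finprod_eq_prod_of_fintype]
  exact (finprod_eq_of_bijective ψ hψ fun c => rfl).symm

/-- The product of the two translates by a point A with x(A) = 0. -/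
theorem GC1_pair {A R : P27 ℂ} (hA : A ≠ 0) (hR : R ≠ 0) (hxA : xc A = 0) (hxR : xc R ≠ 0) :
    xc (A + R) * xc (-A + R) = -1 / xc R := by
  have hxA' : xc (-A) = 0 := by rw [xc_neg, hxA]
  obtain ⟨-, h1, -⟩ := add_coords hA hR (by rw [hxA]; exact hxR.symm)
  obtain ⟨-, h2, -⟩ := add_coords (neg_ne hA) hR (by rw [hxA']; exact hxR.symm)
  have hy := eqn A
  rw [hxA] at hy
  have hyA : yc A * (yc A + 1) = 0 := by linear_combination hy
  have hyR := eqn R
  rw [h1, h2, hxA, hxA', yc_neg hA]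
  obtain ⟨x, hx⟩ : ∃ x, x = xc R := ⟨_, rfl⟩
  obtain ⟨y, hy⟩ : ∃ y, y = yc R := ⟨_, rfl⟩
  rw [← hx, ← hy] at hyR
  rw [← hx] at hxR
  rw [← hx, ← hy]
  rcases mul_eq_zero.1 hyA with h | h
  · rw [h]
    have e1 : ((0 - y) / (0 - x)) ^ 2 - 0 - x = -y / x ^ 2 := by
      field_simp
      linear_combination x ^ 2 * hyR
    have e2 : ((-1 - 0 - y) / (0 - x)) ^ 2 - 0 - x = (1 + y) / x ^ 2 := by
      field_simp
      linear_combination x ^ 2 * hyR
    rw [e1, e2]
    field_simp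
    linear_combination -hyR
  · have h' : yc A = -1 := by linear_combination h
    rw [h']
    have e1 : ((-1 - y) / (0 - x)) ^ 2 - 0 - x = (1 + y) / x ^ 2 := by
      field_simp
      linear_combination x ^ 2 * hyR
    have e2 : ((-1 - -1 - y) / (0 - x)) ^ 2 - 0 - x = -y / x ^ 2 := by
      field_simp
      linear_combination x ^ 2 * hyR
    rw [e1, e2]
    field_simp
    linear_combination -hyR

theorem distC_x (b : O) (hb : Prim b) : ∃ C : ℂ, C ^ 6 = 1 ∧
    (∀ X : P27 ℂ, act b X ≠ 0 → ∏ᶠ R : Tor b ℂ, xc (X + (R : P27 ℂ)) = C * xc (act b X)) ∧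
    ∏ᶠ R : {R : Tor b ℂ // R ≠ 0}, xc (R.1 : P27 ℂ) = C / (e b) ^ 2 := by
  classical
  have hb0 : b ≠ 0 := GC1_ne hb
  have := finite_quot b hb0
  have : Fintype (O ⧸ Ideal.span {b}) := Fintype.ofFinite _
  obtain ⟨C, hC0, h1, h2, h3⟩ := distz_x b hb
  have heb := GC1_e_ne hb0
  have hne : ∀ c ∈ Finset.univ.erase (0 : O ⧸ Ideal.span {b}), Phi (rho b c) ≠ 0 := by
    intro c hc h
    exact Finset.ne_of_mem_erase hc ((GC1_zero hb0 c).1 h)
  have hnL : ∀ c ∈ Finset.univ.erase (0 : O ⧸ Ideal.span {b}), rho b c ∉ Lam :=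
    fun c hc h => hne c hc (Phi_of_mem h)
  refine ⟨C, ?_, ?_, ?_⟩
  · -- the sixth power
    obtain ⟨a, ha⟩ : ∃ a, a = e om - 1 := ⟨_, rfl⟩
    have ha0 : a ∉ Lam := by rw [ha]; exact GC1_a_notMem
    have hA0 : Phi a ≠ 0 := fun h => ha0 (Phi_eq_zero.1 h)
    have hxA : xc (Phi a) = 0 := by
      rw [xc_Phi ha0, ha]
      unfold xz
      rw [wp_zero_at, zero_div]
    have hbA : act b (Phi a) = Phi a := by
      obtain ⟨y, hy⟩ := hb
      rw [← Phi_act]
      have h4 : e b * a = a + 3 * e (y * (om - 1)) := by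
        have h5 : b = 1 + 3 * y := by linear_combination hy
        rw [h5, ha]
        simp only [map_add, map_mul, map_sub, map_one, map_ofNat]
        ring
      rw [h4, Phi_per]
    have hxR : ∀ c ∈ Finset.univ.erase (0 : O ⧸ Ideal.span {b}), xc (Phi (rho b c)) ≠ 0 := by
      intro c hc h
      have h4 : act b (Phi (rho b c)) = 0 := rho_mem b hb0 c
      rcases xc_eq (hne c hc) hA0 (by rw [h, hxA]) with h5 | h5
      · rw [h5, hbA] at h4
        exact hA0 h4
      · rw [h5, map_neg, hbA] at h4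
        exact neg_ne hA0 h4
    have hpair : ∀ c ∈ Finset.univ.erase (0 : O ⧸ Ideal.span {b}),
        xz (a + rho b c) * xz (-a + rho b c) = -1 / xz (rho b c) := by
      intro c hc
      have h4 : a + rho b c ∉ Lam := by
        intro h
        have h5 := Phi_of_mem h
        rw [Phi_add] at h5
        apply hxR c hc
        have h6 : Phi (rho b c) = -Phi a := (neg_eq_of_add_eq_zero_right h5).symm
        rw [h6, xc_neg, hxA]
      have h4' : -a + rho b c ∉ Lam := by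
        intro h
        have h5 := Phi_of_mem h
        rw [Phi_add, Phi_neg] at h5
        apply hxR c hc
        have h6 : Phi (rho b c) = Phi a := (neg_add_eq_zero.1 h5).symm
        rw [h6, hxA]
      rw [← xc_Phi h4, ← xc_Phi h4', ← xc_Phi (hnL c hc), Phi_add, Phi_add, Phi_neg]
      exact GC1_pair hA0 (hne c hc) hxA (hxR c hc)
    have h4 := h3 a (Or.inl ha)
    have h5 := h3 (-a) (Or.inr (by rw [ha]))
    have h6 : (C * e b) * (C * e b) = (-1) ^ (Finset.univ.erase (0 : O ⧸ Ideal.span {b})).card /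
        (C / (e b) ^ 2) := by
      rw [← h2]
      nth_rewrite 1 [← h4]
      rw [← h5, ← Finset.prod_mul_distrib, Finset.prod_congr rfl hpair, Finset.prod_div_distrib,
        Finset.prod_const]
    have h7 : C ^ 3 = (-1) ^ (Finset.univ.erase (0 : O ⧸ Ideal.span {b})).card := by
      rw [eq_div_iff (div_ne_zero hC0 (pow_ne_zero 2 heb))] at h6
      rw [← h6]
      field_simp
    calc C ^ 6 = (C ^ 3) ^ 2 := by ring
      _ = 1 := by rw [h7, ← pow_mul, mul_comm, pow_mul, neg_one_sq, one_pow]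
  · exact GC1_main hb0 xc xz (fun z hz => xc_Phi hz) h1
  · rw [← h2, GC1_finprod' hb0 xc]
    exact Finset.prod_congr rfl fun c hc => xc_Phi (hnL c hc)

theorem distC_y (b : O) (hb : Prim b) : ∃ C : ℂ, C ≠ 0 ∧
    ∀ X : P27 ℂ, act b X ≠ 0 → ∏ᶠ R : Tor b ℂ, yc (X + (R : P27 ℂ)) = C * yc (act b X) := by
  have hb0 : b ≠ 0 := GC1_ne hb
  have := finite_quot b hb0
  have : Fintype (O ⧸ Ideal.span {b}) := Fintype.ofFinite _
  obtain ⟨C, hC0, h1⟩ := distz_y b hb
  exact ⟨C, hC0, GC1_main hb0 yc yz (fun z hz => yc_Phi hz) h1⟩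

theorem distC_f (b : O) (hb : ¬ (2 : O) ∣ b) : ∃ C : ℂ, C ≠ 0 ∧
    ∀ X : P27 ℂ, act b X ≠ 0 → ∏ᶠ R : Tor b ℂ, fc (X + (R : P27 ℂ)) = C * fc (act b X) := by
  have hb0 : b ≠ 0 := by
    rintro rfl
    exact hb (dvd_zero _)
  have := finite_quot b hb0
  have : Fintype (O ⧸ Ideal.span {b}) := Fintype.ofFinite _
  obtain ⟨C, hC0, h1⟩ := distz_f b hb
  exact ⟨C, hC0, GC1_main hb0 fc fz (fun z hz => fc_Phi hz) h1⟩

end H28G
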