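import Mathlib
import Pool.Agent.Lib.H28G.GC1
import Pool.Agent.Lib.H28G.Map

open NumberField IsDedekindDomain WeierstrassCurve

namespace H28G

open H55B

/-! Chunk GC2 (S/M): transfer to a field k over F with an embedding j into C and full b-torsion. mp j is a bijection Tor b k -> Tor b C (Full.bij, full_C, mp_inj). Put C' = (ak k b)^2 * finprod in k; its image is C
(j (ak k b) = e b: j.commutes, algC_e; map_finprod or finite products: Full.finite), so C'^6 = 1 by injectivity. For X over k: apply the relation over C to mp j X: mp j (X + R) = mp j X + mp j R, mp_act, xc_mp; both sides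
are images under j: injectivity of j. For y and f: C in C is not a priori in j(k): if there is a point X over k with act b X <> 0 and yc (act b X) <> 0 then C = j(quotient): use X = Spt = pt (-1) (ok k) (yc <> 0;
act b Spt = Spt for Prim b) for y. For f: X = Spt with b replaced: act b Spt <> 0 because 3 Spt = 0 and b prime to 3; here Prim b is assumed too (fc Spt = 2 om + 1 <> 0). So C' = (finprod over R of yc (Spt + R)) / yc Spt. -/

/-- The ring homomorphism from O to k. -/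
noncomputable def ak (k : Type) [Field k] [Algebra F k] : O →+* k := (algebraMap F k).comp (algebraMap O F)

section
variable {k : Type} [Field k] [DecidableEq k] [Algebra F k]

omit [DecidableEq k] in
theorem Spt_aux : (ok k) ^ 2 + ok k = (-1 : k) ^ 3 := by linear_combination ok_rel (k := k)

/-- The point S = (-1, om) of order 3. -/
noncomputable def Spt (k : Type) [Field k] [Algebra F k] : P27 k := pt (-1) (ok k) Spt_aux

omit [DecidableEq k] in
theorem GC2_ne : Spt k ≠ 0 := pt_ne _ _ _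

omit [DecidableEq k] in
theorem GC2_xc : xc (Spt k) = -1 := rfl

omit [DecidableEq k] in
theorem GC2_yc : yc (Spt k) = ok k := rfl

omit [DecidableEq k] in
theorem GC2_fc : fc (Spt k) = 2 * ok k + 1 := rfl

omit [DecidableEq k] in
theorem GC2_fc_sq : (2 * ok k + 1) ^ 2 = -3 := by linear_combination 4 * ok_rel (k := k)

omit [DecidableEq k] in
theorem GC2_fc_ne : fc (Spt k) ≠ 0 := by
  intro h
  rw [GC2_fc] at h
  have h1 := GC2_fc_sq (k := k)
  rw [h] at h1
  have := char0 (k := k)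
  norm_num at h1

theorem three_Spt : (3 : ℤ) • Spt k = 0 := by
  obtain ⟨h1, h2, h3⟩ := dbl_coords (P := Spt k) GC2_ne GC2_fc_ne
  have hs := GC2_fc_sq (k := k)
  have hf := GC2_fc_ne (k := k)
  have hx : xc (Spt k + Spt k) = xc (Spt k) := by
    rw [h2, div_pow, GC2_fc, hs, GC2_xc]
    have := char0 (k := k)
    norm_num
  have hy : yc (Spt k + Spt k) = yc (-Spt k) := by
    rw [h3, hx, sub_self, mul_zero, zero_add, yc_neg GC2_ne]
  have h4 : Spt k + Spt k = -Spt k := pt_ext h1 (neg_ne GC2_ne) (by rw [hx, xc_neg]) hy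
  have h5 : (3 : ℤ) • Spt k = Spt k + Spt k + Spt k := by
    have : (3 : ℤ) = 1 + 1 + 1 := by norm_num
    rw [this, add_zsmul, add_zsmul, one_zsmul]
  rw [h5, h4, neg_add_cancel]

theorem act_Spt (b : O) (hb : Prim b) : act b (Spt k) = Spt k := by
  obtain ⟨c, hc⟩ := hb
  have h1 : b = c * ((3 : ℤ) : O) + 1 := by
    push_cast
    linear_combination hc
  rw [h1, act_add, act_mul, act_int, three_Spt, map_zero, act_one, zero_add]

theorem GC2_prod (j : k →ₐ[F] ℂ) {b : O} (hb : b ≠ 0) (hf : Full b k) (g : P27 k → k) (g' : P27 ℂ → ℂ)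
    (hg : ∀ P, g' (mp j P) = j (g P)) (X : P27 k) :
    j (∏ᶠ R : Tor b k, g (X + (R : P27 k))) = ∏ᶠ R : Tor b ℂ, g' (mp j X + (R : P27 ℂ)) := by
  have h1 : j (∏ᶠ R : Tor b k, g (X + (R : P27 k))) = ∏ᶠ R : Tor b k, j (g (X + (R : P27 k))) :=
    MonoidHom.map_finprod_of_injective (j : k →* ℂ) j.injective _
  have hb' := Full.bij hb j hf (full_C b hb)
  let φ : Tor b k → Tor b ℂ := fun S => ⟨mp j S.1, (mp_mem_Tor j b S.1).2 S.2⟩
  have hφ : Function.Bijective φ := by
    refine ⟨fun a b hab => Subtype.ext (mp_inj j (congrArg Subtype.val hab)), ?_⟩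
    intro R
    obtain ⟨S, hS, hS'⟩ := hb' R.1 R.2
    exact ⟨⟨S, hS⟩, Subtype.ext hS'⟩
  rw [h1, ← finprod_comp φ hφ]
  refine finprod_congr fun R => ?_
  rw [← hg, map_add]

theorem GC2_prod0 (j : k →ₐ[F] ℂ) {b : O} (hb : b ≠ 0) (hf : Full b k) (g : P27 k → k) (g' : P27 ℂ → ℂ)
    (hg : ∀ P, g' (mp j P) = j (g P)) :
    j (∏ᶠ R : {R : Tor b k // R ≠ 0}, g (R.1 : P27 k)) = ∏ᶠ R : {R : Tor b ℂ // R ≠ 0}, g' (R.1 : P27 ℂ) := by
  have h1 : j (∏ᶠ R : {R : Tor b k // R ≠ 0}, g (R.1 : P27 k)) =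
      ∏ᶠ R : {R : Tor b k // R ≠ 0}, j (g (R.1 : P27 k)) :=
    MonoidHom.map_finprod_of_injective (j : k →* ℂ) j.injective _
  have hb' := Full.bij hb j hf (full_C b hb)
  let φ : {R : Tor b k // R ≠ 0} → {R : Tor b ℂ // R ≠ 0} := fun S =>
    ⟨⟨mp j S.1.1, (mp_mem_Tor j b S.1.1).2 S.1.2⟩, fun h => by
      have h2 : mp j S.1.1 = 0 := congrArg Subtype.val h
      exact mp_ne j (fun h3 => S.2 (Subtype.ext h3)) h2⟩
  have hφ : Function.Bijective φ := by
    refine ⟨fun a b hab => ?_, ?_⟩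
    · have h2 : mp j a.1.1 = mp j b.1.1 := congrArg (fun x => (x.1 : Tor _ ℂ).1) hab
      exact Subtype.ext (Subtype.ext (mp_inj j h2))
    · intro R
      obtain ⟨S, hS, hS'⟩ := hb' R.1.1 R.1.2
      refine ⟨⟨⟨S, hS⟩, fun h => R.2 ?_⟩, Subtype.ext (Subtype.ext hS')⟩
      have h2 : S = 0 := congrArg Subtype.val h
      rw [h2, map_zero] at hS'
      exact Subtype.ext hS'.symm
  rw [h1, ← finprod_comp φ hφ]
  refine finprod_congr fun R => ?_
  rw [← hg]

theorem GC2_ne_zero {b : O} (hb : Prim b) : b ≠ 0 := by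
  rintro rfl
  obtain ⟨c, hc⟩ := hb
  have h1 : (3 : O) ∣ 1 := ⟨-c, by linear_combination -hc⟩
  have h2 : e 1 ∈ Lam := (A1_mem_iff 1).2 h1
  rw [map_one] at h2
  exact A1_one_notMem h2

omit [DecidableEq k] in
theorem GC2_inj (j : k →ₐ[F] ℂ) {x y : k} (h : j x = j y) : x = y := j.injective h

omit [DecidableEq k] in
theorem GC2_ak (j : k →ₐ[F] ℂ) (b : O) : j (ak k b) = e b := j.commutes _

theorem dist_x (j : k →ₐ[F] ℂ) (b : O) (hb : Prim b) (hf : Full b k) : ∃ C : k, C ^ 6 = 1 ∧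
    (∀ X : P27 k, act b X ≠ 0 → ∏ᶠ R : Tor b k, xc (X + (R : P27 k)) = C * xc (act b X)) ∧
    ∏ᶠ R : {R : Tor b k // R ≠ 0}, xc (R.1 : P27 k) = C / (ak k b) ^ 2 := by
  have hb0 := GC2_ne_zero hb
  have heb : e b ≠ 0 := fun h => hb0 (e_injective (by rw [h, map_zero]))
  have hak : ak k b ≠ 0 := by
    intro h
    have := GC2_ak j b
    rw [h, map_zero] at this
    exact heb this.symm
  obtain ⟨C, h6, hX, h0⟩ := distC_x b hb
  set C' : k := (ak k b) ^ 2 * ∏ᶠ R : {R : Tor b k // R ≠ 0}, xc (R.1 : P27 k) with hC'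
  have hj : j C' = C := by
    rw [hC', map_mul, map_pow, GC2_ak, GC2_prod0 j hb0 hf xc xc (fun P => xc_mp j P), h0]
    field_simp
  refine ⟨C', ?_, ?_, ?_⟩
  · refine GC2_inj j ?_
    rw [map_pow, hj, h6, map_one]
  · intro X hXb
    refine GC2_inj j ?_
    rw [GC2_prod j hb0 hf xc xc (fun P => xc_mp j P), map_mul, hj, ← xc_mp, mp_act]
    apply hX
    rw [← mp_act]
    exact mp_ne j hXb
  · rw [hC', mul_div_cancel_left₀ _ (pow_ne_zero 2 hak)]

theorem dist_y (j : k →ₐ[F] ℂ) (b : O) (hb : Prim b) (hf : Full b k) : ∃ C : k, C ≠ 0 ∧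
    ∀ X : P27 k, act b X ≠ 0 → ∏ᶠ R : Tor b k, yc (X + (R : P27 k)) = C * yc (act b X) := by
  have hb0 := GC2_ne_zero hb
  obtain ⟨C, hC, hX⟩ := distC_y b hb
  set C' : k := (∏ᶠ R : Tor b k, yc (Spt k + (R : P27 k))) / yc (Spt k) with hC'
  have hj : j C' = C := by
    have h1 : act b (mp j (Spt k)) ≠ 0 := by
      rw [← mp_act, act_Spt b hb]
      exact mp_ne j GC2_ne
    have h2 : yc (mp j (Spt k)) ≠ 0 := by
      rw [yc_mp]
      exact (map_ne_zero j).2 (by rw [GC2_yc]; exact ok_ne)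
    rw [hC', map_div₀, GC2_prod j hb0 hf yc yc (fun P => yc_mp j P), hX _ h1, ← mp_act,
      act_Spt b hb, ← yc_mp, mul_div_cancel_right₀ _ h2]
  refine ⟨C', ?_, ?_⟩
  · intro h
    rw [h, map_zero] at hj
    exact hC hj.symm
  · intro X hXb
    refine GC2_inj j ?_
    rw [GC2_prod j hb0 hf yc yc (fun P => yc_mp j P), map_mul, hj, ← yc_mp, mp_act]
    apply hX
    rw [← mp_act]
    exact mp_ne j hXb

theorem dist_f (j : k →ₐ[F] ℂ) (b : O) (hb : Prim b) (h2 : ¬ (2 : O) ∣ b) (hf : Full b k) :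
    ∃ C : k, C ≠ 0 ∧
    ∀ X : P27 k, act b X ≠ 0 → ∏ᶠ R : Tor b k, fc (X + (R : P27 k)) = C * fc (act b X) := by
  have hb0 := GC2_ne_zero hb
  obtain ⟨C, hC, hX⟩ := distC_f b h2
  set C' : k := (∏ᶠ R : Tor b k, fc (Spt k + (R : P27 k))) / fc (Spt k) with hC'
  have hj : j C' = C := by
    have h1 : act b (mp j (Spt k)) ≠ 0 := by
      rw [← mp_act, act_Spt b hb]
      exact mp_ne j GC2_ne
    have h2 : fc (mp j (Spt k)) ≠ 0 := by
      rw [fc_mp]
      exact (map_ne_zero j).2 GC2_fc_ne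
    rw [hC', map_div₀, GC2_prod j hb0 hf fc fc (fun P => fc_mp j P), hX _ h1, ← mp_act,
      act_Spt b hb, ← fc_mp, mul_div_cancel_right₀ _ h2]
  refine ⟨C', ?_, ?_⟩
  · intro h
    rw [h, map_zero] at hj
    exact hC hj.symm
  · intro X hXb
    refine GC2_inj j ?_
    rw [GC2_prod j hb0 hf fc fc (fun P => fc_mp j P), map_mul, hj, ← fc_mp, mp_act]
    apply hX
    rw [← mp_act]
    exact mp_ne j hXb

end

end H28G
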