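import Mathlib
import Pool.Agent.Lib.H28G.GB1
import Pool.Agent.Lib.H28G.Map

open NumberField IsDedekindDomain WeierstrassCurve

namespace H28G

open H55B

/-! Chunk GD1 (M): the torsion points are algebraic. alg_coord: let R in Tor b C, R <> 0, x = xc R, and suppose x is transcendental over F. M0 = F(x) (IntermediateField.adjoin F {x}), M1 = the algebraic closure of M0 in C
(algebraicClosure M0 C or the integral closure; algebraically closed is not needed, only algebraic over M0, and it contains y = yc R since y^2 + y = x^3). For n in N there is an F-algebra homomorphism s_n : M0 -> C with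
s_n x = x + n (x + n is transcendental: IsFractionRing/RatFunc lift, or AlgebraicIndependent.aevalEquiv, IntermediateField.algHomAdjoinIntegralEquiv is only for algebraic x; use
RatFunc/FractionRing F[X] ≃ F(x): IntermediateField.adjoin of a transcendental element, Transcendental), extended to M1 -> C by IsAlgClosed.lift. R comes from a point R1 over M1 (coordinates in M1), act b R1 = 0 (mp_mem_Tor for the inclusion); its image
under mp s_n is in Tor b C and has x-coordinate x + n: infinitely many elements in the finite group Tor b C (Full.finite (full_C)). Contradiction. So x and y are algebraic over F.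
full_Om: j : Om -> C over F (IsAlgClosed.lift). Every R in Tor b C, R <> 0, has algebraic coordinates, so they are in j(Om) (Om algebraically closed: the minimal polynomial of x over F splits in Om, its image under j has the roots
j(roots), x is one of them: e.g. via algebraicClosure F C = range of j, or Polynomial.Splits.image_rootSet), hence R = mp j S with S = pt of the preimages (the equation holds by injectivity of j). So mp j is a bijection from Tor b Om to Tor b C
(mp_mem_Tor) and the cardinalities agree. -/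

open IntermediateField in
/-- The embedding of F(x) with x to x + n. -/
noncomputable def GD1_s (x : ℂ) (h : Transcendental F x) (n : ℕ) (h' : Transcendental F (x + n)) : F⟮x⟯ →ₐ[F] ℂ :=
  (F⟮x + n⟯).val.comp (((RatFunc.algEquivOfTranscendental (x + n) h').toAlgHom).comp
    (RatFunc.algEquivOfTranscendental x h).symm.toAlgHom)

open IntermediateField in
theorem GD1_s_gen (x : ℂ) (h : Transcendental F x) (n : ℕ) (h' : Transcendental F (x + n)) :
    GD1_s x h n h' (AdjoinSimple.gen F x) = x + n := by
  change (F⟮x + n⟯).val ((RatFunc.algEquivOfTranscendental (x + n) h') ((RatFunc.algEquivOfTranscendental x h).symm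
    (AdjoinSimple.gen F x))) = x + n
  rw [RatFunc.algEquivOfTranscendental_symm_gen]
  exact RatFunc.algEquivOfTranscendental_X (x + n) h'

theorem GD1_y (P : P27 ℂ) (h : IsAlgebraic F (xc P)) : IsAlgebraic F (yc P) := by
  have h1 : IsAlgebraic F (4 * xc P ^ 3 + 1) := by
    have h4 : IsAlgebraic F (4 : ℂ) := by
      have := isAlgebraic_algebraMap (R := F) (A := ℂ) (4 : F)
      rwa [map_ofNat] at this
    have h5 : IsAlgebraic F (1 : ℂ) := isAlgebraic_one
    exact (h4.mul (h.pow 3)).add h5
  rw [← fc_sq] at h1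
  have h2 : IsAlgebraic F (fc P) := IsAlgebraic.of_pow (by norm_num) h1
  have h3 : yc P = (algebraMap F ℂ (1 / 2)) * (fc P - 1) := by
    unfold fc
    rw [map_div₀, map_one, map_ofNat]
    ring
  rw [h3]
  exact (isAlgebraic_algebraMap _).mul (h2.sub isAlgebraic_one)

open IntermediateField in
theorem GD1_x (b : O) (hb : b ≠ 0) (R : P27 ℂ) (hR : R ∈ Tor b ℂ) : IsAlgebraic F (xc R) := by
  classical
  by_contra htr
  have h : Transcendental F (xc R) := htr
  have hR0 : R ≠ 0 := by
    rintro rfl
    exact htr (by rw [xc_zero]; exact isAlgebraic_zero)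
  have hn : ∀ n : ℕ, Transcendental F (xc R + n) := by
    intro n h1
    apply htr
    have h2 : xc R = (xc R + n) - algebraMap F ℂ (n : F) := by
      rw [map_natCast]
      ring
    rw [h2]
    exact h1.sub (isAlgebraic_algebraMap _)
  have hfin : Finite (Tor b ℂ) := (full_C b hb).finite hb
  let M0 := F⟮xc R⟯
  let M1 := algebraicClosure M0 ℂ
  have hx1 : xc R ∈ M1 := by
    rw [mem_algebraicClosure_iff]
    exact isAlgebraic_algebraMap (R := M0) (A := ℂ) (AdjoinSimple.gen F (xc R))
  have hy1 : yc R ∈ M1 := by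
    rw [mem_algebraicClosure_iff]
    have h1 : IsAlgebraic M0 (fc R) := by
      refine IsAlgebraic.of_pow (n := 2) (by norm_num) ?_
      rw [fc_sq]
      have e : (4 * xc R ^ 3 + 1 : ℂ) = algebraMap M0 ℂ (4 * (AdjoinSimple.gen F (xc R)) ^ 3 + 1) := by
        rw [map_add, map_mul, map_pow, map_one, map_ofNat]
        rfl
      rw [e]
      exact isAlgebraic_algebraMap _
    have h3 : yc R = (algebraMap M0 ℂ (1 / 2)) * (fc R - 1) := by
      unfold fc
      rw [map_div₀, map_one, map_ofNat]
      ring
    rw [h3]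
    exact (isAlgebraic_algebraMap _).mul (h1.sub isAlgebraic_one)
  let j : M1 →ₐ[F] ℂ := AlgHom.restrictScalars F M1.val
  have hinj : Function.Injective j := j.toRingHom.injective
  have hE : (⟨yc R, hy1⟩ : M1) ^ 2 + ⟨yc R, hy1⟩ = (⟨xc R, hx1⟩ : M1) ^ 3 := by
    apply hinj
    rw [map_add, map_pow, map_pow]
    exact eqn R
  let R1 : P27 M1 := pt ⟨xc R, hx1⟩ ⟨yc R, hy1⟩ hE
  have hR1 : mp j R1 = R := by
    refine pt_ext (mp_ne j (pt_ne _ _ _)) hR0 ?_ ?_
    · rw [xc_mp]
      rfl
    · rw [yc_mp]
      rfl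
  have hT1 : R1 ∈ Tor b M1 := by
    rw [← mp_mem_Tor j, hR1]
    exact hR
  have hext : ∀ n : ℕ, ∃ φ : M1 →ₐ[F] ℂ, φ (⟨xc R, hx1⟩ : M1) = xc R + n := by
    intro n
    obtain ⟨φ, hφ⟩ := IsAlgClosed.surjective_domRestrict_of_isAlgebraic (K := F) (L := M0) (M := ℂ) (E := M1)
      (GD1_s (xc R) h n (hn n))
    refine ⟨φ, ?_⟩
    have h1 := congrArg (fun f : M0 →ₐ[F] ℂ => f (AdjoinSimple.gen F (xc R))) hφ
    exact h1.trans (GD1_s_gen (xc R) h n (hn n))
  choose φ hφ using hext
  have hmem : ∀ n, mp (φ n) R1 ∈ Tor b ℂ := fun n => (mp_mem_Tor (φ n) b R1).2 hT1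
  have hinj2 : Function.Injective (fun n : ℕ => (⟨mp (φ n) R1, hmem n⟩ : Tor b ℂ)) := by
    intro m n hmn
    have h1 := congrArg (fun P : Tor b ℂ => xc P.1) hmn
    simp only at h1
    rw [xc_mp, xc_mp] at h1
    have e : xc R1 = (⟨xc R, hx1⟩ : M1) := rfl
    rw [e, hφ, hφ] at h1
    have h2 : (m : ℂ) = n := add_left_cancel h1
    exact_mod_cast h2
  exact not_injective_infinite_finite _ hinj2

theorem alg_coord (b : O) (hb : b ≠ 0) (R : P27 ℂ) (hR : R ∈ Tor b ℂ) :
    IsAlgebraic F (xc R) ∧ IsAlgebraic F (yc R) :=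
  ⟨GD1_x b hb R hR, GD1_y R (GD1_x b hb R hR)⟩

theorem GD1_range (Ω : Type) [Field Ω] [Algebra F Ω] [IsAlgClosed Ω] (j : Ω →ₐ[F] ℂ) (x : ℂ) (hx : IsAlgebraic F x) :
    ∃ z : Ω, j z = x := by
  let _ : Algebra Ω ℂ := j.toRingHom.toAlgebra
  have : IsScalarTower F Ω ℂ := IsScalarTower.of_algebraMap_eq fun y => (j.commutes y).symm
  have h1 : IsIntegral Ω x := (hx.tower_top (L := Ω)).isIntegral
  have h2 : (minpoly Ω x).degree = 1 := IsAlgClosed.degree_eq_one_of_irreducible Ω (minpoly.irreducible h1)
  obtain ⟨z, hz⟩ := minpoly.mem_range_of_degree_eq_one Ω x h2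
  exact ⟨z, hz⟩

theorem full_Om (Ω : Type) [Field Ω] [DecidableEq Ω] [Algebra F Ω] [IsAlgClosed Ω]
    [Algebra.IsAlgebraic F Ω] (b : O) (hb : b ≠ 0) : Full b Ω := by
  let j : Ω →ₐ[F] ℂ := IsAlgClosed.lift
  have hC := full_C b hb
  let ψ : Tor b Ω → Tor b ℂ := fun S => ⟨mp j S.1, (mp_mem_Tor j b S.1).2 S.2⟩
  have hψ : Function.Bijective ψ := by
    constructor
    · intro S T h
      exact Subtype.ext (mp_inj j (congrArg Subtype.val h))
    · rintro ⟨R, hR⟩
      by_cases hR0 : R = 0
      · refine ⟨0, Subtype.ext ?_⟩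
        change mp j 0 = R
        rw [hR0, map_zero]
      · obtain ⟨hx, hy⟩ := alg_coord b hb R hR
        obtain ⟨x, hx⟩ := GD1_range Ω j _ hx
        obtain ⟨y, hy⟩ := GD1_range Ω j _ hy
        have hE : y ^ 2 + y = x ^ 3 := by
          apply j.toRingHom.injective
          change j (y ^ 2 + y) = j (x ^ 3)
          rw [map_add, map_pow, map_pow, hx, hy]
          exact eqn R
        have h1 : mp j (pt x y hE) = R := by
          refine pt_ext (mp_ne j (pt_ne _ _ _)) hR0 ?_ ?_
          · rw [xc_mp, xc_pt, hx]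
          · rw [yc_mp, yc_pt, hy]
        refine ⟨⟨pt x y hE, ?_⟩, Subtype.ext h1⟩
        rw [← mp_mem_Tor j, h1]
        exact hR
  unfold Full at hC ⊢
  rw [← hC]
  exact Nat.card_eq_of_bijective ψ hψ

end H28G
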