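import Mathlib
import Pool.Agent.Lib.H28G.Defs

/-! # H28G: reduction at a valuation (definitions) -/

open NumberField IsDedekindDomain WeierstrassCurve

namespace H28G

open H55B

section
variable {k : Type} [Field k] [Algebra F k]
  {Γ : Type} [LinearOrderedCommGroupWithZero Γ] (v : Valuation k Γ)

/-- The points that reduce to the point at infinity. -/
def E1 (P : P27 k) : Prop := P = 0 ∨ 1 < v (xc P)

theorem E1_zero : E1 v (0 : P27 k) := Or.inl rfl

/-- The coordinate w = - 1 / y at infinity. -/
noncomputable def ww (P : P27 k) : k := -1 / yc P

end

end H28G
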