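import Mathlib
import Pool.Agent.Lib.H28G.VDefs

open NumberField IsDedekindDomain WeierstrassCurve

namespace H28G

open H55B

/-! Chunk GV4 (M): congruent points differ by a point of E1 (good reduction, v 3 = 1). P = (x1,y1), -Q = (x2, -1-y2). If x1 = x2: P = Q or P = -Q (xc_eq): P - Q = 0, or P - Q = P + P with y1 - y2 = 2y1 + 1 = fc P, v(fc P) < 1; if fc P = 0 then
P + P = 0 (fc_eq_zero); otherwise dbl_coords: s = 3 x1^2/fc P, and v(4x1^3) = v(fc^2 - 1) = 1 so v(x1) = 1 or (v 4 < 1: v x1 <= 1 gives v(4 x1^3) < 1, impossible), so v(3 x1^2) = 1 < ..: v(s) > 1, v(xc(P+P)) = v(s^2 - 2x1) = v(s)^2 > 1.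
If x1 <> x2: add_coords for P and -Q: s = (y1 + 1 + y2)/(x1 - x2), and (y1 - y2)(y1 + y2 + 1) = (x1 - x2)(x1^2 + x1x2 + x2^2) (difference of the two equations). (a) v(y1+y2+1) = 1: v(s) = 1/v(x1-x2) > 1. (b) v(y1+y2+1) < 1: y1 + y2 + 1 = 2y1 + 1 - (y1 - y2), so
v(fc P) < 1, as before v(x1) = 1 (and v 2 = 1), x1^2 + x1x2 + x2^2 = 3x1^2 + small has valuation 1, so (x1 - x2)(unit) = (y1 - y2)(y1+y2+1) <> 0 and s = (x1^2+x1x2+x2^2)/(y1-y2), v(s) > 1. In both cases v(xc(P-Q)) = v(s^2 - x1 - x2) = v(s)^2 > 1. -/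

variable {k : Type} [Field k] [DecidableEq k] [Algebra F k]
  {Γ : Type} [LinearOrderedCommGroupWithZero Γ] (v : Valuation k Γ)

omit [DecidableEq k] [Algebra F k] in
theorem GV4_two : v 2 ≤ 1 := by
  have h : (2 : k) = 1 + 1 := by norm_num
  rw [h]
  exact (Valuation.map_add v 1 1).trans (by rw [map_one, max_self])

omit [DecidableEq k] [Algebra F k] in
theorem GV4_gt {s a b : k} (hs : 1 < v s) (ha : v a ≤ 1) (hb : v b ≤ 1) : 1 < v (s ^ 2 - a - b) := by
  by_contra h
  rw [not_lt] at h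
  have h1 : v (s ^ 2) ≤ 1 := by
    have e : s ^ 2 = (s ^ 2 - a - b) + (a + b) := by ring
    rw [e]
    exact (Valuation.map_add v _ _).trans (max_le h ((Valuation.map_add v _ _).trans (max_le ha hb)))
  rw [map_pow] at h1
  exact absurd h1 (not_le.2 (one_lt_pow₀ hs (by norm_num)))

omit [DecidableEq k] [Algebra F k] in
theorem GV4_div {a b : k} (ha : 1 ≤ v a) (hb : v b < 1) (hb0 : b ≠ 0) : 1 < v (a / b) := by
  rw [map_div₀]
  have h0 : 0 < v b := by
    rw [zero_lt_iff]
    exact (Valuation.ne_zero_iff v).2 hb0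
  rw [one_lt_div₀ h0]
  exact hb.trans_le ha

omit [DecidableEq k] in
/-- If 2y + 1 is small then x is a unit. -/
theorem GV4_x {P : P27 k} (h1 : v (xc P) ≤ 1) (hf : v (fc P) < 1) : v (xc P) = 1 := by
  refine le_antisymm h1 ?_
  by_contra h
  rw [not_le] at h
  have h2 : v (4 * xc P ^ 3) < 1 := by
    have e : 4 * xc P ^ 3 = (2 * 2 * xc P ^ 2) * xc P := by ring
    rw [e, map_mul]
    have h3 : v (2 * 2 * xc P ^ 2) ≤ 1 := by
      rw [map_mul, map_mul, map_pow]
      exact mul_le_one₀ (mul_le_one₀ (GV4_two v) zero_le (GV4_two v)) zero_le (pow_le_one₀ zero_le h1)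
    exact (mul_le_of_le_one_left zero_le h3).trans_lt h
  have h4 : v (4 * xc P ^ 3 + 1) = 1 := by
    rw [Valuation.map_add_eq_of_lt_right v (by rwa [map_one]), map_one]
  rw [← fc_sq, map_pow] at h4
  exact absurd h4 (pow_lt_one₀ zero_le hf (by norm_num)).ne

omit [DecidableEq k] in
theorem GV4_3x {P : P27 k} (h3 : v 3 = 1) (hx : v (xc P) = 1) : v (3 * xc P ^ 2) = 1 := by
  rw [map_mul, map_pow, h3, hx, one_pow, one_mul]

theorem red_sub (h3 : v 3 = 1) {P Q : P27 k} (hP : P ≠ 0) (hQ : Q ≠ 0) (h1 : v (xc P) ≤ 1)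
    (h2 : v (xc Q) ≤ 1) (hx : v (xc P - xc Q) < 1) (hy : v (yc P - yc Q) < 1) : E1 v (P - Q) := by
  by_cases hxx : xc P = xc Q
  · rcases xc_eq hP hQ hxx with h | h
    · left
      rw [h, sub_self]
    · -- `P = -Q`
      have hQP : Q = -P := by rw [h, neg_neg]
      have hf : v (fc P) < 1 := by
        rw [hQP, yc_neg hP] at hy
        have e : fc P = yc P - (-1 - yc P) := by
          unfold fc
          ring
        rwa [e]
      have e : P - Q = P + P := by rw [hQP, sub_neg_eq_add]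
      rw [e]
      by_cases hf0 : fc P = 0
      · left
        have h5 : P = -P := by
          refine pt_ext hP (neg_ne hP) (xc_neg P).symm ?_
          rw [yc_neg hP]
          unfold fc at hf0
          linear_combination hf0
        nth_rewrite 2 [h5]
        exact add_neg_cancel P
      · right
        have hd := (dbl_coords hP hf0).2.1
        rw [hd]
        have e2 : (3 * xc P ^ 2 / fc P) ^ 2 - 2 * xc P = (3 * xc P ^ 2 / fc P) ^ 2 - xc P - xc P := by ring
        rw [e2]
        exact GV4_gt v (GV4_div v (GV4_3x v h3 (GV4_x v h1 hf)).ge hf hf0) h1 h1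
  · right
    have hxn : xc P ≠ xc (-Q) := by rwa [xc_neg]
    have ha := (add_coords hP (neg_ne hQ) hxn).2.1
    rw [sub_eq_add_neg, ha, xc_neg, yc_neg hQ]
    refine GV4_gt v ?_ h1 h2
    have hd0 : xc P - xc Q ≠ 0 := sub_ne_zero.2 hxx
    have e1 : yc P - (-1 - yc Q) = yc P + yc Q + 1 := by ring
    rw [e1]
    by_cases hs : v (yc P + yc Q + 1) < 1
    · have hf : v (fc P) < 1 := by
        have e : fc P = (yc P + yc Q + 1) + (yc P - yc Q) := by
          unfold fc
          ring
        rw [e]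
        exact (Valuation.map_add v _ _).trans_lt (max_lt hs hy)
      have hx1 := GV4_x v h1 hf
      have hq : v (xc P ^ 2 + xc P * xc Q + xc Q ^ 2) = 1 := by
        have e : xc P ^ 2 + xc P * xc Q + xc Q ^ 2 = 3 * xc P ^ 2 +
            -((xc P - xc Q) * (xc P + (xc P + xc Q))) := by ring
        have h5 : v (-((xc P - xc Q) * (xc P + (xc P + xc Q)))) < v (3 * xc P ^ 2) := by
          rw [GV4_3x v h3 hx1, Valuation.map_neg, map_mul]
          have h6 : v (xc P + (xc P + xc Q)) ≤ 1 :=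
            (Valuation.map_add v _ _).trans (max_le h1 ((Valuation.map_add v _ _).trans (max_le h1 h2)))
          exact (mul_le_of_le_one_right zero_le h6).trans_lt hx
        rw [e, Valuation.map_add_eq_of_lt_left v h5, GV4_3x v h3 hx1]
      have hq0 : xc P ^ 2 + xc P * xc Q + xc Q ^ 2 ≠ 0 := by
        intro h
        rw [h, map_zero] at hq
        exact zero_ne_one hq
      have hid : (yc P - yc Q) * (yc P + yc Q + 1) = (xc P - xc Q) * (xc P ^ 2 + xc P * xc Q + xc Q ^ 2) := by
        linear_combination eqn P - eqn Q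
      have hy0 : yc P - yc Q ≠ 0 := by
        intro h
        rw [h, zero_mul] at hid
        exact mul_ne_zero hd0 hq0 hid.symm
      have e2 : (yc P + yc Q + 1) / (xc P - xc Q) = (xc P ^ 2 + xc P * xc Q + xc Q ^ 2) / (yc P - yc Q) := by
        rw [div_eq_div_iff hd0 hy0]
        linear_combination hid
      rw [e2]
      exact GV4_div v hq.ge hy hy0
    · exact GV4_div v (not_lt.1 hs) hx hd0

end H28G
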