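import Mathlib
import Pool.Agent.Lib.H28G.GC2
import Pool.Agent.Lib.H28G.VDefs

open NumberField IsDedekindDomain WeierstrassCurve

namespace H28G

open H55B

/-! Chunk GV1 (S/M): coordinates near infinity and integers. y^2 + y = x^3, v x > 1: v y > 1 (otherwise v(y^2+y) <= 1), so v(y^2 + y) = v(y)^2 (v y < v y^2; Valuation.map_add_eq_of_lt_left), v(y)^2 = v(x)^3.
t = -x/y: v(t)^2 = v(x)^2/v(x)^3, v(t)^3 = v(x)^3/v(y)^3 = 1/v(y). w = -1/y: w = t^3 + w^2, v(w) = v(t)^3. x = t/w, y = -1/w. Conversely int_y: v x <= 1 => v y <= 1 (otherwise v(y^2+y) = v(y)^2 > 1).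
ak_le: c = a + b om with integers a, b, v(integer) <= 1, v(om) = 1 (om^3 = 1). E1_neg: xc_neg. E1_om: v(ok) = 1. -/

variable {k : Type} [Field k] [DecidableEq k] [Algebra F k]
  {Γ : Type} [LinearOrderedCommGroupWithZero Γ] (v : Valuation k Γ)

omit [DecidableEq k] in
theorem GV1_big {x y : k} (h : y ^ 2 + y = x ^ 3) (hy : 1 < v y) : v y ^ 2 = v x ^ 3 := by
  have h1 : v y < v (y ^ 2) := by
    rw [map_pow]
    have h2 := pow_lt_pow_right₀ hy one_lt_two
    rwa [pow_one] at h2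
  have h3 := Valuation.map_add_eq_of_lt_left v h1
  rw [h, map_pow, map_pow] at h3
  exact h3.symm

theorem y_sq {P : P27 k} (h : 1 < v (xc P)) : v (yc P) ^ 2 = v (xc P) ^ 3 ∧ 1 < v (yc P) := by
  have hy : 1 < v (yc P) := by
    by_contra hc
    rw [not_lt] at hc
    have h1 : v (yc P ^ 2 + yc P) ≤ 1 := by
      refine v.map_add_le ?_ hc
      rw [map_pow]
      exact pow_le_one' hc 2
    rw [eqn P, map_pow] at h1
    exact absurd h1 (not_le.2 (one_lt_pow₀ h three_ne_zero))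
  exact ⟨GV1_big v (eqn P) hy, hy⟩

theorem GV1_ne {P : P27 k} (h : 1 < v (xc P)) : xc P ≠ 0 ∧ yc P ≠ 0 := by
  have hy := (y_sq v h).2
  constructor
  · intro h0
    rw [h0, map_zero] at h
    exact absurd h (not_lt.2 zero_le_one)
  · intro h0
    rw [h0, map_zero] at hy
    exact absurd hy (not_lt.2 zero_le_one)

theorem tt_val {P : P27 k} (h : 1 < v (xc P)) :
    v (tt P) < 1 ∧ v (tt P) ≠ 0 ∧ v (tt P) ^ 2 * v (xc P) = 1 ∧ v (tt P) ^ 3 * v (yc P) = 1 := by
  obtain ⟨hs, hy⟩ := y_sq v h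
  obtain ⟨hx0, hy0⟩ := GV1_ne v h
  have hvx0 : v (xc P) ≠ 0 := (Valuation.ne_zero_iff v).2 hx0
  have hvy0 : v (yc P) ≠ 0 := (Valuation.ne_zero_iff v).2 hy0
  have ht : v (tt P) = v (xc P) / v (yc P) := by
    unfold tt
    rw [map_div₀, Valuation.map_neg]
  rw [ht]
  refine ⟨?_, div_ne_zero hvx0 hvy0, ?_, ?_⟩
  · rw [div_lt_one₀ (zero_lt_iff.2 hvy0)]
    refine lt_of_pow_lt_pow_left₀ 2 zero_le ?_
    rw [hs]
    exact pow_lt_pow_right₀ h (by norm_num)
  · rw [div_pow, hs, div_mul_eq_mul_div, ← pow_succ]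
    exact div_self (pow_ne_zero 3 hvx0)
  · rw [div_pow, ← hs, div_mul_eq_mul_div, ← pow_succ]
    exact div_self (pow_ne_zero 3 hvy0)

theorem ww_val {P : P27 k} (h : 1 < v (xc P)) :
    ww P ≠ 0 ∧ v (ww P) = v (tt P) ^ 3 ∧ ww P = tt P ^ 3 + ww P ^ 2 ∧ xc P = tt P / ww P ∧
      yc P = -1 / ww P := by
  obtain ⟨hx0, hy0⟩ := GV1_ne v h
  obtain ⟨-, -, -, h4⟩ := tt_val v h
  have he := eqn P
  refine ⟨?_, ?_, ?_, ?_, ?_⟩
  · unfold ww
    exact div_ne_zero (neg_ne_zero.2 one_ne_zero) hy0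
  · unfold ww
    rw [map_div₀, Valuation.map_neg, map_one]
    exact (eq_one_div_of_mul_eq_one_left h4).symm
  · unfold ww tt
    field_simp
    linear_combination -he
  · unfold ww tt
    field_simp
  · unfold ww
    field_simp

theorem int_y {P : P27 k} (h : v (xc P) ≤ 1) : v (yc P) ≤ 1 := by
  by_contra hc
  rw [not_le] at hc
  have h1 := GV1_big v (eqn P) hc
  have h2 : v (xc P) ^ 3 ≤ 1 := pow_le_one' h 3
  rw [← h1] at h2
  exact absurd h2 (not_le.2 (one_lt_pow₀ hc two_ne_zero))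

omit [DecidableEq k] in
theorem GV1_int (n : ℤ) : v (n : k) ≤ 1 := by
  have h1 : (n : k) ∈ v.integer := intCast_mem v.integer n
  exact h1

theorem ok_val : v (ok k) = 1 := by
  have h1 : v (ok k) ^ 3 = 1 := by rw [← map_pow, ok_cube, map_one]
  exact (pow_eq_one_iff.1 h1).resolve_right (by norm_num)

theorem ak_le (c : O) : v (ak k c) ≤ 1 := by
  obtain ⟨a, b, rfl⟩ := exists_repr c
  have h1 : ak k ((a : O) + b * om) = (a : k) + (b : k) * ok k := by
    unfold ak ok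
    simp
  rw [h1]
  refine v.map_add_le (GV1_int v a) ?_
  rw [map_mul, ok_val v, mul_one]
  exact GV1_int v b

theorem E1_neg {P : P27 k} (h : E1 v P) : E1 v (-P) := by
  rcases h with h | h
  · left
    rw [h]
    rfl
  · right
    rw [xc_neg]
    exact h

theorem E1_om {P : P27 k} (h : E1 v P) : E1 v (omP P) ∧ tt (omP P) = ok k * tt P := by
  constructor
  · rcases h with h | h
    · left
      rw [h, map_zero]
    · right
      rw [xc_omP, map_mul, ok_val v, one_mul]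
      exact h
  · unfold tt
    rw [xc_omP, yc_omP]
    ring

end H28G
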