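import Mathlib
import Pool.Agent.Lib.H28G.GV1

open NumberField IsDedekindDomain WeierstrassCurve

namespace H28G

open H55B

/-! Chunk GV5 (M): P + R for P integral and R near infinity, to first order in t = tt R. (x0,y0) = P, (t,w) coordinates of R, w(1-w) = t^3, x(R) = t/w <> x0 since v(t/w) > 1. add_coords for P and R (or R and P: P + R = R + P):
s = (y0 + 1/w)/(x0 - t/w) = -(1 + y0 w)/(t - x0 w). Put a = w/t = t^2/(1-w), v(a) = v(t)^2. Then s = -(1 + y0 w)/(t (1 - x0 a)), t/w = (1-w)/t^2 and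
x(P+R) + x0 = s^2 - t/w = [ (1+y0w)^2 - (1-w)(1-x0a)^2 ] / (t^2 (1-x0a)^2) = [ 2x0 + (2y0+1) w/t^2 - x0^2 a + y0^2 w^2/t^2 ] / (1-x0a)^2, w/t^2 = t/(1-w).
So X1 := x(P+R) - x0 = [ (2y0+1) t/(1-w) - x0^2 a + y0^2 w^2/t^2 + 2x0 (1 - (1-x0a)^2) ]/(1-x0a)^2 = (2y0+1) t + 3 x0^2 t^2 + (terms of valuation <= v(t)^3)
(a = t^2 + a w, 2x0 (2 x0 a - x0^2a^2)). This gives the statement for x and v(X1 - (2y0+1)t - 3x0^2t^2) <= v(t)^3. y(P+R) = -1 - (s X1 + y0), s = -(1/t)(1 + y0w)/(1-x0a) = -(1/t)(1 + O(t^2)):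
s X1 = -(2y0+1) - 3x0^2 t + (valuation <= v(t)^2), so y(P+R) = y0 + 3x0^2 t + (valuation <= v(t)^2). R = 0: tt 0 = 0, trivial. -/

variable {k : Type} [Field k] [DecidableEq k] [Algebra F k]
  {Γ : Type} [LinearOrderedCommGroupWithZero Γ] (v : Valuation k Γ)

omit [DecidableEq k] [Algebra F k] in
/-- The algebra: t, w = t^3 g, a = t^2 g, b = 1/(1 - x0 t^2 g). -/
theorem GV5_alg {x y t w s X Y : k} (ht0 : t ≠ 0) (hw0 : w ≠ 0) (hw : w = t ^ 3 + w ^ 2)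
    (hx : v x ≤ 1) (hy : v y ≤ 1) (ht : v t < 1) (hvw : v w = v t ^ 3)
    (hs : s = (y - -1 / w) / (x - t / w)) (hX : X = s ^ 2 - x - t / w) (hY : Y = -1 - (s * (X - x) + y)) :
    v X ≤ 1 ∧ v (X - x - (2 * y + 1) * t) ≤ v t ^ 2 ∧ v (Y - y - 3 * x ^ 2 * t) ≤ v t ^ 2 := by
  have hvt0 : 0 < v t := by
    rw [zero_lt_iff]
    exact (Valuation.ne_zero_iff v).2 ht0
  have hw1 : v w < 1 := by
    rw [hvw]
    exact pow_lt_one₀ zero_le ht (by norm_num)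
  have hγ : v (1 - w) = 1 := by
    rw [Valuation.map_sub_eq_of_lt_left v (by rwa [map_one]), map_one]
  have hγ0 : 1 - w ≠ 0 := by
    intro h
    rw [h, map_zero] at hγ
    exact zero_ne_one hγ
  obtain ⟨g, hg⟩ : ∃ g, g = (1 - w)⁻¹ := ⟨_, rfl⟩
  have hvg : v g ≤ 1 := by rw [hg, map_inv₀, hγ, inv_one]
  have hg1 : g * (1 - w) = 1 := by rw [hg, inv_mul_cancel₀ hγ0]
  have ew : w = t ^ 3 * g := by
    have h1 : w * (1 - w) = t ^ 3 := by linear_combination hw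
    have h2 : w = w * (1 - w) * g := by linear_combination (-w) * hg1
    rw [h2, h1]
  have hg2 : g = 1 + t ^ 3 * g ^ 2 := by
    rw [ew] at hg1
    linear_combination hg1
  have hβ : v (1 - x * (t ^ 2 * g)) = 1 := by
    have h1 : v (x * (t ^ 2 * g)) < 1 := by
      rw [map_mul, map_mul, map_pow]
      have h2 : v t ^ 2 < 1 := pow_lt_one₀ zero_le ht (by norm_num)
      have h3 : v t ^ 2 * v g < 1 := (mul_le_of_le_one_right zero_le hvg).trans_lt h2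
      exact (mul_le_of_le_one_left zero_le hx).trans_lt h3
    rw [Valuation.map_sub_eq_of_lt_left v (by rwa [map_one]), map_one]
  have hβ0 : 1 - x * (t ^ 2 * g) ≠ 0 := by
    intro h
    rw [h, map_zero] at hβ
    exact zero_ne_one hβ
  obtain ⟨b, hb⟩ : ∃ b, b = (1 - x * (t ^ 2 * g))⁻¹ := ⟨_, rfl⟩
  have hvb : v b ≤ 1 := by rw [hb, map_inv₀, hβ, inv_one]
  have hb1 : b * (1 - x * (t ^ 2 * g)) = 1 := by rw [hb, inv_mul_cancel₀ hβ0]
  have hg0 : g ≠ 0 := by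
    rw [hg]
    exact inv_ne_zero hγ0
  -- the slope
  have es : s * t = -((1 + y * (t ^ 3 * g)) * b) := by
    have hD : x - t / w = -(t * (1 - x * (t ^ 2 * g))) / w := by
      rw [ew]
      field_simp
      ring
    rw [hs, hD, hb]
    rw [ew]
    field_simp
    ring
  have etw : t / w * t ^ 2 = 1 - w := by
    have h1 : t / w * t ^ 2 = t ^ 3 / w := by ring
    rw [h1, div_eq_iff hw0]
    linear_combination -hw
  -- the integers
  let t' : v.integer := ⟨t, ht.le⟩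
  let g' : v.integer := ⟨g, hvg⟩
  let b' : v.integer := ⟨b, hvb⟩
  let x' : v.integer := ⟨x, hx⟩
  let y' : v.integer := ⟨y, hy⟩
  obtain ⟨M3, hM3⟩ : ∃ M : v.integer, M = (2 * y' + 1) * t' * g' ^ 2 + x' ^ 2 * t' ^ 2 * (3 * g' ^ 2 - g' ^ 3) +
    (y' ^ 2 * t' * g' ^ 2 - 2 * x' ^ 3 * t' * g' ^ 2 + x' ^ 2 * t' ^ 2 * g' ^ 3) := ⟨_, rfl⟩
  have hM3' : (M3 : k) = (2 * y + 1) * t * g ^ 2 + x ^ 2 * t ^ 2 * (3 * g ^ 2 - g ^ 3) +
    (y ^ 2 * t * g ^ 2 - 2 * x ^ 3 * t * g ^ 2 + x ^ 2 * t ^ 2 * g ^ 3) := by rw [hM3]; rfl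
  obtain ⟨M1, hM1⟩ : ∃ M : v.integer, M = (2 * y' + 1) + 3 * x' ^ 2 * t' + t' ^ 2 * M3 := ⟨_, rfl⟩
  have hM1' : (M1 : k) = (2 * y + 1) + 3 * x ^ 2 * t + t ^ 2 * M3 := by rw [hM1]; rfl
  obtain ⟨Q, hQ⟩ : ∃ M : v.integer, M = M3 + x' * g' * b' * (b' + 1) * M1 := ⟨_, rfl⟩
  have hQ' : (Q : k) = M3 + x * g * b * (b + 1) * M1 := by rw [hQ]; rfl
  obtain ⟨B, hB⟩ : ∃ M : v.integer, M = x' * g' * b' + y' * t' * g' * b' := ⟨_, rfl⟩
  have hB' : (B : k) = x * g * b + y * t * g * b := by rw [hB]; rfl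
  -- X
  have eX0 : (X - x) * t ^ 2 = (1 + y * (t ^ 3 * g)) ^ 2 * b ^ 2 - 2 * x * t ^ 2 - (1 - w) := by
    have h1 : (s * t) ^ 2 = (1 + y * (t ^ 3 * g)) ^ 2 * b ^ 2 := by rw [es]; ring
    rw [hX]
    linear_combination h1 - etw
  obtain ⟨β, hβd⟩ : ∃ β, β = 1 - x * (t ^ 2 * g) := ⟨_, rfl⟩
  rw [← hβd] at hb1
  obtain ⟨T, hT⟩ : ∃ T : k, T = (2 * y + 1) * t + 3 * x ^ 2 * t ^ 2 + t ^ 3 * M3 := ⟨_, rfl⟩
  have hbr : (1 + y * (t ^ 3 * g)) ^ 2 - 2 * x * t ^ 2 * β ^ 2 - (1 - t ^ 3 * g) * β ^ 2 = t ^ 2 * T := by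
    rw [hT, hM3', hβd]
    linear_combination t ^ 2 * (2 * x + (2 * y + 1) * t + x ^ 2 * t ^ 2 * (3 - g)) * hg2
  have hTM : T = t * M1 := by
    rw [hT, hM1']
    ring
  have hb2 : b - 1 = x * t ^ 2 * g * b := by
    rw [hβd] at hb1
    linear_combination hb1
  have eX : X - x = T + t ^ 3 * (x * g * b * (b + 1) * M1) := by
    have ht2 : t ^ 2 ≠ 0 := pow_ne_zero 2 ht0
    apply mul_right_cancel₀ ht2
    have h1 : (X - x) * t ^ 2 = b ^ 2 * (t ^ 2 * T) := by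
      rw [ew] at eX0
      linear_combination eX0 + b ^ 2 * hbr + (2 * x * t ^ 2 + (1 - t ^ 3 * g)) * (b * β + 1) * hb1
    rw [h1, hTM]
    linear_combination t ^ 3 * M1 * (b + 1) * hb2
  have eX2 : X - x = (2 * y + 1) * t + 3 * x ^ 2 * t ^ 2 + t ^ 3 * Q := by
    rw [eX, hT, hQ']
    ring
  have vt2 : ∀ z : v.integer, v (t ^ 2 * z) ≤ v t ^ 2 := fun z => by
    rw [map_mul, map_pow]
    exact mul_le_of_le_one_right zero_le z.2
  have hvt2 : v t ^ 2 ≤ 1 := pow_le_one₀ zero_le ht.le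
  refine ⟨?_, ?_, ?_⟩
  · have e : X = ((x' + ((2 * y' + 1) * t' + 3 * x' ^ 2 * t' ^ 2 + t' ^ 3 * Q) : v.integer) : k) := by
      change X = x + ((2 * y + 1) * t + 3 * x ^ 2 * t ^ 2 + t ^ 3 * (Q : k))
      rw [← eX2]
      ring
    rw [e]
    exact (x' + ((2 * y' + 1) * t' + 3 * x' ^ 2 * t' ^ 2 + t' ^ 3 * Q)).2
  · have e : X - x - (2 * y + 1) * t = t ^ 2 * ((3 * x' ^ 2 + t' * Q : v.integer) : k) := by
      change X - x - (2 * y + 1) * t = t ^ 2 * (3 * x ^ 2 + t * (Q : k))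
      rw [eX2]
      ring
    rw [e]
    exact vt2 _
  · have e : Y - y - 3 * x ^ 2 * t = t ^ 2 * ((Q + B * ((2 * y' + 1) + 3 * x' ^ 2 * t' + t' ^ 2 * Q) : v.integer) : k) := by
      change Y - y - 3 * x ^ 2 * t = t ^ 2 * ((Q : k) + (B : k) * ((2 * y + 1) + 3 * x ^ 2 * t + t ^ 2 * (Q : k)))
      apply mul_right_cancel₀ ht0
      have h2 : (1 + y * (t ^ 3 * g)) * b = 1 + t ^ 2 * (B : k) := by
        rw [hB']
        linear_combination hb2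
      have h3 : Y * t = (-1 - y) * t - (s * t) * (X - x) := by
        rw [hY]
        ring
      have h4 : (Y - y - 3 * x ^ 2 * t) * t = Y * t - y * t - 3 * x ^ 2 * t * t := by ring
      rw [h4, h3, es, eX2, h2]
      ring
    rw [e]
    exact vt2 _

theorem transl {P R : P27 k} (hP : P ≠ 0) (h : v (xc P) ≤ 1) (hR : E1 v R) :
    P + R ≠ 0 ∧ v (xc (P + R)) ≤ 1 ∧
    v (xc (P + R) - xc P - fc P * tt R) ≤ v (tt R) ^ 2 ∧
    v (yc (P + R) - yc P - 3 * xc P ^ 2 * tt R) ≤ v (tt R) ^ 2 := by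
  by_cases hR0 : R = 0
  · subst hR0
    have e : tt (0 : P27 k) = 0 := by
      unfold tt
      rw [xc_zero, neg_zero, zero_div]
    rw [add_zero, e]
    refine ⟨hP, h, ?_, ?_⟩ <;> simp
  · have h1 : 1 < v (xc R) := hR.resolve_left hR0
    obtain ⟨ht1, ht2, _, _⟩ := tt_val v h1
    obtain ⟨hw0, hvw, hw, hxR, hyR⟩ := ww_val v h1
    have ht0 : tt R ≠ 0 := (Valuation.ne_zero_iff v).1 ht2
    have hne : xc P ≠ xc R := by
      intro he
      rw [he] at h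
      exact absurd h1 (not_lt.2 h)
    obtain ⟨a1, a2, a3⟩ := add_coords hP hR0 hne
    have h5 := GV5_alg v (x := xc P) (y := yc P) (t := tt R) (w := ww R) (s := (yc P - yc R) / (xc P - xc R))
      (X := xc (P + R)) (Y := yc (P + R)) ht0 hw0 hw h (int_y v h) ht1 hvw (by rw [← hxR, ← hyR])
      (by rw [a2, ← hxR]) a3
    refine ⟨a1, h5.1, ?_, h5.2.2⟩
    unfold fc
    exact h5.2.1

end H28G
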