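import Mathlib
import Pool.Agent.Lib.H28G.Map

open NumberField IsDedekindDomain WeierstrassCurve

namespace H28G

open H55B

/-! Chunk GD2 (S/M): the module Tor b k for a prime element b with full torsion. For R in Tor b k, R <> 0, the set {c | act c R = 0} is an ideal of O containing b and not 1, and (b) is maximal (b prime in the Dedekind domain O, b <> 0), so it is (b):
act_eq_zero. So c -> act c R induces an injection from O/(b) (Nm b elements) into Tor b k (Nm b elements): it is bijective (Nat.bijective_iff_injective_and_card, Full.finite). -/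

variable {k : Type} [Field k] [DecidableEq k] [Algebra F k]

theorem act_eq_zero {b : O} (hb : Prime b) {R : P27 k} (hR : R ∈ Tor b k) (h0 : R ≠ 0) (c : O) :
    act c R = 0 ↔ b ∣ c := by
  rw [mem_Tor] at hR
  constructor
  · intro h
    by_contra hbc
    have hp : (Ideal.span {b}).IsPrime := (Ideal.span_singleton_prime hb.ne_zero).2 hb
    have hbot : Ideal.span {b} ≠ ⊥ := by
      rw [Ne, Ideal.span_singleton_eq_bot]
      exact hb.ne_zero
    have hm : (Ideal.span {b}).IsMaximal := hp.isMaximal hbot
    have hc : c ∉ Ideal.span {b} := fun h' => hbc (Ideal.mem_span_singleton.1 h')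
    obtain ⟨y, z, hz, hyz⟩ := hm.exists_inv hc
    obtain ⟨w, rfl⟩ := Ideal.mem_span_singleton.1 hz
    apply h0
    have h1 : act (y * c + b * w) R = R := by
      rw [hyz, act_one]
    rw [act_add, act_mul, h, map_zero, zero_add, mul_comm b w, act_mul, hR, map_zero] at h1
    exact h1.symm
  · rintro ⟨w, rfl⟩
    rw [mul_comm b w, act_mul, hR, map_zero]

theorem GD2_mem {b : O} {R : P27 k} (hR : R ∈ Tor b k) (c : O) : act c R ∈ Tor b k := by
  rw [mem_Tor] at hR ⊢
  rw [← act_mul, mul_comm, act_mul, hR, map_zero]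

theorem tor_gen {b : O} (hb : Prime b) (hf : Full b k) {R R' : P27 k} (hR : R ∈ Tor b k)
    (hR' : R' ∈ Tor b k) (h0 : R ≠ 0) : ∃ c : O, act c R = R' := by
  have hfin := hf.finite hb.ne_zero
  let ψ : (O ⧸ Ideal.span {b}) → Tor b k := fun q => ⟨act q.out R, GD2_mem hR _⟩
  have hinj : Function.Injective ψ := by
    intro q q' h
    have h1 : act q.out R = act q'.out R := congrArg Subtype.val h
    have h2 : act (q.out - q'.out) R = 0 := by
      rw [act_sub, h1, sub_self]
    rw [act_eq_zero hb hR h0, ← Ideal.mem_span_singleton, ← Ideal.Quotient.eq] at h2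
    have h3 : ∀ r : O ⧸ Ideal.span {b}, Ideal.Quotient.mk (Ideal.span {b}) r.out = r :=
      fun r => Ideal.Quotient.mk_out r
    rw [h3, h3] at h2
    exact h2
  have hcard : Nat.card (O ⧸ Ideal.span {b}) = Nat.card (Tor b k) := by
    rw [hf]
    rfl
  have hbij : Function.Bijective ψ := (Nat.bijective_iff_injective_and_card ψ).2 ⟨hinj, hcard⟩
  obtain ⟨q, hq⟩ := hbij.2 ⟨R', hR'⟩
  exact ⟨q.out, congrArg Subtype.val hq⟩

end H28G
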