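import Mathlib
import Pool.Agent.Lib.H28G.GV1

open NumberField IsDedekindDomain WeierstrassCurve

namespace H28G

open H55B

/-! Chunk GV2 (M/L): addition near infinity. m = max (v tt P) (v tt Q) < 1. add_cases. P = 0 or Q = 0: trivial. P = -Q: P + Q = 0, tt Q + tt(-Q) = - 1/x(Q)^2 (tt(-Q) = x/(1+y)), of valuation v(tt Q)^4.
P, Q <> 0 otherwise, both with v x > 1 (GV1). t_i, w_i coordinates, w_i = t_i^3 + w_i^2. Let
L = (t1^2 + t1 t2 + t2^2)/(1 - w1 - w2), v(1 - w1 - w2) = 1, v(L) <= m^2; (w1 - w2)(1 - w1 - w2) = (t1 - t2)(t1^2 + t1 t2 + t2^2), so w1 - w2 = L (t1 - t2). N = w1 - L t1 = w2 - L t2, v(N) <= m^3.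
t3 = -L^2 - t1 - t2, w3 = L t3 + N. Claim: t1+t2+t3 = -L^2, t1t2+t1t3+t2t3 = 2 L N - L, t1t2t3 = N - N^2 (the cubic t^3 + (Lt+N)^2 - (Lt+N) has the roots t1, t2, hence t3; for t1 <> t2 subtract the
equations of t1 and t2 and divide by t1 - t2; t1 = t2 implies w1 = w2, P = Q, and there the derivative 3t^2 + 2LN' .. vanishes by the definition of L = 3t^2/(1-2w)). Consequences (pure algebra):
w1 w2 w3 = N^3 and t1 w2 w3 + t2 w1 w3 + t3 w1 w2 = L^2 N, w3 = t3^3 + w3^2.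
Case x(P) <> x(Q) (add_coords): slope s = (y1-y2)/(x1-x2) with x = t/w, y = -1/w. N <> 0: if N = 0 then w_i = L t_i, so x1 = 1/L = x2. s = L/N (1 = L x_i - N y_i). w3 <> 0 (w1w2w3 = N^3). So
x(P+Q) = s^2 - x1 - x2 = L^2/N^2 - t1/w1 - t2/w2 = t3/w3, and y(-(P+Q)) = s (x3 - x1) + y1 = -1/w3 (from 1 = L x3 - N y3). v(t3) <= m, v(w3) <= m^3 < 1, w3 = t3^3 + w3^2 gives v(w3) = v(t3)^3, v(x3) = v(t3)^(-2) > 1: E1.
tt(P+Q) = x3/(1 + y3) = - t3/(1 - w3), y3 = -1/w3, so tt(P+Q) - t1 - t2 = (L^2 + (t1+t2) w3)/(1 - w3), of valuation <= m^4 <= m^2.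
Case P = Q, fc P <> 0 (dbl_coords): the same with s = 3x^2/(2y+1) = L/N: (1-2w)w - 3t^3 = w(w-2) (N (1-2w) = w(w-2)), N <> 0. -/

theorem GV2_alg {k : Type} [Field k] {t1 w1 t2 w2 L N : k} (h1 : w1 = t1 ^ 3 + w1 ^ 2)
    (hL : L * (1 - w1 - w2) = t1 ^ 2 + t1 * t2 + t2 ^ 2) (hw1 : w1 = L * t1 + N)
    (hw2 : w2 = L * t2 + N) {t3 w3 : k} (ht3 : t3 = -L ^ 2 - t1 - t2) (hw3 : w3 = L * t3 + N) :
    w1 * w2 * w3 = N ^ 3 ∧ t1 * w2 * w3 + t2 * w1 * w3 + t3 * w1 * w2 = L ^ 2 * N ∧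
      w3 = t3 ^ 3 + w3 ^ 2 := by
  have E1 : t1 + t2 + t3 = -L ^ 2 := by rw [ht3]; ring
  have E2 : t1 * t2 + t1 * t3 + t2 * t3 = 2 * L * N - L := by
    rw [hw1, hw2] at hL
    rw [ht3]
    linear_combination hL
  have E3 : t1 * t2 * t3 = N - N ^ 2 := by
    have h1' : L * t1 + N = t1 ^ 3 + (L * t1 + N) ^ 2 := by rw [← hw1]; exact h1
    linear_combination t1 * E2 - t1 ^ 2 * E1 - h1'
  rw [hw1, hw2, hw3]
  refine ⟨?_, ?_, ?_⟩
  · linear_combination L ^ 3 * E3 + L ^ 2 * N * E2 + L * N ^ 2 * E1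
  · linear_combination 3 * L ^ 2 * E3 + 2 * L * N * E2 + N ^ 2 * E1
  · linear_combination -t3 ^ 2 * E1 + t3 * E2 - E3

variable {k : Type} [Field k] [DecidableEq k] [Algebra F k]
  {Γ : Type} [LinearOrderedCommGroupWithZero Γ] (v : Valuation k Γ)

theorem GV2_aux {m : Γ} (hm : m < 1) {n : ℕ} (hn : 1 ≤ n) {a : Γ} (ha : a ≤ m ^ n) : a ≤ m :=
  ha.trans (by
    calc m ^ n ≤ m ^ 1 := pow_le_pow_right_of_le_one' hm.le hn
      _ = m := pow_one m)

/-- The addition in the coordinates t, w. -/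
theorem GV2_core {P Q : P27 k} (hP : 1 < v (xc P)) (hQ : 1 < v (xc Q)) (s : k)
    (hs : ∀ L N : k, L * (1 - ww P - ww Q) = tt P ^ 2 + tt P * tt Q + tt Q ^ 2 →
      ww P = L * tt P + N → ww Q = L * tt Q + N → N ≠ 0 ∧ s * N = L)
    (hx : xc (P + Q) = s ^ 2 - xc P - xc Q)
    (hy : yc (P + Q) = -1 - (s * (xc (P + Q) - xc P) + yc P)) :
    E1 v (P + Q) ∧ v (tt (P + Q) - tt P - tt Q) ≤ (max (v (tt P)) (v (tt Q))) ^ 2 := by
  obtain ⟨a1, a2, -, -⟩ := tt_val v hP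
  obtain ⟨b1, b2, -, -⟩ := tt_val v hQ
  obtain ⟨c1, c2, c3, c4, c5⟩ := ww_val v hP
  obtain ⟨d1, d2, d3, d4, d5⟩ := ww_val v hQ
  generalize tt P = t1 at *
  generalize tt Q = t2 at *
  generalize ww P = w1 at *
  generalize ww Q = w2 at *
  set m : Γ := max (v t1) (v t2) with hmdef
  have hm : m < 1 := max_lt a1 b1
  have hm1 : v t1 ≤ m := le_max_left _ _
  have hm2 : v t2 ≤ m := le_max_right _ _
  have hw1m : v w1 ≤ m ^ 3 := by rw [c2]; exact pow_le_pow_left₀ zero_le hm1 3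
  have hw2m : v w2 ≤ m ^ 3 := by rw [d2]; exact pow_le_pow_left₀ zero_le hm2 3
  have hw1l : v w1 < 1 := lt_of_le_of_lt (GV2_aux hm (by norm_num) hw1m) hm
  have hw2l : v w2 < 1 := lt_of_le_of_lt (GV2_aux hm (by norm_num) hw2m) hm
  have hu : v (1 - w1 - w2) = 1 := by
    have : (1 : k) - w1 - w2 = 1 - (w1 + w2) := by ring
    rw [this]
    exact v.map_one_sub_of_lt (v.map_add_lt hw1l hw2l)
  have hu0 : (1 : k) - w1 - w2 ≠ 0 := by
    intro h
    rw [h, map_zero] at hu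
    exact zero_ne_one hu
  obtain ⟨L, hLdef⟩ : ∃ L : k, L = (t1 ^ 2 + t1 * t2 + t2 ^ 2) / (1 - w1 - w2) := ⟨_, rfl⟩
  have hL : L * (1 - w1 - w2) = t1 ^ 2 + t1 * t2 + t2 ^ 2 := by
    rw [hLdef, div_mul_cancel₀ _ hu0]
  obtain ⟨N, hNdef⟩ : ∃ N : k, N = w1 - L * t1 := ⟨_, rfl⟩
  have hw1 : w1 = L * t1 + N := by rw [hNdef]; ring
  have hw2 : w2 = L * t2 + N := by
    have h : (w1 - w2 - L * (t1 - t2)) * (1 - w1 - w2) = 0 := by
      linear_combination c3 - d3 - (t1 - t2) * hL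
    rcases mul_eq_zero.1 h with h | h
    · rw [hNdef]
      linear_combination -h
    · exact absurd h hu0
  obtain ⟨hN0, hsN⟩ := hs L N hL hw1 hw2
  obtain ⟨t3, ht3⟩ : ∃ t3 : k, t3 = -L ^ 2 - t1 - t2 := ⟨_, rfl⟩
  obtain ⟨w3, hw3⟩ : ∃ w3 : k, w3 = L * t3 + N := ⟨_, rfl⟩
  obtain ⟨A1, A2, A3⟩ := GV2_alg c3 hL hw1 hw2 ht3 hw3
  have hw30 : w3 ≠ 0 := by
    intro h
    rw [h, mul_zero] at A1
    exact hN0 (pow_eq_zero_iff (by norm_num) |>.1 A1.symm)
  -- coordinates of the sum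
  have hX : xc (P + Q) = t3 / w3 := by
    have hs' : s = L / N := by rw [eq_div_iff hN0]; exact hsN
    rw [hx, c4, d4, hs']
    have h : L ^ 2 * (w1 * w2 * w3) = N ^ 2 * (t1 * w2 * w3 + t2 * w1 * w3 + t3 * w1 * w2) := by
      rw [A1, A2]; ring
    field_simp
    linear_combination h
  have hY : yc (P + Q) = -1 + 1 / w3 := by
    have hs' : s = L / N := by rw [eq_div_iff hN0]; exact hsN
    rw [hy, hX, c4, c5, hs']
    have h : L * (t3 * w1 - t1 * w3) = N * (w3 - w1) := by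
      rw [hw3, hw1]; ring
    field_simp
    linear_combination -h
  -- valuations
  have hLm : v L ≤ m ^ 2 := by
    have e : v L = v (t1 ^ 2 + t1 * t2 + t2 ^ 2) := by
      rw [← hL, map_mul, hu, mul_one]
    rw [e]
    refine v.map_add_le (v.map_add_le ?_ ?_) ?_
    · rw [map_pow]; exact pow_le_pow_left₀ zero_le hm1 2
    · rw [map_mul, sq]; exact mul_le_mul' hm1 hm2
    · rw [map_pow]; exact pow_le_pow_left₀ zero_le hm2 2
  have hNm : v N ≤ m ^ 3 := by
    rw [hNdef]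
    refine v.map_sub_le hw1m ?_
    rw [map_mul, pow_succ]
    exact mul_le_mul' hLm hm1
  have hL4 : v (L ^ 2) ≤ m ^ 4 := by
    rw [map_pow]
    calc v L ^ 2 ≤ (m ^ 2) ^ 2 := pow_le_pow_left₀ zero_le hLm 2
      _ = m ^ 4 := by rw [← pow_mul]
  have ht3m : v t3 ≤ m := by
    rw [ht3]
    refine v.map_sub_le (v.map_sub_le ?_ hm1) hm2
    rw [Valuation.map_neg]
    exact GV2_aux hm (by norm_num) hL4
  have hw3m : v w3 ≤ m ^ 3 := by
    rw [hw3]
    refine v.map_add_le ?_ hNm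
    rw [map_mul, pow_succ]
    exact mul_le_mul' hLm ht3m
  have hw3l : v w3 < 1 := lt_of_le_of_lt (GV2_aux hm (by norm_num) hw3m) hm
  have hu3 : v (1 - w3) = 1 := v.map_one_sub_of_lt hw3l
  have hu30 : (1 : k) - w3 ≠ 0 := by
    intro h
    rw [h, map_zero] at hu3
    exact zero_ne_one hu3
  have hvw3 : v w3 = v t3 ^ 3 := by
    have h : w3 * (1 - w3) = t3 ^ 3 := by linear_combination A3
    have h2 := congrArg v h
    rw [map_mul, hu3, mul_one, map_pow] at h2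
    exact h2
  have hvt3 : v t3 ≠ 0 := by
    intro h
    rw [h, zero_pow (by norm_num)] at hvw3
    exact hw30 ((v.zero_iff).1 hvw3)
  have ht3l : v t3 < 1 := lt_of_le_of_lt ht3m hm
  have hE : 1 < v (xc (P + Q)) := by
    rw [hX, map_div₀, hvw3]
    rw [lt_div_iff₀ (pow_pos (zero_lt_iff.2 hvt3) 3), one_mul]
    calc v t3 ^ 3 < v t3 ^ 1 := pow_lt_pow_right_of_lt_one₀ (zero_lt_iff.2 hvt3) ht3l (by norm_num)
      _ = v t3 := pow_one _
  refine ⟨Or.inr hE, ?_⟩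
  have hT : tt (P + Q) - t1 - t2 = (L ^ 2 + (t1 + t2) * w3) / (1 - w3) := by
    unfold tt
    rw [hX, hY]
    have h1 : (-1 : k) + 1 / w3 = (1 - w3) / w3 := by field_simp; ring
    rw [h1]
    have h2 : -(t3 / w3) / ((1 - w3) / w3) = -t3 / (1 - w3) := by field_simp
    rw [h2, eq_div_iff hu30, ht3]
    field_simp
    ring
  rw [hT, map_div₀, hu3, div_one]
  have hm42 : m ^ 4 ≤ m ^ 2 := pow_le_pow_right_of_le_one' hm.le (by norm_num)
  refine v.map_add_le (hL4.trans hm42) ?_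
  rw [map_mul]
  calc v (t1 + t2) * v w3 ≤ m * m ^ 3 := mul_le_mul' (v.map_add_le hm1 hm2) hw3m
    _ = m ^ 4 := by rw [← pow_succ']
    _ ≤ m ^ 2 := hm42

theorem E1_add {P Q : P27 k} (hP : E1 v P) (hQ : E1 v Q) :
    E1 v (P + Q) ∧ v (tt (P + Q) - tt P - tt Q) ≤ (max (v (tt P)) (v (tt Q))) ^ 2 := by
  have ht0 : tt (0 : P27 k) = 0 := by
    unfold tt
    rw [xc_zero, neg_zero, zero_div]
  rcases add_cases P Q with h | h | h | ⟨hP0, h, hf⟩ | ⟨hP0, hQ0, h⟩
  · rw [h, zero_add, ht0, sub_zero, sub_self, map_zero]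
    exact ⟨hQ, zero_le⟩
  · rw [h, add_zero, ht0, sub_zero, sub_self, map_zero]
    exact ⟨hP, zero_le⟩
  · rcases hQ with hQ | hQ
    · have hP0 : P = 0 := by rw [h, hQ, neg_zero]
      rw [hP0, hQ, add_zero, ht0, sub_zero, sub_self, map_zero]
      exact ⟨Or.inl rfl, zero_le⟩
    · have hQ0 : Q ≠ 0 := by
        rintro rfl
        rw [xc_zero, map_zero] at hQ
        exact absurd hQ (not_lt.2 zero_le)
      refine ⟨?_, ?_⟩
      · rw [h, neg_add_cancel]
        exact Or.inl rfl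
      obtain ⟨b1, b2, b3, b4⟩ := tt_val v hQ
      have hxne : xc Q ≠ 0 := by
        intro h0
        rw [h0, map_zero] at hQ
        exact absurd hQ (not_lt.2 zero_le)
      have hvx : v (xc Q) ≠ 0 := (v.ne_zero_iff).2 hxne
      have hy0 : yc Q ≠ 0 := by
        intro h0
        have := eqn Q
        rw [h0] at this
        apply hxne
        apply pow_eq_zero_iff (three_ne_zero) |>.1
        rw [← this]
        ring
      have hy1 : 1 + yc Q ≠ 0 := by
        intro h0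
        have := eqn Q
        apply hxne
        apply pow_eq_zero_iff (three_ne_zero) |>.1
        rw [← this]
        linear_combination yc Q * h0
      have hsum : tt (P + Q) - tt P - tt Q = 1 / xc Q ^ 2 := by
        rw [h, neg_add_cancel, ht0]
        unfold tt
        rw [xc_neg, yc_neg hQ0]
        have h1 : (-1 : k) - yc Q ≠ 0 := by
          intro h0
          apply hy1
          linear_combination -h0
        rw [eq_div_iff (pow_ne_zero 2 hxne)]
        field_simp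
        linear_combination eqn Q
      rw [hsum, map_div₀, map_one, map_pow]
      have h4 : v (tt Q) ^ 4 = 1 / v (xc Q) ^ 2 := by
        rw [eq_div_iff (pow_ne_zero 2 hvx)]
        calc v (tt Q) ^ 4 * v (xc Q) ^ 2 = (v (tt Q) ^ 2 * v (xc Q)) ^ 2 := by
              rw [mul_pow, ← pow_mul]
          _ = 1 := by rw [b3, one_pow]
      rw [← h4]
      calc v (tt Q) ^ 4 ≤ v (tt Q) ^ 2 := pow_le_pow_right_of_le_one' b1.le (by norm_num)
        _ ≤ _ := pow_le_pow_left₀ zero_le (le_max_right _ _) 2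
  · subst h
    have hP1 : 1 < v (xc P) := hP.resolve_left hP0
    obtain ⟨e1, e2, e3⟩ := dbl_coords hP0 hf
    refine GV2_core v hP1 hP1 (3 * xc P ^ 2 / fc P) ?_ (by rw [e2]; ring) e3
    intro L N hL hw _
    obtain ⟨c1, c2, c3, c4, c5⟩ := ww_val v hP1
    have hf2 : fc P = (ww P - 2) / ww P := by
      unfold fc
      rw [c5]
      field_simp
      ring
    have hw2 : ww P - 2 ≠ 0 := by
      intro h0
      apply hf
      rw [hf2, h0, zero_div]
    have hvw : v (ww P) < 1 := by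
      rw [c2]
      exact pow_lt_one' (tt_val v hP1).1 (by norm_num)
    have hu : v (1 - ww P - ww P) = 1 := by
      have : (1 : k) - ww P - ww P = 1 - (ww P + ww P) := by ring
      rw [this]
      exact v.map_one_sub_of_lt (v.map_add_lt hvw hvw)
    have hu0 : (1 : k) - ww P - ww P ≠ 0 := by
      intro h
      rw [h, map_zero] at hu
      exact zero_ne_one hu
    have hNu : N * (1 - ww P - ww P) = ww P * (ww P - 2) := by
      linear_combination (1 - ww P - ww P) * (-hw) - tt P * hL + 3 * c3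
    refine ⟨?_, ?_⟩
    · intro hN
      rw [hN, zero_mul] at hNu
      exact mul_ne_zero c1 hw2 hNu.symm
    · have h3 : (3 * xc P ^ 2 / fc P) = 3 * tt P ^ 2 / (ww P * (ww P - 2)) := by
        rw [hf2, c4]
        field_simp
      rw [h3]
      apply mul_right_cancel₀ hu0
      rw [hL, mul_assoc, hNu, div_mul_cancel₀ _ (mul_ne_zero c1 hw2)]
      ring
  · have hP1 : 1 < v (xc P) := hP.resolve_left hP0
    have hQ1 : 1 < v (xc Q) := hQ.resolve_left hQ0
    obtain ⟨e1, e2, e3⟩ := add_coords hP0 hQ0 h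
    refine GV2_core v hP1 hQ1 ((yc P - yc Q) / (xc P - xc Q)) ?_ e2 e3
    intro L N hL hw1 hw2
    obtain ⟨c1, c2, c3, c4, c5⟩ := ww_val v hP1
    obtain ⟨d1, d2, d3, d4, d5⟩ := ww_val v hQ1
    have hx : (xc P - xc Q) * (ww P * ww Q) = N * (tt P - tt Q) := by
      have : (xc P - xc Q) * (ww P * ww Q) = tt P * ww Q - tt Q * ww P := by
        rw [c4, d4]
        field_simp
      rw [this, hw1, hw2]
      ring
    have hy : (yc P - yc Q) * (ww P * ww Q) = L * (tt P - tt Q) := by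
      have : (yc P - yc Q) * (ww P * ww Q) = ww P - ww Q := by
        rw [c5, d5]
        field_simp
        ring
      rw [this, hw1, hw2]
      ring
    have hd : xc P - xc Q ≠ 0 := sub_ne_zero.2 h
    have hne : N * (tt P - tt Q) ≠ 0 := by
      rw [← hx]
      exact mul_ne_zero hd (mul_ne_zero c1 d1)
    refine ⟨left_ne_zero_of_mul hne, ?_⟩
    have ht : tt P - tt Q ≠ 0 := right_ne_zero_of_mul hne
    rw [div_mul_eq_mul_div, div_eq_iff hd]
    apply mul_right_cancel₀ (mul_ne_zero c1 d1)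
    apply mul_right_cancel₀ ht
    linear_combination (N * (tt P - tt Q)) * hy - L * (tt P - tt Q) * hx

end H28G
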