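import Mathlib
import Pool.Agent.Lib.H28G.GV2

open NumberField IsDedekindDomain WeierstrassCurve

namespace H28G

open H55B

/-! Chunk GV3 (S/M): multiplication by c near infinity. If v(tt P) = 0 or P = 0: P = 0, trivial (tt 0 = 0). tt_int: for n in N by induction: E1 (nP), v(tt(nP) - n tt P) <= v(tt P)^2, hence v(tt(nP)) <= v(tt P) (v(n) <= 1, v(tt P) < 1), E1_add with
max = v(tt P). For negative n: tt(-P) + tt P = -1/x^2 (or E1_add for P and -P). c = a + b om: E1_om, tt(omP P) = ok tt P, act_apply, E1_add once more (all the valuations are <= v(tt P)); ak c = a + b ok.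
act_val: if c' c = 1 mod the annihilator (act c' (act c P) = P): v(tt(act c P)) <= v(tt P) <= v(tt(act c P)). -/

variable {k : Type} [Field k] [DecidableEq k] [Algebra F k]
  {Γ : Type} [LinearOrderedCommGroupWithZero Γ] (v : Valuation k Γ)

omit [DecidableEq k] in
theorem GV3_tt0 : tt (0 : P27 k) = 0 := by
  unfold tt
  rw [xc_zero, neg_zero, zero_div]

theorem GV3_tt_lt {P : P27 k} (hP : E1 v P) : v (tt P) < 1 := by
  rcases hP with h | h
  · rw [h, GV3_tt0, map_zero]
    exact zero_lt_one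
  · exact (tt_val v h).1

theorem GV3_tt_neg {P : P27 k} (hP : E1 v P) : v (tt (-P)) = v (tt P) := by
  rcases hP with h | h
  · rw [h]
    rfl
  · have h1 : 1 < v (xc (-P)) := by rw [xc_neg]; exact h
    obtain ⟨-, -, a3, -⟩ := tt_val v h
    obtain ⟨-, -, b3, -⟩ := tt_val v h1
    rw [xc_neg] at b3
    have hx : v (xc P) ≠ 0 := by
      intro h0
      rw [h0] at h
      exact absurd h (not_lt.2 zero_le)
    have h2 : v (tt (-P)) ^ 2 = v (tt P) ^ 2 := by
      apply mul_right_cancel₀ hx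
      rw [a3, b3]
    exact (pow_left_inj₀ zero_le zero_le two_ne_zero).1 h2

/-- P is in E1 and tt P = a T up to squares. -/
def GV3_R (T : k) (P : P27 k) (a : k) : Prop := E1 v P ∧ v a ≤ 1 ∧ v (tt P - a * T) ≤ v T ^ 2

omit [DecidableEq k] in
theorem GV3_le {T : k} (hT : v T < 1) {P : P27 k} {a : k} (h : GV3_R v T P a) : v (tt P) ≤ v T := by
  have e1 : tt P = (tt P - a * T) + a * T := by ring
  rw [e1]
  refine v.map_add_le (h.2.2.trans ?_) ?_
  · rw [sq]
    exact mul_le_of_le_one_left' hT.le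
  · rw [map_mul]
    exact mul_le_of_le_one_left' h.2.1

theorem GV3_add {T : k} (hT : v T < 1) {P Q : P27 k} {a b : k} (h : GV3_R v T P a)
    (h' : GV3_R v T Q b) : GV3_R v T (P + Q) (a + b) := by
  obtain ⟨h1, h2⟩ := E1_add v h.1 h'.1
  refine ⟨h1, v.map_add_le h.2.1 h'.2.1, ?_⟩
  have e1 : tt (P + Q) - (a + b) * T = (tt (P + Q) - tt P - tt Q) + (tt P - a * T) +
      (tt Q - b * T) := by ring
  rw [e1]
  refine v.map_add_le (v.map_add_le (h2.trans ?_) h.2.2) h'.2.2
  exact pow_le_pow_left₀ zero_le (max_le (GV3_le v hT h) (GV3_le v hT h')) 2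

theorem GV3_neg {T : k} (hT : v T < 1) {P : P27 k} {a : k} (h : GV3_R v T P a) :
    GV3_R v T (-P) (-a) := by
  have hn := E1_neg v h.1
  obtain ⟨h1, h2⟩ := E1_add v h.1 hn
  refine ⟨hn, by rw [Valuation.map_neg]; exact h.2.1, ?_⟩
  rw [add_neg_cancel, GV3_tt0, GV3_tt_neg v h.1, max_self] at h2
  have e1 : tt (-P) - -a * T = -(0 - tt P - tt (-P)) - (tt P - a * T) := by ring
  rw [e1]
  refine v.map_sub_le ?_ h.2.2
  rw [Valuation.map_neg]
  exact h2.trans (pow_le_pow_left₀ zero_le (GV3_le v hT h) 2)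

theorem GV3_nsmul {T : k} (hT : v T < 1) {P : P27 k} {a : k} (h : GV3_R v T P a) (n : ℕ) :
    GV3_R v T (n • P) ((n : k) * a) := by
  induction n with
  | zero =>
    rw [zero_smul, Nat.cast_zero, zero_mul]
    refine ⟨E1_zero v, ?_, ?_⟩
    · rw [map_zero]
      exact zero_le
    · rw [GV3_tt0, zero_mul, sub_zero, map_zero]
      exact zero_le
  | succ n ih =>
    have h1 := GV3_add v hT ih h
    rw [succ_nsmul]
    have e1 : ((n + 1 : ℕ) : k) * a = (n : k) * a + a := by
      push_cast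
      ring
    rw [e1]
    exact h1

theorem GV3_zsmul {T : k} (hT : v T < 1) {P : P27 k} {a : k} (h : GV3_R v T P a) (n : ℤ) :
    GV3_R v T (n • P) ((n : k) * a) := by
  obtain ⟨m, rfl | rfl⟩ := n.eq_nat_or_neg
  · have h1 := GV3_nsmul v hT h m
    rw [natCast_zsmul, Int.cast_natCast]
    exact h1
  · have h1 := GV3_neg v hT (GV3_nsmul v hT h m)
    rw [neg_smul, natCast_zsmul, Int.cast_neg, Int.cast_natCast, neg_mul]
    exact h1

theorem E1_act {P : P27 k} (hP : E1 v P) (c : O) :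
    E1 v (act c P) ∧ v (tt (act c P) - ak k c * tt P) ≤ v (tt P) ^ 2 ∧ v (tt (act c P)) ≤ v (tt P) := by
  have hT := GV3_tt_lt v hP
  have h1 : GV3_R v (tt P) P 1 := by
    refine ⟨hP, by rw [map_one], ?_⟩
    rw [one_mul, sub_self, map_zero]
    exact zero_le
  have h2 : GV3_R v (tt P) (omP P) (ok k) := by
    obtain ⟨h3, h4⟩ := E1_om v hP
    refine ⟨h3, (ok_val v).le, ?_⟩
    rw [h4, sub_self, map_zero]
    exact zero_le
  obtain ⟨a, b, rfl⟩ := exists_repr c
  have h3 := GV3_add v hT (GV3_zsmul v hT h1 a) (GV3_zsmul v hT h2 b)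
  rw [← act_apply] at h3
  have e1 : ak k ((a : O) + b * om) = (a : k) * 1 + (b : k) * ok k := by
    unfold ak ok
    simp
  rw [← e1] at h3
  exact ⟨h3.1, h3.2.2, GV3_le v hT h3⟩

theorem act_val {P : P27 k} (hP : E1 v P) (c c' : O) (h : act c' (act c P) = P) :
    v (tt (act c P)) = v (tt P) := by
  have h1 := E1_act v hP c
  have h2 := E1_act v h1.1 c'
  rw [h] at h2
  exact le_antisymm h1.2.2 h2.2.2

/-- The points which reduce to infinity form a subgroup. -/
theorem E1_sub {P Q : P27 k} (hP : E1 v P) (hQ : E1 v Q) : E1 v (P - Q) := by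
  rw [sub_eq_add_neg]
  exact (E1_add v hP (E1_neg v hQ)).1

end H28G
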