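import Mathlib
import Pool.Agent.Lib.H28G.GV3
import Pool.Agent.Lib.H28G.GD2

open NumberField IsDedekindDomain WeierstrassCurve

namespace H28G

open H55B

/-! Chunk GV6 (M): points killed by c. tor_unit: R in E1, act c R = 0: E1_act gives v(tt 0 - ak c * tt R) <= v(tt R)^2, tt 0 = 0, so v(tt R) <= v(tt R)^2 with v(tt R) < 1 (tt_val) unless R = 0.
tor_val (b a prime element, 3 | b - 1): dist_x: the product over R <> 0 in Tor b of v(xc R) is v(C)/v(b)^2 = v(b)^(-2) > 1 (C^6 = 1 gives v(C) = 1; v(ak b) <> 0; Full.finite, finprod_eq_prod_of_fintype, map_prod), so some R0 <> 0 has v(xc R0) > 1. Every R <> 0 in Tor b is act c R0 (tor_gen) and R0 = act c' R, so E1 (E1_act)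
and v(tt R) = v(tt R0) (act_val), v(tt R)^2 v(xc R) = 1 (tt_val). The number of the R <> 0 is Nm b - 1 (Full). So v(tt R)^(2 (Nm b - 1)) = v(b)^2, and squares are injective in a linearly ordered commutative group with zero (pow_left_injective, or compare with lt). -/

variable {k : Type} [Field k] [DecidableEq k] [Algebra F k]
  {Γ : Type} [LinearOrderedCommGroupWithZero Γ] (v : Valuation k Γ)

theorem tor_unit {c : O} (hc : v (ak k c) = 1) {R : P27 k} (hR : R ∈ Tor c k) (h1 : E1 v R) : R = 0 := by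
  by_contra h0
  have h2 : 1 < v (xc R) := by
    rcases h1 with h | h
    · exact absurd h h0
    · exact h
  obtain ⟨h3, h4, -, -⟩ := tt_val v h2
  have h5 := (E1_act v h1 c).2.1
  have h6 : act c R = 0 := hR
  have ht0 : tt (0 : P27 k) = 0 := by
    unfold tt
    rw [xc_zero, neg_zero, zero_div]
  rw [h6, ht0, zero_sub, Valuation.map_neg, map_mul, hc, one_mul, sq] at h5
  have h7 : v (tt R) * v (tt R) < 1 * v (tt R) :=
    mul_lt_mul_of_pos_right h3 (zero_lt_iff.2 h4)
  rw [one_mul] at h7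
  exact absurd h5 (not_le.2 h7)

theorem GV6_ak_ne {b : O} (hb : b ≠ 0) : ak k b ≠ 0 := by
  intro h
  apply hb
  unfold ak at h
  rw [RingHom.comp_apply] at h
  have h1 : algebraMap O F b = 0 := (algebraMap F k).injective (by rw [h, map_zero])
  exact FaithfulSMul.algebraMap_injective O F (by rw [h1, map_zero])

theorem tor_val (j : k →ₐ[F] ℂ) {b : O} (hp : Prime b) (hb : Prim b) (hf : Full b k)
    (hv : v (ak k b) < 1) {R : P27 k} (hR : R ∈ Tor b k) (h0 : R ≠ 0) :
    1 < v (xc R) ∧ v (tt R) ^ (Nm b - 1) = v (ak k b) := by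
  classical
  have hb0 : b ≠ 0 := hp.ne_zero
  have hfin : Finite (Tor b k) := hf.finite hb0
  have : Fintype (Tor b k) := Fintype.ofFinite _
  obtain ⟨C, hC6, -, hC⟩ := dist_x j b hb hf
  have hak : v (ak k b) ≠ 0 := (Valuation.ne_zero_iff v).2 (GV6_ak_ne hb0)
  have hvC : v C = 1 := by
    have h1 : v C ^ 6 = 1 := by rw [← map_pow, hC6, map_one]
    exact (pow_eq_one_iff.1 h1).resolve_right (by norm_num)
  rw [finprod_eq_prod_of_fintype] at hC
  have hprod : ∏ S : {R : Tor b k // R ≠ 0}, v (xc (S.1 : P27 k)) = (v (ak k b) ^ 2)⁻¹ := by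
    rw [← map_prod, hC, map_div₀, hvC, map_pow, one_div]
  have hgt : 1 < (v (ak k b) ^ 2)⁻¹ := by
    rw [one_lt_inv₀ (pow_pos (zero_lt_iff.2 hak) 2)]
    exact pow_lt_one₀ zero_le hv two_ne_zero
  obtain ⟨S0, hS0⟩ : ∃ S0 : {R : Tor b k // R ≠ 0}, 1 < v (xc (S0.1 : P27 k)) := by
    by_contra hcon
    push Not at hcon
    have h1 : ∏ S : {R : Tor b k // R ≠ 0}, v (xc (S.1 : P27 k)) ≤ 1 :=
      Finset.prod_le_one' fun S _ => hcon S
    rw [hprod] at h1
    exact absurd h1 (not_le.2 hgt)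
  have hS0' : ((S0.1 : Tor b k) : P27 k) ≠ 0 := fun h => S0.2 (Subtype.ext h)
  have hE : E1 v (S0.1 : P27 k) := Or.inr hS0
  have hall : ∀ R : P27 k, R ∈ Tor b k → R ≠ 0 →
      1 < v (xc R) ∧ v (tt R) = v (tt (S0.1 : P27 k)) := by
    intro R hR h0
    obtain ⟨c, hc⟩ := tor_gen hp hf S0.1.2 hR hS0'
    obtain ⟨c', hc'⟩ := tor_gen hp hf hR S0.1.2 h0
    have h1 := (E1_act v hE c).1
    have h2 := act_val v hE c c' (by rw [hc, hc'])
    rw [hc] at h1 h2
    refine ⟨?_, h2⟩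
    rcases h1 with h | h
    · exact absurd h h0
    · exact h
  obtain ⟨h1, h2⟩ := hall R hR h0
  refine ⟨h1, ?_⟩
  have hcard : Fintype.card {R : Tor b k // R ≠ 0} = Nm b - 1 := by
    have h3 : Nat.card (Tor b k) = Nm b := hf
    rw [Nat.card_eq_fintype_card] at h3
    have h4 := Fintype.card_subtype_compl (fun R : Tor b k => R = 0)
    rw [Fintype.card_subtype_eq, h3] at h4
    exact h4
  obtain ⟨t, ht⟩ : ∃ t, t = v (tt R) := ⟨_, rfl⟩
  have hconst : ∀ S : {R : Tor b k // R ≠ 0}, v (xc (S.1 : P27 k)) = (t ^ 2)⁻¹ := by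
    intro S
    have hS : ((S.1 : Tor b k) : P27 k) ≠ 0 := fun h => S.2 (Subtype.ext h)
    obtain ⟨h3, h4⟩ := hall S.1 S.1.2 hS
    have h5 := (tt_val v h3).2.2.1
    rw [h4, ← h2, ← ht] at h5
    exact (eq_inv_of_mul_eq_one_right h5)
  rw [Finset.prod_congr rfl fun S _ => hconst S, Finset.prod_const, Finset.card_univ, hcard,
    inv_pow, inv_inj, ← pow_mul, mul_comm, pow_mul] at hprod
  rw [← ht]
  exact (pow_left_inj₀ zero_le zero_le two_ne_zero).1 hprod

end H28G
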