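import Mathlib
import Pool.Agent.Lib.H28G.GV5
import Pool.Agent.Lib.H28G.GV6

open NumberField IsDedekindDomain WeierstrassCurve

namespace H28G

open H55B

/-! Chunk GV7 (M): Kronecker congruence: multiplication by b is the Frobenius modulo b. q = Nm b. For R in Tor b: E1 (tor_val, or R = 0), so for X integral (X <> 0, v(xc X) <= 1): by transl xc(X+R) = xc X + (something of valuation < 1), same for yc (v(fc X), v(3 xc X^2) <= 1, v(tt R) < 1).
act b X <> 0: otherwise X in Tor b, X in E1. So prod_R xc(X+R) = (xc X)^q + (valuation < 1) (finite product of q factors: congruences modulo the ideal of the valuation ring; Full.finite, finprod_eq_prod_of_fintype; card = Nm b). dist_x: = C xc(act b X).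
C = 1 + (valuation < 1): apply this to X = Spt: xc Spt = -1, act b Spt = Spt: (-1)^q = -C + small; q is odd, or q = 4 and then v(2) < 1 (Nm b = q even: b | 2 up to units, v b < 1 gives v 2 < 1) so that -1 = 1 + small. For y: C_y yc(Spt) = yc(Spt)^q + small, yc Spt = ok, ok^q = ok because
q = Nm b = 1 mod 3 (Prim b: Nm b = b * cj b, both = 1 mod 3; or Nm_repr) so C_y = 1 + small (v(ok) = 1). Hence v(xc(act b X) - (xc X)^q) < 1 and the same for y (v(C) = 1). -/

variable {k : Type} [Field k] [DecidableEq k] [Algebra F k]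
  {Γ : Type} [LinearOrderedCommGroupWithZero Γ] (v : Valuation k Γ)

section GV7aux
variable {k : Type} [Field k] {Γ : Type} [LinearOrderedCommGroupWithZero Γ] (v : Valuation k Γ)

theorem GV7_nat (n : ℕ) : v (n : k) ≤ 1 := by
  induction n with
  | zero => simp
  | succ n ih =>
    rw [Nat.cast_succ]
    exact (v.map_add _ _).trans (max_le ih (le_of_eq v.map_one))

theorem GV7_mul_lt {x y : k} (hx : v x ≤ 1) (hy : v y < 1) : v (x * y) < 1 := by
  rw [map_mul]
  exact mul_lt_one_of_nonneg_of_lt_one_right hx zero_le hy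

theorem GV7_add_lt {x y : k} (hx : v x < 1) (hy : v y < 1) : v (x + y) < 1 :=
  (v.map_add _ _).trans_lt (max_lt hx hy)

theorem GV7_sub_lt {x y : k} (hx : v x < 1) (hy : v y < 1) : v (x - y) < 1 :=
  (v.map_sub _ _).trans_lt (max_lt hx hy)

theorem GV7_le_one {x y : k} (hx : v x ≤ 1) (hy : v (y - x) < 1) : v y ≤ 1 := by
  have h : y = x + (y - x) := by ring
  rw [h]
  exact (v.map_add _ _).trans (max_le hx (le_of_lt hy))

/-- A product of elements congruent to a. -/
theorem GV7_prod {ι : Type} (s : Finset ι) (f : ι → k) (a : k) (ha : v a ≤ 1)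
    (hf : ∀ i ∈ s, v (f i - a) < 1) : v (∏ i ∈ s, f i - a ^ s.card) < 1 := by
  classical
  induction s using Finset.induction_on with
  | empty => simp
  | insert i s hi ih =>
    have h1 := ih (fun j hj => hf j (Finset.mem_insert_of_mem hj))
    have h2 := hf i (Finset.mem_insert_self i s)
    rw [Finset.prod_insert hi, Finset.card_insert_of_notMem hi, pow_succ]
    have hP : v (∏ j ∈ s, f j) ≤ 1 := GV7_le_one v (x := a ^ s.card) (by
      rw [map_pow]
      exact pow_le_one' ha _) h1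
    have e : f i * ∏ j ∈ s, f j - a ^ s.card * a = (∏ j ∈ s, f j) * (f i - a) + a * (∏ j ∈ s, f j - a ^ s.card) := by
      ring
    rw [e]
    exact GV7_add_lt v (GV7_mul_lt v hP h2) (GV7_mul_lt v ha h1)

theorem GV7_finprod {ι : Type} [Finite ι] (f : ι → k) (a : k) (ha : v a ≤ 1)
    (hf : ∀ i, v (f i - a) < 1) : v (∏ᶠ i, f i - a ^ Nat.card ι) < 1 := by
  have := Fintype.ofFinite ι
  rw [finprod_eq_prod_of_fintype, Nat.card_eq_fintype_card]
  exact GV7_prod v Finset.univ f a ha fun i _ => hf i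

end GV7aux

theorem GV7_tt_lt {P : P27 k} (h : E1 v P) : v (tt P) < 1 := by
  rcases h with h | h
  · rw [h]
    have : tt (0 : P27 k) = 0 := by
      unfold tt
      rw [xc_zero, neg_zero, zero_div]
    rw [this, map_zero]
    exact zero_lt_one
  · exact (tt_val v h).1

theorem GV7_fc_le {P : P27 k} (h : v (xc P) ≤ 1) : v (fc P) ≤ 1 := by
  unfold fc
  refine (v.map_add _ _).trans (max_le ?_ (le_of_eq v.map_one))
  rw [map_mul]
  exact mul_le_one' (by simpa using GV7_nat v 2) (int_y v h)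

/-- Congruences of the coordinates of X + R. -/
theorem GV7_cong {X R : P27 k} (hX : X ≠ 0) (h1 : v (xc X) ≤ 1) (hR : E1 v R) :
    v (xc (X + R) - xc X) < 1 ∧ v (yc (X + R) - yc X) < 1 := by
  obtain ⟨_, _, h2, h3⟩ := transl v hX h1 hR
  have ht := GV7_tt_lt v hR
  have ht2 : v (tt R) ^ 2 < 1 := pow_lt_one' ht two_ne_zero
  constructor
  · have e : xc (X + R) - xc X = (xc (X + R) - xc X - fc X * tt R) + fc X * tt R := by ring
    rw [e]
    exact GV7_add_lt v (h2.trans_lt ht2) (GV7_mul_lt v (GV7_fc_le v h1) ht)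
  · have e : yc (X + R) - yc X = (yc (X + R) - yc X - 3 * xc X ^ 2 * tt R) + 3 * xc X ^ 2 * tt R := by ring
    rw [e]
    refine GV7_add_lt v (h3.trans_lt ht2) (GV7_mul_lt v ?_ ht)
    rw [map_mul, map_pow]
    exact mul_le_one' (by simpa using GV7_nat v 3) (pow_le_one' h1 2)

/-- The norm of a primary element is 1 modulo 3. -/
theorem GV7_Nm_mod {b : O} (hb : Prim b) : ∃ n : ℕ, Nm b = 3 * n + 1 := by
  obtain ⟨c, hc⟩ := hb
  obtain ⟨x, y, rfl⟩ := exists_repr c
  have h1 : b = ((1 + 3 * x : ℤ) : O) + ((3 * y : ℤ) : O) * om := by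
    push_cast
    linear_combination hc
  have h2 := Nm_repr (1 + 3 * x) (3 * y)
  rw [← h1] at h2
  have h3 : (Nm b : ℤ) = 3 * (2 * x + 3 * x ^ 2 - y - 3 * x * y + 3 * y ^ 2) + 1 := by
    rw [h2]
    ring
  have h4 : 0 ≤ 2 * x + 3 * x ^ 2 - y - 3 * x * y + 3 * y ^ 2 := by
    by_contra hneg
    push Not at hneg
    have : (0 : ℤ) ≤ Nm b := Int.natCast_nonneg _
    omega
  refine ⟨(2 * x + 3 * x ^ 2 - y - 3 * x * y + 3 * y ^ 2).toNat, ?_⟩
  zify
  rw [Int.toNat_of_nonneg h4]
  exact h3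

/-- If the norm of the prime b is even then b divides 2. -/
theorem GV7_even {b : O} (hp : Prime b) (he : Even (Nm b)) : b ∣ 2 := by
  obtain ⟨x, y, rfl⟩ := exists_repr b
  have h2 := Nm_repr x y
  have h3 : (2 : ℤ) ∣ x ^ 2 - x * y + y ^ 2 := by
    rw [← h2]
    obtain ⟨m, hm⟩ := he
    exact ⟨m, by rw [hm]; push_cast; ring⟩
  have hxy : (2 : ℤ) ∣ x ∧ (2 : ℤ) ∣ y := by
    rcases Int.even_or_odd' x with ⟨c, hc | hc⟩ <;> rcases Int.even_or_odd' y with ⟨d, hd | hd⟩
    · exact ⟨⟨c, hc⟩, ⟨d, hd⟩⟩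
    all_goals
      exfalso
      obtain ⟨m, hm⟩ := h3
      subst hc hd
      ring_nf at hm
      omega
  obtain ⟨⟨c, hc⟩, ⟨d, hd⟩⟩ := hxy
  have e : ((x : O) + y * om) = 2 * ((c : O) + d * om) := by
    rw [hc, hd]
    push_cast
    ring
  have hirr := hp.irreducible
  rcases hirr.isUnit_or_isUnit e with h | h
  · exfalso
    have h5 : Nm (2 : O) = 4 := by
      have := Nm_repr 2 0
      have e2 : ((2 : ℤ) : O) + ((0 : ℤ) : O) * om = 2 := by push_cast; ring
      rw [e2] at this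
      have h6 : (Nm (2 : O) : ℤ) = 4 := by rw [this]; norm_num
      exact_mod_cast h6
    have h7 : Nm (2 : O) = 1 := by
      unfold Nm
      rw [Ideal.span_singleton_eq_top.2 h, Ideal.absNorm_top]
    omega
  · obtain ⟨u, hu⟩ := h
    refine ⟨((u⁻¹ : Oˣ) : O), ?_⟩
    rw [e, ← hu, mul_assoc, Units.mul_inv, mul_one]

theorem kron (j : k →ₐ[F] ℂ) {b : O} (hp : Prime b) (hb : Prim b) (hf : Full b k)
    (hv : v (ak k b) < 1) {X : P27 k} (hX : X ≠ 0) (h1 : v (xc X) ≤ 1) :
    act b X ≠ 0 ∧ v (xc (act b X)) ≤ 1 ∧ v (xc (act b X) - xc X ^ Nm b) < 1 ∧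
      v (yc (act b X) - yc X ^ Nm b) < 1 := by
  have hfin : Finite (Tor b k) := hf.finite hp.ne_zero
  have hcard : Nat.card (Tor b k) = Nm b := hf
  have hE : ∀ R : Tor b k, E1 v (R : P27 k) := by
    intro R
    by_cases h0 : (R : P27 k) = 0
    · exact Or.inl h0
    · exact Or.inr (tor_val v j hp hb hf hv R.2 h0).1
  have hact : ∀ {Y : P27 k}, Y ≠ 0 → v (xc Y) ≤ 1 → act b Y ≠ 0 := by
    intro Y hY hY1 h0
    exact absurd (tor_val v j hp hb hf hv (mem_Tor.2 h0) hY).1 (not_lt.2 hY1)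
  have hxX : ∀ {Y : P27 k}, Y ≠ 0 → v (xc Y) ≤ 1 →
      v (∏ᶠ R : Tor b k, xc (Y + (R : P27 k)) - xc Y ^ Nm b) < 1 := by
    intro Y hY hY1
    rw [← hcard]
    exact GV7_finprod v _ _ hY1 fun R => (GV7_cong v hY hY1 (hE R)).1
  have hyX : ∀ {Y : P27 k}, Y ≠ 0 → v (xc Y) ≤ 1 →
      v (∏ᶠ R : Tor b k, yc (Y + (R : P27 k)) - yc Y ^ Nm b) < 1 := by
    intro Y hY hY1
    rw [← hcard]
    exact GV7_finprod v _ _ (int_y v hY1) fun R => (GV7_cong v hY hY1 (hE R)).2
  obtain ⟨C, hC6, hC, _⟩ := dist_x j b hb hf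
  obtain ⟨D, hD0, hD⟩ := dist_y j b hb hf
  have hS0 : Spt k ≠ 0 := pt_ne _ _ _
  have hSx : xc (Spt k) = -1 := rfl
  have hSy : yc (Spt k) = ok k := rfl
  have hS1 : v (xc (Spt k)) ≤ 1 := by
    rw [hSx, Valuation.map_neg, map_one]
  have haS := act_Spt (k := k) b hb
  have hC1 : v (C - 1) < 1 := by
    have h2 := hxX hS0 hS1
    rw [hC (Spt k) (by rw [haS]; exact hS0), haS, hSx] at h2
    rcases Nat.even_or_odd (Nm b) with he | ho
    · rw [he.neg_one_pow] at h2
      have h3 : v (2 : k) < 1 := by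
        obtain ⟨c, hc⟩ := GV7_even hp he
        have h4 : (2 : k) = ak k c * ak k b := by
          rw [← map_mul, mul_comm, ← hc]
          exact (map_ofNat (ak k) 2).symm
        rw [h4]
        exact GV7_mul_lt v (ak_le v c) hv
      have e : C - 1 = -((C * -1 - 1) + 2) := by ring
      rw [e, Valuation.map_neg]
      exact GV7_add_lt v h2 h3
    · rw [ho.neg_one_pow] at h2
      have e : C - 1 = -(C * -1 - -1) := by ring
      rw [e, Valuation.map_neg]
      exact h2
  have hD1 : v (D - 1) < 1 := by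
    have h2 := hyX hS0 hS1
    rw [hD (Spt k) (by rw [haS]; exact hS0), haS, hSy] at h2
    obtain ⟨n, hn⟩ := GV7_Nm_mod hb
    have h3 : ok k ^ Nm b = ok k := by
      rw [hn, pow_succ, pow_mul, ok_cube, one_pow, one_mul]
    rw [h3] at h2
    have e : D * ok k - ok k = (D - 1) * ok k := by ring
    rw [e, map_mul, ok_val, mul_one] at h2
    exact h2
  have hone : ∀ c : k, v (c - 1) < 1 → v c = 1 := by
    intro c hc
    have e : c = 1 + (c - 1) := by ring
    rw [e, Valuation.map_add_eq_of_lt_left v (by rw [map_one]; exact hc), map_one]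
  have hCv := hone C hC1
  have hDv := hone D hD1
  have hX2 := hact hX h1
  have fin : ∀ (c z w : k), v (c - 1) < 1 → v c = 1 → v w ≤ 1 → v (c * z - w) < 1 → v (z - w) < 1 := by
    intro c z w h2 h3 h4 h5
    have e : c * (z - w) = (c * z - w) - w * (c - 1) := by ring
    have h6 : v (c * (z - w)) < 1 := by
      rw [e]
      exact GV7_sub_lt v h5 (GV7_mul_lt v h4 h2)
    rw [map_mul, h3, one_mul] at h6
    exact h6
  have hxw : v (xc X ^ Nm b) ≤ 1 := by
    rw [map_pow]
    exact pow_le_one' h1 _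
  have hyw : v (yc X ^ Nm b) ≤ 1 := by
    rw [map_pow]
    exact pow_le_one' (int_y v h1) _
  have r1 : v (xc (act b X) - xc X ^ Nm b) < 1 := by
    refine fin C _ _ hC1 hCv hxw ?_
    rw [← hC X hX2]
    exact hxX hX h1
  have r2 : v (yc (act b X) - yc X ^ Nm b) < 1 := by
    refine fin D _ _ hD1 hDv hyw ?_
    rw [← hD X hX2]
    exact hyX hX h1
  exact ⟨hX2, GV7_le_one v hxw r1, r1, r2⟩

end H28G
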