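import Mathlib
import Pool.Agent.Lib.H28G.GC2
import Pool.Agent.Lib.H99B.Defs

/-!
# H28G: torsion fields (number fields)

N/K are number fields over F. `sp σ` is the action of σ in Gal(N/K) on the points over N. `TFld K N b` says that
N is the field generated over K by the points killed by b.
-/

open NumberField IsDedekindDomain WeierstrassCurve

namespace H28G

open H55B H55R H99B

section
variable {K N : Type} [Field K] [Field N] [DecidableEq N] [Algebra F K] [Algebra K N] [Algebra F N]
  [IsScalarTower F K N]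

/-- The action of the Galois group on the points. -/
noncomputable def sp (σ : Gal(N/K)) : P27 N →+ P27 N :=
  mp ((AlgEquiv.restrictScalars F σ : N ≃ₐ[F] N) : N →ₐ[F] N)

theorem xc_sp (σ : Gal(N/K)) (P : P27 N) : xc (sp σ P) = σ (xc P) := xc_mp _ P

theorem yc_sp (σ : Gal(N/K)) (P : P27 N) : yc (sp σ P) = σ (yc P) := yc_mp _ P

theorem fc_sp (σ : Gal(N/K)) (P : P27 N) : fc (sp σ P) = σ (fc P) := fc_mp _ P

theorem tt_sp (σ : Gal(N/K)) (P : P27 N) : tt (sp σ P) = σ (tt P) := tt_mp _ P

theorem sp_ne (σ : Gal(N/K)) {P : P27 N} (hP : P ≠ 0) : sp σ P ≠ 0 := mp_ne _ hP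

theorem sp_act (σ : Gal(N/K)) (c : O) (P : P27 N) : sp σ (act c P) = act c (sp σ P) := mp_act _ c P

theorem sp_inj (σ : Gal(N/K)) : Function.Injective (sp σ) := mp_inj _

theorem sp_mem (σ : Gal(N/K)) (c : O) (P : P27 N) : sp σ P ∈ Tor c N ↔ P ∈ Tor c N :=
  mp_mem_Tor _ c P

theorem sp_one (P : P27 N) : sp (1 : Gal(N/K)) P = P := by
  by_cases hP : P = 0
  · rw [hP, map_zero]
  · exact pt_ext (sp_ne _ hP) hP (xc_sp _ P) (yc_sp _ P)

theorem sp_mul (σ τ : Gal(N/K)) (P : P27 N) : sp (σ * τ) P = sp σ (sp τ P) := by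
  by_cases hP : P = 0
  · rw [hP, map_zero, map_zero, map_zero]
  · refine pt_ext (sp_ne _ hP) (sp_ne _ (sp_ne _ hP)) ?_ ?_
    · rw [xc_sp, xc_sp, xc_sp]
      rfl
    · rw [yc_sp, yc_sp, yc_sp]
      rfl

/-- A point is fixed if its coordinates are. -/
theorem sp_fix (σ : Gal(N/K)) {P : P27 N} (hx : σ (xc P) = xc P) (hy : σ (yc P) = yc P) :
    sp σ P = P := by
  by_cases hP : P = 0
  · rw [hP, map_zero]
  · exact pt_ext (sp_ne _ hP) hP ((xc_sp _ P).trans hx) ((yc_sp _ P).trans hy)

theorem sp_Spt (σ : Gal(N/K)) : sp σ (Spt N) = Spt N := by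
  refine sp_fix σ ?_ ?_
  · have h : xc (Spt N) = -1 := rfl
    rw [h, map_neg, map_one]
  · have h : yc (Spt N) = algebraMap K N (algebraMap F K (om : F)) := by
      rw [← IsScalarTower.algebraMap_apply]
      rfl
    rw [h, σ.commutes]

end

section
variable (K N : Type) [Field K] [Field N] [DecidableEq N] [Algebra F K] [Algebra K N] [Algebra F N]
  [IsScalarTower F K N]

/-- N is the field generated over K by the points killed by b. -/
structure TFld (b : O) : Prop where
  gal : IsGalois K N
  full : Full b N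
  gen : ∀ σ : Gal(N/K), (∀ R ∈ Tor b N, sp σ R = R) → σ = 1

end

section
variable (K : Type) [Field K] (Ω : Type) [Field Ω] [DecidableEq Ω] [Algebra F Ω] [Algebra K Ω]

/-- The field generated over K by the coordinates of the points over Ω killed by b. -/
noncomputable def TF (b : O) : IntermediateField K Ω :=
  IntermediateField.adjoin K {x | ∃ R ∈ Tor b Ω, x = xc R ∨ x = yc R}

end

section
variable {N : Type} [Field N] [Algebra F N]

/-- The map to k at a number field over F: a k-valued residue map of 𝓞 N compatible with q. -/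
theorem exists_emb [NumberField N] : Nonempty (N →ₐ[F] ℂ) := by
  have h1 : Algebra.IsAlgebraic ℚ N := inferInstance
  have h2 : Algebra.IsAlgebraic F N := Algebra.IsAlgebraic.tower_top (K := ℚ) F
  exact ⟨IsAlgClosed.lift⟩

/-- The value of b at a prime not containing it. -/
theorem ak_int (c : O) [NumberField N] : ak N c = ((algebraMap O (𝓞 N) c : 𝓞 N) : N) := by
  unfold ak
  exact (IsScalarTower.algebraMap_apply O (𝓞 N) N c).symm.trans rfl |>.symm ▸ rfl

end

end H28G
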