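import Mathlib
import Pool.Agent.Lib.H28G.GV4
import Pool.Agent.Lib.H28G.GV6
import Pool.Agent.Lib.H28G.KDefs
import Pool.Agent.Lib.H55R.BF2

open NumberField IsDedekindDomain WeierstrassCurve

namespace H28G

open H55B H55R H99B

/-! Chunk K4 (M): congruences between torsion points, unramified primes. val_one: c in O, c not in W: W.valuation N (ak N c) = 1 (ak_int, HeightOneSpectrum.valuation_eq_one_iff or intValuation). fix_of_cong: W a prime of N with 3, b not in W. R, R' in Tor b N,
with xc R = xc R', yc R = yc R' modulo W: R = R'. (If one of them is 0, both are 0, is not implied by the coordinates, so R, R' <> 0 is assumed.) R - R' is in E1 (red_sub: xc R is W-integral, otherwise R in E1 and R = 0 by tor_unit) and in Tor b N, so it is 0 by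
tor_unit. unram: let W be a prime above v. The inertia group of W (Ideal.inertia, Mathlib.NumberTheory.RamificationInertia.Galois: card_inertia_eq_ramificationIdxIn) has es K N v elements. σ in the inertia group: σ x - x in W for all x in 𝓞 N, so
W.valuation (σ x - x) < 1 for every W-integral x in N: write x = a/s with a, s in 𝓞 N, s not in W (H55R.exists_frac or similar in HB1/HB2; σ s - s in W so σ s not in W). Hence for R in Tor b N, R <> 0: sp σ R = R by fix_of_cong (xc_sp, yc_sp, sp_ne). So σ = 1 (h.gen). -/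

theorem val_one {N : Type} [Field N] [NumberField N] [Algebra F N] (W : Pl N) (c : O)
    (h : algebraMap O (𝓞 N) c ∉ W.asIdeal) : W.valuation N (ak N c) = 1 := by
  rw [ak_int]
  exact (HeightOneSpectrum.valuation_eq_one_iff_notMem (K := N) W).2 h

theorem val_three {N : Type} [Field N] [NumberField N] (W : Pl N) (h : (3 : 𝓞 N) ∉ W.asIdeal) :
    W.valuation N 3 = 1 := by
  have e : (3 : N) = algebraMap (𝓞 N) N 3 := by
    rw [map_ofNat]
  rw [e]
  exact (HeightOneSpectrum.valuation_eq_one_iff_notMem (K := N) W).2 h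

/-- Torsion points of order prime to W are W-integral. -/
theorem tor_int {N : Type} [Field N] [NumberField N] [DecidableEq N] [Algebra F N] (W : Pl N) {b : O}
    (hb : algebraMap O (𝓞 N) b ∉ W.asIdeal) {R : P27 N} (hR : R ∈ Tor b N) (h0 : R ≠ 0) :
    W.valuation N (xc R) ≤ 1 := by
  by_contra h
  rw [not_le] at h
  exact h0 (tor_unit (W.valuation N) (val_one W b hb) hR (Or.inr h))

theorem fix_of_cong {N : Type} [Field N] [NumberField N] [DecidableEq N] [Algebra F N] (W : Pl N)
    (h3 : (3 : 𝓞 N) ∉ W.asIdeal) {b : O} (hb : algebraMap O (𝓞 N) b ∉ W.asIdeal) {R R' : P27 N}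
    (hR : R ∈ Tor b N) (hR' : R' ∈ Tor b N) (h0 : R ≠ 0) (h0' : R' ≠ 0)
    (hx : W.valuation N (xc R - xc R') < 1) (hy : W.valuation N (yc R - yc R') < 1) : R = R' := by
  have h1 := red_sub (W.valuation N) (val_three W h3) h0 h0' (tor_int W hb hR h0)
    (tor_int W hb hR' h0') hx hy
  exact sub_eq_zero.1 (tor_unit (W.valuation N) (val_one W b hb) (sub_mem hR hR') h1)

/-- An element of the inertia group moves integral elements by elements of W. -/
theorem K4_iner {K N : Type} [Field K] [NumberField K] [Field N] [NumberField N] [Algebra K N]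
    (W : Pl N) (σ : Gal(N/K)) (hσ : ∀ x : 𝓞 N, σ • x - x ∈ W.asIdeal) (x : N)
    (hx : W.valuation N x ≤ 1) : W.valuation N (σ x - x) < 1 := by
  obtain ⟨a, d, h⟩ := HeightOneSpectrum.exists_primeCompl_mul_eq_of_integer W x hx
  have hd : (d : 𝓞 N) ∉ W.asIdeal := d.2
  have hsd : (σ • (d : 𝓞 N)) ∉ W.asIdeal := by
    intro h1
    apply hd
    have h2 := sub_mem h1 (hσ (d : 𝓞 N))
    rw [sub_sub_cancel] at h2
    exact h2
  have hd1 : W.valuation N (((d : 𝓞 N)) : N) = 1 :=
    (HeightOneSpectrum.valuation_eq_one_iff_notMem (K := N) W).2 hd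
  have hsd1 : W.valuation N (σ (((d : 𝓞 N)) : N)) = 1 :=
    (HeightOneSpectrum.valuation_eq_one_iff_notMem (K := N) W).2 hsd
  have hd0 : (((d : 𝓞 N)) : N) ≠ 0 := by
    intro h0
    rw [h0, map_zero] at hd1
    exact zero_ne_one hd1
  have hsd0 : σ (((d : 𝓞 N)) : N) ≠ 0 := by
    intro h0
    rw [h0, map_zero] at hsd1
    exact zero_ne_one hsd1
  have hxa : x * (((d : 𝓞 N)) : N) = (a : N) := h
  have hsx : σ x * σ (((d : 𝓞 N)) : N) = σ (a : N) := by
    rw [← map_mul, hxa]
  have ha1 : W.valuation N (σ (a : N) - (a : N)) < 1 :=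
    (W.valuation_lt_one_iff_mem (σ • a - a)).2 (hσ a)
  have hdd : W.valuation N (σ (((d : 𝓞 N)) : N) - (((d : 𝓞 N)) : N)) < 1 :=
    (W.valuation_lt_one_iff_mem (σ • (d : 𝓞 N) - (d : 𝓞 N))).2 (hσ _)
  have e : (σ x - x) * σ (((d : 𝓞 N)) : N) =
      (σ (a : N) - (a : N)) - x * (σ (((d : 𝓞 N)) : N) - (((d : 𝓞 N)) : N)) := by
    linear_combination hsx - hxa
  have h5 : W.valuation N (σ x - x) = W.valuation N ((σ x - x) * σ (((d : 𝓞 N)) : N)) := by
    rw [map_mul, hsd1, mul_one]
  rw [h5, e]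
  refine Valuation.map_sub_lt _ ha1 ?_
  rw [map_mul]
  exact (mul_le_of_le_one_left zero_le hx).trans_lt hdd

theorem unram {K N : Type} [Field K] [NumberField K] [Field N] [NumberField N] [DecidableEq N]
    [Algebra F K] [Algebra K N] [Algebra F N] [IsScalarTower F K N] {b : O} (h : TFld K N b)
    (v : Pl K) (h3 : (3 : 𝓞 K) ∉ v.asIdeal) (hb : algebraMap O (𝓞 K) b ∉ v.asIdeal) :
    es K N v = 1 := by
  have hgal := h.gal
  obtain ⟨W, hW⟩ := under_exists (L := N) v
  have hp := v.isPrime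
  have hWp := W.isPrime
  have hl : W.asIdeal.LiesOver v.asIdeal := (BF2_mem v W hW).2
  have h1 := Ideal.card_inertia_eq_ramificationIdxIn (G := Gal(N/K)) v.asIdeal W.asIdeal
  have hmem : ∀ x : 𝓞 K, algebraMap (𝓞 K) (𝓞 N) x ∈ W.asIdeal ↔ x ∈ v.asIdeal := by
    intro x
    rw [← hW]
    exact Iff.rfl
  have h3' : (3 : 𝓞 N) ∉ W.asIdeal := by
    intro h4
    apply h3
    rw [← hmem, map_ofNat]
    exact h4
  have hb' : algebraMap O (𝓞 N) b ∉ W.asIdeal := by
    intro h4
    apply hb
    rw [← hmem]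
    have e : algebraMap (𝓞 K) (𝓞 N) (algebraMap O (𝓞 K) b) = algebraMap O (𝓞 N) b := by
      apply RingOfIntegers.ext
      rw [← ak_int (N := N) b]
      show algebraMap K N ((algebraMap O (𝓞 K) b : 𝓞 K) : K) = ak N b
      rw [← ak_int (N := K) b]
      exact (IsScalarTower.algebraMap_apply F K N _).symm
    rw [e]
    exact h4
  have hbot : W.asIdeal.inertia Gal(N/K) = ⊥ := by
    rw [eq_bot_iff]
    intro σ hσ
    rw [Subgroup.mem_bot]
    apply h.gen
    intro R hR
    by_cases hR0 : R = 0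
    · rw [hR0, map_zero]
    · have hx1 := tor_int W hb' hR hR0
      have hy1 := int_y (W.valuation N) hx1
      refine fix_of_cong W h3' hb' ((sp_mem σ b R).2 hR) hR (sp_ne σ hR0) hR0 ?_ ?_
      · rw [xc_sp]
        exact K4_iner W σ hσ _ hx1
      · rw [yc_sp]
        exact K4_iner W σ hσ _ hy1
  rw [hbot] at h1
  have h2 : Nat.card (⊥ : Subgroup Gal(N/K)) = 1 := Subgroup.card_bot
  rw [h2] at h1
  exact h1.symm

end H28G
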