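import Mathlib
import Pool.Agent.Lib.H28G.KDefs
import Pool.Agent.Lib.H28G.GD2

open NumberField IsDedekindDomain WeierstrassCurve

namespace H28G

open H55B H55R H99B

/-! Chunk K2 (M): the character. There is T in Tor b N with T <> 0 (Full: Nat.card = Nm b <> 1, because b is not a unit: exists_ne). orb_inj: if sp σ R = sp τ R then ρ = τ⁻¹ σ fixes R (sp_mul, sp_one), and every R' in Tor b N is
act c R (tor_gen), so ρ fixes R' (sp_act) and ρ = 1 (h.gen). exists_chi: fix T. sp σ T = act c T for some c (tor_gen, sp_mem), q c <> 0 (sp_ne, act_eq_zero) and q c does not depend on c (act_eq_zero: act c T = act c' T iff b | c - c' iff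
q c = q c'). χ σ = Units.mk0 (q c). sp (σ τ) T = sp σ (act c' T) = act c' (act c T): multiplicative. For R = act d T: sp σ R = act d (act c T) = act c R. Injective: χ σ = χ τ gives sp σ T = sp τ T, orb_inj.
card_le: orb_inj gives an injection of Gal(N/K) into Tor b N minus 0, and Nat.card Gal(N/K) = finrank (IsGalois.card_aut_eq_finrank). -/

theorem exists_tor {N : Type} [Field N] [DecidableEq N] [Algebra F N] {b : O} (hp : Prime b)
    (hf : Full b N) : ∃ T ∈ Tor b N, T ≠ 0 := by
  by_contra hcon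
  push Not at hcon
  have h1 : Subsingleton (Tor b N) :=
    ⟨fun x y => Subtype.ext ((hcon x x.2).trans (hcon y y.2).symm)⟩
  have h2 : Nat.card (Tor b N) = 1 := Nat.card_unique
  have h3 : Nat.card (Tor b N) = Nm b := hf
  exact hp.not_unit (Nm_eq_one.1 (h3.symm.trans h2))

section
variable {K N : Type} [Field K] [Field N] [DecidableEq N] [Algebra F K] [Algebra K N] [Algebra F N]
  [IsScalarTower F K N]

theorem orb_inj {b : O} (hp : Prime b) (h : TFld K N b) {R : P27 N} (hR : R ∈ Tor b N)
    (h0 : R ≠ 0) : Function.Injective fun σ : Gal(N/K) => sp σ R := by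
  intro σ τ hστ
  have h1 : sp σ R = sp τ R := hστ
  have h2 : sp (τ⁻¹ * σ) R = R := by
    rw [sp_mul, h1, ← sp_mul, inv_mul_cancel, sp_one]
  have h3 : τ⁻¹ * σ = 1 := by
    apply h.gen
    intro R' hR'
    obtain ⟨c, hc⟩ := tor_gen hp h.full hR hR' h0
    rw [← hc, sp_act, h2]
  exact (inv_mul_eq_one.1 h3).symm

theorem card_le [FiniteDimensional K N] {b : O} (hp : Prime b) (h : TFld K N b) :
    Module.finrank K N ≤ Nm b - 1 := by
  classical
  have hgal : IsGalois K N := h.gal
  obtain ⟨R, hR, h0⟩ := exists_tor hp h.full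
  have hfin : Finite (Tor b N) := h.full.finite hp.ne_zero
  let f : Gal(N/K) → {R : Tor b N // R ≠ 0} := fun σ =>
    ⟨⟨sp σ R, (sp_mem σ b R).2 hR⟩, fun h1 => sp_ne σ h0 (congrArg Subtype.val h1)⟩
  have hinj : Function.Injective f := by
    intro σ τ hστ
    apply orb_inj hp h hR h0
    exact congrArg (fun z : {R : Tor b N // R ≠ 0} => ((z.1 : Tor b N) : P27 N)) hστ
  have hcard2 : Nat.card {R : Tor b N // R ≠ 0} = Nm b - 1 := by
    have : Fintype (Tor b N) := Fintype.ofFinite _
    have h3 : Nat.card (Tor b N) = Nm b := h.full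
    rw [Nat.card_eq_fintype_card] at h3 ⊢
    have h4 := Fintype.card_subtype_compl (fun R : Tor b N => R = 0)
    rw [Fintype.card_subtype_eq, h3] at h4
    exact h4
  rw [← IsGalois.card_aut_eq_finrank, ← hcard2]
  exact Nat.card_le_card_of_injective f hinj

theorem exists_chi {b : O} (hp : Prime b) (h : TFld K N b) {k : Type} [Field k] (q : O →+* k)
    (hq : Function.Surjective q) (hk : ∀ x, q x = 0 ↔ b ∣ x) :
    ∃ χ : Gal(N/K) →* kˣ, Function.Injective χ ∧
      ∀ (σ : Gal(N/K)) (c : O), q c = χ σ → ∀ R ∈ Tor b N, sp σ R = act c R := by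
  obtain ⟨T, hT, h0⟩ := exists_tor hp h.full
  have hex : ∀ σ : Gal(N/K), ∃ c : O, act c T = sp σ T := fun σ =>
    tor_gen hp h.full hT ((sp_mem σ b T).2 hT) h0
  choose c hc using hex
  have heq : ∀ x y : O, act x T = act y T ↔ q x = q y := by
    intro x y
    rw [← sub_eq_zero, ← act_sub, act_eq_zero hp hT h0, ← hk, map_sub, sub_eq_zero]
  have hne : ∀ σ, q (c σ) ≠ 0 := by
    intro σ h1
    rw [hk, ← act_eq_zero hp hT h0, hc] at h1
    exact sp_ne σ h0 h1
  let χ : Gal(N/K) →* kˣ :=
    { toFun := fun σ => Units.mk0 (q (c σ)) (hne σ)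
      map_one' := by
        apply Units.ext
        show q (c 1) = 1
        rw [← map_one q, ← heq, hc, sp_one, act_one]
      map_mul' := by
        intro σ τ
        apply Units.ext
        show q (c (σ * τ)) = q (c σ) * q (c τ)
        rw [← map_mul, ← heq, hc, sp_mul, ← hc τ, sp_act, ← hc σ, ← act_mul, mul_comm] }
  have hχ : ∀ σ, ((χ σ : kˣ) : k) = q (c σ) := fun σ => rfl
  refine ⟨χ, ?_, ?_⟩
  · intro σ τ hστ
    have h1 : q (c σ) = q (c τ) := by rw [← hχ, ← hχ, hστ]
    rw [← heq, hc, hc] at h1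
    exact orb_inj hp h hT h0 h1
  · intro σ d hd R hR
    rw [hχ, ← heq, hc] at hd
    obtain ⟨a, ha⟩ := tor_gen hp h.full hT hR h0
    rw [← ha, sp_act, ← hd, ← act_mul, ← act_mul, mul_comm]

end

end H28G
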