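import Mathlib
import Pool.Agent.Lib.H28G.K2
import Pool.Agent.Lib.H28G.K4
import Pool.Agent.Lib.H99B.Defs

open NumberField IsDedekindDomain WeierstrassCurve

namespace H28G

open H55B H55R H99B

open scoped Pointwise

/-! Chunk K6 (M): Frobenius at 2. kron_two: (any valuation v with v 2 < 1; then v 3 = 1.) X = (x, y) integral (int_y), f = fc X = 2 y + 1, v(f) = 1, so fc X <> 0; dbl_coords: xc(2X) = (3x^2/f)^2 - 2x = 9x^4/f^2 - 2x, and f = 1 mod v, so xc(2X) = x^4 mod v (v(x) <= 1).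
act (-2) X = -(X + X) (act_neg, act_int), xc_neg, yc_neg: yc(-2X) = -1 - yc(2X) = (3x^2/f)(xc(2X) - x) + y = x^2 (x^4 - x) + y = x^6 - x^3 + y = (y^2+y)^2 - (y^2+y) + y = y^4 mod v (2 = 0).
frob: N/K Galois, W a prime of N: Mathlib IsArithFrobAt.exists_of_isInvariant (G = Gal(N/K), R = 𝓞 K, S = 𝓞 N, Q = W.asIdeal): σ with σ x - x^(card (𝓞 K / (W under 𝓞 K))) in W for all x in 𝓞 N. For x in N integral at W: x = a/s, s not in W: both sides.
not_cyc: W a prime of N above 2 (under_exists for the prime (2) of O, 2 is prime in O: two_prime, absNorm = 4: Nm 2 = 4). 3, b not in W (b is prime to 2: hypothesis). σ from frob: σ x = x^4 mod W for W-integral x. For R in Tor b N, R <> 0: xc(sp σ R) = xc(R)^4 = xc(act (-2) R) mod W,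
same for yc, so sp σ R = act (-2) R (fix_of_cong; act (-2) R is in Tor b and <> 0). With c such that q c = χ σ: act c R = act (-2) R, so b | c + 2 (act_eq_zero), χ σ = q(-2) = -2 = (l - 2 : ℕ) in k. Suppose the displayed condition: σ ζ = ζ^(l-2) (n = l - 2), and
σ ζ = ζ^4 mod W (ζ is integral). ζ^(l-2) <> ζ^4 (l does not divide l - 6; l >= 5 prime: for l = 5: ζ^3 <> ζ^4), but they are l-th roots of unity congruent modulo W, l not in W: ζ^i - ζ^j divides l for i <> j mod l (prod_{i=1}^{l-1}(1 - ζ^i) = l: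
IsPrimitiveRoot.. or Polynomial.cyclotomic_prime evaluated at 1; compare H99B.D2/kummer_spl), so l in W; but 2 in W and l is odd: 1 in W. Contradiction. -/

section
variable {k : Type} [Field k] [DecidableEq k] [Algebra F k]
  {Γ : Type} [LinearOrderedCommGroupWithZero Γ] (v : Valuation k Γ)

omit [DecidableEq k] [Algebra F k] in
theorem K6_mul {a b : k} (ha : v a ≤ 1) (hb : v b < 1) : v (a * b) < 1 := by
  rw [map_mul]
  calc v a * v b ≤ 1 * v b := mul_le_mul_left ha _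
    _ = v b := one_mul _
    _ < 1 := hb

omit [DecidableEq k] [Algebra F k] in
theorem K6_add {a b : k} (ha : v a < 1) (hb : v b < 1) : v (a + b) < 1 :=
  lt_of_le_of_lt (v.map_add a b) (max_lt ha hb)

omit [DecidableEq k] [Algebra F k] in
theorem K6_madd {a b : k} (ha : v a ≤ 1) (hb : v b ≤ 1) : v (a + b) ≤ 1 :=
  le_trans (v.map_add a b) (max_le ha hb)

omit [DecidableEq k] [Algebra F k] in
theorem K6_mmul {a b : k} (ha : v a ≤ 1) (hb : v b ≤ 1) : v (a * b) ≤ 1 := by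
  rw [map_mul]
  exact mul_le_one' ha hb

omit [DecidableEq k] [Algebra F k] in
theorem K6_pow {a : k} (ha : v a ≤ 1) (n : ℕ) : v (a ^ n) ≤ 1 := by
  rw [map_pow]
  exact pow_le_one' ha n

theorem kron_two (h2 : v 2 < 1) {X : P27 k} (hX : X ≠ 0) (h1 : v (xc X) ≤ 1) :
    act (-2 : O) X ≠ 0 ∧ v (xc (act (-2 : O) X) - xc X ^ 4) < 1 ∧
      v (yc (act (-2 : O) X) - yc X ^ 4) < 1 := by
  have hy : v (yc X) ≤ 1 := int_y v h1
  have hf : v (fc X) = 1 := by
    have e : fc X = 1 + yc X * 2 := by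
      unfold fc
      ring
    rw [e]
    exact Valuation.map_one_add_of_lt v (K6_mul v hy h2)
  have hf0 : fc X ≠ 0 := by
    intro h
    rw [h, map_zero] at hf
    exact zero_ne_one hf
  obtain ⟨d1, d2, d3⟩ := dbl_coords hX hf0
  have ha : act (-2 : O) X = -(X + X) := by
    have e : (-2 : O) = ((-2 : ℤ) : O) := by push_cast; ring
    rw [e, act_int, neg_smul, two_zsmul]
  have hfi : v (fc X)⁻¹ ≤ 1 := by
    rw [map_inv₀, hf, inv_one]
  have hone : v (1 : k) ≤ 1 := (map_one v).le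
  have hint : ∀ n : ℤ, v (n : k) ≤ 1 := GV1_int v
  have hx2 : v (xc (X + X) - xc X ^ 4) < 1 := by
    have e : xc (X + X) - xc X ^ 4 = (xc X ^ 4 * ((1 + (-1 : ℤ) * yc X) * (((2 : ℤ) : k) + yc X) *
        ((2 : ℤ) : k) * (fc X)⁻¹ ^ 2) + ((-1 : ℤ) : k) * xc X) * 2 := by
      rw [d2]
      have hff : fc X = 2 * yc X + 1 := rfl
      push_cast
      field_simp
      rw [hff]
      ring
    rw [e]
    refine K6_mul v ?_ h2
    refine K6_madd v (K6_mmul v (K6_pow v h1 4) (K6_mmul v (K6_mmul v (K6_mmul v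
      (K6_madd v hone (K6_mmul v (hint _) hy)) (K6_madd v (hint _) hy)) (hint _))
      (K6_pow v hfi 2))) (K6_mmul v (hint _) h1)
  refine ⟨?_, ?_, ?_⟩
  · rw [ha]
    exact neg_ne d1
  · rw [ha, xc_neg]
    exact hx2
  · rw [ha, yc_neg d1, d3]
    have e : -1 - (-1 - (3 * xc X ^ 2 / fc X * (xc (X + X) - xc X) + yc X)) - yc X ^ 4 =
        (((3 : ℤ) : k) * xc X ^ 2 * (fc X)⁻¹) * (xc (X + X) - xc X ^ 4) +
        (yc X ^ 3 + (1 + (-1 : ℤ) * yc X) * (fc X)⁻¹ * (xc X ^ 6 + (-1 : ℤ) * xc X ^ 3)) * 2 := by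
      have hff : fc X = 2 * yc X + 1 := rfl
      have he := eqn X
      have e1 : 3 * xc X ^ 2 / fc X * (xc (X + X) - xc X) =
        (((3 : ℤ) : k) * xc X ^ 2 * (fc X)⁻¹) * (xc (X + X) - xc X ^ 4) +
          3 * (fc X)⁻¹ * (xc X ^ 6 - xc X ^ 3) := by
        push_cast
        ring
      have e2 : 3 * (fc X)⁻¹ = 1 + 2 * (1 - yc X) * (fc X)⁻¹ := by
        field_simp
        rw [hff]
        ring
      have e3 : xc X ^ 6 = (xc X ^ 3) ^ 2 := by ring
      rw [e1, e2, e3, ← he]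
      push_cast
      ring
    rw [e]
    refine K6_add v (K6_mul v (K6_mmul v (K6_mmul v (hint _) (K6_pow v h1 2)) hfi) hx2)
      (K6_mul v (K6_madd v (K6_pow v hy 3) (K6_mmul v (K6_mmul v
        (K6_madd v hone (K6_mmul v (hint _) hy)) hfi) (K6_madd v (K6_pow v h1 6)
        (K6_mmul v (hint _) (K6_pow v h1 3))))) h2)

end

theorem K6_frob {K N : Type} [Field K] [NumberField K] [Field N] [NumberField N] [Algebra K N]
    [IsGalois K N] (W : Pl N) : ∃ σ : Gal(N/K), IsArithFrobAt (𝓞 K) σ W.asIdeal := by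
  have hW := W.isPrime
  have hf : Finite (𝓞 N ⧸ W.asIdeal) := Ideal.finiteQuotientOfFreeOfNeBot W.asIdeal W.ne_bot
  exact IsArithFrobAt.exists_of_isInvariant (𝓞 K) Gal(N/K) W.asIdeal

theorem K6_card {K N : Type} [Field K] [NumberField K] [Field N] [NumberField N] [Algebra K N]
    (W : Pl N) (v : Pl K) (hW : W.under (𝓞 K) = v) :
    Nat.card (𝓞 K ⧸ W.asIdeal.under (𝓞 K)) = Ideal.absNorm v.asIdeal := by
  have h : W.asIdeal.under (𝓞 K) = v.asIdeal := congrArg HeightOneSpectrum.asIdeal hW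
  rw [h, Ideal.absNorm_apply, Submodule.cardQuot_apply]

theorem K6_frob_val {K N : Type} [Field K] [NumberField K] [Field N] [NumberField N] [Algebra K N]
    [IsGalois K N] (W : Pl N) (v : Pl K) (hW : W.under (𝓞 K) = v) (σ : Gal(N/K))
    (hσ : IsArithFrobAt (𝓞 K) σ W.asIdeal) (x : N) (hx : W.valuation N x ≤ 1) :
    W.valuation N (σ x - x ^ Ideal.absNorm v.asIdeal) < 1 := by
  have hWp := W.isPrime
  have hc := K6_card W v hW
  have h1 : ∀ y : 𝓞 N, W.valuation N (σ (y : N) - (y : N) ^ Ideal.absNorm v.asIdeal) < 1 := by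
    intro y
    have h2 := hσ y
    rw [hc] at h2
    have h3 := (HeightOneSpectrum.valuation_lt_one_iff_mem (K := N) W _).2 h2
    exact h3
  have hval : ∀ y : 𝓞 N, W.valuation N (y : N) ≤ 1 := fun y =>
    HeightOneSpectrum.valuation_le_one W y
  obtain ⟨n, d, h⟩ := HeightOneSpectrum.exists_primeCompl_mul_eq_of_integer W x hx
  have hd : (d : 𝓞 N) ∉ W.asIdeal := d.2
  have hd1 : W.valuation N ((d : 𝓞 N) : N) = 1 :=
    (HeightOneSpectrum.valuation_eq_one_iff_notMem (K := N) W).2 hd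
  set q := Ideal.absNorm v.asIdeal with hq
  set D : N := ((d : 𝓞 N) : N) with hD
  set M : N := ((n : 𝓞 N) : N) with hM
  have hxd : x * D = M := h
  have hD0 : D ≠ 0 := by
    intro h0
    rw [h0, map_zero] at hd1
    exact zero_ne_one hd1
  have hsD : W.valuation N (σ D) = 1 := by
    have e : σ D = D ^ q + (σ D - D ^ q) := by ring
    rw [e, Valuation.map_add_eq_of_lt_left]
    · rw [map_pow, hd1, one_pow]
    · rw [map_pow, hd1, one_pow]
      exact h1 d
  have hsM : σ x * σ D = σ M := by rw [← map_mul, hxd]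
  have key : σ D * D ^ q * (σ x - x ^ q) = D ^ q * (σ M - M ^ q) +
      (-(M ^ q)) * (σ D - D ^ q) := by
    rw [← hsM, ← hxd, mul_pow]
    ring
  have h4 : W.valuation N (σ D * D ^ q * (σ x - x ^ q)) < 1 := by
    rw [key]
    refine K6_add _ (K6_mul _ (K6_pow _ (hval d) q) (h1 n)) (K6_mul _ ?_ (h1 d))
    rw [Valuation.map_neg]
    exact K6_pow _ (hval n) q
  rw [map_mul, map_mul, hsD, map_pow, hd1, one_pow, one_mul, one_mul] at h4
  exact h4

theorem frob {K N : Type} [Field K] [NumberField K] [Field N] [NumberField N] [Algebra K N]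
    [IsGalois K N] (W : Pl N) (v : Pl K) (hW : W.under (𝓞 K) = v) : ∃ σ : Gal(N/K), smulP σ W = W ∧
      ∀ x : N, W.valuation N x ≤ 1 →
        W.valuation N (σ x - x ^ Ideal.absNorm v.asIdeal) < 1 := by
  have hWp := W.isPrime
  obtain ⟨σ, hσ⟩ := K6_frob (K := K) W
  refine ⟨σ, ?_, fun x hx => K6_frob_val W v hW σ hσ x hx⟩
  have h := IsArithFrobAt.mem_stabilizer hσ
  rw [MulAction.mem_stabilizer_iff] at h
  exact HeightOneSpectrum.ext h

theorem not_cyc {l : ℕ} [Fact l.Prime] (h5 : 5 ≤ l) {N : Type} [Field N] [NumberField N]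
    [DecidableEq N] [Algebra F N] {b : O} (hp : Prime b) (h2 : ¬ b ∣ 2) (h : TFld F N b)
    {k : Type} [Field k] [CharP k l] (q : O →+* k) (hq : Function.Surjective q)
    (hk : ∀ x, q x = 0 ↔ b ∣ x) (χ : Gal(N/F) →* kˣ)
    (hχ : ∀ (σ : Gal(N/F)) (c : O), q c = χ σ → ∀ R ∈ Tor b N, sp σ R = act c R) (ζ : Nˣ)
    (hζ : IsPrimitiveRoot ζ l) :
    ¬ ∀ (σ : Gal(N/F)) (n : ℕ), (n : k) = χ σ → gu σ ζ = ζ ^ n := by
  intro hcon
  have hgal := h.gal
  have h20 : (2 : O) ≠ 0 := two_prime.ne_zero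
  let v : Pl F := ⟨Ideal.span {(2 : O)}, (Ideal.span_singleton_prime h20).2 two_prime, by
    rw [Ne, Ideal.span_singleton_eq_bot]
    exact h20⟩
  obtain ⟨W, hW⟩ := under_exists (K := F) (L := N) v
  have hWp := W.isPrime
  have hunder : ∀ c : O, algebraMap O (𝓞 N) c ∈ W.asIdeal ↔ (2 : O) ∣ c := by
    intro c
    have e : W.asIdeal.under O = Ideal.span {(2 : O)} := congrArg HeightOneSpectrum.asIdeal hW
    rw [← Ideal.mem_span_singleton, ← e]
    rfl
  have h2W : (2 : 𝓞 N) ∈ W.asIdeal := by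
    have := (hunder 2).2 dvd_rfl
    rwa [map_ofNat] at this
  have h3W : (3 : 𝓞 N) ∉ W.asIdeal := by
    intro h3
    apply hWp.ne_top
    rw [Ideal.eq_top_iff_one]
    have : (1 : 𝓞 N) = 3 - 2 := by norm_num
    rw [this]
    exact sub_mem h3 h2W
  have hbW : algebraMap O (𝓞 N) b ∉ W.asIdeal := by
    intro hb
    obtain ⟨c, hc⟩ := (hunder b).1 hb
    apply h2
    rcases hp.irreducible.isUnit_or_isUnit hc with hu | hu
    · exact absurd hu two_prime.not_isUnit
    · obtain ⟨u, hu⟩ := hu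
      refine ⟨(u⁻¹ : Oˣ), ?_⟩
      rw [hc, ← hu, mul_assoc, Units.mul_inv, mul_one]
  have hlW : ((l : ℕ) : 𝓞 N) ∉ W.asIdeal := by
    intro hl
    have hodd : Odd l := (Fact.out : l.Prime).odd_of_ne_two (by omega)
    obtain ⟨m, hm⟩ := hodd
    apply hWp.ne_top
    rw [Ideal.eq_top_iff_one]
    have : (1 : 𝓞 N) = (l : 𝓞 N) - m * 2 := by
      rw [hm]
      push_cast
      ring
    rw [this]
    exact sub_mem hl (W.asIdeal.mul_mem_left _ h2W)
  obtain ⟨σ, hσ⟩ := K6_frob (K := F) W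
  have hN : Ideal.absNorm v.asIdeal = 4 := by
    have h8 := Nm_repr 2 0
    have e : ((2 : ℤ) : O) + ((0 : ℤ) : O) * om = 2 := by push_cast; ring
    rw [e] at h8
    have h9 : (Nm (2 : O) : ℤ) = 4 := by rw [h8]; norm_num
    exact_mod_cast h9
  obtain ⟨T, hT, hT0⟩ := exists_tor hp h.full
  have hxi := tor_int W hbW hT hT0
  have hyi := int_y (W.valuation N) hxi
  have h2v : W.valuation N 2 < 1 := by
    exact (HeightOneSpectrum.valuation_lt_one_iff_mem (K := N) W _).2 h2W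
  obtain ⟨k1, k2, k3⟩ := kron_two (W.valuation N) h2v hT0 hxi
  have f1 := K6_frob_val W v hW σ hσ (xc T) hxi
  have f2 := K6_frob_val W v hW σ hσ (yc T) hyi
  rw [hN] at f1 f2
  have hfix : sp σ T = act (-2 : O) T := by
    refine fix_of_cong W h3W hbW ((sp_mem σ b T).2 hT) (GD2_mem hT _) (sp_ne σ hT0) k1 ?_ ?_
    · rw [xc_sp]
      have e : σ (xc T) - xc (act (-2 : O) T) = (σ (xc T) - xc T ^ 4) -
          (xc (act (-2 : O) T) - xc T ^ 4) := by ring
      rw [e]
      exact lt_of_le_of_lt (Valuation.map_sub _ _ _) (max_lt f1 k2)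
    · rw [yc_sp]
      have e : σ (yc T) - yc (act (-2 : O) T) = (σ (yc T) - yc T ^ 4) -
          (yc (act (-2 : O) T) - yc T ^ 4) := by ring
      rw [e]
      exact lt_of_le_of_lt (Valuation.map_sub _ _ _) (max_lt f2 k3)
  obtain ⟨c, hc⟩ := hq (χ σ : k)
  have h5 := hχ σ c hc T hT
  have h6 : act (c + 2) T = 0 := by
    have e : c + 2 = c - (-2) := by ring
    rw [e, act_sub, ← h5, hfix, sub_self]
  have h7 : b ∣ c + 2 := (act_eq_zero hp hT hT0 _).1 h6
  have h8 : q (c + 2) = 0 := (hk _).2 h7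
  rw [map_add, map_ofNat, hc] at h8
  have h9 : ((l - 2 : ℕ) : k) = χ σ := by
    rw [Nat.cast_sub (by omega), CharP.cast_eq_zero k l]
    push_cast
    linear_combination -h8
  have h10 := hcon σ (l - 2) h9
  have hζi : IsIntegral ℤ (ζ : N) := by
    refine IsPrimitiveRoot.isIntegral (μ := (ζ : N)) (n := l) ?_ (by omega)
    exact hζ.map_of_injective (f := Units.coeHom N) Units.val_injective
  let z : 𝓞 N := ⟨(ζ : N), hζi⟩
  have hz : z ^ l = 1 := by
    apply RingOfIntegers.ext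
    show (ζ : N) ^ l = 1
    rw [← Units.val_pow_eq_pow_val, hζ.pow_eq_one, Units.val_one]
  have h11 := AlgHom.IsArithFrobAt.apply_of_pow_eq_one hσ hz hlW
  rw [K6_card W v hW, hN] at h11
  have h12 : σ (ζ : N) = (ζ : N) ^ 4 := by
    have := congrArg (fun x : 𝓞 N => (x : N)) h11
    exact this
  have h13 : ζ ^ (l - 2) = ζ ^ 4 := by
    rw [← h10]
    apply Units.ext
    rw [gu_apply, h12, Units.val_pow_eq_pow_val]
  have h14 := hζ.pow_inj (by omega) (by omega) h13
  have h15 : l = 6 := by omega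
  have h16 : l.Prime := Fact.out
  rw [h15] at h16
  norm_num at h16

end H28G
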