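import Mathlib
import Pool.Agent.Lib.H28G.KDefs
import Pool.Agent.Lib.H28G.GD1

open NumberField IsDedekindDomain WeierstrassCurve

namespace H28G

open H55B H55R H99B

/-! Chunk K1 (M): the torsion fields exist. N = TF K Ω b = K(S), S = the set of the coordinates of the points of Tor b Ω. Tor b Ω is finite: full_Om (Ω is algebraic over F
because K is a number field: Algebra.IsAlgebraic.trans), Full.finite. S is finite, its elements are algebraic over K, so N/K is finite (IntermediateField.finiteDimensional_adjoin).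
Galois: separable (characteristic 0); normal: every K-automorphism s of Ω maps S to S (mp of the F-automorphism s maps Tor b Ω to itself: mp_mem_Tor, xc_mp, yc_mp), so it maps N to N:
IntermediateField.normal_iff_forall_map_le (or normal_iff_forall_map_eq), IntermediateField.adjoin_map. Ω/K is normal (IsAlgClosure.normal or normal of algebraically closed and algebraic).
Full b N: a point R of Tor b Ω, R <> 0, has coordinates in N, so R = mp j R' with j = N.val (restricted to F), R' = pt (xc) (yc) (eqn by injectivity); mp j is injective, mp_mem_Tor: a bijection Tor b N -> Tor b Ω,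
and Full b Ω. gen: σ in Gal(N/K) fixes all the points of Tor b N, so it fixes their coordinates (xc_sp, yc_sp), which (their images in Ω) are S and generate N over K: every element of S is the image of a fixed
element; IntermediateField.adjoin_le_iff for the image in Ω of the fixed field of σ (or IntermediateField.algHom_ext_of_eq_adjoin). exists_TFld: Ω = AlgebraicClosure K (Algebra F, IsScalarTower F K are instances),
N = TF K Ω b, NumberField by NumberField.of_module_finite K N, DecidableEq by Classical. -/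

section
variable (K : Type) [Field K] [NumberField K] [Algebra F K] (Ω : Type) [Field Ω]
    [DecidableEq Ω] [Algebra F Ω] [Algebra K Ω] [IsScalarTower F K Ω] [IsAlgClosed Ω]
    [Algebra.IsAlgebraic K Ω]

/-- The set of the coordinates. -/
def K1_S (b : O) : Set Ω := {x | ∃ R ∈ Tor b Ω, x = xc R ∨ x = yc R}

include K
omit [DecidableEq Ω] [IsAlgClosed Ω] in
theorem K1_algF : Algebra.IsAlgebraic F Ω := by
  have h1 : Algebra.IsAlgebraic ℚ K := inferInstance
  have h2 : Algebra.IsAlgebraic F K := Algebra.IsAlgebraic.tower_top (K := ℚ) F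
  exact Algebra.IsAlgebraic.trans F K Ω

theorem K1_full (b : O) (hb : b ≠ 0) : Full b Ω := by
  have := K1_algF K Ω
  exact full_Om Ω b hb

theorem K1_finS (b : O) (hb : b ≠ 0) : (K1_S Ω b).Finite := by
  have h := (K1_full K Ω b hb).finite hb
  have h1 : (Set.range fun R : Tor b Ω => xc (R : P27 Ω)).Finite := Set.finite_range _
  have h2 : (Set.range fun R : Tor b Ω => yc (R : P27 Ω)).Finite := Set.finite_range _
  refine (h1.union h2).subset ?_
  rintro x ⟨R, hR, h | h⟩
  · exact Or.inl ⟨⟨R, hR⟩, h.symm⟩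
  · exact Or.inr ⟨⟨R, hR⟩, h.symm⟩

omit [NumberField K] [Algebra F K] [IsScalarTower F K Ω] [IsAlgClosed Ω] [Algebra.IsAlgebraic K Ω] in
theorem K1_TF (b : O) : TF K Ω b = IntermediateField.adjoin K (K1_S Ω b) := rfl

omit [NumberField K] [IsAlgClosed Ω] [Algebra.IsAlgebraic K Ω] in
theorem K1_map (b : O) (s : Gal(Ω/K)) : (s : Ω → Ω) '' (K1_S Ω b) ⊆ K1_S Ω b := by
  rintro _ ⟨x, ⟨R, hR, h⟩, rfl⟩
  let j : Ω →ₐ[F] Ω := ((AlgEquiv.restrictScalars F s : Ω ≃ₐ[F] Ω) : Ω →ₐ[F] Ω)
  refine ⟨mp j R, (mp_mem_Tor j b R).2 hR, ?_⟩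
  rcases h with h | h
  · left
    rw [xc_mp, h]
    rfl
  · right
    rw [yc_mp, h]
    rfl

end

theorem TF_fin (K : Type) [Field K] [NumberField K] [Algebra F K] (Ω : Type) [Field Ω]
    [DecidableEq Ω] [Algebra F Ω] [Algebra K Ω] [IsScalarTower F K Ω] [IsAlgClosed Ω]
    [Algebra.IsAlgebraic K Ω] (b : O) (hb : b ≠ 0) : FiniteDimensional K (TF K Ω b) := by
  rw [K1_TF]
  have h1 : Finite (K1_S Ω b) := (K1_finS K Ω b hb).to_subtype
  exact IntermediateField.finiteDimensional_adjoin fun x _ =>
    (Algebra.IsAlgebraic.isAlgebraic (R := K) x).isIntegral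

theorem TF_TFld (K : Type) [Field K] [NumberField K] [Algebra F K] (Ω : Type) [Field Ω]
    [DecidableEq Ω] [Algebra F Ω] [Algebra K Ω] [IsScalarTower F K Ω] [IsAlgClosed Ω]
    [Algebra.IsAlgebraic K Ω] (b : O) (hb : b ≠ 0) : TFld K (TF K Ω b) b := by
  have hfin := TF_fin K Ω b hb
  let j : TF K Ω b →ₐ[F] Ω := (TF K Ω b).val.restrictScalars F
  -- every torsion point comes from the subfield
  have hsurj : ∀ R ∈ Tor b Ω, ∃ S ∈ Tor b (TF K Ω b), mp j S = R := by
    intro R hR
    by_cases h0 : R = 0
    · exact ⟨0, AddSubgroup.zero_mem _, by rw [map_zero, h0]⟩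
    have hx : xc R ∈ TF K Ω b := IntermediateField.subset_adjoin _ _ ⟨R, hR, Or.inl rfl⟩
    have hy : yc R ∈ TF K Ω b := IntermediateField.subset_adjoin _ _ ⟨R, hR, Or.inr rfl⟩
    have he : (⟨yc R, hy⟩ : TF K Ω b) ^ 2 + ⟨yc R, hy⟩ = (⟨xc R, hx⟩ : TF K Ω b) ^ 3 :=
      Subtype.ext (eqn R)
    have hm : mp j (pt ⟨xc R, hx⟩ ⟨yc R, hy⟩ he) = R :=
      pt_ext (mp_ne j (pt_ne _ _ _)) h0 (by rw [xc_mp, xc_pt]; rfl) (by rw [yc_mp, yc_pt]; rfl)
    exact ⟨_, (mp_mem_Tor j b _).1 (by rw [hm]; exact hR), hm⟩
  refine ⟨?_, ?_, ?_⟩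
  · have hn : Normal K (TF K Ω b) := by
      have : Normal K Ω := normal_iff.2 fun x =>
        ⟨(Algebra.IsAlgebraic.isAlgebraic (R := K) x).isIntegral, IsAlgClosed.splits _⟩
      rw [IntermediateField.normal_iff_forall_map_le']
      intro s
      rw [K1_TF, IntermediateField.adjoin_map]
      exact IntermediateField.adjoin.mono _ _ _ (K1_map K Ω b s)
    exact ⟨⟩
  · unfold Full
    have hO := K1_full K Ω b hb
    unfold Full at hO
    rw [← hO]
    let φ : Tor b (TF K Ω b) → Tor b Ω := fun S => ⟨mp j S.1, (mp_mem_Tor j b S.1).2 S.2⟩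
    have hφ : Function.Bijective φ := by
      refine ⟨fun a c hac => Subtype.ext (mp_inj j (congrArg Subtype.val hac)), ?_⟩
      intro R
      obtain ⟨S, hS, hS'⟩ := hsurj R.1 R.2
      exact ⟨⟨S, hS⟩, Subtype.ext hS'⟩
    exact Nat.card_congr (Equiv.ofBijective φ hφ)
  · intro σ hσ
    have h1 : ((TF K Ω b).val.comp (σ : TF K Ω b →ₐ[K] TF K Ω b)) = (TF K Ω b).val := by
      refine IntermediateField.algHom_ext_of_eq_adjoin K (K1_TF K Ω b) ?_
      intro x hx
      obtain ⟨R, hR, h⟩ := hx
      obtain ⟨S, hS, hS'⟩ := hsurj R hR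
      have h2 := hσ S hS
      rcases h with h | h
      · have h5 : ((xc S : TF K Ω b) : Ω) = x := by
          rw [h, ← hS', xc_mp]
          rfl
        have h4 : σ (xc S) = xc S := by rw [← xc_sp, h2]
        subst h5
        exact congrArg Subtype.val h4
      · have h5 : ((yc S : TF K Ω b) : Ω) = x := by
          rw [h, ← hS', yc_mp]
          rfl
        have h4 : σ (yc S) = yc S := by rw [← yc_sp, h2]
        subst h5
        exact congrArg Subtype.val h4
    ext x
    exact congrArg (fun f => f x) h1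

theorem exists_TFld (K : Type) [Field K] [NumberField K] [Algebra F K] (b : O) (hb : b ≠ 0) :
    ∃ (N : Type) (_ : Field N) (_ : NumberField N) (_ : DecidableEq N) (_ : Algebra K N)
      (_ : Algebra F N) (_ : IsScalarTower F K N), TFld K N b := by
  classical
  have h1 := TF_TFld K (AlgebraicClosure K) b hb
  have h2 := TF_fin K (AlgebraicClosure K) b hb
  refine ⟨TF K (AlgebraicClosure K) b, inferInstance, ?_, inferInstance, inferInstance, inferInstance,
    inferInstance, h1⟩
  exact NumberField.of_module_finite K _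

end H28G
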