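import Mathlib
import Pool.Agent.Lib.H28G.GV7
import Pool.Agent.Lib.H28G.K4

open NumberField IsDedekindDomain WeierstrassCurve

namespace H28G

open H55B H55R H99B

/-! Chunk K9 (M): the Frobenius at Q acts as β. lift_val: x in L with Q.valuation L x < 1 (or = 1, <= 1): the same for W.valuation B (algebraMap L B x) (HeightOneSpectrum.valuation_liesOver: v_Q(x)^e = v_W(x), or ord_map with BF1_val; e >= 1), W above Q.
fix_T: if T = 0 clear. W above Q in B (under_exists), v = W.valuation B, T' = mp i T, i : L -> B (IsScalarTower.toAlgHom F L B), T' <> 0, act c T' = mp i (act c T). 3 and b are not in W (W.under = Q, algebraMap O (𝓞 B) = composition), T' is W-integral (tor_int). j from exists_emb. v(ak B β) < 1 (lift_val, ak B β = algebraMap L B (ak L β)).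
kron j for β: xc(act β T') = xc(T')^(Nm β) mod W, same for yc. x = xc T in L is Q-integral (tor_int): x^(absNorm Q) - x has Q-valuation < 1: x = a/s, a, s in 𝓞 L, s not in Q; in the finite field 𝓞 L/Q with absNorm Q elements y^(absNorm Q) = y (FiniteField.pow_card). So xc(act β T') = xc T' mod W, same for yc,
fix_of_cong (act β T' is in Tor b and <> 0): act β T' = T'. mp i is injective. -/

section
variable {L B : Type} [Field L] [NumberField L] [Field B] [NumberField B] [Algebra L B]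

theorem lift_le (Q : Pl L) (W : Pl B) (hW : W.under (𝓞 L) = Q) (x : L)
    (h : Q.valuation L x ≤ 1) : W.valuation B (algebraMap L B x) ≤ 1 := by
  have hl : W.asIdeal.LiesOver Q.asIdeal := (BF2_mem Q W hW).2
  rw [← HeightOneSpectrum.valuation_liesOver B Q W x]
  exact pow_le_one' h _

theorem lift_lt (Q : Pl L) (W : Pl B) (hW : W.under (𝓞 L) = Q) (x : L)
    (h : Q.valuation L x < 1) : W.valuation B (algebraMap L B x) < 1 := by
  have hl : W.asIdeal.LiesOver Q.asIdeal := (BF2_mem Q W hW).2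
  have hp := Q.isPrime
  have hWp := W.isPrime
  rw [← HeightOneSpectrum.valuation_liesOver B Q W x]
  exact pow_lt_one' h (Ideal.IsDedekindDomain.ramificationIdx'_ne_zero_of_liesOver W.asIdeal Q.ne_bot)

theorem K9_mem (Q : Pl L) (W : Pl B) (hW : W.under (𝓞 L) = Q) (x : 𝓞 L) (y : 𝓞 B)
    (hxy : (y : B) = algebraMap L B (x : L)) (h : x ∉ Q.asIdeal) : y ∉ W.asIdeal := by
  intro h1
  apply h
  rw [← hW]
  show algebraMap (𝓞 L) (𝓞 B) x ∈ W.asIdeal
  have e : algebraMap (𝓞 L) (𝓞 B) x = y := RingOfIntegers.ext hxy.symm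
  rw [e]
  exact h1

end

theorem K9_frob {L : Type} [Field L] [NumberField L] (Q : Pl L) (y : 𝓞 L) :
    y ^ Ideal.absNorm Q.asIdeal - y ∈ Q.asIdeal := by
  have hmax := Q.isMaximal
  let _ : Field (𝓞 L ⧸ Q.asIdeal) := Ideal.Quotient.field Q.asIdeal
  have hfin : Finite (𝓞 L ⧸ Q.asIdeal) := Ideal.finiteQuotientOfFreeOfNeBot Q.asIdeal Q.ne_bot
  have := Fintype.ofFinite (𝓞 L ⧸ Q.asIdeal)
  have hc : Fintype.card (𝓞 L ⧸ Q.asIdeal) = Ideal.absNorm Q.asIdeal := by
    rw [Ideal.absNorm_apply, Submodule.cardQuot_apply, Nat.card_eq_fintype_card]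
  rw [← Ideal.Quotient.eq, map_pow, ← hc]
  exact FiniteField.pow_card _

theorem pow_norm {L : Type} [Field L] [NumberField L] (Q : Pl L) (x : L) (h : Q.valuation L x ≤ 1) :
    Q.valuation L (x ^ Ideal.absNorm Q.asIdeal - x) < 1 := by
  obtain ⟨n, d, hnd⟩ := HeightOneSpectrum.exists_primeCompl_mul_eq_of_integer Q x h
  have hd : (d : 𝓞 L) ∉ Q.asIdeal := d.2
  have hd1 : Q.valuation L (algebraMap (𝓞 L) L (d : 𝓞 L)) = 1 :=
    (HeightOneSpectrum.valuation_eq_one_iff_notMem (K := L) Q).2 hd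
  have hd0 : (algebraMap (𝓞 L) L (d : 𝓞 L)) ≠ 0 := by
    intro h0
    rw [h0, map_zero] at hd1
    exact zero_ne_one hd1
  have hx : x = algebraMap (𝓞 L) L n / algebraMap (𝓞 L) L (d : 𝓞 L) := (eq_div_iff hd0).2 hnd
  set N := Ideal.absNorm Q.asIdeal with hN
  have e : x ^ N - x = (algebraMap (𝓞 L) L (n ^ N - n) * algebraMap (𝓞 L) L (d : 𝓞 L) -
      algebraMap (𝓞 L) L n * algebraMap (𝓞 L) L ((d : 𝓞 L) ^ N - d)) /
      ((algebraMap (𝓞 L) L (d : 𝓞 L)) ^ N * algebraMap (𝓞 L) L (d : 𝓞 L)) := by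
    rw [hx, map_sub, map_sub, map_pow, map_pow, div_pow]
    field_simp
    ring
  have hlt : ∀ a : 𝓞 L, a ∈ Q.asIdeal → Q.valuation L (algebraMap (𝓞 L) L a) < 1 := fun a ha =>
    (HeightOneSpectrum.valuation_lt_one_iff_mem (K := L) Q a).2 ha
  rw [e, map_div₀, map_mul, map_pow, hd1, one_pow, one_mul, div_one]
  refine (Q.valuation L).map_sub_lt ?_ ?_
  · rw [map_mul, hd1, mul_one]
    exact hlt _ (K9_frob Q n)
  · exact GV7_mul_lt _ (Q.valuation_le_one n) (hlt _ (K9_frob Q _))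

theorem K9_cong {k : Type} [Field k] {Γ : Type} [LinearOrderedCommGroupWithZero Γ] (v : Valuation k Γ)
    {a b c : k} (h1 : v (a - b) < 1) (h2 : v (b - c) < 1) : v (a - c) < 1 := by
  have e : a - c = (a - b) + (b - c) := by ring
  rw [e]
  exact v.map_add_lt h1 h2

theorem fix_T {L B : Type} [Field L] [NumberField L] [DecidableEq L] [Field B] [NumberField B]
    [DecidableEq B] [Algebra F L] [Algebra L B] [Algebra F B] [IsScalarTower F L B] {β : O}
    (hp : Prime β) (hβ : Prim β) (hB : Full β B) (Q : Pl L) (h3 : (3 : 𝓞 L) ∉ Q.asIdeal)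
    (hN : Nm β = Ideal.absNorm Q.asIdeal) (hv : Q.valuation L (ak L β) < 1) {b : O}
    (hb : algebraMap O (𝓞 L) b ∉ Q.asIdeal) {T : P27 L} (hT : T ∈ Tor b L) : act β T = T := by
  by_cases h0 : T = 0
  · rw [h0]
    exact map_zero _
  obtain ⟨W, hW⟩ := under_exists (L := B) Q
  obtain ⟨j⟩ := exists_emb (N := B)
  let i : L →ₐ[F] B := IsScalarTower.toAlgHom F L B
  have hi : ∀ x : L, i x = algebraMap L B x := fun x => rfl
  have hak : ∀ c : O, ak B c = algebraMap L B (ak L c) := fun c =>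
    IsScalarTower.algebraMap_apply F L B (c : F)
  have hT0 : mp i T ≠ 0 := mp_ne i h0
  have hTor : mp i T ∈ Tor b B := (mp_mem_Tor i b T).2 hT
  have hb' : algebraMap O (𝓞 B) b ∉ W.asIdeal := by
    refine K9_mem Q W hW _ _ ?_ hb
    rw [← ak_int, ← ak_int]
    exact hak b
  have h3' : (3 : 𝓞 B) ∉ W.asIdeal := by
    refine K9_mem Q W hW 3 3 ?_ h3
    show ((3 : 𝓞 B) : B) = algebraMap L B ((3 : 𝓞 L) : L)
    have e1 : ((3 : 𝓞 B) : B) = 3 := map_ofNat (algebraMap (𝓞 B) B) 3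
    have e2 : ((3 : 𝓞 L) : L) = 3 := map_ofNat (algebraMap (𝓞 L) L) 3
    rw [e1, e2, map_ofNat]
  have hint : W.valuation B (xc (mp i T)) ≤ 1 := tor_int W hb' hTor hT0
  have hv' : W.valuation B (ak B β) < 1 := by
    rw [hak]
    exact lift_lt Q W hW _ hv
  obtain ⟨k1, k2, k3, k4⟩ := kron (W.valuation B) j hp hβ hB hv' hT0 hint
  have hx : Q.valuation L (xc T) ≤ 1 := tor_int Q hb hT h0
  have hy : Q.valuation L (yc T) ≤ 1 := int_y (Q.valuation L) hx
  have hpx : W.valuation B (xc (mp i T) ^ Nm β - xc (mp i T)) < 1 := by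
    rw [xc_mp, hN, hi, ← map_pow, ← map_sub]
    exact lift_lt Q W hW _ (pow_norm Q _ hx)
  have hpy : W.valuation B (yc (mp i T) ^ Nm β - yc (mp i T)) < 1 := by
    rw [yc_mp, hN, hi, ← map_pow, ← map_sub]
    exact lift_lt Q W hW _ (pow_norm Q _ hy)
  have hTor' : act β (mp i T) ∈ Tor b B := by
    rw [mem_Tor, ← act_mul, mul_comm, act_mul, mem_Tor.1 hTor]
    exact map_zero _
  have key : act β (mp i T) = mp i T :=
    fix_of_cong W h3' hb' hTor' hTor k1 hT0 (K9_cong _ k3 hpx) (K9_cong _ k4 hpy)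
  apply mp_inj i
  rw [mp_act]
  exact key

end H28G
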