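import Mathlib
import Pool.Agent.Lib.H28G.Act

open NumberField IsDedekindDomain WeierstrassCurve

namespace H28G

open H55B

/-! Chunk GV9 (S): the function D = f^2 and multiplication by sqrt(-3). D = (fc P)^2 = 4 (xc P)^3 + 1 (fc_sq), s = 2 om + 1 in O, s^2 = -3. D_rec: P <> 0, xc P <> 0: act s P = omP P - omP (omP P) = omP P + (-(omP (omP P))) (s = om - om^2; act_om, act_mul), coordinates (om x, y) and (om^2 x, -1-y): add_coords gives
the slope fc P/((om - om^2) x), (om - om^2)^2 = -3, xc(act s P) = -(x^3 + 1)/(3 x^2), and 27 (D-1)^2 D' = - D (D-9)^2 with x^3 = (D-1)/4 (field_simp, ring). -/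

variable {k : Type} [Field k] [DecidableEq k] [Algebra F k]

theorem GV9_act (P : P27 k) : act (2 * om + 1) P = omP P + -(omP (omP P)) := by
  have h : (2 * om + 1 : O) = ((1 : ℤ) : O) + ((2 : ℤ) : O) * om := by push_cast; ring
  rw [h, act_apply]
  have h1 := omP_rel P
  have h2 : omP (omP P) = -(omP P + P) := by
    rw [eq_neg_iff_add_eq_zero, ← h1]
    abel
  rw [h2, neg_neg, one_zsmul, two_zsmul]
  abel

theorem D_rec {P : P27 k} (hP : P ≠ 0) (hx : xc P ≠ 0) : act (2 * om + 1) P ≠ 0 ∧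
    27 * (fc P ^ 2 - 1) ^ 2 * fc (act (2 * om + 1) P) ^ 2 = -(fc P ^ 2 * (fc P ^ 2 - 9) ^ 2) := by
  have h0 := char0 (k := k)
  have hk := ok_rel (k := k)
  have hk0 := ok_ne (k := k)
  have hk1 : ok k - ok k ^ 2 ≠ 0 := by
    intro h
    have h1 : (ok k - ok k ^ 2) ^ 2 = -3 := by
      linear_combination (ok k ^ 2 - 3 * ok k + 3) * hk
    rw [h] at h1
    norm_num at h1
  have hsq : (ok k - ok k ^ 2) ^ 2 = -3 := by
    linear_combination (ok k ^ 2 - 3 * ok k + 3) * hk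
  have hP1 : omP P ≠ 0 := omF_ne hP
  have hP2 : omP (omP P) ≠ 0 := omF_ne hP1
  have hne : xc (omP P) ≠ xc (-(omP (omP P))) := by
    rw [xc_neg, xc_omP, xc_omP, xc_omP]
    intro h
    have h2 : (ok k - ok k ^ 2) * xc P = 0 := by linear_combination h
    rcases mul_eq_zero.1 h2 with h3 | h3
    · exact hk1 h3
    · exact hx h3
  obtain ⟨a1, a2, a3⟩ := add_coords hP1 (neg_ne hP2) hne
  rw [GV9_act]
  refine ⟨a1, ?_⟩
  rw [xc_neg, xc_omP, xc_omP, xc_omP, yc_neg hP2, yc_omP, yc_omP, yc_omP] at a2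
  have hs : (yc P - (-1 - yc P)) / (ok k * xc P - ok k * (ok k * xc P)) =
      fc P / ((ok k - ok k ^ 2) * xc P) := by
    unfold fc
    congr 1
    · ring
    · ring
  rw [hs, div_pow, mul_pow, hsq] at a2
  have hX : 3 * xc P ^ 2 * xc (omP P + -(omP (omP P))) = -(xc P ^ 3 + 1) := by
    rw [a2]
    field_simp
    linear_combination -(fc_sq P) - 3 * xc P ^ 3 * hk
  rw [fc_sq (omP P + -(omP (omP P))), fc_sq P]
  have hX3 : 27 * xc P ^ 6 * xc (omP P + -(omP (omP P))) ^ 3 = -(xc P ^ 3 + 1) ^ 3 := by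
    have : 27 * xc P ^ 6 * xc (omP P + -(omP (omP P))) ^ 3 =
        (3 * xc P ^ 2 * xc (omP P + -(omP (omP P)))) ^ 3 := by ring
    rw [this, hX]
    ring
  linear_combination 64 * hX3

end H28G
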