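import Mathlib
import Pool.Agent.Lib.H28G.GC2
import Pool.Agent.Lib.H28G.GV9

open NumberField IsDedekindDomain WeierstrassCurve

namespace H28G

open H55B

/-! Chunk GV10 (M): torsion points above 3. D = (fc P)^2, s = 2 om + 1, s^2 = -3, D_rec.
D_val: W = v 3 < 1 (W <> 0). For T in Tor n, T <> 0, n prime to 6 (IsCoprime n 6): the points T_i = act (s^i) T, i >= 0, are <> 0 with xc <> 0 and fc <> 0: (fc = 0 => 2 T_i = 0; xc = 0 => act (om - 1) T_i = 0 (omF fixes the point), and n kills T_i: coprime), s is prime to n, so a combination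
s^m = 1 mod n exists (m >= 1: s is a unit of the finite ring O/(n)): T_(i+m) = T_i. a_i = v(D_i) <> 0. (1) a < W^2: a' = a W (v(D-9) = W^2, v(D-1) = 1, v 27 = W^3). (2) a = W^2: a' <= W^3 < W^2. (3) W^2 < a < 1: v(D-9) = a, a' = a^3/W^3. (4) a = 1: a' >= W^(-3) > 1. (5) a > 1: v(D-9) = v(D-1) = a,
a' = a/W^3 > a. So once a_i <= W^2 the sequence strictly decreases and stays there, once a_i >= 1 it strictly increases and stays: both contradict a_(i+m) = a_i. So always (3); r_i = a_i^2/W^3 satisfies r_(i+1) = r_i^3, r_0^(3^m) = r_0, hence r_0 = 1 (a linearly ordered group is torsion free): a^2 = W^3.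
D_val_S: X = S + T (S of order 3, T as before, T <> 0): act s (act s X) = -3 X = -3 T, which is <> 0 and killed by n, so a'' = v(D(3T)) satisfies a''^2 = W^3, so W^2 < a'' < 1. Backwards: if a' ^2 = W^3 for P' = act s P then P is in case (3) (the other cases give a' <= W^3.. or a' > 1 or a' < W^3) and a^6 = W^9, so a^2 = W^3. Twice.
(X, act s X have xc <> 0 and fc <> 0: otherwise 6-torsion, but then 6 T.. = 0.) -/

variable {k : Type} [Field k] [DecidableEq k] [Algebra F k]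
  {Γ : Type} [LinearOrderedCommGroupWithZero Γ] (v : Valuation k Γ)

omit [DecidableEq k] [Algebra F k] in
theorem GV10_rec [CharZero k] (h3 : v 3 < 1) (x x' : k) (hx : x ≠ 0)
    (h : 27 * (x - 1) ^ 2 * x' = -(x * (x - 9) ^ 2)) :
    (v x ^ 2 < v 3 ^ 3 → v x' < v x) ∧ (v 3 ^ 3 < v x ^ 2 → v x < v x') := by
  have hW0 : v 3 ≠ 0 := by
    rw [Valuation.ne_zero_iff]
    norm_num
  have hWp : 0 < v 3 := zero_lt_iff.2 hW0
  have ha0 : v x ≠ 0 := (Valuation.ne_zero_iff v).2 hx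
  have hap : 0 < v x := zero_lt_iff.2 ha0
  have h9 : v 9 = v 3 ^ 2 := by
    rw [← map_pow]
    norm_num
  have h27 : v 27 = v 3 ^ 3 := by
    rw [← map_pow]
    norm_num
  have hrec : v 3 ^ 3 * v (x - 1) ^ 2 * v x' = v x * v (x - 9) ^ 2 := by
    have h1 := congrArg v h
    rw [map_mul, map_mul, map_pow, Valuation.map_neg, map_mul, map_pow, h27] at h1
    exact h1
  have hW3 : v 3 ^ 3 ≠ 0 := pow_ne_zero 3 hW0
  have hW3p : 0 < v 3 ^ 3 := zero_lt_iff.2 hW3
  have hW21 : v 3 ^ 2 < 1 := pow_lt_one₀ (zero_le) h3 two_ne_zero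
  have hW31 : v 3 ^ 3 < 1 := pow_lt_one₀ (zero_le) h3 three_ne_zero
  have hW32 : v 3 ^ 3 < v 3 ^ 2 := by
    rw [pow_succ (v 3) 2]
    exact mul_lt_of_lt_one_right (zero_lt_iff.2 (pow_ne_zero 2 hW0)) h3
  have hW43 : v 3 ^ 4 < v 3 ^ 3 := by
    rw [pow_succ (v 3) 3]
    exact mul_lt_of_lt_one_right hW3p h3
  -- case (3)
  have c3 : v 3 ^ 2 < v x → v x < 1 → v 3 ^ 3 * v x' = v x ^ 2 * v x := by
    intro h1 h2
    have e1 : v (x - 9) = v x := Valuation.map_sub_eq_of_lt_left v (by rw [h9]; exact h1)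
    have e2 : v (x - 1) = 1 := by
      rw [Valuation.map_sub_eq_of_lt_right v (by rw [map_one]; exact h2), map_one]
    rw [e1, e2, one_pow, mul_one, mul_comm (v x)] at hrec
    exact hrec
  constructor
  · intro hlt
    have hx1 : v x < 1 := by
      by_contra hc
      have h1 : 1 ≤ v x ^ 2 := one_le_pow₀ (not_lt.1 hc)
      exact absurd (lt_of_le_of_lt h1 (lt_trans hlt hW31)) (lt_irrefl _)
    have e2 : v (x - 1) = 1 := by
      rw [Valuation.map_sub_eq_of_lt_right v (by rw [map_one]; exact hx1), map_one]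
    rcases lt_trichotomy (v x) (v 3 ^ 2) with h1 | h1 | h1
    · have e1 : v (x - 9) = v 3 ^ 2 := by
        rw [Valuation.map_sub_eq_of_lt_right v (by rw [h9]; exact h1), h9]
      rw [e1, e2, one_pow, mul_one] at hrec
      have e3 : v x' = v x * v 3 := by
        apply mul_left_cancel₀ hW3
        rw [hrec, ← pow_mul, mul_left_comm, ← pow_succ]
      rw [e3]
      exact mul_lt_of_lt_one_right hap h3
    · have e1 : v (x - 9) ≤ v 3 ^ 2 := by
        refine le_trans (Valuation.map_sub v x 9) ?_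
        rw [h9, h1, max_self]
      rw [e2, one_pow, mul_one] at hrec
      have e4 : v 3 ^ 3 * v x' ≤ v x * (v 3 ^ 2) ^ 2 := by
        rw [hrec]
        exact mul_le_mul_right (pow_le_pow_left₀ zero_le e1 2) _
      have e5 : v x * (v 3 ^ 2) ^ 2 < v 3 ^ 3 * v x := by
        rw [mul_comm (v x), ← pow_mul]
        exact mul_lt_mul_of_pos_right hW43 hap
      exact lt_of_mul_lt_mul_left (lt_of_le_of_lt e4 e5) zero_le
    · have e3 := c3 h1 hx1
      refine lt_of_mul_lt_mul_left (a := v 3 ^ 3) ?_ zero_le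
      rw [e3]
      exact mul_lt_mul_of_pos_right hlt hap
  · intro hgt
    rcases lt_trichotomy (v x) 1 with h1 | h1 | h1
    · have h2 : v 3 ^ 2 < v x := by
        by_contra hc
        have h4 : v x ^ 2 ≤ (v 3 ^ 2) ^ 2 := pow_le_pow_left₀ zero_le (not_lt.1 hc) 2
        rw [← pow_mul] at h4
        exact absurd (lt_of_lt_of_le hgt h4) (not_lt.2 hW43.le)
      have e3 := c3 h2 h1
      refine lt_of_mul_lt_mul_left (a := v 3 ^ 3) ?_ zero_le
      rw [e3]
      exact mul_lt_mul_of_pos_right hgt hap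
    · have e1 : v (x - 9) = 1 := by
        rw [Valuation.map_sub_eq_of_lt_left v (by rw [h9, h1]; exact hW21), h1]
      have e2 : v (x - 1) ≤ 1 := by
        refine le_trans (Valuation.map_sub v x 1) ?_
        rw [h1, map_one, max_self]
      rw [e1, h1, one_pow, mul_one] at hrec
      rw [h1]
      by_contra hc
      have hc' := not_lt.1 hc
      have h5 : v 3 ^ 3 * v (x - 1) ^ 2 * v x' ≤ v 3 ^ 3 := by
        calc v 3 ^ 3 * v (x - 1) ^ 2 * v x' ≤ v 3 ^ 3 * 1 * 1 := by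
              apply mul_le_mul' (mul_le_mul' le_rfl (pow_le_one₀ zero_le e2)) hc'
          _ = v 3 ^ 3 := by rw [mul_one, mul_one]
      rw [hrec] at h5
      exact absurd (lt_of_le_of_lt h5 hW31) (lt_irrefl _)
    · have h2 : v 3 ^ 2 < v x := lt_trans hW21 h1
      have e1 : v (x - 9) = v x := Valuation.map_sub_eq_of_lt_left v (by rw [h9]; exact h2)
      have e2 : v (x - 1) = v x := Valuation.map_sub_eq_of_lt_left v (by rw [map_one]; exact h1)
      rw [e1, e2] at hrec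
      have e3 : v 3 ^ 3 * v x' = v x := by
        apply mul_left_cancel₀ (pow_ne_zero 2 ha0)
        rw [mul_comm (v x ^ 2) (v x), ← hrec, mul_left_comm, mul_assoc]
      have hx'0 : 0 < v x' := by
        rw [zero_lt_iff]
        intro h0
        rw [h0, mul_zero] at e3
        exact ha0 e3.symm
      rw [← e3]
      exact mul_lt_of_lt_one_left hx'0 hW31

/-- Points whose multiple by 6 is not 0. -/
theorem GV10_good {Y : P27 k} (h6 : act 6 Y ≠ 0) : Y ≠ 0 ∧ xc Y ≠ 0 ∧ fc Y ≠ 0 := by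
  have h0 : Y ≠ 0 := by
    intro h
    apply h6
    rw [h, map_zero]
  refine ⟨h0, ?_, ?_⟩
  · intro hx
    apply h6
    have e1 : omP Y = Y := pt_ext (omF_ne h0) h0 (by rw [xc_omP, hx, mul_zero]) (yc_omP Y)
    have e3 := omP_rel Y
    rw [e1, e1] at e3
    have h2 : (6 : O) = ((6 : ℤ) : O) := by norm_num
    rw [h2, act_int]
    have : (6 : ℤ) • Y = (Y + Y + Y) + (Y + Y + Y) := by abel
    rw [this, e3, add_zero]
  · intro hf
    apply h6
    have e1 := fc_eq_zero h0 hf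
    have h2 : (6 : O) = ((6 : ℤ) : O) := by norm_num
    have e2 : Y + Y = 0 := by
      nth_rewrite 1 [e1]
      exact neg_add_cancel Y
    rw [h2, act_int]
    have : (6 : ℤ) • Y = (Y + Y) + (Y + Y) + (Y + Y) := by abel
    rw [this, e2, add_zero, add_zero]

theorem GV10_step (h3 : v 3 < 1) {Y : P27 k} (h6 : act 6 Y ≠ 0) :
    (v (fc Y ^ 2) ^ 2 < v 3 ^ 3 → v (fc (act (2 * om + 1) Y) ^ 2) < v (fc Y ^ 2)) ∧
    (v 3 ^ 3 < v (fc Y ^ 2) ^ 2 → v (fc Y ^ 2) < v (fc (act (2 * om + 1) Y) ^ 2)) := by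
  have := char0 (k := k)
  obtain ⟨g0, g1, g2⟩ := GV10_good h6
  exact GV10_rec v h3 _ _ (pow_ne_zero 2 g2) (D_rec g0 g1).2

/-- The number sqrt(-3). -/
theorem GV10_s_sq : (2 * om + 1 : O) ^ 2 = -3 := by linear_combination 4 * om_rel

theorem GV10_six {n : O} (hn : IsCoprime n 6) {T : P27 k} (hT : T ∈ Tor n k) (h0 : T ≠ 0) :
    act 6 T ≠ 0 := by
  obtain ⟨a, b, hab⟩ := hn
  intro h
  apply h0
  rw [← act_one T, ← hab, act_add, act_mul, act_mul, mem_Tor.1 hT, h, map_zero, map_zero, add_zero]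

theorem GV10_s_cop {n : O} (hn : IsCoprime n 6) : IsCoprime n (2 * om + 1) := by
  apply hn.of_isCoprime_of_dvd_right
  refine ⟨-2 * (2 * om + 1), ?_⟩
  linear_combination (8 : O) * om_rel

theorem GV10_s_mem {n : O} (hn : IsCoprime n 6) {T : P27 k} (hT : T ∈ Tor n k) (h0 : T ≠ 0) (i : ℕ) :
    act ((2 * om + 1) ^ i) T ∈ Tor n k ∧ act ((2 * om + 1) ^ i) T ≠ 0 := by
  constructor
  · rw [mem_Tor, ← act_mul, mul_comm, act_mul, mem_Tor.1 hT, map_zero]
  · obtain ⟨a, b, hab⟩ := (GV10_s_cop hn).pow_right (n := i)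
    intro h
    apply h0
    rw [← act_one T, ← hab, act_add, act_mul, act_mul, mem_Tor.1 hT, h, map_zero, map_zero, add_zero]

theorem GV10_period {n : O} (hn : IsCoprime n 6) : ∃ m : ℕ, 0 < m ∧ n ∣ (2 * om + 1) ^ m - 1 := by
  have hn0 : n ≠ 0 := by
    intro h
    rw [h, isCoprime_zero_left] at hn
    have h1 : Nm (6 : O) = 1 := Nm_eq_one.2 hn
    have h2 := Nm_repr 6 0
    have h3 : (((6 : ℤ) : O) + ((0 : ℤ) : O) * om) = 6 := by push_cast; ring
    rw [h3, h1] at h2
    norm_num at h2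
  have hfin : Finite (O ⧸ Ideal.span {n}) := Ideal.finiteQuotientOfFreeOfNeBot _ (by
    rw [Ne, Ideal.span_singleton_eq_bot]
    exact hn0)
  obtain ⟨a, b, hab⟩ := GV10_s_cop hn
  have hu : IsUnit (Ideal.Quotient.mk (Ideal.span {n}) (2 * om + 1)) := by
    refine IsUnit.of_mul_eq_one (Ideal.Quotient.mk (Ideal.span {n}) b) ?_
    rw [← map_mul, ← map_one (Ideal.Quotient.mk (Ideal.span {n})), Ideal.Quotient.eq,
      Ideal.mem_span_singleton]
    exact ⟨-a, by linear_combination hab⟩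
  obtain ⟨u, hu⟩ := hu
  obtain ⟨m, hm, hm1⟩ := (isOfFinOrder_of_finite u).exists_pow_eq_one
  refine ⟨m, hm, ?_⟩
  rw [← Ideal.mem_span_singleton, ← Ideal.Quotient.eq, map_pow, ← hu, map_one, ← Units.val_pow_eq_pow_val,
    hm1, Units.val_one]

theorem D_val (h3 : v 3 < 1) {n : O} (hn : IsCoprime n 6) {T : P27 k} (hT : T ∈ Tor n k) (h0 : T ≠ 0) :
    v (fc T) ^ 4 = v 3 ^ 3 := by
  have hs : ∀ i, act ((2 * om + 1) ^ (i + 1)) T = act (2 * om + 1) (act ((2 * om + 1) ^ i) T) := by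
    intro i
    rw [pow_succ', act_mul]
  have h6 : ∀ i, act 6 (act ((2 * om + 1) ^ i) T) ≠ 0 := fun i =>
    GV10_six hn (GV10_s_mem hn hT h0 i).1 (GV10_s_mem hn hT h0 i).2
  obtain ⟨m, hm, c, hc⟩ := GV10_period hn
  have hper : act ((2 * om + 1) ^ m) T = T := by
    have e1 : (2 * om + 1 : O) ^ m = c * n + 1 := by linear_combination hc
    rw [e1, act_add, act_mul, mem_Tor.1 hT, map_zero, act_one, zero_add]
  set f : ℕ → Γ := fun i => v (fc (act ((2 * om + 1) ^ i) T) ^ 2) with hf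
  have hf0 : f 0 = v (fc T ^ 2) := by
    show v (fc (act ((2 * om + 1) ^ 0) T) ^ 2) = _
    rw [pow_zero, act_one]
  have hfm : f m = v (fc T ^ 2) := by
    show v (fc (act ((2 * om + 1) ^ m) T) ^ 2) = _
    rw [hper]
  have hstep : ∀ i, (f i ^ 2 < v 3 ^ 3 → f (i + 1) < f i) ∧ (v 3 ^ 3 < f i ^ 2 → f i < f (i + 1)) := by
    intro i
    have := GV10_step v h3 (h6 i)
    rw [← hs] at this
    exact this
  have key : f 0 ^ 2 = v 3 ^ 3 := by
    rcases lt_trichotomy (f 0 ^ 2) (v 3 ^ 3) with h1 | h1 | h1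
    · exfalso
      have hind : ∀ i, f (i + 1) < f 0 := by
        intro i
        induction i with
        | zero => exact (hstep 0).1 h1
        | succ i ih =>
          have h2 : f (i + 1) ^ 2 < v 3 ^ 3 :=
            lt_of_le_of_lt (pow_le_pow_left₀ zero_le ih.le 2) h1
          exact lt_trans ((hstep (i + 1)).1 h2) ih
      obtain ⟨j, rfl⟩ : ∃ j, m = j + 1 := ⟨m - 1, by omega⟩
      have := hind j
      rw [hfm, hf0] at this
      exact lt_irrefl _ this
    · exact h1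
    · exfalso
      have hind : ∀ i, f 0 < f (i + 1) := by
        intro i
        induction i with
        | zero => exact (hstep 0).2 h1
        | succ i ih =>
          have h2 : v 3 ^ 3 < f (i + 1) ^ 2 :=
            lt_of_lt_of_le h1 (pow_le_pow_left₀ zero_le ih.le 2)
          exact lt_trans ih ((hstep (i + 1)).2 h2)
      obtain ⟨j, rfl⟩ : ∃ j, m = j + 1 := ⟨m - 1, by omega⟩
      have := hind j
      rw [hfm, hf0] at this
      exact lt_irrefl _ this
  rw [hf0, map_pow, ← pow_mul] at key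
  exact key

/-- Backwards. -/
theorem GV10_back (h3 : v 3 < 1) {Y : P27 k} (h6 : act 6 Y ≠ 0)
    (h : v (fc (act (2 * om + 1) Y)) ^ 4 = v 3 ^ 3) : v (fc Y) ^ 4 = v 3 ^ 3 := by
  have hst := GV10_step v h3 h6
  have e1 : ∀ a : k, v (a ^ 2) ^ 2 = v a ^ 4 := fun a => by rw [map_pow, ← pow_mul]
  rw [← e1] at h ⊢
  rcases lt_trichotomy (v (fc Y ^ 2) ^ 2) (v 3 ^ 3) with h1 | h1 | h1
  · exfalso
    have h2 := pow_lt_pow_left₀ (hst.1 h1) zero_le (two_ne_zero)
    rw [h] at h2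
    exact absurd (lt_trans h1 h2) (lt_irrefl _)
  · exact h1
  · exfalso
    have h2 := pow_lt_pow_left₀ (hst.2 h1) zero_le (two_ne_zero)
    rw [h] at h2
    exact absurd (lt_trans h1 h2) (lt_irrefl _)

theorem D_val_S (h3 : v 3 < 1) {n : O} (hn : IsCoprime n 6) {T : P27 k} (hT : T ∈ Tor n k) (h0 : T ≠ 0)
    {S : P27 k} (hS : S = Spt k ∨ S = -Spt k) : v (fc (S + T)) ^ 4 = v 3 ^ 3 := by
  have hS3 : act 3 S = 0 := by
    have h2 : (3 : O) = ((3 : ℤ) : O) := by norm_num
    rw [h2, act_int]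
    rcases hS with h | h
    · rw [h, three_Spt]
    · rw [h, zsmul_neg, three_Spt, neg_zero]
  have hX3 : act 3 (S + T) = act 3 T := by rw [map_add, hS3, zero_add]
  have hX6 : act 6 (S + T) = act 6 T := by
    have h2 : (6 : O) = 2 * 3 := by norm_num
    rw [h2, act_mul, act_mul, hX3]
  have g1 : act 6 (S + T) ≠ 0 := by
    rw [hX6]
    exact GV10_six hn hT h0
  have hsm := GV10_s_mem hn hT h0 1
  rw [pow_one] at hsm
  have g2 : act 6 (act (2 * om + 1) (S + T)) ≠ 0 := by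
    rw [← act_mul, mul_comm, act_mul, hX6, ← act_mul, mul_comm, act_mul]
    exact GV10_six hn hsm.1 hsm.2
  have hsm2 := GV10_s_mem hn hT h0 2
  have e1 : act (2 * om + 1) (act (2 * om + 1) (S + T)) = act ((2 * om + 1) ^ 2) T := by
    rw [← act_mul, ← sq, GV10_s_sq, act_neg, act_neg, hX3]
  apply GV10_back v h3 g1
  apply GV10_back v h3 g2
  rw [e1]
  exact D_val v h3 hn hsm2.1 hsm2.2

end H28G
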