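import Mathlib
import Pool.Agent.Lib.H28G.KDefs
import Pool.Agent.Lib.H55R.Defs

open NumberField IsDedekindDomain WeierstrassCurve

namespace H28G

open H55B H55R H99B

/-! Chunk K14 (S/M): small arithmetic facts for the assembly. arith: π | l with l >= 5 prime, π prime and Prim: Nm π divides Nm l = l^2 and is > 1, so Nm π >= 5 > 2; IsCoprime π 6: π does not divide 6 (otherwise π | 6 and π | l, coprime integers, π | 1); not π | 2; not π | -4 (2 om + 1)
((2 om + 1)^2 = -3). below: v = w.under (𝓞 F) contains π, (π) is maximal. val_gen: HeightOneSpectrum.intValuation_singleton or the definition, ak_int. chi_bij: Nat.card Gal(L/F) = finrank = Nm π - 1 = card kˣ (k = O/(π): Nm π = absNorm = card of the quotient) and χ is injective (χ σ = 1 gives sp σ R = act 1 R = R).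
card_k: card k = Nm π. not_three: 3 and π are coprime (Prim: 3 | π - 1). xi_form: 12/(2 om + 1) = -4 (2 om + 1) as (2 om + 1)^2 = -3 in L (ok_rel). pi_finite: finitely many primes contain a nonzero element (Ideal.finite_factors or X10_bad of H55R.X10). -/

theorem K14_not_six {l : ℕ} [Fact l.Prime] (h5 : 5 ≤ l) {π : O} (hp : Prime π)
    (hd : π ∣ (l : O)) : ¬ π ∣ 6 := by
  intro h
  have hl : l.Prime := Fact.out
  have h1 : Nat.Coprime l 6 := by
    rw [Nat.Prime.coprime_iff_not_dvd hl]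
    intro h2
    have h3 : l ∣ 2 * 3 := h2
    rcases (Nat.Prime.dvd_mul hl).1 h3 with h4 | h4
    · have := Nat.le_of_dvd (by norm_num) h4
      omega
    · have := Nat.le_of_dvd (by norm_num) h4
      omega
  have h2 : IsCoprime (l : ℤ) (6 : ℤ) := Nat.isCoprime_iff_coprime.2 h1
  obtain ⟨a, b, hab⟩ := h2
  have h3 : ((a * l + b * 6 : ℤ) : O) = 1 := by rw [hab, Int.cast_one]
  push_cast at h3
  apply hp.not_isUnit
  rw [isUnit_iff_dvd_one, ← h3]
  exact dvd_add (Dvd.dvd.mul_left hd _) (Dvd.dvd.mul_left h _)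

theorem K14_Nm_nat (l : ℕ) : Nm (l : O) = l ^ 2 := by
  have h := Nm_repr (l : ℤ) 0
  have h1 : ((l : ℤ) : O) + ((0 : ℤ) : O) * om = (l : O) := by push_cast; ring
  rw [h1] at h
  have h2 : ((Nm (l : O) : ℕ) : ℤ) = ((l ^ 2 : ℕ) : ℤ) := by
    rw [h]
    push_cast
    ring
  exact_mod_cast h2

theorem arith {l : ℕ} [Fact l.Prime] (h5 : 5 ≤ l) {π : O} (hp : Prime π) (hπ : Prim π)
    (hd : π ∣ (l : O)) : 2 < Nm π ∧ IsCoprime π 6 ∧ ¬ π ∣ 2 ∧ ¬ π ∣ (-4 * (2 * om + 1) : O) := by
  have hl : l.Prime := Fact.out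
  have h6 := K14_not_six h5 hp hd
  have h2 : ¬ π ∣ 2 := by
    intro h
    apply h6
    have h3 : (6 : O) = 2 * 3 := by norm_num
    rw [h3]
    exact Dvd.dvd.mul_right h _
  refine ⟨?_, ?_, h2, ?_⟩
  · obtain ⟨y, hy⟩ := hd
    have h3 : Nm π ∣ l ^ 2 := by
      rw [← K14_Nm_nat, hy, Nm_mul]
      exact Dvd.intro _ rfl
    obtain ⟨i, hi, hi2⟩ := (Nat.dvd_prime_pow hl).1 h3
    have h4 : Nm π ≠ 1 := fun h => hp.not_isUnit (Nm_eq_one.1 h)
    rw [hi2] at h4 ⊢
    rcases i with _ | i
    · exact absurd (pow_zero l) h4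
    · have : l ≤ l ^ (i + 1) := Nat.le_self_pow (by omega) l
      omega
  · exact (hp.irreducible.coprime_iff_not_dvd).2 h6
  · intro h
    have h3 : (-4 * (2 * om + 1) : O) * (-4 * (2 * om + 1)) = -(6 * (2 * (2 * 2))) := by
      linear_combination 64 * om_rel
    have h4 : π ∣ -(6 * (2 * (2 * 2)) : O) := by
      rw [← h3]
      exact Dvd.dvd.mul_right h _
    rw [dvd_neg] at h4
    rcases hp.dvd_or_dvd h4 with h5 | h5
    · exact h6 h5
    rcases hp.dvd_or_dvd h5 with h5 | h5
    · exact h2 h5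
    rcases hp.dvd_or_dvd h5 with h5 | h5
    · exact h2 h5
    · exact h2 h5

theorem K14_max {π : O} (hp : Prime π) : (Ideal.span {π}).IsMaximal := by
  have h1 : (Ideal.span {π}).IsPrime := (Ideal.span_singleton_prime hp.ne_zero).2 hp
  refine h1.isMaximal ?_
  rw [Ne, Ideal.span_singleton_eq_bot]
  exact hp.ne_zero

theorem below {L : Type} [Field L] [NumberField L] [Algebra F L] {π : O} (hp : Prime π) (w : Pl L)
    (hw : algebraMap O (𝓞 L) π ∈ w.asIdeal) : ∃ v : Pl F, v.asIdeal = Ideal.span {π} ∧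
      w.under (𝓞 F) = v := by
  refine ⟨w.under (𝓞 F), ?_, rfl⟩
  have h1 := K14_max hp
  refine (h1.eq_of_le (w.under (𝓞 F)).isPrime.ne_top ?_).symm
  rw [Ideal.span_singleton_le_iff_mem]
  exact hw

theorem val_gen {π : O} (v : Pl F) (hv : v.asIdeal = Ideal.span {π}) :
    v.valuation F (ak F π) = WithZero.exp (-1 : ℤ) := by
  have h0 : π ≠ 0 := by
    rintro rfl
    apply v.ne_bot
    rw [hv, Ideal.span_singleton_eq_bot]
  have h1 : ak F π = algebraMap (𝓞 F) F π := rfl
  rw [h1, HeightOneSpectrum.valuation_of_algebraMap]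
  exact HeightOneSpectrum.intValuation_singleton v h0 hv

theorem K14_card {π : O} {k : Type} [Field k] (q : O →+* k)
    (hq : Function.Surjective q) (hk : ∀ x, q x = 0 ↔ π ∣ x) : Nat.card k = Nm π := by
  have h1 : RingHom.ker q = Ideal.span {π} := by
    ext x
    rw [RingHom.mem_ker, hk, Ideal.mem_span_singleton]
  have h2 : Nat.card (O ⧸ RingHom.ker q) = Nat.card k :=
    Nat.card_congr (RingHom.quotientKerEquivOfSurjective hq).toEquiv
  rw [← h2, h1]
  unfold H55B.Nm
  rw [Ideal.absNorm_apply, Submodule.cardQuot_apply]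

theorem chi_bij {L : Type} [Field L] [NumberField L] [DecidableEq L] [Algebra F L] {π : O}
    (hp : Prime π) (hL : TFld F L π) (hdeg : Module.finrank F L = Nm π - 1) {k : Type} [Field k]
    [Fintype k] (q : O →+* k) (hq : Function.Surjective q) (hk : ∀ x, q x = 0 ↔ π ∣ x)
    (χ : Gal(L/F) →* kˣ)
    (hχ : ∀ (σ : Gal(L/F)) (c : O), q c = χ σ → ∀ R ∈ Tor π L, sp σ R = act c R) :
    Function.Bijective χ := by
  classical
  have hgal : IsGalois F L := hL.gal
  have hfin : Finite kˣ := inferInstance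
  rw [Nat.bijective_iff_injective_and_card]
  constructor
  · rw [injective_iff_map_eq_one]
    intro σ hσ
    refine hL.gen σ fun R hR => ?_
    rw [hχ σ 1 (by rw [hσ, map_one, Units.val_one]) R hR, act_one]
  · rw [IsGalois.card_aut_eq_finrank, hdeg, ← K14_card q hq hk, Nat.card_units]

theorem card_k {π : O} (hp : Prime π) {k : Type} [Field k] [Fintype k] (q : O →+* k)
    (hq : Function.Surjective q) (hk : ∀ x, q x = 0 ↔ π ∣ x) (h : 2 < Nm π) :
    2 < Fintype.card k := by
  rw [← Nat.card_eq_fintype_card, K14_card q hq hk]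
  exact h

theorem not_three {L : Type} [Field L] [NumberField L] [Algebra F L] {π : O} (hπ : Prim π)
    (w : Pl L) (hw : algebraMap O (𝓞 L) π ∈ w.asIdeal) : (3 : 𝓞 L) ∉ w.asIdeal := by
  intro h
  obtain ⟨y, hy⟩ := hπ
  have h1 : (1 : 𝓞 L) = algebraMap O (𝓞 L) π - 3 * algebraMap O (𝓞 L) y := by
    have h2 : π = 1 + 3 * y := by linear_combination hy
    rw [h2, map_add, map_mul, map_one, map_ofNat]
    ring
  apply w.isPrime.ne_top
  rw [Ideal.eq_top_iff_one, h1]
  exact Ideal.sub_mem _ hw (Ideal.mul_mem_right _ _ h)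

theorem xi_form {L : Type} [Field L] [DecidableEq L] [Algebra F L] {x t : L} :
    x / algebraMap F L (-1) - 1 - algebraMap F L ((-4 * (2 * om + 1) : O) : F) * t =
      -(x + 1 + 12 / (2 * ok L + 1) * t) := by
  have h0 := char0 (k := L)
  have h1 : algebraMap F L ((-4 * (2 * om + 1) : O) : F) = -4 * (2 * ok L + 1) := by
    unfold ok
    push_cast
    simp only [map_mul, map_add, map_neg, map_one, map_ofNat]
  have h2 : (2 * ok L + 1) ^ 2 = -3 := by linear_combination 4 * ok_rel (k := L)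
  have h3 : (2 * ok L + 1) ≠ 0 := by
    intro h
    rw [h] at h2
    norm_num at h2
  have h4 : 12 / (2 * ok L + 1) = -4 * (2 * ok L + 1) := by
    rw [div_eq_iff h3]
    linear_combination 4 * h2
  rw [h1, h4, map_neg, map_one]
  ring

theorem pi_finite {L : Type} [Field L] [NumberField L] [Algebra F L] {π : O} (hp : Prime π) :
    {v : Pl L | algebraMap O (𝓞 L) π ∈ v.asIdeal}.Finite := by
  have h1 : algebraMap O (𝓞 L) π ≠ 0 := by
    intro h
    have h2 := congrArg (fun x : 𝓞 L => (x : L)) h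
    have h3 : ((algebraMap O (𝓞 L) π : 𝓞 L) : L) = algebraMap F L (π : F) := rfl
    simp only [h3] at h2
    have h4 : algebraMap F L (π : F) = algebraMap F L 0 := by
      rw [map_zero]
      exact h2
    have h5 := (algebraMap F L).injective h4
    exact hp.ne_zero (RingOfIntegers.ext h5)
  have h2 : Ideal.span {algebraMap O (𝓞 L) π} ≠ ⊥ := by
    rw [Ne, Ideal.span_singleton_eq_bot]
    exact h1
  refine (Ideal.finite_factors h2).subset fun v hv => ?_
  show v.asIdeal ∣ _
  rw [Ideal.dvd_span_singleton]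
  exact hv

end H28G
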