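import Mathlib
import Pool.Agent.Lib.H28G.GV6
import Pool.Agent.Lib.H28G.K2
import Pool.Agent.Lib.H55R.D5

open NumberField IsDedekindDomain WeierstrassCurve

namespace H28G

open H55B H55R H99B

/-! Chunk K3 (M): total ramification. es = es K N v, n = finrank K N <= Nm b - 1 (card_le; b <> 0 so Nm b > 1, prime). W a prime above v (under_exists). W.valuation N (ak N b) = exp(-es): ord_map for the unit b of K (ak K b <> 0; BF1_val)
and ak N b = algebraMap K N (ak K b). j from exists_emb. T in Tor b N, T <> 0 (exists_tor): tor_val: W(tt T)^(Nm b - 1) = exp(-es); W(tt T) <> 0 and < 1 (tt_val) so W(tt T) = exp(-m), m >= 1 (the tt T is a unit of N; BF1_val), and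
(Nm b - 1) m = es. D5_card: card * (es * fs) = n <= Nm b - 1 with card >= 1 (W is in the set), fs >= 1: so m = 1, es = Nm b - 1, fs = 1, card = 1, n = Nm b - 1. one: the set of the primes above v (D5_mem) has one element. val: the same
argument for every R and W. orb: the injection σ -> sp σ R (orb_inj) from Gal(N/K) (n elements, IsGalois.card_aut_eq_finrank) to {R : Tor b N // R <> 0} (Nm b - 1 elements) is surjective. -/

/-- N/K is totally ramified at v, of degree Nb - 1. -/
structure TotRam (K N : Type) [Field K] [NumberField K] [Field N] [NumberField N] [DecidableEq N]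
    [Algebra F K] [Algebra K N] [Algebra F N] [IsScalarTower F K N] (b : O) (v : Pl K) : Prop where
  deg : Module.finrank K N = Nm b - 1
  es : es K N v = Nm b - 1
  fs : fs K N v = 1
  one : ∀ W W' : Pl N, W.under (𝓞 K) = v → W'.under (𝓞 K) = v → W = W'
  val : ∀ W : Pl N, W.under (𝓞 K) = v → ∀ R ∈ Tor b N, R ≠ 0 →
    1 < W.valuation N (xc R) ∧ W.valuation N (tt R) = WithZero.exp (-1 : ℤ)
  orb : ∀ R ∈ Tor b N, R ≠ 0 → ∀ R' ∈ Tor b N, R' ≠ 0 → ∃ σ : Gal(N/K), sp σ R = R'

theorem K3_arith {c P f m e : ℕ} (hc : 0 < c) (hf : 0 < f) (he : 0 < e) (hm : m * P = e)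
    (h : c * (e * f) ≤ P) : c = 1 ∧ f = 1 ∧ m = 1 := by
  subst hm
  have hP : 0 < P := Nat.pos_of_mul_pos_right he |> fun h => by
    rcases Nat.eq_zero_or_pos P with h0 | h0
    · rw [h0, mul_zero] at he
      exact absurd he (lt_irrefl 0)
    · exact h0
  have hm0 : 0 < m := by
    rcases Nat.eq_zero_or_pos m with h0 | h0
    · rw [h0, zero_mul] at he
      exact absurd he (lt_irrefl 0)
    · exact h0
  have h1 : (c * f * m) * P ≤ 1 * P := by
    calc (c * f * m) * P = c * (m * P * f) := by ring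
      _ ≤ P := h
      _ = 1 * P := (one_mul P).symm
  have h2 : c * f * m ≤ 1 := Nat.le_of_mul_le_mul_right h1 hP
  have h3 : c * f * m = 1 := le_antisymm h2 (Nat.mul_pos (Nat.mul_pos hc hf) hm0)
  have h4 := Nat.eq_one_of_mul_eq_one_left h3
  have h5 := Nat.eq_one_of_mul_eq_one_right h3
  exact ⟨Nat.eq_one_of_mul_eq_one_right h5, Nat.eq_one_of_mul_eq_one_left h5, h4⟩

theorem tot_ram {K N : Type} [Field K] [NumberField K] [Field N] [NumberField N] [DecidableEq N]
    [Algebra F K] [Algebra K N] [Algebra F N] [IsScalarTower F K N] {b : O} (hp : Prime b)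
    (hb : Prim b) (h : TFld K N b) (v : Pl K)
    (hv : v.valuation K (ak K b) = WithZero.exp (-1 : ℤ)) : TotRam K N b v := by
  classical
  have hgal : IsGalois K N := h.gal
  have hb0 := hp.ne_zero
  have hle : Module.finrank K N ≤ Nm b - 1 := card_le hp h
  obtain ⟨j⟩ := exists_emb (N := N)
  have hakK : ak K b ≠ 0 := GV6_ak_ne hb0
  obtain ⟨x, hx⟩ : ∃ x : Kˣ, (x : K) = ak K b := ⟨Units.mk0 _ hakK, rfl⟩
  have hordv : ord v x = 1 := by
    have h1 := BF1_val v x
    rw [hx, hv, WithZero.exp_inj] at h1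
    omega
  have hakN : ((Units.map (algebraMap K N : K →* N) x : Nˣ) : N) = ak N b := by
    show algebraMap K N (x : K) = _
    rw [hx]
    unfold ak
    rw [RingHom.comp_apply, RingHom.comp_apply, ← IsScalarTower.algebraMap_apply F K N]
  have hval : ∀ W : Pl N, W.under (𝓞 K) = v →
      W.valuation N (ak N b) = WithZero.exp (-(es K N v : ℤ)) := by
    intro W hW
    have h1 := ord_map W v hW x
    rw [hordv, mul_one] at h1
    have h2 := BF1_val W (Units.map (algebraMap K N : K →* N) x)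
    rw [h1, hakN] at h2
    exact h2
  have hes : 0 < es K N v := es_pos v
  have hfs : 0 < fs K N v := fs_pos v
  have key : ∀ W : Pl N, W.under (𝓞 K) = v → ∀ R ∈ Tor b N, R ≠ 0 →
      1 < W.valuation N (xc R) ∧ ∃ m : ℕ, W.valuation N (tt R) = WithZero.exp (-(m : ℤ)) ∧
        m * (Nm b - 1) = es K N v := by
    intro W hW R hR h0
    have hvb : W.valuation N (ak N b) < 1 := by
      rw [hval W hW, ← WithZero.exp_zero, WithZero.exp_lt_exp]
      omega
    obtain ⟨h1, h2⟩ := tor_val (W.valuation N) j hp hb h.full hvb hR h0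
    obtain ⟨h3, h4, -, -⟩ := tt_val (W.valuation N) h1
    refine ⟨h1, ?_⟩
    obtain ⟨k, hk⟩ : ∃ k : ℤ, W.valuation N (tt R) = WithZero.exp k :=
      ⟨WithZero.log (W.valuation N (tt R)), (WithZero.exp_log h4).symm⟩
    rw [hk, ← WithZero.exp_zero, WithZero.exp_lt_exp] at h3
    obtain ⟨m, hm⟩ : ∃ m : ℕ, k = -(m : ℤ) := ⟨k.natAbs, by omega⟩
    refine ⟨m, by rw [hk, hm], ?_⟩
    rw [hval W hW, hk, hm, ← WithZero.exp_nsmul, WithZero.exp_inj, nsmul_eq_mul] at h2
    have h5 : ((m * (Nm b - 1) : ℕ) : ℤ) = (es K N v : ℤ) := by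
      rw [Nat.cast_mul]
      linarith
    exact_mod_cast h5
  obtain ⟨W₀, hW₀⟩ := under_exists (L := N) v
  obtain ⟨T, hT, hT0⟩ := exists_tor hp h.full
  obtain ⟨-, m, -, hm⟩ := key W₀ hW₀ T hT hT0
  have hcard := D5_card (L := N) v
  have hcpos : 0 < (D5_T (L := N) v).card :=
    Finset.card_pos.2 ⟨W₀, (D5_mem v W₀).2 hW₀⟩
  obtain ⟨hc1, hf1, hm1⟩ := K3_arith hcpos hfs hes hm (hcard.le.trans hle)
  have hes1 : es K N v = Nm b - 1 := by rw [← hm, hm1, one_mul]
  have hdeg : Module.finrank K N = Nm b - 1 := by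
    rw [← hcard, hc1, hf1, hes1, one_mul, mul_one]
  have hP : 0 < Nm b - 1 := hes1 ▸ hes
  refine ⟨hdeg, hes1, hf1, ?_, ?_, ?_⟩
  · intro W W' hW hW'
    obtain ⟨Z, hZ⟩ := Finset.card_eq_one.1 hc1
    have h1 : W ∈ D5_T (L := N) v := (D5_mem v W).2 hW
    have h2 : W' ∈ D5_T (L := N) v := (D5_mem v W').2 hW'
    rw [hZ, Finset.mem_singleton] at h1 h2
    rw [h1, h2]
  · intro W hW R hR h0
    obtain ⟨h1, m', hm', hm2⟩ := key W hW R hR h0
    refine ⟨h1, ?_⟩
    rw [hes1] at hm2
    have h3 : m' = 1 := Nat.eq_of_mul_eq_mul_right hP (by rw [hm2, one_mul])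
    rw [hm', h3, Nat.cast_one]
  · intro R hR h0 R' hR' h0'
    have hfin : Finite (Tor b N) := h.full.finite hb0
    let f : Gal(N/K) → {R : Tor b N // R ≠ 0} := fun σ =>
      ⟨⟨sp σ R, (sp_mem σ b R).2 hR⟩, fun h1 => sp_ne σ h0 (congrArg Subtype.val h1)⟩
    have hinj : Function.Injective f := by
      intro σ τ hστ
      apply orb_inj hp h hR h0
      exact congrArg (fun z : {R : Tor b N // R ≠ 0} => ((z.1 : Tor b N) : P27 N)) hστ
    have hcard2 : Nat.card {R : Tor b N // R ≠ 0} = Nm b - 1 := by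
      have : Fintype (Tor b N) := Fintype.ofFinite _
      have h3 : Nat.card (Tor b N) = Nm b := h.full
      rw [Nat.card_eq_fintype_card] at h3 ⊢
      have h4 := Fintype.card_subtype_compl (fun R : Tor b N => R = 0)
      rw [Fintype.card_subtype_eq, h3] at h4
      exact h4
    have hbij := hinj.bijective_of_nat_card_le (by
      rw [hcard2, IsGalois.card_aut_eq_finrank, hdeg])
    obtain ⟨σ, hσ⟩ := hbij.2 ⟨⟨R', hR'⟩, fun h1 => h0' (congrArg Subtype.val h1)⟩
    exact ⟨σ, congrArg (fun z : {R : Tor b N // R ≠ 0} => ((z.1 : Tor b N) : P27 N)) hσ⟩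

end H28G
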