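import Mathlib
import Pool.Agent.Lib.H28G.K3
import Pool.Agent.Lib.H28G.GV3

open NumberField IsDedekindDomain WeierstrassCurve

namespace H28G

open H55B H55R H99B

/-! Chunk K7 (M): the local data at the prime w above b. v.valuation F (ak F b) = exp(-1) since v = (b) (HeightOneSpectrum: intValuation_singleton, ak_int; 𝓞 F = O), so tot_ram F N b v applies: es = Nm b - 1 >= 2, fs = 1, one, val.
r: the residue field 𝓞 N/w: the map O/v -> 𝓞 N/w is bijective: injective (under = v), both have absNorm v = absNorm w elements (D5_norm, fs = 1; Ideal.absNorm_apply, Submodule.cardQuot; finite). q factors through O/v = O/(b) (hk) as an isomorphism O/v -> k (surjective).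
So r = (O/v ≃ k) o (𝓞 N/w ≃ O/v) o mk: r(algebraMap y) = q y, ker r = w, and surj from hq. ram: r(algebraMap y) = q y = 0: b | y: w.valuation(y) <= w.valuation(b) = exp(-es) <= exp(-2) (w.valuation (ak N c) <= 1 for c in O: ak_le). inv: smulP σ w is above v (under_smulP), one. unif: val and BF1_val.
act: r(y) = q y = χ σ, so sp σ T = act y T (hχ), and E1_act for T (E1: val): w.valuation(tt (act y T) - ak N y * tt T) <= w.valuation(tt T)^2 = exp(-2); tt (sp σ T) = σ (tt T) (tt_sp). -/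

/-- The residue fields agree. -/
theorem K7_res {N : Type} [Field N] [NumberField N] [Algebra F N] [IsGalois F N] (v : Pl F) (w : Pl N)
    (hw : w.under (𝓞 F) = v) (hf : fs F N v = 1) {k : Type} [Field k] (q : O →+* k)
    (hk : ∀ x : O, q x = 0 ↔ x ∈ v.asIdeal) : ∃ r : 𝓞 N →+* k,
      (∀ x : 𝓞 N, r x = 0 ↔ x ∈ w.asIdeal) ∧ ∀ y : O, r (algebraMap O (𝓞 N) y) = q y := by
  have hu : ∀ y : O, y ∈ v.asIdeal ↔ algebraMap O (𝓞 N) y ∈ w.asIdeal := by
    intro y
    rw [← hw]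
    exact Iff.rfl
  let φ : (O ⧸ v.asIdeal) →+* (𝓞 N ⧸ w.asIdeal) :=
    Ideal.quotientMap w.asIdeal (algebraMap O (𝓞 N)) fun y hy => (hu y).1 hy
  have hφ1 : Function.Injective φ := Ideal.quotientMap_injective' fun y hy => (hu y).2 hy
  have hfin1 : Finite (O ⧸ v.asIdeal) := Ideal.finiteQuotientOfFreeOfNeBot v.asIdeal v.ne_bot
  have hfin2 : Finite (𝓞 N ⧸ w.asIdeal) := Ideal.finiteQuotientOfFreeOfNeBot w.asIdeal w.ne_bot
  have hcard : Nat.card (O ⧸ v.asIdeal) = Nat.card (𝓞 N ⧸ w.asIdeal) := by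
    have h1 := D5_norm v w hw
    rw [hf, pow_one, Ideal.absNorm_apply, Ideal.absNorm_apply, Submodule.cardQuot_apply,
      Submodule.cardQuot_apply] at h1
    exact h1.symm
  have hφ : Function.Bijective φ := (Nat.bijective_iff_injective_and_card φ).2 ⟨hφ1, hcard⟩
  let ψ : (O ⧸ v.asIdeal) ≃+* (𝓞 N ⧸ w.asIdeal) := RingEquiv.ofBijective φ hφ
  let q' : (O ⧸ v.asIdeal) →+* k := Ideal.Quotient.lift v.asIdeal q fun a ha => (hk a).2 ha
  let r : 𝓞 N →+* k := q'.comp ((ψ.symm : (𝓞 N ⧸ w.asIdeal) →+* (O ⧸ v.asIdeal)).comp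
    (Ideal.Quotient.mk w.asIdeal))
  have hr : ∀ y : O, r (algebraMap O (𝓞 N) y) = q y := by
    intro y
    have e1 : ψ (Ideal.Quotient.mk v.asIdeal y) = Ideal.Quotient.mk w.asIdeal (algebraMap O (𝓞 N) y) := rfl
    show q' (ψ.symm (Ideal.Quotient.mk w.asIdeal (algebraMap O (𝓞 N) y))) = q y
    rw [← e1, RingEquiv.symm_apply_apply]
    rfl
  refine ⟨r, fun x => ?_, hr⟩
  obtain ⟨z, hz⟩ := hφ.2 (Ideal.Quotient.mk w.asIdeal x)
  obtain ⟨y, rfl⟩ := Ideal.Quotient.mk_surjective z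
  have e2 : Ideal.Quotient.mk w.asIdeal (algebraMap O (𝓞 N) y) = Ideal.Quotient.mk w.asIdeal x := hz
  have e3 : r x = q y := by
    rw [← hr y]
    show q' (ψ.symm (Ideal.Quotient.mk w.asIdeal x)) =
      q' (ψ.symm (Ideal.Quotient.mk w.asIdeal (algebraMap O (𝓞 N) y)))
    rw [e2]
  rw [e3, hk, hu, ← Ideal.Quotient.eq_zero_iff_mem, e2, Ideal.Quotient.eq_zero_iff_mem]

theorem exists_loc {N : Type} [Field N] [NumberField N] [DecidableEq N] [Algebra F N] {b : O}
    (hp : Prime b) (hb : Prim b) (h : TFld F N b) (h3 : 2 < Nm b) {k : Type} [Field k] (q : O →+* k)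
    (hq : Function.Surjective q) (hk : ∀ x, q x = 0 ↔ b ∣ x) (χ : Gal(N/F) →* kˣ)
    (hχ : ∀ (σ : Gal(N/F)) (c : O), q c = χ σ → ∀ R ∈ Tor b N, sp σ R = act c R) (v : Pl F)
    (hv : v.asIdeal = Ideal.span {b}) (w : Pl N) (hw : w.under (𝓞 F) = v) (T : P27 N)
    (hT : T ∈ Tor b N) (h0 : T ≠ 0) (t : Nˣ) (ht : (t : N) = tt T) :
    ∃ r : 𝓞 N →+* k, Loc χ w t r ∧ ∀ y : O, r (algebraMap O (𝓞 N) y) = q y := by
  have hgal : IsGalois F N := h.gal
  have hb0 : b ≠ 0 := hp.ne_zero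
  have hval : v.valuation F (ak F b) = WithZero.exp (-1 : ℤ) := by
    have e : ak F b = algebraMap (𝓞 F) F b := rfl
    rw [e, v.valuation_of_algebraMap, v.intValuation_singleton hb0 hv]
  have TR := tot_ram hp hb h v hval
  obtain ⟨r, hr1, hr2⟩ := K7_res v w hw TR.fs q fun x => by
    rw [hk, hv, Ideal.mem_span_singleton]
  have hbF : ak F b ≠ 0 := by
    intro h1
    rw [h1, map_zero] at hval
    exact WithZero.exp_ne_zero hval.symm
  have hwb : w.valuation N (ak N b) = WithZero.exp (-(es F N v : ℤ)) := by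
    let u : Fˣ := Units.mk0 _ hbF
    have h1 : ord v u = 1 := by
      have h2 := BF1_val v u
      rw [Units.val_mk0, hval, WithZero.exp_inj] at h2
      omega
    have h2 := ord_map w v hw u
    rw [h1, mul_one] at h2
    have h4 := BF1_val w (Units.map (algebraMap F N : F →* N) u)
    rw [h2] at h4
    exact h4
  obtain ⟨hT1, hT2⟩ := TR.val w hw T hT h0
  have hak : ∀ y : O, algebraMap F N (y : F) = ak N y := fun y => rfl
  refine ⟨r, ⟨hr1, fun c => ?_, fun y hy => ?_, fun σ => ?_, ?_, fun σ y hy => ?_⟩, hr2⟩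
  · obtain ⟨y, hy⟩ := hq c
    exact ⟨y, (hr2 y).trans hy⟩
  · have h1 : q y = 0 := (hr2 y).symm.trans hy
    rw [hk] at h1
    obtain ⟨c, rfl⟩ := h1
    rw [hak, map_mul, map_mul, hwb]
    refine (mul_le_of_le_one_right' (ak_le (w.valuation N) c)).trans ?_
    rw [WithZero.exp_le_exp, TR.es]
    omega
  · exact TR.one _ _ ((under_smulP σ w).trans hw) hw
  · have h1 := BF1_val w t
    rw [ht, hT2, WithZero.exp_inj] at h1
    omega
  · have h1 : q y = χ σ := (hr2 y).symm.trans hy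
    have h2 := hχ σ y h1 T hT
    have h4 := (E1_act (w.valuation N) (P := T) (Or.inr hT1) y).2.1
    rw [← h2, tt_sp, hT2, ← ht] at h4
    refine h4.trans (le_of_eq ?_)
    rw [← WithZero.exp_nsmul]
    norm_num

end H28G
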