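import Mathlib
import Pool.Agent.Lib.H28G.GV3
import Pool.Agent.Lib.H28G.GV4
import Pool.Agent.Lib.H28G.GV5

open NumberField IsDedekindDomain WeierstrassCurve

namespace H28G

open H55B

/-! Chunk GV8 (S/M): the values f(S + T), v 3 = 1, act b T = 0 with Prim b (b not necessarily prime), S = Spt k or S = -Spt k. S + T <> 0 and not in E1: otherwise act b (S + T) = S (act_Spt) is in E1 (E1_act), but xc S = -1. v(fc(S+T)) <= 1 (int_y). If v(fc(S+T)) < 1: with X = S + T,
xc(-X) = xc X, yc X - yc(-X) = fc X, so red_sub gives E1 (X - (-X)) = E1 (2X), hence act b (2X) = 2S = -S (three_Spt) in E1: contradiction. fc_exp: T in E1 (for example v(b) < 1, b prime): transl for P = S: fc(S+T) = fc S + 6 (xc S)^2 tt T + (valuation <= v(tt T)^2), xc S = -1.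
ratio: xi = fc(S+T)/fc(-S+T), fc(-S) = -fc S, fc S = 2 ok + 1, (2 ok + 1)^2 = -3: a unit. xi = -(1 + c t)/(1 - c t) + O(t^2), c = 6/(2 ok + 1): v(xi + 1 + 2 c t) <= v(t)^2 (v(6), v(c) <= 1). -/

variable {k : Type} [Field k] [DecidableEq k] [Algebra F k]
  {Γ : Type} [LinearOrderedCommGroupWithZero Γ] (v : Valuation k Γ)

section GV8aux
variable {k : Type} [Field k] {Γ : Type} [LinearOrderedCommGroupWithZero Γ] (v : Valuation k Γ)

theorem GV8_nat (n : ℕ) : v (n : k) ≤ 1 := by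
  induction n with
  | zero => simp
  | succ n ih =>
    rw [Nat.cast_succ]
    exact (v.map_add _ _).trans (max_le ih (le_of_eq v.map_one))

theorem GV8_two : v (2 : k) ≤ 1 := by
  have := GV8_nat v 2
  simpa using this

theorem GV8_mul_lt {x y : k} (hx : v x ≤ 1) (hy : v y < 1) : v (x * y) < 1 := by
  rw [map_mul]
  exact mul_lt_one_of_nonneg_of_lt_one_right hx zero_le hy

theorem GV8_mul_le {x y : k} {g : Γ} (hx : v x ≤ 1) (hy : v y ≤ g) : v (x * y) ≤ g := by
  rw [map_mul]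
  calc v x * v y ≤ 1 * g := mul_le_mul' hx hy
    _ = g := one_mul g

theorem GV8_add_lt {x y : k} (hx : v x < 1) (hy : v y < 1) : v (x + y) < 1 :=
  (v.map_add _ _).trans_lt (max_lt hx hy)

theorem GV8_sub_lt {x y : k} (hx : v x < 1) (hy : v y < 1) : v (x - y) < 1 :=
  (v.map_sub _ _).trans_lt (max_lt hx hy)

theorem GV8_eq_one {x y : k} (hx : v x = 1) (hy : v (y - x) < 1) : v y = 1 := by
  have h : y = x + (y - x) := by ring
  rw [h, Valuation.map_add_eq_of_lt_left v (by rw [hx]; exact hy), hx]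

end GV8aux

theorem GV8_tt_lt {P : P27 k} (h : E1 v P) : v (tt P) < 1 := by
  rcases h with h | h
  · rw [h]
    have : tt (0 : P27 k) = 0 := by
      unfold tt
      rw [xc_zero, neg_zero, zero_div]
    rw [this, map_zero]
    exact zero_lt_one
  · exact (tt_val v h).1

theorem GV8_Spt_ne : Spt k ≠ 0 := pt_ne _ _ _

theorem GV8_S_ne {S : P27 k} (hS : S = Spt k ∨ S = -Spt k) : S ≠ 0 := by
  rcases hS with rfl | rfl
  · exact GV8_Spt_ne
  · exact neg_ne GV8_Spt_ne

theorem GV8_xS {S : P27 k} (hS : S = Spt k ∨ S = -Spt k) : xc S = -1 := by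
  rcases hS with rfl | rfl
  · rfl
  · rw [xc_neg]
    rfl

theorem GV8_S_E1 {S : P27 k} (hS : S = Spt k ∨ S = -Spt k) : ¬ E1 v S := by
  intro h
  rcases h with h | h
  · exact GV8_S_ne hS h
  · rw [GV8_xS hS, Valuation.map_neg, map_one] at h
    exact lt_irrefl _ h

theorem GV8_SS {S : P27 k} (hS : S = Spt k ∨ S = -Spt k) : S + S = -S := by
  have h := three_Spt (k := k)
  have h' : Spt k + Spt k + Spt k = 0 := by
    rw [← h]
    have : (3 : ℤ) • Spt k = Spt k + Spt k + Spt k := by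
      rw [show (3 : ℤ) = 1 + 1 + 1 by norm_num, add_smul, add_smul, one_smul]
    rw [this]
  rcases hS with rfl | rfl
  · exact eq_neg_of_add_eq_zero_left h'
  · rw [neg_neg]
    have h2 : -Spt k + -Spt k = Spt k ↔ Spt k + Spt k + Spt k = 0 := by
      constructor
      · intro h3
        exact h'
      · intro _
        have : Spt k = -(Spt k + Spt k) := eq_neg_of_add_eq_zero_right h'
        rw [← neg_add]
        exact this.symm
    exact h2.2 h'

theorem GV8_act_S {b : O} (hb : Prim b) {S : P27 k} (hS : S = Spt k ∨ S = -Spt k) : act b S = S := by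
  rcases hS with rfl | rfl
  · exact act_Spt b hb
  · rw [map_neg, act_Spt b hb]

theorem GV8_fc_le {P : P27 k} (h : v (xc P) ≤ 1) : v (fc P) ≤ 1 := by
  unfold fc
  refine (v.map_add _ _).trans (max_le ?_ (le_of_eq v.map_one))
  exact GV8_mul_le v (GV8_two v) (int_y v h)

theorem ST_unit (h3 : v 3 = 1) {b : O} (hb : Prim b) {T : P27 k} (hT : T ∈ Tor b k) {S : P27 k}
    (hS : S = Spt k ∨ S = -Spt k) : S + T ≠ 0 ∧ v (xc (S + T)) ≤ 1 ∧ v (fc (S + T)) = 1 := by
  have hact : act b (S + T) = S := by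
    rw [map_add, GV8_act_S hb hS, mem_Tor.1 hT, add_zero]
  have hE : ¬ E1 v (S + T) := by
    intro h
    have h1 := (E1_act v h b).1
    rw [hact] at h1
    exact GV8_S_E1 v hS h1
  have hne : S + T ≠ 0 := fun h => hE (Or.inl h)
  have hx : v (xc (S + T)) ≤ 1 := not_lt.1 fun h => hE (Or.inr h)
  refine ⟨hne, hx, ?_⟩
  refine le_antisymm (GV8_fc_le v hx) (not_lt.1 fun hf => ?_)
  have h1 : E1 v (S + T - -(S + T)) := by
    refine red_sub v h3 hne (neg_ne hne) hx (by rw [xc_neg]; exact hx) ?_ ?_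
    · rw [xc_neg, sub_self, map_zero]
      exact zero_lt_one
    · have e : yc (S + T) - yc (-(S + T)) = fc (S + T) := by
        rw [yc_neg hne]
        unfold fc
        ring
      rw [e]
      exact hf
  have h2 := (E1_act v h1 b).1
  have e2 : act b (S + T - -(S + T)) = -S := by
    rw [map_sub, map_neg, hact, sub_neg_eq_add, GV8_SS hS]
  rw [e2] at h2
  rcases hS with rfl | rfl
  · exact GV8_S_E1 v (Or.inr rfl) h2
  · rw [neg_neg] at h2
    exact GV8_S_E1 v (Or.inl rfl) h2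

/-- The elliptic unit attached to a torsion point T. -/
noncomputable def xi (T : P27 k) : k := fc (Spt k + T) / fc (-Spt k + T)

theorem xi_unit (h3 : v 3 = 1) {b : O} (hb : Prim b) {T : P27 k} (hT : T ∈ Tor b k) : v (xi T) = 1 := by
  unfold xi
  rw [map_div₀, (ST_unit v h3 hb hT (Or.inl rfl)).2.2, (ST_unit v h3 hb hT (Or.inr rfl)).2.2, div_one]

theorem GV8_fcS : fc (Spt k) = 2 * ok k + 1 := rfl

theorem GV8_fcS_sq : (2 * ok k + 1) ^ 2 = -3 := by
  linear_combination 4 * ok_rel (k := k)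

theorem GV8_c_val (h3 : v 3 = 1) : v (2 * ok k + 1) = 1 := by
  have h : v (2 * ok k + 1) ^ 2 = 1 := by
    rw [← map_pow, GV8_fcS_sq, Valuation.map_neg, h3]
  exact (pow_eq_one_iff_of_nonneg zero_le two_ne_zero).1 h

/-- First order expansion of fc. -/
theorem GV8_fc_exp {P R : P27 k} (hP : P ≠ 0) (h : v (xc P) ≤ 1) (hR : E1 v R) :
    v (fc (P + R) - fc P - 6 * xc P ^ 2 * tt R) ≤ v (tt R) ^ 2 := by
  have h1 := (transl v hP h hR).2.2.2
  have e : fc (P + R) - fc P - 6 * xc P ^ 2 * tt R = 2 * (yc (P + R) - yc P - 3 * xc P ^ 2 * tt R) := by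
    unfold fc
    ring
  rw [e]
  exact GV8_mul_le v (GV8_two v) h1

theorem xi_exp (h3 : v 3 = 1) {T : P27 k} (hT : E1 v T) :
    v (xi T + 1 + 12 / (2 * ok k + 1) * tt T) ≤ v (tt T) ^ 2 := by
  have ht := GV8_tt_lt v hT
  have hx1 : v (xc (Spt k)) ≤ 1 := by
    rw [GV8_xS (Or.inl rfl), Valuation.map_neg, map_one]
  have hx2 : v (xc (-Spt k)) ≤ 1 := by
    rw [GV8_xS (Or.inr rfl), Valuation.map_neg, map_one]
  have hA := GV8_fc_exp v GV8_Spt_ne hx1 hT
  have hB := GV8_fc_exp v (neg_ne GV8_Spt_ne) hx2 hT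
  rw [GV8_xS (Or.inl rfl)] at hA
  rw [GV8_xS (Or.inr rfl), fc_neg GV8_Spt_ne] at hB
  rw [GV8_fcS] at hA hB
  have hc := GV8_c_val (k := k) v h3
  set c := 2 * ok k + 1 with hcdef
  set t := tt T with htdef
  set A := fc (Spt k + T) with hAdef
  set B := fc (-Spt k + T) with hBdef
  have hc0 : c ≠ 0 := by
    intro h
    rw [h, map_zero] at hc
    exact zero_ne_one hc
  have h12 : v (12 : k) ≤ 1 := by simpa using GV8_nat v 12
  have h72 : v (72 : k) ≤ 1 := by simpa using GV8_nat v 72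
  have h6 : v (6 : k) ≤ 1 := by simpa using GV8_nat v 6
  have ht2 : v t ^ 2 ≤ v t := by
    rw [pow_two]
    calc v t * v t ≤ v t * 1 := mul_le_mul_right (le_of_lt ht) _
      _ = v t := mul_one _
  have ht2' : v t ^ 2 < 1 := ht2.trans_lt ht
  have hBv : v B = 1 := by
    refine GV8_eq_one v (x := -c) (by rw [Valuation.map_neg, hc]) ?_
    have e : B - -c = (B - -c - 6 * (-1) ^ 2 * t) + 6 * t := by ring
    rw [e]
    exact GV8_add_lt v (hB.trans_lt ht2') (GV8_mul_lt v h6 ht)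
  have hB0 : B ≠ 0 := by
    intro h
    rw [h, map_zero] at hBv
    exact zero_ne_one hBv
  have hxi : xi T = A / B := rfl
  have e : xi T + 1 + 12 / c * t =
      ((A - c - 6 * (-1) ^ 2 * t) + (B - -c - 6 * (-1) ^ 2 * t) + 72 / c * (t * t) +
        12 / c * t * (B - -c - 6 * (-1) ^ 2 * t)) / B := by
    rw [hxi]
    field_simp
    ring
  rw [e, map_div₀, hBv, div_one]
  have hcv : ∀ n : k, v n ≤ 1 → v (n / c) ≤ 1 := by
    intro n hn
    rw [map_div₀, hc, div_one]
    exact hn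
  refine (v.map_add _ _).trans (max_le ((v.map_add _ _).trans (max_le ((v.map_add _ _).trans (max_le hA hB)) ?_)) ?_)
  · refine GV8_mul_le v (hcv _ h72) ?_
    rw [map_mul, pow_two]
  · refine GV8_mul_le v ?_ hB
    rw [map_mul]
    exact mul_le_one' (hcv _ h12) (le_of_lt ht)

/-- xi is unchanged modulo v when T is changed by a point that reduces to infinity. -/
theorem xi_cong (h3 : v 3 = 1) {b : O} (hb : Prim b) {T : P27 k} (hT : T ∈ Tor b k) {R : P27 k}
    (hR : E1 v R) : v (xi (T + R) - xi T) < 1 := by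
  have ht := GV8_tt_lt v hR
  have key : ∀ S : P27 k, S = Spt k ∨ S = -Spt k → v (fc (S + (T + R)) - fc (S + T)) < 1 := by
    intro S hS
    obtain ⟨h1, h2, h4⟩ := ST_unit v h3 hb hT hS
    have h5 := GV8_fc_exp v h1 h2 hR
    rw [← add_assoc]
    have h6 : v (6 : k) ≤ 1 := by simpa using GV8_nat v 6
    have e : fc (S + T + R) - fc (S + T) = (fc (S + T + R) - fc (S + T) - 6 * xc (S + T) ^ 2 * tt R) +
        6 * xc (S + T) ^ 2 * tt R := by ring
    rw [e]
    refine GV8_add_lt v (h5.trans_lt ?_) (GV8_mul_lt v ?_ ht)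
    · exact pow_lt_one' ht two_ne_zero
    · rw [map_mul, map_pow]
      exact mul_le_one' h6 (pow_le_one' h2 2)
  obtain ⟨_, _, hA⟩ := ST_unit v h3 hb hT (Or.inl rfl)
  obtain ⟨_, _, hB⟩ := ST_unit v h3 hb hT (Or.inr rfl)
  have kA := key _ (Or.inl rfl)
  have kB := key _ (Or.inr rfl)
  have hB' : v (fc (-Spt k + (T + R))) = 1 := GV8_eq_one v hB kB
  have hne : ∀ x : k, v x = 1 → x ≠ 0 := by
    intro x hx h
    rw [h, map_zero] at hx
    exact zero_ne_one hx
  have hB0 := hne _ hB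
  have hB0' := hne _ hB'
  unfold xi
  set A := fc (Spt k + T)
  set B := fc (-Spt k + T)
  set A' := fc (Spt k + (T + R))
  set B' := fc (-Spt k + (T + R))
  have e : A' / B' - A / B = (B * (A' - A) - A * (B' - B)) / (B' * B) := by
    field_simp
    ring
  rw [e, map_div₀, map_mul, hB, hB', mul_one, div_one]
  exact GV8_sub_lt v (GV8_mul_lt v (le_of_eq hB) kA) (GV8_mul_lt v (le_of_eq hA) kB)

end H28G
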