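import Mathlib
import Pool.Agent.Lib.H28G.K2
import Pool.Agent.Lib.H28G.GC2
import Pool.Agent.Lib.H28G.GV8

open NumberField IsDedekindDomain WeierstrassCurve

namespace H28G

open H55B H55R H99B

/-! Chunk K10 (M): the norm of the elliptic unit. T' = mp i T, i : L -> B. sp σ T' = T' for σ in Gal(B/L) (sp_fix: the coordinates are in L), sp σ (Spt B) = Spt B, so σ (xi (T' + R)) = xi (T' + sp σ R) (fc_sp, map_add). norm = product over σ in Gal(B/L) of
σ (xi (T' + R)) (Algebra.norm_eq_prod_automorphisms). The map σ -> sp σ R is a bijection from Gal(B/L) to {R' : Tor β B // R' <> 0} (orb_inj, horb). So algebraMap L B (norm) = product over R' <> 0 in Tor β B of xi(T' + R').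
prod_xi: with X = Spt + T', X' = -Spt + T': act β X = X, act β X' = X' (act_Spt, hT), X, X' <> 0. dist_f j: product over all R' of fc(X + R') = C fc X, product of fc(X' + R') = C fc X', C <> 0. fc X, fc X' <> 0 so all factors are <> 0 and product over all R' of xi(T' + R') = fc X/fc X' = xi T'
(xi (T' + R') = fc(Spt + (T' + R'))/fc(-Spt + (T' + R')), add_assoc); divide by the factor R' = 0. (finprod over the finite type Tor β B: Full.finite, finprod_eq_prod_of_fintype; Finset.prod over univ.erase 0.) -/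

theorem prod_xi {B : Type} [Field B] [DecidableEq B] [Algebra F B] (j : B →ₐ[F] ℂ) {β : O}
    (hp : Prime β) (hβ : Prim β) (h2 : ¬ (2 : O) ∣ β) (hf : Full β B) {T : P27 B}
    (hT : act β T = T) (h1 : Spt B + T ≠ 0) (h1' : -Spt B + T ≠ 0) (h3 : fc (Spt B + T) ≠ 0)
    (h3' : fc (-Spt B + T) ≠ 0) :
    ∏ᶠ R : {R : Tor β B // R ≠ 0}, xi (T + (R.1 : P27 B)) = 1 := by
  classical
  have hfin := hf.finite hp.ne_zero
  have hft : Fintype (Tor β B) := Fintype.ofFinite _
  obtain ⟨C, hC, hX⟩ := dist_f j β hβ h2 hf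
  have e1 : act β (Spt B + T) = Spt B + T := by rw [map_add, act_Spt β hβ, hT]
  have e2 : act β (-Spt B + T) = -Spt B + T := by rw [map_add, map_neg, act_Spt β hβ, hT]
  have p1 := hX (Spt B + T) (by rw [e1]; exact h1)
  have p2 := hX (-Spt B + T) (by rw [e2]; exact h1')
  rw [e1, finprod_eq_prod_of_fintype] at p1
  rw [e2, finprod_eq_prod_of_fintype] at p2
  have p3 : ∏ R : Tor β B, xi (T + (R : P27 B)) = xi T := by
    have : ∀ R : Tor β B, xi (T + (R : P27 B)) =
        fc (Spt B + T + (R : P27 B)) / fc (-Spt B + T + (R : P27 B)) := by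
      intro R
      unfold xi
      rw [add_assoc, add_assoc]
    rw [Finset.prod_congr rfl fun R _ => this R, Finset.prod_div_distrib, p1, p2,
      mul_div_mul_left _ _ hC]
    rfl
  rw [finprod_eq_prod_of_fintype]
  have p4 : ∏ R ∈ Finset.univ.erase (0 : Tor β B), xi (T + (R : P27 B)) =
      ∏ R : {R : Tor β B // R ≠ 0}, xi (T + (R.1 : P27 B)) :=
    Finset.prod_subtype _ (fun x => by simp) _
  rw [← p4]
  have p5 := Finset.prod_erase_mul Finset.univ (fun R : Tor β B => xi (T + (R : P27 B)))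
    (Finset.mem_univ 0)
  rw [p3] at p5
  have hxi : xi T ≠ 0 := div_ne_zero h3 h3'
  have p6 : xi (T + ((0 : Tor β B) : P27 B)) = xi T := by
    rw [AddSubgroup.coe_zero, add_zero]
  rw [p6] at p5
  exact mul_right_cancel₀ hxi (p5.trans (one_mul _).symm)

theorem K10_xi_sp {K N : Type} [Field K] [Field N] [DecidableEq N] [Algebra F K] [Algebra K N]
    [Algebra F N] [IsScalarTower F K N] (σ : Gal(N/K)) (X : P27 N) : σ (xi X) = xi (sp σ X) := by
  unfold xi
  rw [map_div₀, ← fc_sp, ← fc_sp, map_add, map_add, map_neg, sp_Spt]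

theorem K10_Spt {K N : Type} [Field K] [DecidableEq K] [Field N] [DecidableEq N] [Algebra F K]
    [Algebra F N] (i : K →ₐ[F] N) : mp i (Spt K) = Spt N := by
  refine pt_ext (mp_ne i GC2_ne) GC2_ne ?_ ?_
  · rw [xc_mp, GC2_xc, GC2_xc, map_neg, map_one]
  · rw [yc_mp, GC2_yc, GC2_yc, ok_map]

theorem norm_xi {L B : Type} [Field L] [NumberField L] [DecidableEq L] [Field B] [NumberField B]
    [DecidableEq B] [Algebra F L] [Algebra L B] [Algebra F B] [IsScalarTower F L B] {β : O}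
    (hp : Prime β) (hβ : Prim β) (h2 : ¬ (2 : O) ∣ β) (hB : TFld L B β)
    (horb : ∀ R ∈ Tor β B, R ≠ 0 → ∀ R' ∈ Tor β B, R' ≠ 0 → ∃ σ : Gal(B/L), sp σ R = R')
    {T : P27 L} (hT : act β T = T) (h1 : Spt L + T ≠ 0) (h1' : -Spt L + T ≠ 0)
    (h3 : fc (Spt L + T) ≠ 0) (h3' : fc (-Spt L + T) ≠ 0) {R : P27 B} (hR : R ∈ Tor β B)
    (h0 : R ≠ 0) : Algebra.norm L (xi (mp (IsScalarTower.toAlgHom F L B) T + R)) = 1 := by
  classical
  have hgal := hB.gal
  obtain ⟨j⟩ := exists_emb (N := B)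
  set i : L →ₐ[F] B := IsScalarTower.toAlgHom F L B with hi
  have hix : ∀ x : L, i x = algebraMap L B x := fun x => rfl
  apply (algebraMap L B).injective
  rw [map_one, Algebra.norm_eq_prod_automorphisms]
  have hfix : ∀ σ : Gal(B/L), sp σ (mp i T) = mp i T := by
    intro σ
    refine sp_fix σ ?_ ?_
    · rw [xc_mp, hix, σ.commutes]
    · rw [yc_mp, hix, σ.commutes]
  have hσ : ∀ σ : Gal(B/L), σ (xi (mp i T + R)) = xi (mp i T + sp σ R) := by
    intro σ
    rw [K10_xi_sp, map_add, hfix]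
  rw [Finset.prod_congr rfl fun σ _ => hσ σ]
  have hX1 : Spt B + mp i T = mp i (Spt L + T) := by rw [map_add, K10_Spt]
  have hX2 : -Spt B + mp i T = mp i (-Spt L + T) := by rw [map_add, map_neg, K10_Spt]
  have key := prod_xi j hp hβ h2 hB.full (T := mp i T) (by rw [← mp_act, hT])
    (by rw [hX1]; exact mp_ne i h1) (by rw [hX2]; exact mp_ne i h1')
    (by rw [hX1, fc_mp]; exact (map_ne_zero i).2 h3)
    (by rw [hX2, fc_mp]; exact (map_ne_zero i).2 h3')
  rw [← key]
  let φ : Gal(B/L) → {R : Tor β B // R ≠ 0} := fun σ =>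
    ⟨⟨sp σ R, (sp_mem σ β R).2 hR⟩, fun h => sp_ne σ h0 (congrArg Subtype.val h)⟩
  have hφ : Function.Bijective φ := by
    refine ⟨fun a c hac => orb_inj hp hB hR h0 ?_, ?_⟩
    · exact congrArg (fun x => (x.1 : P27 B)) hac
    · intro R'
      obtain ⟨σ, h⟩ := horb R hR h0 R'.1.1 R'.1.2 fun h => R'.2 (Subtype.ext h)
      exact ⟨σ, Subtype.ext (Subtype.ext h)⟩
  rw [← finprod_comp φ hφ, finprod_eq_prod_of_fintype]

end H28G
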