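import Mathlib
import Pool.Agent.Lib.H28G.K4
import Pool.Agent.Lib.H28G.GV8
import Pool.Agent.Lib.H28G.GV10

open NumberField IsDedekindDomain WeierstrassCurve

namespace H28G

open H55B H55R H99B

/-! Chunk K12 (S/M): xi is a unit. xi_all: v any prime of L. If 3 is not in v: xi_unit with val_three. If 3 in v: v(3) < 1, D_val_S for S = Spt and S = -Spt: v(fc(S+T))^4 = v(3)^3 = v(fc(-S+T))^4, v(3) <> 0, so v(xi T)^4 = 1 and v(xi T) = 1 (pow_eq_one_iff in a linearly ordered group with zero).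
xi_ne: some prime of L exists (L is not algebraically closed: e.g. any prime above (2), under_exists for F, or directly: fc (S+T) = 0 gives v(..)^4 = 0 = v(3)^3 at a prime above 3 ...): v(xi T) = 1 gives xi T <> 0. exists_xi: Units.mk0; ord v ξ = 0 by HB1_ord_zero or BF1_val.
ST_ne: the points and values are <> 0: S + T = 0 would give T = -S, act b T = -S (act_Spt) = 0; fc (S+T) <> 0: ST_unit at a prime not above 3. -/

theorem K12_lt {L : Type} [Field L] [NumberField L] (v : Pl L) (h : (3 : 𝓞 L) ∈ v.asIdeal) :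
    v.valuation L 3 < 1 := by
  have h1 : (3 : L) = algebraMap (𝓞 L) L 3 := by rw [map_ofNat]
  rw [h1, HeightOneSpectrum.valuation_lt_one_iff_mem]
  exact h

theorem K12_three_ne {L : Type} [Field L] [NumberField L] (v : Pl L) : v.valuation L 3 ≠ 0 := by
  rw [Ne, Valuation.zero_iff]
  norm_num

theorem xi_all {L : Type} [Field L] [NumberField L] [DecidableEq L] [Algebra F L] {b : O}
    (hb : Prim b) (hc : IsCoprime b 6) {T : P27 L} (hT : T ∈ Tor b L) (h0 : T ≠ 0) (v : Pl L) :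
    v.valuation L (xi T) = 1 := by
  by_cases h3 : (3 : 𝓞 L) ∈ v.asIdeal
  · have hlt := K12_lt v h3
    have h1 := D_val_S (v.valuation L) hlt hc hT h0 (S := Spt L) (Or.inl rfl)
    have h2 := D_val_S (v.valuation L) hlt hc hT h0 (S := -Spt L) (Or.inr rfl)
    have h4 : v.valuation L (xi T) ^ 4 = 1 := by
      unfold xi
      rw [map_div₀, div_pow, h1, h2]
      exact div_self (pow_ne_zero 3 (K12_three_ne v))
    exact (pow_eq_one_iff_of_nonneg zero_le' (by norm_num)).1 h4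
  · exact xi_unit (v.valuation L) (val_three v h3) hb hT

theorem K12_exists {L : Type} [Field L] [NumberField L] : ∃ v : Pl L, (3 : 𝓞 L) ∉ v.asIdeal := by
  have h2 : ¬ IsUnit (2 : 𝓞 L) := by
    intro h
    have h1 := h.map (Algebra.norm ℤ)
    have h3 : (2 : 𝓞 L) = algebraMap ℤ (𝓞 L) 2 := by rw [map_ofNat]
    rw [h3, Algebra.norm_algebraMap, Int.isUnit_iff_abs_eq, abs_pow] at h1
    have h4 : Module.finrank ℤ (𝓞 L) ≠ 0 := Module.finrank_pos.ne'
    have h5 : |(2 : ℤ)| = 2 := by norm_num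
    rw [h5] at h1
    have h6 : (2 : ℤ) ^ Module.finrank ℤ (𝓞 L) = 1 := h1
    have h7 := Nat.one_lt_two_pow h4
    have h8 : ((2 ^ Module.finrank ℤ (𝓞 L) : ℕ) : ℤ) = 1 := by
      push_cast
      exact h6
    have h9 : (2 : ℕ) ^ Module.finrank ℤ (𝓞 L) = 1 := by exact_mod_cast h8
    omega
  obtain ⟨M, hM, hle⟩ := Ideal.exists_le_maximal (Ideal.span {(2 : 𝓞 L)})
    (by rw [Ne, Ideal.span_singleton_eq_top]; exact h2)
  have h3 : (2 : 𝓞 L) ∈ M := hle (Ideal.mem_span_singleton_self _)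
  refine ⟨⟨M, hM.isPrime, ?_⟩, ?_⟩
  · rintro rfl
    rw [Ideal.mem_bot] at h3
    exact two_ne_zero h3
  · intro h4
    have h5 : (1 : 𝓞 L) ∈ M := by
      have h6 : (1 : 𝓞 L) = 3 - 2 := by norm_num
      rw [h6]
      exact Ideal.sub_mem _ h4 h3
    exact hM.ne_top ((Ideal.eq_top_iff_one _).2 h5)

theorem ST_ne {L : Type} [Field L] [NumberField L] [DecidableEq L] [Algebra F L] {b : O}
    (hb : Prim b) {T : P27 L} (hT : T ∈ Tor b L) {S : P27 L} (hS : S = Spt L ∨ S = -Spt L) :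
    S + T ≠ 0 ∧ fc (S + T) ≠ 0 := by
  obtain ⟨v, hv⟩ := K12_exists (L := L)
  obtain ⟨h1, -, h2⟩ := ST_unit (v.valuation L) (val_three v hv) hb hT hS
  refine ⟨h1, ?_⟩
  intro h3
  rw [h3, map_zero] at h2
  exact zero_ne_one h2

theorem exists_xi {L : Type} [Field L] [NumberField L] [DecidableEq L] [Algebra F L] {b : O}
    (hb : Prim b) (hc : IsCoprime b 6) {T : P27 L} (hT : T ∈ Tor b L) (h0 : T ≠ 0) :
    ∃ ξ : Lˣ, (ξ : L) = xi T ∧ ∀ v : Pl L, ord v ξ = 0 := by
  have hne : xi T ≠ 0 :=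
    div_ne_zero (ST_ne hb hT (Or.inl rfl)).2 (ST_ne hb hT (Or.inr rfl)).2
  refine ⟨Units.mk0 (xi T) hne, rfl, fun v => ?_⟩
  rw [HB1_ord_zero]
  exact xi_all hb hc hT h0 v

end H28G
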