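import Mathlib
import Pool.Agent.Lib.H28G.KDefs
import Pool.Agent.Lib.H55R.BF2
import Pool.Agent.Lib.H55R.D5
import Pool.Agent.Lib.H55B.Z3

open NumberField IsDedekindDomain WeierstrassCurve

namespace H28G

open H55B H55R H99B

/-! Chunk K8 (M): the prime element below Q. v = Q.under (𝓞 F) is an ideal of O = 𝓞 F, principal (instPID), v.asIdeal = span {x}, x prime (v.isPrime, v.ne_bot), 3 not in v (h3; mem under). There is a unit u with Prim (u x): H55B has this (grep gen, prim, exists_unit;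
e.g. the lemma which says that every element prime to 3 is a unit times a primary element, or that gen v is a generator with Prim, see Pool/Agent/Lib/H55B/Z1.lean or Z*.lean). β = u x. absNorm Q = absNorm(v)^fs (D5_norm) is prime, so fs = 1 and absNorm v = absNorm Q = Nm β (Nm β = absNorm (span {β})).
Membership: β in v' (a prime of L) iff v'.under = v (v = (β) is maximal) iff v' = smulP σ Q for some σ (smulP_trans, under_smulP). Valuation: ord (smulP σ Q) β = es * ord v β = 1 * 1 (ord_map with (smulP σ Q).under = v, he; ord v β = 1 as v = (β): ord_int or intValuation_singleton), BF1_val.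
not two: if 2 | β then β is associated to 2 (2 prime in O: two_prime), Nm β = 4 is not a prime number. -/

theorem K8_under {L : Type} [Field L] [NumberField L] [Algebra F L] (Q : Pl L) (x : O) :
    x ∈ (Q.under (𝓞 F)).asIdeal ↔ algebraMap O (𝓞 L) x ∈ Q.asIdeal := Iff.rfl

theorem K8_ord (v : Pl F) {β : O} (hβ : Prime β) (hv : v.asIdeal = Ideal.span {β}) (x : Fˣ)
    (hx : (x : F) = (β : F)) : ord v x = 1 := by
  have h1 : ((1 : ℕ) : ℤ) ≤ ord v x := by
    rw [ord_int v β x hx, pow_one, hv]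
    exact Ideal.mem_span_singleton_self _
  have h2 : ¬ ((2 : ℕ) : ℤ) ≤ ord v x := by
    rw [ord_int v β x hx, hv, Ideal.span_singleton_pow, Ideal.mem_span_singleton]
    intro h
    obtain ⟨c, hc⟩ := h
    apply hβ.not_unit
    have h3 : β * 1 = β * (β * c) := by
      rw [mul_one]
      nth_rw 1 [hc]
      ring
    have h4 := mul_left_cancel₀ hβ.ne_zero h3
    exact IsUnit.of_mul_eq_one c h4.symm
  push_cast at h1 h2
  omega

theorem aux_prime {L : Type} [Field L] [NumberField L] [Algebra F L] [IsGalois F L] (Q : Pl L)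
    (h3 : (3 : 𝓞 L) ∉ Q.asIdeal) (hQ : (Ideal.absNorm Q.asIdeal).Prime)
    (he : es F L (Q.under (𝓞 F)) = 1) : ∃ β : O, Prime β ∧ Prim β ∧ ¬ (2 : O) ∣ β ∧
      Nm β = Ideal.absNorm Q.asIdeal ∧
      (∀ v : Pl L, algebraMap O (𝓞 L) β ∈ v.asIdeal ↔ ∃ σ : Gal(L/F), v = smulP σ Q) ∧
      ∀ σ : Gal(L/F), (smulP σ Q).valuation L (ak L β) = WithZero.exp (-1 : ℤ) := by
  obtain ⟨v, hv⟩ : ∃ v : Pl F, v = Q.under (𝓞 F) := ⟨_, rfl⟩
  rw [← hv] at he
  have h3v : (3 : O) ∉ v.asIdeal := by
    rw [hv, K8_under, map_ofNat]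
    exact h3
  obtain ⟨hspan, hprim⟩ := gen_spec v h3v
  have hprime := gen_prime v h3v
  have hfs := D5_norm v Q hv.symm
  have hfs1 : fs F L v = 1 := by
    rw [hfs] at hQ
    exact Nat.Prime.eq_one_of_pow hQ
  rw [hfs1, pow_one] at hfs
  have hNm : Nm (gen v) = Ideal.absNorm Q.asIdeal := by
    rw [hfs]
    unfold H55B.Nm
    rw [← hspan]
  have hN2 : Nm (2 : O) = 4 := by
    have h := Nm_repr 2 0
    have h2 : ((2 : ℤ) : O) + ((0 : ℤ) : O) * om = 2 := by push_cast; ring
    rw [h2] at h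
    norm_num at h
    exact_mod_cast h
  refine ⟨gen v, hprime, hprim, ?_, hNm, ?_, ?_⟩
  · intro h2
    obtain ⟨c, hc⟩ := h2
    have h4 : Nm (gen v) = 4 * Nm c := by rw [hc, Nm_mul, hN2]
    rw [← hNm, h4] at hQ
    have h5 := (Nat.Prime.eq_one_or_self_of_dvd hQ 2 (Dvd.intro (2 * Nm c) (by ring)))
    rcases h5 with h5 | h5
    · omega
    · omega
  · intro v'
    constructor
    · intro h
      have h1 : v.asIdeal ≤ (v'.under (𝓞 F)).asIdeal := by
        rw [hspan, Ideal.span_singleton_le_iff_mem, K8_under]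
        exact h
      have h2 : v = v'.under (𝓞 F) :=
        HeightOneSpectrum.ext (v.isMaximal.eq_of_le (v'.under (𝓞 F)).isPrime.ne_top h1)
      obtain ⟨σ, hσ⟩ := smulP_trans (K := F) Q v' (hv.symm.trans h2)
      exact ⟨σ, hσ.symm⟩
    · rintro ⟨σ, rfl⟩
      rw [← K8_under, under_smulP, ← hv, hspan]
      exact Ideal.mem_span_singleton_self _
  · intro σ
    have hβ0 : ((gen v : O) : F) ≠ 0 := by
      intro h
      exact hprime.ne_zero (RingOfIntegers.coe_injective (h.trans (map_zero (algebraMap O F)).symm))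
    obtain ⟨x, hx⟩ : ∃ x : Fˣ, (x : F) = ((gen v : O) : F) := ⟨Units.mk0 _ hβ0, rfl⟩
    have h1 := ord_map (smulP σ Q) v ((under_smulP σ Q).trans hv.symm) x
    rw [he, K8_ord v hprime hspan x hx] at h1
    have h2 := BF1_val (smulP σ Q) (Units.map (algebraMap F L : F →* L) x)
    rw [h1] at h2
    have h3 : ((Units.map (algebraMap F L : F →* L) x : Lˣ) : L) = ak L (gen v) := by
      show algebraMap F L (x : F) = _
      rw [hx]
      rfl
    rw [h3] at h2
    rw [h2]
    norm_num

end H28G
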