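import Mathlib
import Pool.Agent.Lib.H28G.K1
import Pool.Agent.Lib.H28G.K3
import Pool.Agent.Lib.H28G.K4
import Pool.Agent.Lib.H28G.K8
import Pool.Agent.Lib.H28G.K9
import Pool.Agent.Lib.H28G.K10
import Pool.Agent.Lib.H28G.K12
import Pool.Agent.Lib.H28G.GV3
import Pool.Agent.Lib.H28G.GV8

open NumberField IsDedekindDomain WeierstrassCurve
open scoped Pointwise

namespace H28G

open H55B H55R H99B

/-! Chunk K11 (M/L): the auxiliary field (assembly). β from aux_prime (hL.gal). B from exists_TFld L β. tot_ram L B β at v = smulP σ Q for every σ (the valuation of β is exp(-1)). The prime b = π, T in Tor π L, T <> 0. R in Tor β B, R <> 0 (exists_tor), t = tt R (<> 0: valuation exp(-1)), al = xi (T' + R),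
T' = mp i T in Tor π B. T' + R is in Tor (π β) B (act_mul, act_add), π β is Prim: so al <> 0 (ST_ne for b = π β).
gal: TFld.gal. cyc: exists_chi for k = O/(β) (q = mk) is an injection of Gal(B/L) into a finite cyclic group (units of a finite field): isCyclic_of_injective or isCyclic_of_subgroup_isDomain. card: IsGalois.card_aut_eq_finrank, TotRam.deg, Nm β = absNorm Q. ram: TotRam.es. unr: unram with β not in v (aux_prime: the membership).
unif: TotRam.val and BF1_val. κ g: sp g R = act c R (tor_gen), and c = n mod β for an integer n (O/(β) has the prime number absNorm Q of elements, so it is ZMod: every class contains an integer: Nat.card prime, the additive group is generated by 1; or ZMod.castHom bijective), κ g = n: sp g R = n R (act_int), E1_act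
for c = n: v(tt(g R) - n tt R) <= v(tt R)^2 = exp(-2), tt (sp g R) = g (tt R) (tt_sp), ak B n = n. norm: norm_xi (fix_T gives act β T = T: β is in Q; π not in Q; TotRam.orb; ST_ne for b = π). unit: W not above 3: xi_unit with b = π β for T' + R (val_three, HB1_ord_zero/BF1_val).
congr: W above smulP σ Q: R in E1 (TotRam.val), 3 not in W (3 not in Q, smulP: σ fixes 3), xi_cong with b = π: W.valuation(xi (T' + R) - xi T') < 1, and xi T' = algebraMap L B (xi T) (fc_mp, map_add, map_div₀; mp of Spt is Spt: pt_ext). -/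

theorem K11_prim {x y : O} (hx : Prim x) (hy : Prim y) : Prim (x * y) := by
  obtain ⟨a, ha⟩ := hx
  obtain ⟨b, hb⟩ := hy
  exact ⟨a * y + b, by linear_combination y * ha + hb⟩

theorem K11_three {L : Type} [Field L] [NumberField L] [Algebra F L] (σ : Gal(L/F)) (Q : Pl L)
    (h : (3 : 𝓞 L) ∉ Q.asIdeal) : (3 : 𝓞 L) ∉ (smulP σ Q).asIdeal := by
  intro h1
  have h2 : (3 : 𝓞 L) ∈ σ • Q.asIdeal := h1
  rw [Ideal.mem_pointwise_smul_iff_inv_smul_mem] at h2
  have h3 : σ⁻¹ • (3 : 𝓞 L) = 3 := map_ofNat (MulSemiringAction.toRingHom Gal(L/F) (𝓞 L) σ⁻¹) 3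
  rw [h3] at h2
  exact h h2

theorem K11_three' {L B : Type} [Field L] [NumberField L] [Field B] [NumberField B] [Algebra L B]
    (W : Pl B) (v : Pl L) (hW : W.under (𝓞 L) = v) (h : (3 : 𝓞 L) ∉ v.asIdeal) :
    (3 : 𝓞 B) ∉ W.asIdeal := by
  intro h1
  apply h
  rw [← hW]
  show algebraMap (𝓞 L) (𝓞 B) 3 ∈ W.asIdeal
  rw [map_ofNat]
  exact h1

theorem K11_int {β : O} (hN : (H55B.Nm β).Prime) (c : O) : ∃ n : ℤ, β ∣ c - n := by
  have hf : Fact (H55B.Nm β).Prime := ⟨hN⟩
  have hcard : Nat.card (O ⧸ Ideal.span {β}) = H55B.Nm β := by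
    unfold H55B.Nm
    rw [Ideal.absNorm_apply, Submodule.cardQuot_apply]
  have h1 : (1 : O ⧸ Ideal.span {β}) ≠ 0 := by
    intro h0
    have hs : Subsingleton (O ⧸ Ideal.span {β}) := subsingleton_of_zero_eq_one h0.symm
    rw [Nat.card_of_subsingleton (0 : O ⧸ Ideal.span {β})] at hcard
    rw [← hcard] at hN
    exact Nat.not_prime_one hN
  have h2 := mem_zmultiples_of_prime_card hcard h1 (g' := Ideal.Quotient.mk (Ideal.span {β}) c)
  obtain ⟨n, hn⟩ := AddSubgroup.mem_zmultiples_iff.1 h2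
  refine ⟨n, ?_⟩
  rw [← Ideal.mem_span_singleton, ← Ideal.Quotient.eq, ← hn, map_intCast, zsmul_eq_mul, mul_one]

theorem exists_aux {L : Type} [Field L] [NumberField L] [DecidableEq L] [Algebra F L] {π : O}
    (hπ : Prim π) (hL : TFld F L π) {T : P27 L} (hT : T ∈ Tor π L) (ξ : Lˣ)
    (hξ : (ξ : L) = xi T) (Q : Pl L) (h3 : (3 : 𝓞 L) ∉ Q.asIdeal)
    (hb : algebraMap O (𝓞 L) π ∉ Q.asIdeal) (hQ : (Ideal.absNorm Q.asIdeal).Prime)
    (he : es F L (Q.under (𝓞 F)) = 1) :
    ∃ (B : Type) (_ : Field B) (_ : NumberField B) (_ : Algebra L B) (κ : Gal(B/L) → ℤ)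
      (t al : Bˣ), Aux L Q ξ B κ t al := by
  have hgalL := hL.gal
  obtain ⟨β, hp, hβ, h2, hN, hmem, hval⟩ := aux_prime Q h3 hQ he
  obtain ⟨B, i1, i2, i3, i4, i5, i6, hB⟩ := exists_TFld L β hp.ne_zero
  have hgal := hB.gal
  have tr : ∀ σ : Gal(L/F), TotRam L B β (smulP σ Q) := fun σ => tot_ram hp hβ hB _ (hval σ)
  obtain ⟨R, hR, hR0⟩ := exists_tor hp hB.full
  set i : L →ₐ[F] B := IsScalarTower.toAlgHom F L B with hi
  -- the uniformizer
  obtain ⟨W0, hW0⟩ := under_exists (K := L) (L := B) (smulP (1 : Gal(L/F)) Q)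
  have htt : tt R ≠ 0 := by
    intro h0
    have h := ((tr 1).val W0 hW0 R hR hR0).2
    rw [h0, map_zero] at h
    exact WithZero.exp_ne_zero h.symm
  -- the unit
  have hT' : mp i T ∈ Tor π B := (mp_mem_Tor i π T).2 hT
  have hTR : mp i T + R ∈ Tor (π * β) B := by
    rw [mem_Tor, map_add, act_mul, act_mul, ← act_mul, mul_comm, act_mul, mem_Tor.1 hT', map_zero,
      mem_Tor.1 hR, map_zero, add_zero]
  have hprim := K11_prim hπ hβ
  have hne : xi (mp i T + R) ≠ 0 := div_ne_zero (ST_ne hprim hTR (Or.inl rfl)).2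
    (ST_ne hprim hTR (Or.inr rfl)).2
  have hxi : xi (mp i T) = algebraMap L B (ξ : L) := by
    have hix : ∀ x : L, i x = algebraMap L B x := fun x => rfl
    rw [hξ]
    unfold xi
    rw [map_div₀, ← hix, ← hix, ← fc_mp, ← fc_mp, map_add, map_add, map_neg, K10_Spt]
  -- the character
  have hκ : ∀ g : Gal(B/L), ∃ n : ℤ, sp g R = act (n : O) R := by
    intro g
    obtain ⟨c, hc⟩ := tor_gen hp hB.full hR ((sp_mem g β R).2 hR) hR0
    obtain ⟨n, y, hy⟩ := K11_int (by rw [hN]; exact hQ) c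
    refine ⟨n, ?_⟩
    have e1 : c = y * β + n := by linear_combination hy
    rw [← hc, e1, act_add, act_mul, mem_Tor.1 hR, map_zero, zero_add]
  choose κ hκ using hκ
  refine ⟨B, i1, i2, i4, κ, Units.mk0 (tt R) htt, Units.mk0 _ hne, ?_⟩
  refine ⟨hgal, ?_, ?_, ?_, ?_, ?_, ?_, ?_, ?_, ?_⟩
  · have hmax : (Ideal.span {β}).IsMaximal := by
      have h1 : (Ideal.span {β}).IsPrime := (Ideal.span_singleton_prime hp.ne_zero).2 hp
      exact h1.isMaximal (by rw [Ne, Ideal.span_singleton_eq_bot]; exact hp.ne_zero)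
    let _ := Ideal.Quotient.field (Ideal.span {β})
    have hfin : Finite (O ⧸ Ideal.span {β}) := by
      apply Ideal.finiteQuotientOfFreeOfNeBot
      rw [Ne, Ideal.span_singleton_eq_bot]
      exact hp.ne_zero
    obtain ⟨χ, hχ, -⟩ := exists_chi hp hB (Ideal.Quotient.mk (Ideal.span {β}))
      Ideal.Quotient.mk_surjective (fun x => by
        rw [Ideal.Quotient.eq_zero_iff_mem, Ideal.mem_span_singleton])
    exact isCyclic_of_injective χ hχ
  · rw [IsGalois.card_aut_eq_finrank, (tr 1).deg, hN]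
  · intro σ
    rw [(tr σ).es, hN]
  · intro v h3v hv
    exact unram hB v h3v fun h => by
      obtain ⟨σ, hσ⟩ := (hmem v).1 h
      exact hv σ hσ
  · intro σ W hW
    have h := ((tr σ).val W hW R hR hR0).2
    have h4 := BF1_val W (Units.mk0 (tt R) htt)
    rw [Units.val_mk0, h] at h4
    have h5 := WithZero.exp_injective h4
    omega
  · intro σ W hW g
    obtain ⟨h4, h5⟩ := (tr σ).val W hW R hR hR0
    have h6 := (E1_act (W.valuation B) (Or.inr h4) (κ g : O)).2.1
    rw [← hκ g, tt_sp, h5] at h6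
    have h7 : ak B ((κ g : ℤ) : O) = (κ g : B) := map_intCast _ _
    rw [h7] at h6
    refine h6.trans (le_of_eq ?_)
    rw [← WithZero.exp_nsmul]
    rfl
  · have hv : Q.valuation L (ak L β) < 1 := by
      have h4 := hval 1
      rw [smulP_one] at h4
      rw [h4, ← WithZero.exp_zero, WithZero.exp_lt_exp]
      norm_num
    exact norm_xi hp hβ h2 hB (tr 1).orb (fix_T hp hβ hB.full Q h3 hN hv hb hT)
      (ST_ne hπ hT (Or.inl rfl)).1 (ST_ne hπ hT (Or.inr rfl)).1 (ST_ne hπ hT (Or.inl rfl)).2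
      (ST_ne hπ hT (Or.inr rfl)).2 hR hR0
  · intro W hW
    rw [HB1_ord_zero]
    exact xi_unit (W.valuation B) (val_three W hW) hprim hTR
  · intro σ W hW
    rw [Units.val_mk0, ← hxi]
    exact xi_cong (W.valuation B) (val_three W (K11_three' W _ hW (K11_three σ Q h3))) hπ hT'
      (Or.inr ((tr σ).val W hW R hR hR0).1)

end H28G
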