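import Mathlib
import Pool.Agent.Lib.H28G.K2
import Pool.Agent.Lib.H28G.GV10
import Pool.Agent.Lib.H55R.BF2
import Pool.Agent.Lib.H55B.Z2

open NumberField IsDedekindDomain WeierstrassCurve

namespace H28G

open H55B H55R H99B

/-! Chunk K5 (S/M): the primes above 3. v0 = v.under (𝓞 F), e = es F N v0. In O: 3 = -(2 om + 1)^2, and (2 om + 1) is a prime element (its norm is 3), so v0 = (2 om + 1) and ord v0 3 = 2 (v0.asIdeal contains 2 om + 1; a prime ideal containing the prime
element is generated by it; HeightOneSpectrum.valuation, intValuation_singleton or ord_int), so v.valuation N 3 = exp(-2 e) (ord_map). T in Tor b N, T <> 0 (exists_tor), D_val: v(fc T)^4 = v(3)^3 = exp(-6 e), v(fc T) = exp(-a) (fc T <> 0), so 4 a = 6 e, e is even and >= 1 (es_pos), so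
e >= 2. card_stab: the stabiliser of v has e * fs >= 2 elements, so it contains σ <> 1 (Nat.card > 1: otherwise Subsingleton). -/

theorem K5_ord (v : Pl F) {β : O} (hβ : Prime β) (hv : v.asIdeal = Ideal.span {β}) (x : Fˣ)
    (hx : (x : F) = (β : F)) : ord v x = 1 := by
  have h1 : ((1 : ℕ) : ℤ) ≤ ord v x := by
    rw [ord_int v β x hx, pow_one, hv]
    exact Ideal.mem_span_singleton_self _
  have h2 : ¬ ((2 : ℕ) : ℤ) ≤ ord v x := by
    rw [ord_int v β x hx, hv, Ideal.span_singleton_pow, Ideal.mem_span_singleton]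
    intro h
    obtain ⟨c, hc⟩ := h
    apply hβ.not_unit
    have h3 : β * 1 = β * (β * c) := by
      rw [mul_one]
      nth_rw 1 [hc]
      ring
    have h4 := mul_left_cancel₀ hβ.ne_zero h3
    exact IsUnit.of_mul_eq_one c h4.symm
  push_cast at h1 h2
  omega

theorem K5_three {N : Type} [Field N] [NumberField N] [Algebra F N] [IsGalois F N] (v : Pl N)
    (h3 : (3 : 𝓞 N) ∈ v.asIdeal) :
    v.valuation N (3 : N) = WithZero.exp (-(2 * (es F N (v.under (𝓞 F)) : ℤ))) := by
  obtain ⟨v0, hv0⟩ : ∃ v0 : Pl F, v.under (𝓞 F) = v0 := ⟨_, rfl⟩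
  rw [hv0]
  have h3v : (3 : O) ∈ v0.asIdeal := by
    rw [← hv0]
    show algebraMap O (𝓞 N) 3 ∈ v.asIdeal
    rw [map_ofNat]
    exact h3
  have hrel : (3 : O) = -om ^ 2 * (om - 1) ^ 2 := three_eq
  have hlam : (om - 1 : O) ∈ v0.asIdeal := by
    have hp := v0.isPrime
    rw [hrel] at h3v
    rcases hp.mem_or_mem h3v with h | h
    · exfalso
      have h1 : (om : O) ∈ v0.asIdeal := by
        rw [_root_.neg_mem_iff] at h
        exact hp.mem_of_pow_mem 2 h
      have h2 : (1 : O) ∈ v0.asIdeal := by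
        have h4 : (1 : O) = -((om + 1) * om) := by linear_combination om_rel
        rw [h4]
        exact neg_mem (Ideal.mul_mem_left _ _ h1)
      exact hp.ne_top ((Ideal.eq_top_iff_one _).2 h2)
    · exact hp.mem_of_pow_mem 2 h
  have hprime := lam_prime
  have hspan : v0.asIdeal = Ideal.span {(om - 1 : O)} := by
    have hm : (Ideal.span {(om - 1 : O)}).IsMaximal := by
      have h1 : (Ideal.span {(om - 1 : O)}).IsPrime :=
        (Ideal.span_singleton_prime hprime.ne_zero).2 hprime
      exact h1.isMaximal (by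
        rw [Ne, Ideal.span_singleton_eq_bot]
        exact hprime.ne_zero)
    refine (hm.eq_of_le v0.isPrime.ne_top ?_).symm
    rw [Ideal.span_singleton_le_iff_mem]
    exact hlam
  have hl0 : ((om - 1 : O) : F) ≠ 0 := by
    intro h
    exact hprime.ne_zero (RingOfIntegers.coe_injective (h.trans (map_zero (algebraMap O F)).symm))
  obtain ⟨x, hx⟩ : ∃ x : Fˣ, (x : F) = ((om - 1 : O) : F) := ⟨Units.mk0 _ hl0, rfl⟩
  have h1 := ord_map v v0 hv0 x
  rw [K5_ord v0 hprime hspan x hx, mul_one] at h1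
  have h2 := BF1_val v (Units.map (algebraMap F N : F →* N) x)
  have h4 : ((Units.map (algebraMap F N : F →* N) x : Nˣ) : N) = ok N - 1 := by
    show algebraMap F N (x : F) = _
    rw [hx]
    unfold ok
    rw [← map_one (algebraMap F N), ← map_sub]
    congr 1
  rw [h1, h4] at h2
  have hok := ok_rel (k := N)
  have hok3 := ok_cube (k := N)
  have hvok : v.valuation N (ok N) = 1 := by
    have h5 : v.valuation N (ok N) ^ 3 = 1 := by rw [← map_pow, hok3, map_one]
    exact (pow_eq_one_iff.1 h5).resolve_right (by norm_num)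
  have hrelN : (3 : N) = -(ok N ^ 2 * (ok N - 1) ^ 2) := by
    linear_combination (ok N ^ 2 - 3 * ok N + 3) * hok
  rw [hrelN, Valuation.map_neg, map_mul, map_pow, map_pow, hvok, h2, one_pow, one_mul,
    ← WithZero.exp_nsmul]
  congr 1
  rw [nsmul_eq_mul]
  push_cast
  ring

theorem stab_three {N : Type} [Field N] [NumberField N] [DecidableEq N] [Algebra F N] {b : O}
    (hp : Prime b) (h : TFld F N b) (hc : IsCoprime b 6) (v : Pl N)
    (h3 : (3 : 𝓞 N) ∈ v.asIdeal) : ∃ σ : Gal(N/F), σ ≠ 1 ∧ smulP σ v = v := by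
  have hgal : IsGalois F N := h.gal
  have h1 := K5_three v h3
  obtain ⟨T, hT, hT0⟩ := exists_tor hp h.full
  obtain ⟨v0, hv0⟩ : ∃ v0 : Pl F, v.under (𝓞 F) = v0 := ⟨_, rfl⟩
  rw [hv0] at h1
  have he : 0 < es F N v0 := es_pos v0
  have hf : 0 < fs F N v0 := fs_pos v0
  have hv3 : v.valuation N (3 : N) < 1 := by
    rw [h1, ← WithZero.exp_zero, WithZero.exp_lt_exp]
    omega
  have h4 := D_val (v.valuation N) hv3 hc hT hT0
  have h5 : 2 ≤ es F N v0 := by
    have h6 : v.valuation N (fc T) ≠ 0 := by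
      intro h0
      rw [h0, h1, zero_pow (by norm_num)] at h4
      exact pow_ne_zero 3 WithZero.exp_ne_zero h4.symm
    obtain ⟨k, hk⟩ : ∃ k : ℤ, v.valuation N (fc T) = WithZero.exp k :=
      ⟨WithZero.log (v.valuation N (fc T)), (WithZero.exp_log h6).symm⟩
    rw [hk, h1, ← WithZero.exp_nsmul, ← WithZero.exp_nsmul, WithZero.exp_inj, nsmul_eq_mul,
      nsmul_eq_mul] at h4
    push_cast at h4
    omega
  have h6 := card_stab (K := F) v v0 hv0
  have h7 : 1 < Nat.card {σ : Gal(N/F) // smulP σ v = v} := by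
    rw [h6]
    nlinarith
  by_contra hcon
  push Not at hcon
  have h8 : Subsingleton {σ : Gal(N/F) // smulP σ v = v} := by
    refine ⟨fun x y => Subtype.ext ?_⟩
    have h9 : ∀ z : {σ : Gal(N/F) // smulP σ v = v}, z.1 = 1 := by
      intro z
      by_contra hz
      exact hcon z.1 hz z.2
    rw [h9 x, h9 y]
  have h9 := Nat.card_eq_one_iff_unique.2 ⟨h8, ⟨⟨1, smulP_one v⟩⟩⟩
  omega

end H28G
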